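import Pool.Agent.Lib_helper84.SGN.DefsM

/-!
# SGN, part C, block CA: lattices of `ℚ^n`: finiteness and members of `supS`, `subS`
-/

set_option autoImplicit false

namespace Pool.Agent.SGN

open MeasureTheory Matrix Complex ProbabilityTheory
open Pool.Agent.GLQ (re unip cube Lat Lz latt sp qq)
open scoped ArithmeticFunction.Omega ENNReal

noncomputable section

theorem ca_mem_Lz {n : ℕ} (v : Fin n → ℚ) : v ∈ Lz n ↔ ∃ x : Fin n → ℤ, v = fun i => (x i : ℚ) := by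
  constructor
  · rintro ⟨x, hx⟩
    exact ⟨x, by rw [hx, Matrix.vecMul_one]⟩
  · rintro ⟨x, rfl⟩
    exact ⟨x, by rw [Matrix.vecMul_one]⟩

theorem full_Lz (n : ℕ) : Full (Lz n) :=
  ⟨1, one_pos, fun v hv => by simpa using hv, fun v hv => by simpa using hv⟩

/-- finitely many lattices between `B ℤ^n` and `A⁻¹ ℤ^n` -/
theorem ca_fin_between {n : ℕ} (A B : ℕ) (hA : 0 < A) (hB : 0 < B) :
    {M : Lat n | (∀ v ∈ Lz n, (B : ℚ) • v ∈ M) ∧ ∀ v ∈ M, (A : ℚ) • v ∈ Lz n}.Finite := by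
  have hAB : 0 < A * B := Nat.mul_pos hA hB
  have : NeZero (A * B) := ⟨hAB.ne'⟩
  have hA' : (A : ℚ) ≠ 0 := by exact_mod_cast hA.ne'
  let Φ : Lat n → Set (Fin n → ZMod (A * B)) := fun M =>
    {w | (A : ℚ)⁻¹ • (fun i => ((w i).val : ℚ)) ∈ M}
  refine Set.Finite.of_finite_image (f := Φ) (Set.toFinite _) ?_
  have key : ∀ M : Lat n, (∀ v ∈ Lz n, (B : ℚ) • v ∈ M) → ∀ x : Fin n → ℤ,
      ((A : ℚ)⁻¹ • (fun i => (x i : ℚ)) ∈ M ↔ (fun i => (x i : ZMod (A * B))) ∈ Φ M) := by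
    intro M hM x
    have h1 : ∀ i, ∃ y : ℤ, x i = (((x i : ZMod (A * B))).val : ℤ) + ((A * B : ℕ) : ℤ) * y := by
      intro i
      have h2 : ((A * B : ℕ) : ℤ) ∣ x i - (((x i : ZMod (A * B))).val : ℤ) := by
        rw [← ZMod.intCast_zmod_eq_zero_iff_dvd _ (A * B)] 
        push_cast
        simp
      obtain ⟨y, hy⟩ := h2
      exact ⟨y, by omega⟩
    choose y hy using h1
    have h3 : (A : ℚ)⁻¹ • (fun i => (x i : ℚ)) =
        (A : ℚ)⁻¹ • (fun i => (((x i : ZMod (A * B))).val : ℚ)) +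
          (B : ℚ) • (fun i => (y i : ℚ)) := by
      ext i
      have h4 : (x i : ℚ) = (((x i : ZMod (A * B))).val : ℚ) + ((A : ℚ) * B) * y i := by
        have := congrArg (fun z : ℤ => (z : ℚ)) (hy i)
        push_cast at this
        exact this
      simp only [Pi.smul_apply, Pi.add_apply, smul_eq_mul]
      rw [h4]
      field_simp
    have h5 : (B : ℚ) • (fun i => (y i : ℚ)) ∈ M := hM _ ((ca_mem_Lz _).2 ⟨y, rfl⟩)
    rw [h3]
    exact M.add_mem_cancel_right h5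
  rintro M ⟨hM1, hM2⟩ M' ⟨hM1', hM2'⟩ h
  have hsub : ∀ M M' : Lat n, (∀ v ∈ Lz n, (B : ℚ) • v ∈ M) → (∀ v ∈ M, (A : ℚ) • v ∈ Lz n) →
      (∀ v ∈ Lz n, (B : ℚ) • v ∈ M') → Φ M = Φ M' → M ≤ M' := by
    intro M M' h1 h2 h1' h v hv
    obtain ⟨x, hx⟩ := (ca_mem_Lz _).1 (h2 v hv)
    have hv' : v = (A : ℚ)⁻¹ • (fun i => (x i : ℚ)) := by
      rw [← hx, smul_smul, inv_mul_cancel₀ hA', one_smul]
    rw [hv'] at hv ⊢
    rw [key M h1, h] at hv
    exact (key M' h1' x).2 hv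
  exact le_antisymm (hsub M M' hM1 hM2 hM1' h) (hsub M' M hM1' hM2' hM1 h.symm)

/-- `k M ⊆ L` if `L` has index `k` in `M` -/
theorem ca_smul {n k : ℕ} {L M : Lat n} (h : L.relIndex M = k) {v : Fin n → ℚ} (hv : v ∈ M) :
    (k : ℚ) • v ∈ L := by
  have h1 := AddSubgroup.nsmul_index_mem (H := L.addSubgroupOf M) ⟨v, hv⟩
  have h2 : (L.addSubgroupOf M).index = k := h
  rw [h2, AddSubgroup.mem_addSubgroupOf] at h1
  simpa [Nat.cast_smul_eq_nsmul] using h1

theorem ca_nsmul {n : ℕ} (k : ℕ) {L : Lat n} {v : Fin n → ℚ} (hv : v ∈ L) : (k : ℚ) • v ∈ L := by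
  rw [Nat.cast_smul_eq_nsmul]
  exact L.nsmul_mem hv k

theorem supS_fin {n m : ℕ} (hm : 1 ≤ m) (L : Lat n) (hL : Full L) :
    {M : Lat n | L ≤ M ∧ L.relIndex M = m}.Finite ∧
      ∀ M : Lat n, L ≤ M → L.relIndex M = m → Full M := by
  obtain ⟨a, ha, h1, h2⟩ := hL
  constructor
  · refine (ca_fin_between (n := n) (a * m) a (Nat.mul_pos ha hm) ha).subset ?_
    rintro M ⟨hM, hi⟩
    refine ⟨fun v hv => hM (h1 v hv), fun v hv => ?_⟩
    have := h2 _ (ca_smul hi hv)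
    rw [smul_smul] at this
    push_cast
    exact this
  · intro M hM hi
    refine ⟨a * m, Nat.mul_pos ha hm, fun v hv => ?_, fun v hv => ?_⟩
    · have := ca_nsmul m (hM (h1 v hv))
      rw [smul_smul, mul_comm] at this
      push_cast
      exact this
    · have := h2 _ (ca_smul hi hv)
      rw [smul_smul] at this
      push_cast
      exact this

theorem subS_fin {n m : ℕ} (hm : 1 ≤ m) (L : Lat n) (hL : Full L) :
    {M : Lat n | M ≤ L ∧ M.relIndex L = m}.Finite ∧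
      ∀ M : Lat n, M ≤ L → M.relIndex L = m → Full M := by
  obtain ⟨a, ha, h1, h2⟩ := hL
  constructor
  · refine (ca_fin_between (n := n) a (a * m) ha (Nat.mul_pos ha hm)).subset ?_
    rintro M ⟨hM, hi⟩
    refine ⟨fun v hv => ?_, fun v hv => h2 v (hM hv)⟩
    have := ca_smul hi (h1 v hv)
    rw [smul_smul, mul_comm] at this
    push_cast
    exact this
  · intro M hM hi
    refine ⟨a * m, Nat.mul_pos ha hm, fun v hv => ?_, fun v hv => ?_⟩
    · have := ca_smul hi (h1 v hv)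
      rw [smul_smul, mul_comm] at this
      push_cast
      exact this
    · have := ca_nsmul m (h2 v (hM hv))
      rw [smul_smul, mul_comm] at this
      push_cast
      exact this

theorem mem_supS {n m : ℕ} (hm : 1 ≤ m) (L : Lat n) (hL : Full L) (M : Lat n) :
    M ∈ supS m L ↔ L ≤ M ∧ L.relIndex M = m := by
  unfold supS
  rw [dif_pos (supS_fin hm L hL).1]
  simp

theorem mem_subS {n m : ℕ} (hm : 1 ≤ m) (L : Lat n) (hL : Full L) (M : Lat n) :
    M ∈ subS m L ↔ M ≤ L ∧ M.relIndex L = m := by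
  unfold subS
  rw [dif_pos (subS_fin hm L hL).1]
  simp

end

end Pool.Agent.SGN
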