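import Pool.Agent.Lib_helper84.SGN.DefsM

/-!
# SGN, part C: the statement of the existence and uniqueness of Hermite normal forms
-/

set_option autoImplicit false

namespace Pool.Agent.SGN

/-- Hermite normal forms -/
def HNF : Prop := ∀ (n : ℕ) (a : Matrix (Fin n) (Fin n) ℤ), a.det ≠ 0 →
  (∃! p : (Fin n → Fin n → ℤ) × Matrix (Fin n) (Fin n) ℤ, p.1 ∈ repR n a.det.natAbs ∧
    IsUnit p.2.det ∧ a = Matrix.of p.1 * p.2) ∧
  ∃! p : (Fin n → Fin n → ℤ) × Matrix (Fin n) (Fin n) ℤ, p.1 ∈ repL n a.det.natAbs ∧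
    IsUnit p.2.det ∧ a = p.2 * Matrix.of p.1

end Pool.Agent.SGN
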