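import Pool.Agent.Lib_helper84.SGN.DefsM
import Pool.Agent.Lib_helper56.GLQ.F.L1b
import Pool.Agent.Lib_helper84.SGCF.HNFD

/-!
# SGN, part C, block CC: superlattices and sublattices of index `m` and Hermite normal forms
-/

set_option autoImplicit false

namespace Pool.Agent.SGN

open MeasureTheory Matrix Complex ProbabilityTheory
open Pool.Agent.GLQ (re unip cube Lat Lz latt sp qq)
open scoped ArithmeticFunction.Omega ENNReal

noncomputable section

theorem cc_det_qq {n : ℕ} (T : Matrix (Fin n) (Fin n) ℤ) : (qq T).det = (T.det : ℚ) := by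
  have h := RingHom.map_det (Int.castRingHom ℚ) T
  simpa [qq, RingHom.mapMatrix_apply] using h.symm

theorem cc_qq_mul {n : ℕ} (T S : Matrix (Fin n) (Fin n) ℤ) : qq (T * S) = qq T * qq S := by
  ext i j
  simp [qq, Matrix.mul_apply]

theorem cc_qq_one {n : ℕ} : qq (1 : Matrix (Fin n) (Fin n) ℤ) = 1 := by
  ext i j
  by_cases h : i = j
  · subst h; simp [qq]
  · simp [qq, h]

theorem cc_qq_inj {n : ℕ} {T S : Matrix (Fin n) (Fin n) ℤ} (h : qq T = qq S) : T = S := by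
  ext i j
  have := congrFun (congrFun h i) j
  simpa [qq] using this

theorem cc_mem_latt {n : ℕ} (d : Matrix (Fin n) (Fin n) ℚ) (v : Fin n → ℚ) :
    v ∈ latt d ↔ ∃ x : Fin n → ℤ, v = (fun i => (x i : ℚ)) ᵥ* d := Iff.rfl

theorem cc_qq_vec {n : ℕ} (P : Matrix (Fin n) (Fin n) ℤ) (x : Fin n → ℤ) :
    (fun i => (x i : ℚ)) ᵥ* qq P = fun i => (((x ᵥ* P) i : ℤ) : ℚ) := by
  ext i
  simp [qq, Matrix.vecMul, dotProduct]

theorem cc_le {n : ℕ} (T : Matrix (Fin n) (Fin n) ℤ) (d : Matrix (Fin n) (Fin n) ℚ) :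
    latt (qq T * d) ≤ latt d := by
  rintro v ⟨x, rfl⟩
  refine ⟨x ᵥ* T, ?_⟩
  rw [← Matrix.vecMul_vecMul, cc_qq_vec]

theorem cc_unimod {n : ℕ} (γ : Matrix (Fin n) (Fin n) ℤ) (hγ : IsUnit γ.det)
    (d : Matrix (Fin n) (Fin n) ℚ) : latt (qq γ * d) = latt d := by
  refine le_antisymm (cc_le γ d) ?_
  have h : d = qq γ⁻¹ * (qq γ * d) := by
    rw [← Matrix.mul_assoc, ← cc_qq_mul, Matrix.nonsing_inv_mul _ hγ, cc_qq_one, Matrix.one_mul]
  calc latt d = latt (qq γ⁻¹ * (qq γ * d)) := by rw [← h]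
    _ ≤ _ := cc_le _ _

/-- a sublattice containing a multiple has a basis -/
theorem cc_basis {n k : ℕ} (hk : 1 ≤ k) (δ : Matrix (Fin n) (Fin n) ℚ) (hδ : δ.det ≠ 0)
    (M : Lat n) (h1 : M ≤ latt δ) (h2 : ∀ v ∈ latt δ, (k : ℚ) • v ∈ M) :
    ∃ T : Matrix (Fin n) (Fin n) ℤ, T.det ≠ 0 ∧ M = latt (qq T * δ) := by
  let N : Submodule ℤ (Fin n → ℤ) :=
    { carrier := {x | (fun i => (x i : ℚ)) ᵥ* δ ∈ M}
      add_mem' := by
        intro x y hx hy
        have h : (fun i => (((x + y) i : ℤ) : ℚ)) ᵥ* δ =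
            (fun i => (x i : ℚ)) ᵥ* δ + (fun i => (y i : ℚ)) ᵥ* δ := by
          rw [← Matrix.add_vecMul]
          congr 1
          ext i
          simp
        show (fun i => (((x + y) i : ℤ) : ℚ)) ᵥ* δ ∈ M
        rw [h]
        exact M.add_mem hx hy
      zero_mem' := by
        show (fun i => (((0 : Fin n → ℤ) i : ℤ) : ℚ)) ᵥ* δ ∈ M
        have h : (fun i => (((0 : Fin n → ℤ) i : ℤ) : ℚ)) = 0 := by
          ext i
          simp
        rw [h, Matrix.zero_vecMul]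
        exact M.zero_mem
      smul_mem' := by
        intro c x hx
        have h : (fun i => (((c • x) i : ℤ) : ℚ)) ᵥ* δ = c • ((fun i => (x i : ℚ)) ᵥ* δ) := by
          rw [← Matrix.smul_vecMul]
          congr 1
          ext i
          simp
        show (fun i => (((c • x) i : ℤ) : ℚ)) ᵥ* δ ∈ M
        rw [h]
        exact M.zsmul_mem hx c }
  have hN : ∀ x : Fin n → ℤ, x ∈ N ↔ (fun i => (x i : ℚ)) ᵥ* δ ∈ M := fun x => Iff.rfl
  have hkN : ∀ x : Fin n → ℤ, (k : ℤ) • x ∈ N := by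
    intro x
    rw [hN]
    have h : (fun i => ((((k : ℤ) • x) i : ℤ) : ℚ)) ᵥ* δ =
        (k : ℚ) • ((fun i => (x i : ℚ)) ᵥ* δ) := by
      rw [← Matrix.smul_vecMul]
      congr 1
      ext i
      simp
    rw [h]
    exact h2 _ ⟨x, rfl⟩
  have hk0 : (k : ℤ) ≠ 0 := by
    have : 0 < k := hk
    exact_mod_cast this.ne'
  have hfr : Module.finrank ℤ N = Module.finrank ℤ (Fin n → ℤ) := by
    refine le_antisymm (Submodule.finrank_le N) ?_
    refine LinearMap.finrank_le_finrank_of_injective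
      (f := (LinearMap.lsmul ℤ (Fin n → ℤ) (k : ℤ)).codRestrict N hkN) ?_
    intro x y hxy
    have h : (k : ℤ) • x = (k : ℤ) • y := congrArg Subtype.val hxy
    exact smul_right_injective _ hk0 h
  obtain ⟨-, -, b, -⟩ := Submodule.exists_smith_normal_form_of_rank_eq
    (Pi.basisFun ℤ (Fin n)) hfr
  let T : Matrix (Fin n) (Fin n) ℤ := Matrix.of fun i => (b i : Fin n → ℤ)
  have hrep : ∀ x ∈ N, ∃ c : Fin n → ℤ, x = c ᵥ* T := by
    intro x hx
    refine ⟨fun i => b.repr ⟨x, hx⟩ i, ?_⟩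
    have h := congrArg Subtype.val (b.sum_repr ⟨x, hx⟩)
    rw [AddSubmonoidClass.coe_finsetSum] at h
    simp only [SetLike.val_smul] at h
    refine h.symm.trans ?_
    ext j
    simp only [Matrix.vecMul, dotProduct, Finset.sum_apply, Pi.smul_apply, smul_eq_mul, T,
      Matrix.of_apply]
  have hT : T.det ≠ 0 := by
    have h3 : ∀ i : Fin n, ∃ c : Fin n → ℤ, (k : ℤ) • (Pi.single i 1 : Fin n → ℤ) = c ᵥ* T :=
      fun i => hrep _ (hkN _)
    choose S hS using h3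
    have h4 : Matrix.of S * T = (k : ℤ) • (1 : Matrix (Fin n) (Fin n) ℤ) := by
      ext i j
      have h5 := congrFun (hS i) j
      have h6 : (Matrix.of S * T) i j = (S i ᵥ* T) j := by
        simp [Matrix.mul_apply, Matrix.vecMul, dotProduct]
      rw [h6, ← h5]
      simp only [Pi.smul_apply, Matrix.smul_apply, Matrix.one_apply, Pi.single_apply]
      simp only [eq_comm]
    intro h0
    have h7 := congrArg Matrix.det h4
    rw [Matrix.det_mul, h0, mul_zero, Matrix.det_smul, Matrix.det_one, mul_one] at h7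
    exact (pow_ne_zero _ hk0) h7.symm
  refine ⟨T, hT, le_antisymm ?_ ?_⟩
  · intro v hv
    obtain ⟨x, rfl⟩ := h1 hv
    obtain ⟨c, rfl⟩ := hrep x ((hN x).2 hv)
    refine ⟨c, ?_⟩
    rw [← Matrix.vecMul_vecMul, cc_qq_vec]
  · rintro v ⟨c, rfl⟩
    rw [← Matrix.vecMul_vecMul, cc_qq_vec]
    have h3 : (c ᵥ* T) = ∑ i, c i • (b i : Fin n → ℤ) := by
      ext j
      simp only [Matrix.vecMul, dotProduct, Finset.sum_apply, Pi.smul_apply, smul_eq_mul, T,
        Matrix.of_apply]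
    have h4 : c ᵥ* T ∈ N := by
      rw [h3]
      exact N.sum_mem fun i _ => N.smul_mem _ (b i).2
    exact (hN _).1 h4

/-- `k M ⊆ L` if `L` has index `k` in `M` -/
theorem cc_smul {n k : ℕ} {L M : Lat n} (h : L.relIndex M = k) {v : Fin n → ℚ} (hv : v ∈ M) :
    (k : ℚ) • v ∈ L := by
  have h1 := AddSubgroup.nsmul_index_mem (H := L.addSubgroupOf M) ⟨v, hv⟩
  have h2 : (L.addSubgroupOf M).index = k := h
  rw [h2, AddSubgroup.mem_addSubgroupOf] at h1
  simpa [Nat.cast_smul_eq_nsmul] using h1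

/-- equality of lattices -/
theorem cc_eq {n : ℕ} {d d' : Matrix (Fin n) (Fin n) ℚ} (hd : d.det ≠ 0)
    (h : latt d = latt d') : ∃ c : Matrix (Fin n) (Fin n) ℤ, IsUnit c.det ∧ d = qq c * d' := by
  obtain ⟨c, hc⟩ := Pool.Agent.GLQ.latt_le_pr (δ := d') (δ' := d) h.le
  obtain ⟨c', hc'⟩ := Pool.Agent.GLQ.latt_le_pr (δ := d) (δ' := d') h.ge
  refine ⟨c, ?_, hc⟩
  have h1 : qq (c * c') * d = 1 * d := by
    rw [cc_qq_mul, Matrix.mul_assoc, ← hc', ← hc, Matrix.one_mul]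
  have h2 : qq (c * c') = 1 := by
    have hu : IsUnit d.det := isUnit_iff_ne_zero.2 hd
    have := congrArg (fun X => X * d⁻¹) h1
    simpa [Matrix.mul_assoc, Matrix.mul_nonsing_inv _ hu] using this
  rw [← cc_qq_one] at h2
  have h3 := cc_qq_inj h2
  have h4 := congrArg Matrix.det h3
  rw [Matrix.det_mul, Matrix.det_one] at h4
  exact IsUnit.of_mul_eq_one _ h4

theorem cc_detR {n m : ℕ} {a : Fin n → Fin n → ℤ} (ha : a ∈ repR n m) :
    (Matrix.of a).det = m := by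
  have h := (Finset.mem_filter.1 ha).2
  rw [Matrix.det_of_isUpperTriangular]
  · simpa using h.2.2
  · intro i j hij
    exact h.1 i j hij

theorem cc_detL {n m : ℕ} {a : Fin n → Fin n → ℤ} (ha : a ∈ repL n m) :
    (Matrix.of a).det = m := by
  have h := (Finset.mem_filter.1 ha).2
  rw [Matrix.det_of_isUpperTriangular]
  · simpa using h.2.2
  · intro i j hij
    exact h.1 i j hij

theorem sup_rep (hnf : HNF) {n m : ℕ} (hm : 1 ≤ m) (δ : Matrix (Fin n) (Fin n) ℚ)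
    (hδ : δ.det ≠ 0) :
    Set.BijOn (fun a : Fin n → Fin n → ℤ => latt ((qq (Matrix.of a))⁻¹ * δ))
      (repR n m : Set (Fin n → Fin n → ℤ)) {M : Lat n | latt δ ≤ M ∧ (latt δ).relIndex M = m} := by
  have hm0 : (m : ℤ) ≠ 0 := by
    have : 0 < m := hm
    exact_mod_cast this.ne'
  have hdet : ∀ a ∈ repR n m, (qq (Matrix.of a)).det ≠ 0 := by
    intro a ha
    rw [cc_det_qq, cc_detR ha]
    exact_mod_cast hm0
  have hmul : ∀ a ∈ repR n m, qq (Matrix.of a) * ((qq (Matrix.of a))⁻¹ * δ) = δ := by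
    intro a ha
    rw [← Matrix.mul_assoc, Matrix.mul_nonsing_inv _ (isUnit_iff_ne_zero.2 (hdet a ha)),
      Matrix.one_mul]
  have hdet' : ∀ a ∈ repR n m, ((qq (Matrix.of a))⁻¹ * δ).det ≠ 0 := by
    intro a ha h0
    have := congrArg Matrix.det (hmul a ha)
    rw [Matrix.det_mul, h0, mul_zero] at this
    exact hδ this.symm
  refine ⟨?_, ?_, ?_⟩
  · intro a ha
    have ha' : a ∈ repR n m := ha
    refine ⟨?_, ?_⟩
    · have h := cc_le (Matrix.of a) ((qq (Matrix.of a))⁻¹ * δ)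
      rw [hmul a ha'] at h
      exact h
    · have h := Pool.Agent.GLQ.index_det_pr (Matrix.of a) (by rw [cc_detR ha']; exact hm0)
        ((qq (Matrix.of a))⁻¹ * δ) (hdet' a ha')
      rw [hmul a ha', cc_detR ha'] at h
      simpa using h
  · intro a ha a' ha' h
    have ha1 : a ∈ repR n m := ha
    have ha1' : a' ∈ repR n m := ha'
    obtain ⟨c, hc, hcc⟩ := cc_eq (hdet' a ha1) h
    have h1 : qq (Matrix.of a') = qq (Matrix.of a * c) := by
      rw [cc_qq_mul]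
      have hu : IsUnit δ.det := isUnit_iff_ne_zero.2 hδ
      have hcc' : (qq (Matrix.of a))⁻¹ = qq c * (qq (Matrix.of a'))⁻¹ := by
        have := congrArg (fun X => X * δ⁻¹) hcc
        simpa [Matrix.mul_assoc, Matrix.mul_nonsing_inv _ hu] using this
      have h2 : (1 : Matrix (Fin n) (Fin n) ℚ) =
          qq (Matrix.of a) * (qq c * (qq (Matrix.of a'))⁻¹) := by
        rw [← hcc', Matrix.mul_nonsing_inv _ (isUnit_iff_ne_zero.2 (hdet a ha1))]
      have h3 := congrArg (fun X => X * qq (Matrix.of a')) h2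
      simpa [Matrix.mul_assoc, Matrix.nonsing_inv_mul _ (isUnit_iff_ne_zero.2 (hdet a' ha1'))]
        using h3
    have h2 := cc_qq_inj h1
    have h3 : (Matrix.of a').det ≠ 0 := by rw [cc_detR ha1']; exact hm0
    have h4 := (hnf n (Matrix.of a') h3).1
    have h5 : (Matrix.of a').det.natAbs = m := by rw [cc_detR ha1']; simp
    rw [h5] at h4
    have h6 := h4.unique (y₁ := (a', 1)) (y₂ := (a, c)) ⟨ha1', by simp, by simp⟩ ⟨ha1, hc, h2⟩
    exact (Prod.ext_iff.1 h6).1.symm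
  · rintro M ⟨hM1, hM2⟩
    have hmq : (m : ℚ) ≠ 0 := by exact_mod_cast hm0
    have hδ1 : ((m : ℚ)⁻¹ • δ).det ≠ 0 := by
      rw [Matrix.det_smul]
      exact mul_ne_zero (pow_ne_zero _ (inv_ne_zero hmq)) hδ
    obtain ⟨T, hT, hMT⟩ := cc_basis hm ((m : ℚ)⁻¹ • δ) hδ1 M
      (by
        intro v hv
        obtain ⟨x, hx⟩ := cc_smul hM2 hv
        refine ⟨x, ?_⟩
        rw [Matrix.vecMul_smul, ← hx, smul_smul, inv_mul_cancel₀ hmq, one_smul])
      (by
        rintro v ⟨x, rfl⟩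
        refine hM1 ⟨x, ?_⟩
        rw [Matrix.vecMul_smul, smul_smul, mul_inv_cancel₀ hmq, one_smul])
    have hd2 : (qq T * ((m : ℚ)⁻¹ • δ)).det ≠ 0 := by
      rw [Matrix.det_mul, cc_det_qq]
      exact mul_ne_zero (Int.cast_ne_zero.2 hT) hδ1
    rw [hMT] at hM1 hM2
    obtain ⟨S, hS⟩ := Pool.Agent.GLQ.latt_le_pr hM1
    have hS0 : S.det ≠ 0 := by
      intro h0
      have := congrArg Matrix.det hS
      rw [Matrix.det_mul, cc_det_qq, h0, Int.cast_zero, zero_mul] at this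
      exact hδ this
    have h1 := Pool.Agent.GLQ.index_det_pr S hS0 _ hd2
    rw [← hS, hM2] at h1
    obtain ⟨⟨a, c⟩, ⟨ha, hc, hac⟩, -⟩ := (hnf n S hS0).1
    rw [← h1] at ha
    simp only at ha hc hac
    refine ⟨a, ha, ?_⟩
    show latt ((qq (Matrix.of a))⁻¹ * δ) = M
    rw [hMT]
    generalize qq T * ((m : ℚ)⁻¹ • δ) = E at hS
    rw [hS, hac, cc_qq_mul, Matrix.mul_assoc, ← Matrix.mul_assoc,
      Matrix.nonsing_inv_mul _ (isUnit_iff_ne_zero.2 (hdet a ha)), Matrix.one_mul, cc_unimod c hc]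

theorem sub_rep (hnf : HNF) {n m : ℕ} (hm : 1 ≤ m) (δ : Matrix (Fin n) (Fin n) ℚ)
    (hδ : δ.det ≠ 0) :
    Set.BijOn (fun a : Fin n → Fin n → ℤ => latt (qq (Matrix.of a) * δ))
      (repL n m : Set (Fin n → Fin n → ℤ)) {M : Lat n | M ≤ latt δ ∧ M.relIndex (latt δ) = m} := by
  have hm0 : (m : ℤ) ≠ 0 := by
    have : 0 < m := hm
    exact_mod_cast this.ne'
  have hdet : ∀ a ∈ repL n m, (qq (Matrix.of a)).det ≠ 0 := by
    intro a ha
    rw [cc_det_qq, cc_detL ha]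
    exact_mod_cast hm0
  refine ⟨?_, ?_, ?_⟩
  · intro a ha
    have ha' : a ∈ repL n m := ha
    refine ⟨cc_le _ _, ?_⟩
    have h := Pool.Agent.GLQ.index_det_pr (Matrix.of a) (by rw [cc_detL ha']; exact hm0) δ hδ
    rw [cc_detL ha'] at h
    simpa using h
  · intro a ha a' ha' h
    have ha1 : a ∈ repL n m := ha
    have ha1' : a' ∈ repL n m := ha'
    have hd : (qq (Matrix.of a) * δ).det ≠ 0 := by
      rw [Matrix.det_mul]
      exact mul_ne_zero (hdet a ha1) hδ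
    obtain ⟨c, hc, hcc⟩ := cc_eq hd h
    have h1 : qq (Matrix.of a) = qq (c * Matrix.of a') := by
      rw [cc_qq_mul]
      have hu : IsUnit δ.det := isUnit_iff_ne_zero.2 hδ
      have := congrArg (fun X => X * δ⁻¹) hcc
      simpa [Matrix.mul_assoc, Matrix.mul_nonsing_inv _ hu] using this
    have h2 := cc_qq_inj h1
    have h3 : (Matrix.of a).det ≠ 0 := by rw [cc_detL ha1]; exact hm0
    have h4 := (hnf n (Matrix.of a) h3).2
    have h5 : (Matrix.of a).det.natAbs = m := by rw [cc_detL ha1]; simp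
    rw [h5] at h4
    have h6 := h4.unique (y₁ := (a, 1)) (y₂ := (a', c)) ⟨ha1, by simp, by simp⟩ ⟨ha1', hc, h2⟩
    exact (Prod.ext_iff.1 h6).1
  · rintro M ⟨hM1, hM2⟩
    obtain ⟨T, hT, hMT⟩ := cc_basis hm δ hδ M hM1 (fun v hv => cc_smul hM2 hv)
    have h1 := Pool.Agent.GLQ.index_det_pr T hT δ hδ
    rw [← hMT, hM2] at h1
    obtain ⟨⟨a, c⟩, ⟨ha, hc, hac⟩, -⟩ := (hnf n T hT).2
    rw [← h1] at ha
    simp only at ha hc hac
    refine ⟨a, ha, ?_⟩
    show latt (qq (Matrix.of a) * δ) = M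
    rw [hMT, hac, cc_qq_mul, Matrix.mul_assoc, cc_unimod c hc]


end

end Pool.Agent.SGN
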