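import Pool.Agent.Lib_helper84.SGN.DefsM
import Pool.Agent.Lib_helper84.SGCF.HNFD

/-!
# SGN, block CD: triangular bases of lattices
-/

set_option autoImplicit false

namespace Pool.Agent.SGN

open Matrix
open Pool.Agent.GLQ (re unip cube Lat Lz latt sp qq)

noncomputable section

theorem cd_zs {n : ℕ} (z : ℤ) (v : Fin n → ℚ) (j : Fin n) : (z • v) j = z * v j := by
  rw [Pi.smul_apply, zsmul_eq_mul]

theorem cd_row_mem {n : ℕ} (δ : Matrix (Fin n) (Fin n) ℚ) (i : Fin n) : δ i ∈ latt δ := by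
  refine ⟨Pi.single i 1, ?_⟩
  funext j
  simp only [Matrix.vecMul, dotProduct]
  rw [Finset.sum_eq_single i]
  · simp
  · intro b _ hb
    simp [Pi.single_eq_of_ne hb]
  · intro h
    exact absurd (Finset.mem_univ i) h

theorem cd_zero {n : ℕ} (δ' : Matrix (Fin n) (Fin n) ℚ) (h3 : ∀ i j, j < i → δ' i j = 0)
    (h4 : ∀ i, 0 < δ' i i) (i : Fin n) (v : Fin n → ℚ) (hv : ∀ j, j < i → v j = 0)
    (x : Fin n → ℤ) (hx : v = (fun i => (x i : ℚ)) ᵥ* δ') :
    (∀ j, j < i → x j = 0) ∧ v i = x i * δ' i i := by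
  have key : ∀ j, (∀ k, k < j → x k = 0) → v j = x j * δ' j j := by
    intro j hj
    rw [hx]
    simp only [Matrix.vecMul, dotProduct]
    rw [Finset.sum_eq_single j]
    · intro k _ hk
      rcases lt_or_gt_of_ne hk with h | h
      · rw [hj k h]; simp
      · rw [h3 k j h]; simp
    · intro h
      exact absurd (Finset.mem_univ j) h
  have hz : ∀ j, j < i → x j = 0 := by
    intro j
    induction j using WellFoundedLT.induction with
    | _ j ih =>
      intro hji
      have h1 := key j (fun k hk => ih k hk (hk.trans hji))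
      rw [hv j hji] at h1
      have h2 := (h4 j).ne'
      have h5 : (x j : ℚ) = 0 := by
        rcases mul_eq_zero.1 h1.symm with h | h
        · exact h
        · exact absurd h h2
      exact_mod_cast h5
  exact ⟨hz, key i hz⟩

theorem cd_div {n : ℕ} (δ δ' : Matrix (Fin n) (Fin n) ℚ) (h1 : ∀ i j, j < i → δ i j = 0)
    (h2 : ∀ i, 0 < δ i i) (h3 : ∀ i j, j < i → δ' i j = 0) (h4 : ∀ i, 0 < δ' i i)
    (h : latt δ ≤ latt δ') (i : Fin n) : ∃ z : ℤ, 0 < z ∧ δ i i = z * δ' i i := by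
  obtain ⟨x, hx⟩ := h (cd_row_mem δ i)
  have h5 := (cd_zero δ' h3 h4 i (δ i) (fun j hj => h1 i j hj) x hx).2
  refine ⟨x i, ?_, h5⟩
  have h6 := h2 i
  rw [h5] at h6
  have h7 : (0 : ℚ) < (x i : ℚ) := (mul_pos_iff_of_pos_right (h4 i)).1 h6
  exact_mod_cast h7

theorem tri_uniq {n : ℕ} (δ δ' : Matrix (Fin n) (Fin n) ℚ) (h1 : ∀ i j, j < i → δ i j = 0)
    (h2 : ∀ i, 0 < δ i i) (h3 : ∀ i j, j < i → δ' i j = 0) (h4 : ∀ i, 0 < δ' i i)
    (h : latt δ = latt δ') : ∀ i, δ i i = δ' i i := by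
  intro i
  obtain ⟨z, hz, e⟩ := cd_div δ δ' h1 h2 h3 h4 h.le i
  obtain ⟨z', hz', e'⟩ := cd_div δ' δ h3 h4 h1 h2 h.ge i
  have h5 : (z : ℚ) * z' = 1 := by
    have h6 := h2 i
    have h7 : δ i i = (z : ℚ) * z' * δ i i := by
      calc δ i i = z * δ' i i := e
        _ = z * (z' * δ i i) := by rw [← e']
        _ = _ := by ring
    have h8 : ((z : ℚ) * z' - 1) * δ i i = 0 := by linarith
    rcases mul_eq_zero.1 h8 with h9 | h9
    · linarith
    · exact absurd h9 h6.ne'
  have h5' : z * z' = 1 := by exact_mod_cast h5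
  have hz1 : z = 1 := by
    rcases Int.isUnit_iff.1 (IsUnit.of_mul_eq_one _ h5') with h | h
    · exact h
    · omega
  rw [e, hz1]; simp

theorem cd_pick {n : ℕ} (L : Lat n) (hL : Full L) (i : Fin n) :
    ∃ v ∈ L, (∀ j, j < i → v j = 0) ∧ 0 < v i ∧
      ∀ w ∈ L, (∀ j, j < i → w j = 0) → ∃ z : ℤ, w i = z * v i := by
  classical
  obtain ⟨a, ha, h1, h2⟩ := hL
  have ha' : (0 : ℚ) < a := by exact_mod_cast ha
  have hint : ∀ w ∈ L, ∃ m : ℤ, (a : ℚ) * w i = m := by
    intro w hw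
    obtain ⟨x, hx⟩ := h2 w hw
    refine ⟨x i, ?_⟩
    have := congrFun hx i
    rw [Matrix.vecMul_one] at this
    simpa using this
  let P : ℕ → Prop := fun k => 0 < k ∧ ∃ v ∈ L, (∀ j, j < i → v j = 0) ∧ (a : ℚ) * v i = k
  have hex : ∃ k, P k := by
    refine ⟨a * a, Nat.mul_pos ha ha, (a : ℚ) • (Pi.single i (1 : ℚ)), ?_, ?_, ?_⟩
    · apply h1
      refine ⟨Pi.single i 1, ?_⟩
      rw [Matrix.vecMul_one]
      funext j
      by_cases hj : j = i
      · subst hj; simp
      · simp [Pi.single_eq_of_ne hj]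
    · intro j hj
      simp [Pi.single_eq_of_ne hj.ne]
    · simp
  obtain ⟨hk, v, hv, hv0, hva⟩ := Nat.find_spec hex
  set k := Nat.find hex with hkdef
  refine ⟨v, hv, hv0, ?_, ?_⟩
  · have h5 : (0 : ℚ) < (a : ℚ) * v i := by rw [hva]; exact_mod_cast hk
    exact (mul_pos_iff_of_pos_left ha').1 h5
  · intro w hw hw0
    obtain ⟨m, hm⟩ := hint w hw
    refine ⟨m / (k : ℤ), ?_⟩
    have hk' : (0 : ℤ) < k := by exact_mod_cast hk
    have hmod := Int.emod_nonneg m hk'.ne'
    have hlt := Int.emod_lt_of_pos m hk'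
    have hdm : (k : ℤ) * (m / k) + m % k = m := Int.mul_ediv_add_emod m k
    have hr : m % (k : ℤ) = 0 := by
      by_contra hne
      have hpos : 0 < (m % (k : ℤ)).toNat := by omega
      have hP : P ((m % (k : ℤ)).toNat) := by
        refine ⟨hpos, w - (m / (k : ℤ)) • v, L.sub_mem hw (L.zsmul_mem hv _), ?_, ?_⟩
        · intro j hj
          simp [hw0 j hj, hv0 j hj]
        · have e1 : (((m % (k : ℤ)).toNat : ℕ) : ℚ) = ((m % (k : ℤ) : ℤ) : ℚ) := by
            have : (((m % (k : ℤ)).toNat : ℕ) : ℤ) = m % (k : ℤ) := Int.toNat_of_nonneg hmod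
            exact_mod_cast this
          rw [e1]
          have e2 : ((k : ℚ)) * ((m / (k : ℤ) : ℤ) : ℚ) + ((m % (k : ℤ) : ℤ) : ℚ) = m := by
            exact_mod_cast hdm
          simp only [Pi.sub_apply, cd_zs]
          rw [mul_sub, hm, ← e2]
          have : (a : ℚ) * (((m / (k : ℤ) : ℤ) : ℚ) * v i) =
              ((m / (k : ℤ) : ℤ) : ℚ) * ((a : ℚ) * v i) := by ring
          rw [this, hva]; ring
      have := Nat.find_min' hex hP
      omega
    have e2 : ((k : ℚ)) * ((m / (k : ℤ) : ℤ) : ℚ) = m := by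
      rw [hr, add_zero] at hdm
      exact_mod_cast hdm
    have e3 : (a : ℚ) * w i = a * (((m / (k : ℤ) : ℤ) : ℚ) * v i) := by
      rw [hm, ← e2]
      have : (a : ℚ) * (((m / (k : ℤ) : ℤ) : ℚ) * v i) =
              ((m / (k : ℤ) : ℤ) : ℚ) * ((a : ℚ) * v i) := by ring
      rw [this, hva]; ring
    exact mul_left_cancel₀ ha'.ne' e3

theorem cd_tri {n : ℕ} (L : Lat n) (hL : Full L) :
    ∃ δ : Matrix (Fin n) (Fin n) ℚ, (∀ i j, j < i → δ i j = 0) ∧ (∀ i, 0 < δ i i) ∧
      latt δ = L := by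
  choose δ hδ h0 hp hz using cd_pick L hL
  refine ⟨δ, h0, hp, le_antisymm ?_ ?_⟩
  · rintro v ⟨x, rfl⟩
    have : (fun i => (x i : ℚ)) ᵥ* (Matrix.of δ) = ∑ i, x i • δ i := by
      funext j
      simp [Matrix.vecMul, dotProduct, Finset.sum_apply]
    show (fun i => (x i : ℚ)) ᵥ* (Matrix.of δ) ∈ L
    rw [this]
    exact L.sum_mem fun i _ => L.zsmul_mem (hδ i) _
  · have key : ∀ k : ℕ, ∀ v ∈ L, (∀ j : Fin n, (j : ℕ) < n - k → v j = 0) → v ∈ latt δ := by
      intro k
      induction k with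
      | zero =>
        intro v _ hv
        have : v = 0 := by
          funext j
          exact hv j (by simp)
        rw [this]; exact (latt δ).zero_mem
      | succ k ih =>
        intro v hv hv0
        by_cases hk : n ≤ k
        · apply ih v hv
          intro j hj
          omega
        · push Not at hk
          let i : Fin n := ⟨n - (k + 1), by omega⟩
          obtain ⟨z, hz'⟩ := hz i v hv (fun j hj => hv0 j hj)
          have h1 : v - z • δ i ∈ latt δ := by
            apply ih _ (L.sub_mem hv (L.zsmul_mem (hδ i) _))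
            intro j hj
            simp only [Pi.sub_apply, cd_zs]
            rcases lt_or_ge (j : ℕ) (n - (k + 1)) with h | h
            · rw [hv0 j h, h0 i j h]; simp
            · have hji : j = i := Fin.ext (by show (j : ℕ) = n - (k + 1); omega)
              rw [hji, hz']; ring
          have h2 := (latt δ).add_mem h1 ((latt δ).zsmul_mem (cd_row_mem δ i) z)
          simpa using h2
    intro v hv
    exact key n v hv (fun j hj => by omega)

theorem tri_basis (hnf : HNF) {n : ℕ} (L : Lat n) (hL : Full L) :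
    ∃ δ : Matrix (Fin n) (Fin n) ℚ, (∀ i j, j < i → δ i j = 0) ∧ (∀ i, 0 < δ i i) ∧
      latt δ = L := cd_tri L hL

end

end Pool.Agent.SGN
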