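import Pool.Agent.Lib_helper84.SGCF.CN

set_option autoImplicit false

namespace Pool.Agent.SGN

open MeasureTheory Matrix Complex ProbabilityTheory
open scoped ArithmeticFunction.Omega ENNReal

noncomputable section

/-! ### formal series -/

theorem co_inv (x : ℕ → ℂ) (h0 : x 0 = 1) :
    PowerSeries.mk x * PowerSeries.mk (invc x) = 1 := by
  ext j
  rw [PowerSeries.coeff_mul, PowerSeries.coeff_one]
  cases j with
  | zero => simp [h0, invc]
  | succ j =>
    rw [if_neg (by omega), Finset.Nat.sum_antidiagonal_succ]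
    simp only [PowerSeries.coeff_mk, h0, one_mul]
    rw [invc, Finset.Nat.sum_antidiagonal_eq_sum_range_succ_mk, Finset.sum_range]
    simp

theorem co_sq (e : ℕ → ℂ) (h0 : e 0 = 1) :
    PowerSeries.mk (sqr e) * PowerSeries.mk (sqr e) = PowerSeries.mk e := by
  ext j
  rw [PowerSeries.coeff_mul]
  simp only [PowerSeries.coeff_mk]
  cases j with
  | zero => simp [h0, sqr]
  | succ j =>
    rw [Finset.Nat.sum_antidiagonal_succ]
    have h1 : ∑ p ∈ Finset.HasAntidiagonal.antidiagonal j, sqr e (p.1 + 1) * sqr e p.2 =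
        ∑ i : Fin j, sqr e (i + 1) * sqr e (j - i) + sqr e (j + 1) * sqr e 0 := by
      rw [Finset.Nat.sum_antidiagonal_eq_sum_range_succ_mk, Finset.sum_range_succ, Finset.sum_range]
      simp
    simp only
    rw [h1]
    have h2 : sqr e (j + 1) = (e (j + 1) - ∑ i : Fin j, sqr e (i + 1) * sqr e (j - i)) / 2 := by
      rw [sqr]
    have h3 : sqr e 0 = 1 := by rw [sqr]
    rw [h3, h2]
    ring

theorem co_bx (x : ℕ → ℂ) :
    PowerSeries.mk (bx x) = PowerSeries.mk x * PowerSeries.mk (sqr (invc x)) := by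
  ext j
  rw [PowerSeries.coeff_mul]
  simp only [PowerSeries.coeff_mk]
  rfl

theorem co_bx_sqr (x : ℕ → ℂ) (h0 : x 0 = 1) :
    PowerSeries.mk (bx x) * PowerSeries.mk (sqr (invc x)) = 1 := by
  rw [co_bx, mul_assoc, co_sq _ (by rw [invc]), co_inv x h0]

theorem bx_sqr (x : ℕ → ℂ) (h0 : x 0 = 1) (s : ℕ) (hs : 1 ≤ s) :
    ∑ i ∈ Finset.HasAntidiagonal.antidiagonal s, bx x i.1 * sqr (invc x) i.2 = 0 := by
  have h := congrArg (PowerSeries.coeff s) (co_bx_sqr x h0)
  rw [PowerSeries.coeff_mul, PowerSeries.coeff_one, if_neg (by omega)] at h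
  simpa using h

/-! ### the coefficients of `√(1 - α z)` -/

/-- the coefficients of `√(1 - z)` -/
def coC : ℕ → ℝ
  | 0 => 1
  | j + 1 => -((catalan j : ℝ) / 2 ^ (2 * j + 1))

/-- the coefficients of `1/√(1 - z)` -/
def coT (j : ℕ) : ℝ := (Nat.centralBinom j : ℝ) / 4 ^ j

theorem coT_nonneg (j : ℕ) : 0 ≤ coT j := by unfold coT; positivity

theorem coT_le (j : ℕ) : coT j ≤ 1 := by
  unfold coT
  rw [div_le_one (by positivity)]
  exact_mod_cast Nat.centralBinom_le_four_pow j

theorem coC_succ_eq (j : ℕ) : coC (j + 1) = coT (j + 1) - coT j := by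
  unfold coT
  rw [coC]
  have h1 : ((j : ℝ) + 1) * catalan j = Nat.centralBinom j := by
    exact_mod_cast succ_mul_catalan_eq_centralBinom j
  have h2 : ((j : ℝ) + 1) * Nat.centralBinom (j + 1) = 2 * (2 * j + 1) * Nat.centralBinom j := by
    exact_mod_cast Nat.succ_mul_centralBinom_succ j
  have hj : (0 : ℝ) < (j : ℝ) + 1 := by positivity
  have h3 : (Nat.centralBinom (j + 1) : ℝ) = 2 * (2 * j + 1) * catalan j := by
    have : ((j : ℝ) + 1) * Nat.centralBinom (j + 1) = ((j : ℝ) + 1) * (2 * (2 * j + 1) * catalan j) := by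
      rw [h2, ← h1]; ring
    exact mul_left_cancel₀ hj.ne' this
  rw [h3, ← h1, pow_succ, pow_succ, pow_mul]
  norm_num
  field_simp
  ring

theorem coC_abs (j : ℕ) : |coC j| ≤ 1 := by
  cases j with
  | zero => rw [coC]; norm_num
  | succ j =>
    rw [coC_succ_eq, abs_le]
    have := coT_nonneg j
    have := coT_nonneg (j + 1)
    have := coT_le j
    have := coT_le (j + 1)
    constructor <;> linarith

/-- `√(1 - α z)` -/
def coS (α : ℂ) : PowerSeries ℂ := PowerSeries.mk fun j => α ^ j * (coC j : ℂ)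

/-- `1/√(1 - α z)` -/
def coR (α : ℂ) : PowerSeries ℂ := PowerSeries.mk fun j => α ^ j * (coT j : ℂ)

theorem coR_mul (α : ℂ) : coR α * (1 - PowerSeries.C α * PowerSeries.X) = coS α := by
  ext j
  rw [mul_sub, mul_one, map_sub]
  cases j with
  | zero =>
    rw [← mul_assoc]
    simp [coR, coS, coC, coT]
  | succ j =>
    rw [← mul_assoc, PowerSeries.coeff_succ_mul_X, mul_comm (coR α), PowerSeries.coeff_C_mul]
    simp only [coR, coS, PowerSeries.coeff_mk]
    rw [coC_succ_eq]
    push_cast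
    ring

theorem coC_sq (j : ℕ) : ∑ i ∈ Finset.HasAntidiagonal.antidiagonal (j + 2), coC i.1 * coC i.2 = 0 := by
  rw [Finset.Nat.sum_antidiagonal_succ, Finset.Nat.sum_antidiagonal_succ']
  simp only
  have h1 : ∑ p ∈ Finset.HasAntidiagonal.antidiagonal j, coC (p.1 + 1) * coC (p.2 + 1) =
      (catalan (j + 1) : ℝ) / 2 ^ (2 * j + 2) := by
    rw [catalan_succ']
    push_cast
    rw [Finset.sum_div]
    refine Finset.sum_congr rfl fun p hp => ?_
    rw [Finset.HasAntidiagonal.mem_antidiagonal] at hp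
    rw [coC, coC, neg_mul_neg, div_mul_div_comm]
    congr 1
    rw [← pow_add]
    congr 1
    omega
  rw [h1, coC, coC]
  have : (2 : ℝ) ^ (2 * (j + 1) + 1) = 2 * 2 ^ (2 * j + 2) := by ring
  rw [this]
  field_simp
  ring

theorem coS_sq (α : ℂ) : coS α * coS α = 1 - PowerSeries.C α * PowerSeries.X := by
  ext j
  rw [PowerSeries.coeff_mul]
  have h1 : ∀ p ∈ Finset.HasAntidiagonal.antidiagonal j,
      PowerSeries.coeff p.1 (coS α) * PowerSeries.coeff p.2 (coS α) =
        α ^ j * ((coC p.1 * coC p.2 : ℝ) : ℂ) := by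
    intro p hp
    rw [Finset.HasAntidiagonal.mem_antidiagonal] at hp
    simp only [coS, PowerSeries.coeff_mk]
    rw [← hp, pow_add]
    push_cast
    ring
  rw [Finset.sum_congr rfl h1, ← Finset.mul_sum, ← Complex.ofReal_sum]
  match j with
  | 0 => simp [coC]
  | 1 =>
    rw [Finset.Nat.sum_antidiagonal_succ]
    simp [coC]
    norm_num
  | j + 2 =>
    rw [coC_sq j, map_sub, PowerSeries.coeff_one, if_neg (by omega)]
    rw [PowerSeries.coeff_C_mul, PowerSeries.coeff_X, if_neg (by omega)]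
    simp

theorem coR_coS (α : ℂ) : coR α * coS α = 1 := by
  have h : coR α * coS α * coS α = 1 * coS α := by
    rw [mul_assoc, coS_sq, coR_mul, one_mul]
  have hne : coS α ≠ 0 := by
    intro h0
    have := congrArg (PowerSeries.coeff 0) h0
    simp [coS, coC] at this
  exact mul_right_cancel₀ hne h

/-! ### majorants -/

theorem co_prod_bound {n : ℕ} (A : Fin n → PowerSeries ℂ)
    (hA : ∀ i j, ‖PowerSeries.coeff j (A i)‖ ≤ 1) (j : ℕ) :
    ‖PowerSeries.coeff j (∏ i, A i)‖ ≤ Nat.choose (j + n - 1) j := by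
  induction n generalizing j with
  | zero =>
    simp only [Finset.univ_eq_empty, Finset.prod_empty, PowerSeries.coeff_one]
    cases j with
    | zero => simp
    | succ j => simp
  | succ n ih =>
    rw [Fin.prod_univ_succ, mul_comm, PowerSeries.coeff_mul]
    refine (norm_sum_le _ _).trans ?_
    have h1 : ∀ p ∈ Finset.HasAntidiagonal.antidiagonal j,
        ‖PowerSeries.coeff p.1 (∏ i : Fin n, A i.succ) * PowerSeries.coeff p.2 (A 0)‖ ≤
          (Nat.choose (p.1 + n - 1) p.1 : ℝ) := by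
      intro p _
      rw [norm_mul]
      calc _ ≤ (Nat.choose (p.1 + n - 1) p.1 : ℝ) * 1 :=
            mul_le_mul (ih (fun i => A i.succ) (fun i j => hA i.succ j) p.1) (hA 0 p.2)
              (norm_nonneg _) (Nat.cast_nonneg _)
        _ = _ := mul_one _
    refine (Finset.sum_le_sum h1).trans ?_
    rw [Finset.Nat.sum_antidiagonal_eq_sum_range_succ_mk]
    simp only
    norm_cast
    clear h1
    rw [show j + (n + 1) - 1 = j + n by omega]
    induction j with
    | zero => simp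
    | succ j ihj =>
      rw [Finset.sum_range_succ]
      have h3 : (j + 1 + n).choose (j + 1) = (j + n).choose j + (j + n).choose (j + 1) := by
        rw [show j + 1 + n = (j + n) + 1 by ring, Nat.choose_succ_succ]
      have h4 : j + 1 + n - 1 = j + n := by omega
      rw [h3, h4]
      exact Nat.add_le_add_right (ihj) _

theorem co_main (n : ℕ) (hn : 1 ≤ n) (x : ℕ → ℂ) (h0 : x 0 = 1)
    (hb : ∀ j : ℕ, ‖x j‖ ≤ Nat.choose (j + n - 1) j) (hv : ∀ k : ℕ, n < k → invc x k = 0) :
    ∃ α : Fin n → ℂ, (∀ i, ‖α i‖ ≤ 1) ∧ PowerSeries.mk (sqr (invc x)) = ∏ i, coS (α i) ∧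
      PowerSeries.mk (bx x) = ∏ i, coR (α i) := by
  obtain ⟨α, hα, hQ⟩ := root_alpha n hn x h0 hb hv
  have h1 : PowerSeries.mk (sqr (invc x)) = ∏ i, coS (α i) := by
    have e1 : PowerSeries.mk (sqr (invc x)) * PowerSeries.mk (sqr (invc x)) =
        (∏ i, coS (α i)) * ∏ i, coS (α i) := by
      rw [co_sq _ (by rw [invc]), hQ, ← Finset.prod_mul_distrib]
      exact Finset.prod_congr rfl fun i _ => (coS_sq _).symm
    rcases mul_self_eq_mul_self_iff.1 e1 with h | h
    · exact h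
    · exfalso
      have h2 := congrArg (PowerSeries.constantCoeff) h
      rw [map_neg, map_prod] at h2
      have h3 : ∀ i, PowerSeries.constantCoeff (coS (α i)) = 1 := by
        intro i
        rw [← PowerSeries.coeff_zero_eq_constantCoeff_apply]
        simp [coS, coC]
      simp only [h3, Finset.prod_const_one] at h2
      rw [← PowerSeries.coeff_zero_eq_constantCoeff_apply] at h2
      rw [PowerSeries.coeff_mk, sqr] at h2
      norm_num at h2
  refine ⟨α, hα, h1, ?_⟩
  have e2 : PowerSeries.mk (bx x) * ∏ i, coS (α i) = (∏ i, coR (α i)) * ∏ i, coS (α i) := by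
    rw [← h1, co_bx_sqr x h0, h1, ← Finset.prod_mul_distrib]
    rw [Finset.prod_congr rfl fun i _ => coR_coS (α i), Finset.prod_const_one]
  have hne : (∏ i, coS (α i)) ≠ 0 := by
    intro h
    have h5 : (∏ i, coR (α i)) * ∏ i, coS (α i) = 1 := by
      rw [← Finset.prod_mul_distrib, Finset.prod_congr rfl fun i _ => coR_coS (α i),
        Finset.prod_const_one]
    rw [h, mul_zero] at h5
    exact zero_ne_one h5
  exact mul_right_cancel₀ hne e2

theorem sqr_bound (n : ℕ) (hn : 1 ≤ n) (x : ℕ → ℂ) (h0 : x 0 = 1)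
    (hb : ∀ j : ℕ, ‖x j‖ ≤ Nat.choose (j + n - 1) j) (hv : ∀ k : ℕ, n < k → invc x k = 0)
    (j : ℕ) : ‖sqr (invc x) j‖ ≤ Nat.choose (j + n - 1) j ∧
      ‖bx x j‖ ≤ Nat.choose (j + n - 1) j := by
  obtain ⟨α, hα, h1, h2⟩ := co_main n hn x h0 hb hv
  have hpow : ∀ i (j : ℕ), ‖α i ^ j‖ ≤ 1 := fun i j => by
    rw [norm_pow]
    exact pow_le_one₀ (norm_nonneg _) (hα i)
  constructor
  · have := co_prod_bound (fun i => coS (α i)) (fun i j => by
      simp only [coS, PowerSeries.coeff_mk]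
      rw [norm_mul, Complex.norm_real, Real.norm_eq_abs]
      exact mul_le_one₀ (hpow i j) (abs_nonneg _) (coC_abs j)) j
    rwa [← h1, PowerSeries.coeff_mk] at this
  · have := co_prod_bound (fun i => coR (α i)) (fun i j => by
      simp only [coR, PowerSeries.coeff_mk]
      rw [norm_mul, Complex.norm_real, Real.norm_eq_abs, abs_of_nonneg (coT_nonneg j)]
      exact mul_le_one₀ (hpow i j) (coT_nonneg j) (coT_le j)) j
    rwa [← h2, PowerSeries.coeff_mk] at this

theorem co_vander (n s : ℕ) (hn : 1 ≤ n) :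
    ∑ p ∈ Finset.HasAntidiagonal.antidiagonal s,
      Nat.choose (p.1 + n - 1) p.1 * Nat.choose (p.2 + n - 1) p.2 =
        Nat.choose (s + 2 * n - 1) s := by
  obtain ⟨d, rfl⟩ : ∃ d, n = d + 1 := ⟨n - 1, by omega⟩
  have h1 := PowerSeries.mk_one_pow_eq_mk_choose_add ℤ d
  have h2 := PowerSeries.mk_one_pow_eq_mk_choose_add ℤ (2 * d + 1)
  have h3 : (PowerSeries.mk fun n : ℕ => ((d + n).choose d : ℤ)) *
      (PowerSeries.mk fun n : ℕ => ((d + n).choose d : ℤ)) =
      PowerSeries.mk fun n : ℕ => ((2 * d + 1 + n).choose (2 * d + 1) : ℤ) := by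
    rw [← h1, ← h2, ← pow_add]
    congr 1
    ring
  have h4 := congrArg (PowerSeries.coeff s) h3
  rw [PowerSeries.coeff_mul, PowerSeries.coeff_mk] at h4
  simp only [PowerSeries.coeff_mk] at h4
  have h5 : ∀ j : ℕ, Nat.choose (j + (d + 1) - 1) j = (d + j).choose d := by
    intro j
    rw [show j + (d + 1) - 1 = d + j by omega, Nat.choose_symm_add]
  have h6 : Nat.choose (s + 2 * (d + 1) - 1) s = (2 * d + 1 + s).choose (2 * d + 1) := by
    rw [show s + 2 * (d + 1) - 1 = (2 * d + 1) + s by omega, Nat.choose_symm_add]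
  simp only [h5, h6]
  exact_mod_cast h4

theorem hz_bound (n : ℕ) (hn : 1 ≤ n) (x : ℕ → ℂ) (h0 : x 0 = 1)
    (hb : ∀ j : ℕ, ‖x j‖ ≤ Nat.choose (j + n - 1) j) (hv : ∀ k : ℕ, n < k → invc x k = 0)
    (z z' : ℝ) (h1 : 0 ≤ z') (h2 : z' ≤ z) (s : ℕ) (hs : 1 ≤ s) :
    ‖hz x z z' s‖ ≤ (z - z') * s * z ^ (s - 1) * Nat.choose (s + 2 * n - 1) s := by
  have hz0 : 0 ≤ z := h1.trans h2
  have e1 : hz x z z' s = ∑ i ∈ Finset.HasAntidiagonal.antidiagonal s,
      bx x i.1 * sqr (invc x) i.2 * (((z ^ i.1 - z' ^ i.1) * z' ^ i.2 : ℝ) : ℂ) := by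
    have e2 : hz x z z' s = ∑ i ∈ Finset.HasAntidiagonal.antidiagonal s,
        (bx x i.1 * sqr (invc x) i.2 * (((z ^ i.1 - z' ^ i.1) * z' ^ i.2 : ℝ) : ℂ) +
          (z' : ℂ) ^ s * (bx x i.1 * sqr (invc x) i.2)) := by
      unfold hz
      refine Finset.sum_congr rfl fun i hi => ?_
      rw [Finset.HasAntidiagonal.mem_antidiagonal] at hi
      rw [← hi, pow_add]
      push_cast
      ring
    rw [e2, Finset.sum_add_distrib, ← Finset.mul_sum, bx_sqr x h0 s hs, mul_zero, add_zero]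
  rw [e1]
  refine (norm_sum_le _ _).trans ?_
  rw [← co_vander n s hn, Nat.cast_sum, Finset.mul_sum]
  refine Finset.sum_le_sum fun i hi => ?_
  rw [Nat.cast_mul]
  rw [Finset.HasAntidiagonal.mem_antidiagonal] at hi
  obtain ⟨b1, _⟩ := sqr_bound n hn x h0 hb hv i.2
  obtain ⟨_, b2⟩ := sqr_bound n hn x h0 hb hv i.1
  rw [norm_mul, norm_mul, Complex.norm_real, Real.norm_eq_abs]
  have h3 : |(z ^ i.1 - z' ^ i.1) * z' ^ i.2| ≤ (z - z') * s * z ^ (s - 1) := by
    have h4 : z' ^ i.1 ≤ z ^ i.1 := pow_le_pow_left₀ h1 h2 _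
    rw [abs_of_nonneg (mul_nonneg (by linarith) (pow_nonneg h1 _))]
    rcases Nat.eq_zero_or_pos i.1 with h5 | h5
    · rw [h5]
      simp only [pow_zero, sub_self, zero_mul]
      have : 0 ≤ z - z' := by linarith
      positivity
    · have h6 : z ^ i.1 - z' ^ i.1 ≤ (z - z') * (i.1 * z ^ (i.1 - 1)) := by
        have h7 := (Commute.all z z').mul_geom_sum₂ i.1
        rw [← h7]
        refine mul_le_mul_of_nonneg_left ?_ (by linarith)
        calc ∑ k ∈ Finset.range i.1, z ^ k * z' ^ (i.1 - 1 - k)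
            ≤ ∑ k ∈ Finset.range i.1, z ^ (i.1 - 1) := by
              refine Finset.sum_le_sum fun k hk => ?_
              rw [Finset.mem_range] at hk
              calc z ^ k * z' ^ (i.1 - 1 - k) ≤ z ^ k * z ^ (i.1 - 1 - k) :=
                    mul_le_mul_of_nonneg_left (pow_le_pow_left₀ h1 h2 _) (pow_nonneg hz0 _)
                _ = z ^ (i.1 - 1) := by rw [← pow_add]; congr 1; omega
          _ = i.1 * z ^ (i.1 - 1) := by rw [Finset.sum_const, Finset.card_range, nsmul_eq_mul]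
      calc (z ^ i.1 - z' ^ i.1) * z' ^ i.2
          ≤ ((z - z') * (i.1 * z ^ (i.1 - 1))) * z ^ i.2 :=
            mul_le_mul h6 (pow_le_pow_left₀ h1 h2 _) (pow_nonneg h1 _)
              (mul_nonneg (by linarith) (by positivity))
        _ = (z - z') * i.1 * z ^ (s - 1) := by
            rw [show s - 1 = (i.1 - 1) + i.2 by omega, pow_add]; ring
        _ ≤ (z - z') * s * z ^ (s - 1) := by
            refine mul_le_mul_of_nonneg_right (mul_le_mul_of_nonneg_left ?_ (by linarith))
              (pow_nonneg hz0 _)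
            exact_mod_cast (by omega : i.1 ≤ s)
  calc ‖bx x i.1‖ * ‖sqr (invc x) i.2‖ * |(z ^ i.1 - z' ^ i.1) * z' ^ i.2|
      ≤ ((Nat.choose (i.1 + n - 1) i.1 : ℝ) * Nat.choose (i.2 + n - 1) i.2) *
          ((z - z') * s * z ^ (s - 1)) :=
        mul_le_mul (mul_le_mul b2 b1 (norm_nonneg _) (Nat.cast_nonneg _)) h3 (abs_nonneg _)
          (by positivity)
    _ = _ := by ring

end

end Pool.Agent.SGN
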