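import Pool.Agent.Lib_helper84.SGN.DefsM
import Pool.Agent.Lib_helper84.SGCF.CO

set_option autoImplicit false

namespace Pool.Agent.SGN

open MeasureTheory Matrix Complex ProbabilityTheory
open Pool.Agent.GLQ (re unip cube Lat Lz latt sp qq)
open scoped ArithmeticFunction.Omega ENNReal

noncomputable section

/-! binomial coefficients -/

theorem cp_succ (N j : ℕ) (hN : 1 ≤ N) :
    Nat.choose (j + 1 + N - 1) (j + 1) * (j + 1) = (j + N) * Nat.choose (j + N - 1) j := by
  have h := Nat.add_one_mul_choose_eq (j + N - 1) j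
  have e1 : j + N - 1 + 1 = j + N := by omega
  have e2 : j + 1 + N - 1 = j + N := by omega
  rw [e1] at h
  rw [e2, h]

theorem cp_choose_mul (N : ℕ) (hN : 1 ≤ N) (i j : ℕ) :
    Nat.choose (i + j + N - 1) (i + j) ≤
      Nat.choose (i + N - 1) i * Nat.choose (j + N - 1) j := by
  induction j with
  | zero => simp
  | succ j ih =>
    have h1 := cp_succ N (i + j) hN
    have h2 := cp_succ N j hN
    have e : i + (j + 1) + N - 1 = i + j + 1 + N - 1 := by omega
    rw [e, ← add_assoc i j 1]
    refine Nat.le_of_mul_le_mul_right (c := (i + j + 1) * (j + 1)) ?_ (by positivity)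
    have h3 : (i + j + N) * (j + 1) ≤ (j + N) * (i + j + 1) := by
      obtain ⟨M, rfl⟩ : ∃ M, N = M + 1 := ⟨N - 1, by omega⟩
      nlinarith [Nat.zero_le (M * i)]
    calc Nat.choose (i + j + 1 + N - 1) (i + j + 1) * ((i + j + 1) * (j + 1))
        = (Nat.choose (i + j + 1 + N - 1) (i + j + 1) * (i + j + 1)) * (j + 1) := by ring
      _ = ((i + j + N) * Nat.choose (i + j + N - 1) (i + j)) * (j + 1) := by rw [h1]
      _ = Nat.choose (i + j + N - 1) (i + j) * ((i + j + N) * (j + 1)) := by ring
      _ ≤ (Nat.choose (i + N - 1) i * Nat.choose (j + N - 1) j) * ((j + N) * (i + j + 1)) :=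
          Nat.mul_le_mul ih h3
      _ = Nat.choose (i + N - 1) i * ((j + N) * Nat.choose (j + N - 1) j) * (i + j + 1) := by ring
      _ = Nat.choose (i + N - 1) i * (Nat.choose (j + 1 + N - 1) (j + 1) * (j + 1)) *
            (i + j + 1) := by rw [h2]
      _ = Nat.choose (i + N - 1) i * Nat.choose (j + 1 + N - 1) (j + 1) *
            ((i + j + 1) * (j + 1)) := by ring

theorem cp_choose_le (N : ℕ) (hN : 1 ≤ N) (j : ℕ) : Nat.choose (j + N - 1) j ≤ N ^ j := by
  induction j with
  | zero => simp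
  | succ j ih =>
    have h := cp_choose_mul N hN j 1
    have e : Nat.choose (1 + N - 1) 1 = N := by simp
    rw [e] at h
    calc Nat.choose (j + 1 + N - 1) (j + 1) ≤ Nat.choose (j + N - 1) j * N := h
      _ ≤ N ^ j * N := Nat.mul_le_mul_right _ ih
      _ = N ^ (j + 1) := by ring

theorem cp_conv (N N' k : ℕ) (hN : 1 ≤ N) (hN' : 1 ≤ N') :
    ∑ i ∈ Finset.HasAntidiagonal.antidiagonal k, Nat.choose (i.1 + N - 1) i.1 * Nat.choose (i.2 + N' - 1) i.2 =
      Nat.choose (k + (N + N') - 1) k := by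
  have h0 : ∀ M : ℕ, 1 ≤ M → ∀ j : ℕ,
      PowerSeries.coeff j (PowerSeries.invOneSubPow ℤ M).val = ((Nat.choose (j + M - 1) j : ℕ) : ℤ) := by
    intro M hM j
    rw [PowerSeries.invOneSubPow_val_eq_mk_sub_one_add_choose_of_pos ℤ M (by omega),
      PowerSeries.coeff_mk]
    have e1 : M - 1 + j = j + M - 1 := by omega
    rw [e1]
    congr 1
    have e2 := Nat.choose_symm_of_eq_add (n := j + M - 1) (a := M - 1) (b := j) (by omega)
    exact_mod_cast e2
  have h1 := congrArg Units.val (PowerSeries.invOneSubPow_add ℤ N N')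
  have h2 := congrArg (PowerSeries.coeff k) h1
  rw [h0 (N + N') (by omega) k, Units.val_mul, PowerSeries.coeff_mul] at h2
  have h3 : ∑ i ∈ Finset.HasAntidiagonal.antidiagonal k,
      PowerSeries.coeff i.1 (PowerSeries.invOneSubPow ℤ N).val *
        PowerSeries.coeff i.2 (PowerSeries.invOneSubPow ℤ N').val =
      ∑ i ∈ Finset.HasAntidiagonal.antidiagonal k, (((Nat.choose (i.1 + N - 1) i.1 *
        Nat.choose (i.2 + N' - 1) i.2 : ℕ)) : ℤ) := by
    refine Finset.sum_congr rfl fun i _ => ?_
    rw [h0 N hN, h0 N' hN']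
    push_cast
    ring
  rw [h3, ← Nat.cast_sum] at h2
  exact_mod_cast h2.symm

/-! the function `dn` -/

theorem cp_dn_zero (N : ℕ) : dn N 0 = 1 := by simp [dn]

theorem cp_dn_one (N : ℕ) : dn N 1 = 1 := by simp [dn]

theorem cp_dn_pow (N p j : ℕ) (hp : p.Prime) : dn N (p ^ j) = Nat.choose (j + N - 1) j := by
  unfold dn
  rw [hp.factorization_pow, Finsupp.prod_single_index]
  simp

theorem dn_cop (N a b : ℕ) (h : Nat.Coprime a b) (ha : 1 ≤ a) (hb : 1 ≤ b) :
    dn N (a * b) = dn N a * dn N b := by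
  have _ := ha
  have _ := hb
  unfold dn
  rw [Nat.factorization_mul_of_coprime h]
  refine Finsupp.prod_add_index_of_disjoint ?_ _
  simpa using h.disjoint_primeFactors

theorem al_mul (lam : ℕ → ℂ) (a b : ℕ) (h : Nat.Coprime a b) :
    al lam (a * b) = al lam a * al lam b := by
  unfold al
  rw [Nat.factorization_mul_of_coprime h]
  refine Finsupp.prod_add_index_of_disjoint ?_ _
  simpa using h.disjoint_primeFactors

theorem dn_mul_le (N a b : ℕ) (hN : 1 ≤ N) (ha : 1 ≤ a) (hb : 1 ≤ b) :
    dn N (a * b) ≤ dn N a * dn N b := by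
  classical
  unfold dn
  set s := a.primeFactors ∪ b.primeFactors with hs
  have h1 : (a * b).factorization.prod (fun _ j => Nat.choose (j + N - 1) j) =
      ∏ p ∈ s, Nat.choose ((a * b).factorization p + N - 1) ((a * b).factorization p) := by
    refine Finsupp.prod_of_support_subset _ ?_ _ (by simp)
    rw [Nat.support_factorization, Nat.primeFactors_mul (by omega) (by omega)]
  have h2 : a.factorization.prod (fun _ j => Nat.choose (j + N - 1) j) =
      ∏ p ∈ s, Nat.choose (a.factorization p + N - 1) (a.factorization p) := by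
    refine Finsupp.prod_of_support_subset _ ?_ _ (by simp)
    rw [Nat.support_factorization]
    exact Finset.subset_union_left
  have h3 : b.factorization.prod (fun _ j => Nat.choose (j + N - 1) j) =
      ∏ p ∈ s, Nat.choose (b.factorization p + N - 1) (b.factorization p) := by
    refine Finsupp.prod_of_support_subset _ ?_ _ (by simp)
    rw [Nat.support_factorization]
    exact Finset.subset_union_right
  rw [h1, h2, h3, ← Finset.prod_mul_distrib]
  refine Finset.prod_le_prod' fun p _ => ?_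
  rw [Nat.factorization_mul (by omega) (by omega)]
  exact cp_choose_mul N hN _ _

/-- `dn` as an arithmetic function -/
def cp_D (N : ℕ) : ArithmeticFunction ℕ := ⟨fun m => if m = 0 then 0 else dn N m, by simp⟩

theorem cp_D_mult (N : ℕ) : (cp_D N).IsMultiplicative := by
  rw [ArithmeticFunction.IsMultiplicative.iff_ne_zero]
  constructor
  · show (if (1 : ℕ) = 0 then 0 else dn N 1) = 1
    rw [if_neg one_ne_zero, cp_dn_one]
  · intro m n hm hn h
    show (if m * n = 0 then 0 else dn N (m * n)) =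
      (if m = 0 then 0 else dn N m) * (if n = 0 then 0 else dn N n)
    rw [if_neg (mul_ne_zero hm hn), if_neg hm, if_neg hn]
    exact dn_cop N m n h (Nat.pos_of_ne_zero hm) (Nat.pos_of_ne_zero hn)

theorem cp_D_apply (N m : ℕ) (hm : 1 ≤ m) : cp_D N m = dn N m := by
  show (if m = 0 then 0 else dn N m) = dn N m
  rw [if_neg (by omega)]

theorem dn_conv (N N' m : ℕ) (hN : 1 ≤ N) (hN' : 1 ≤ N') (hm : 1 ≤ m) :
    ∑ d ∈ m.divisors, dn N d * dn N' (m / d) = dn (N + N') m := by
  have h : cp_D N * cp_D N' = cp_D (N + N') := by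
    rw [ArithmeticFunction.IsMultiplicative.eq_iff_eq_on_prime_powers _
      ((cp_D_mult N).mul (cp_D_mult N')) _ (cp_D_mult (N + N'))]
    intro p k hp
    rw [ArithmeticFunction.mul_apply, Nat.sum_divisorsAntidiagonal fun d e => cp_D N d * cp_D N' e,
      Nat.divisors_prime_pow hp, Finset.sum_map, cp_D_apply _ _ (Nat.pos_of_ne_zero (pow_ne_zero k hp.ne_zero)),
      cp_dn_pow _ _ _ hp, ← cp_conv N N' k hN hN',
      Finset.Nat.sum_antidiagonal_eq_sum_range_succ
        (fun i j => Nat.choose (i + N - 1) i * Nat.choose (j + N' - 1) j)]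
    refine Finset.sum_congr rfl fun i hi => ?_
    rw [Finset.mem_range] at hi
    have e : p ^ k / p ^ i = p ^ (k - i) := Nat.pow_div (by omega) hp.pos
    simp only [Function.Embedding.coeFn_mk]
    rw [e, cp_D_apply _ _ (Nat.pos_of_ne_zero (pow_ne_zero i hp.ne_zero)),
      cp_D_apply _ _ (Nat.pos_of_ne_zero (pow_ne_zero (k - i) hp.ne_zero)), cp_dn_pow _ _ _ hp,
      cp_dn_pow _ _ _ hp]
  have h2 := congrArg (fun f : ArithmeticFunction ℕ => f m) h
  simp only [ArithmeticFunction.mul_apply] at h2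
  rw [Nat.sum_divisorsAntidiagonal fun d e => cp_D N d * cp_D N' e, cp_D_apply _ _ hm] at h2
  rw [← h2]
  refine Finset.sum_congr rfl fun d hd => ?_
  have hd' := Nat.dvd_of_mem_divisors hd
  rw [cp_D_apply _ _ (Nat.pos_of_dvd_of_pos hd' hm),
    cp_D_apply _ _ (Nat.div_pos (Nat.le_of_dvd hm hd') (Nat.pos_of_dvd_of_pos hd' hm))]

theorem temp_bound (n : ℕ) (hn : 1 ≤ n) (lam : ℕ → ℂ) (h : Temp n lam) (m : ℕ) (hm : 1 ≤ m) :
    ‖lam m‖ ≤ dn n m ∧ ‖al lam m‖ ≤ dn n m := by
  induction m using Nat.recOnPosPrimePosCoprime with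
  | prime_pow p k hp hk =>
    rw [cp_dn_pow _ _ _ hp]
    refine ⟨h.bdd p hp k, ?_⟩
    have e : al lam (p ^ k) = sqr (invc fun i => lam (p ^ i)) k := by
      unfold al
      rw [hp.factorization_pow, Finsupp.prod_single_index]
      simp [sqr]
    rw [e]
    exact (sqr_bound n hn (fun i => lam (p ^ i)) (by simpa using h.one) (fun j => h.bdd p hp j)
      (fun k hk => h.inv p hp k hk) k).1
  | zero => omega
  | one =>
    rw [cp_dn_one, h.one]
    simp [al]
  | coprime a b ha hb hab iha ihb =>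
    have h1 := iha (by omega)
    have h2 := ihb (by omega)
    rw [dn_cop n a b hab (by omega) (by omega), h.mul a b hab, al_mul lam a b hab,
      norm_mul, norm_mul]
    push_cast
    exact ⟨mul_le_mul h1.1 h2.1 (norm_nonneg _) (Nat.cast_nonneg _),
      mul_le_mul h1.2 h2.2 (norm_nonneg _) (Nat.cast_nonneg _)⟩

theorem cp_dn_le (N l : ℕ) (hN : 1 ≤ N) (hl : 1 ≤ l) : dn N l ≤ N ^ (Ω l) := by
  induction l using Nat.recOnPosPrimePosCoprime with
  | prime_pow p k hp hk =>
    rw [cp_dn_pow _ _ _ hp, ArithmeticFunction.cardFactors_apply_prime_pow hp]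
    exact cp_choose_le N hN k
  | zero => omega
  | one => simp [cp_dn_one]
  | coprime a b ha hb hab iha ihb =>
    rw [dn_cop N a b hab (by omega) (by omega),
      ArithmeticFunction.cardFactors_mul (by omega) (by omega), pow_add]
    exact Nat.mul_le_mul (iha (by omega)) (ihb (by omega))

theorem cp_rough_le (y : ℝ) (hy : 1 < y) (l : ℕ) (hl : 1 ≤ l) (h : Rough y l) :
    y ^ (Ω l) ≤ (l : ℝ) := by
  induction l using Nat.recOnMul with
  | zero => omega
  | one => simp
  | prime p hp =>
    rw [ArithmeticFunction.cardFactors_apply_prime hp, pow_one]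
    exact (h p hp dvd_rfl).le
  | mul a b iha ihb =>
    have ha : 1 ≤ a := by
      rcases Nat.eq_zero_or_pos a with h0 | h0
      · rw [h0, zero_mul] at hl; omega
      · exact h0
    have hb : 1 ≤ b := by
      rcases Nat.eq_zero_or_pos b with h0 | h0
      · rw [h0, mul_zero] at hl; omega
      · exact h0
    have h1 := iha ha fun p hp hd => h p hp (hd.mul_right b)
    have h2 := ihb hb fun p hp hd => h p hp (hd.mul_left a)
    rw [ArithmeticFunction.cardFactors_mul (by omega) (by omega), pow_add]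
    push_cast
    exact mul_le_mul h1 h2 (by positivity) (by positivity)

theorem dn_rough (N l : ℕ) (y : ℝ) (hN : 1 ≤ N) (hy : 1 < y) (hl : 1 ≤ l) (h : Rough y l) :
    (dn N l : ℝ) ≤ (N : ℝ) ^ (Real.log l / Real.log y) := by
  have h1 : (dn N l : ℝ) ≤ (N : ℝ) ^ (Ω l) := by exact_mod_cast cp_dn_le N l hN hl
  refine h1.trans ?_
  rw [← Real.rpow_natCast]
  have hly : 0 < Real.log y := Real.log_pos hy
  refine Real.rpow_le_rpow_of_exponent_le (by exact_mod_cast hN) ?_
  rw [le_div_iff₀ hly]
  have h2 := Real.log_le_log (by positivity) (cp_rough_le y hy l hl h)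
  rwa [Real.log_pow] at h2

end

end Pool.Agent.SGN
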