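import Pool.Agent.Lib_helper84.SGN.DefsM
import Pool.Agent.Lib_helper84.SGCF.CP

/-!
# SGN, block CE: sums over `repR` and `repL` (cites `dn_conv`, block CP)
-/

set_option autoImplicit false

namespace Pool.Agent.SGN

open Matrix Finset

noncomputable section

/-! ### the symmetry between `repR` and `repL` -/

/-- reflection in the antidiagonal -/
def ce_fl {n : ℕ} (a : Fin n → Fin n → ℤ) : Fin n → Fin n → ℤ := fun i j => a j.rev i.rev

theorem ce_fl_fl {n : ℕ} (a : Fin n → Fin n → ℤ) : ce_fl (ce_fl a) = a := by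
  funext i j
  simp [ce_fl]

theorem ce_mem_repR {n m : ℕ} (a : Fin n → Fin n → ℤ) :
    a ∈ repR n m ↔ (∀ i j, 0 ≤ a i j ∧ a i j ≤ m) ∧ (∀ i j, j < i → a i j = 0) ∧
      (∀ i j, i < j → a i j < a i i) ∧ ∏ i, a i i = m := by
  simp only [repR, Finset.mem_filter, Fintype.mem_piFinset, Finset.mem_Icc]

theorem ce_mem_repL {n m : ℕ} (a : Fin n → Fin n → ℤ) :
    a ∈ repL n m ↔ (∀ i j, 0 ≤ a i j ∧ a i j ≤ m) ∧ (∀ i j, j < i → a i j = 0) ∧
      (∀ i j, i < j → a i j < a j j) ∧ ∏ i, a i i = m := by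
  simp only [repL, Finset.mem_filter, Fintype.mem_piFinset, Finset.mem_Icc]

theorem ce_fl_R {n m : ℕ} (a : Fin n → Fin n → ℤ) (h : a ∈ repR n m) : ce_fl a ∈ repL n m := by
  rw [ce_mem_repR] at h
  rw [ce_mem_repL]
  obtain ⟨h1, h2, h3, h4⟩ := h
  refine ⟨fun i j => h1 _ _, fun i j hij => h2 _ _ ?_, fun i j hij => h3 _ _ ?_, ?_⟩
  · exact Fin.rev_lt_rev.2 hij
  · exact Fin.rev_lt_rev.2 hij
  · rw [← h4]
    exact Equiv.prod_comp Fin.revPerm (fun i => a i i)

theorem ce_fl_L {n m : ℕ} (a : Fin n → Fin n → ℤ) (h : a ∈ repL n m) : ce_fl a ∈ repR n m := by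
  rw [ce_mem_repL] at h
  rw [ce_mem_repR]
  obtain ⟨h1, h2, h3, h4⟩ := h
  refine ⟨fun i j => h1 _ _, fun i j hij => h2 _ _ ?_, fun i j hij => h3 _ _ ?_, ?_⟩
  · exact Fin.rev_lt_rev.2 hij
  · exact Fin.rev_lt_rev.2 hij
  · rw [← h4]
    exact Equiv.prod_comp Fin.revPerm (fun i => a i i)

theorem card_repR_eq (n m : ℕ) : (repR n m).card = (repL n m).card :=
  Finset.card_nbij' ce_fl ce_fl (fun a ha => ce_fl_R a ha) (fun a ha => ce_fl_L a ha)
    (fun a _ => ce_fl_fl a) (fun a _ => ce_fl_fl a)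

/-! ### the fibres of the diagonal -/

/-- the elements of `repR` with a given diagonal -/
def ce_fib {n : ℕ} (d : Fin n → ℕ) : Finset (Fin n → Fin n → ℤ) :=
  Fintype.piFinset fun i => Fintype.piFinset fun j =>
    if j < i then {0} else if i < j then Finset.Ico (0 : ℤ) (d i) else {(d i : ℤ)}

theorem ce_card_fib {n : ℕ} (d : Fin n → ℕ) :
    (ce_fib d).card = ∏ i, d i ^ (n - 1 - (i : ℕ)) := by
  rw [ce_fib, Fintype.card_piFinset]
  refine Finset.prod_congr rfl fun i _ => ?_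
  rw [Fintype.card_piFinset]
  have h1 : ∀ j : Fin n, (if j < i then ({0} : Finset ℤ) else
      if i < j then Finset.Ico (0 : ℤ) (d i) else {(d i : ℤ)}).card =
      if i < j then d i else 1 := by
    intro j
    rcases lt_trichotomy j i with h | h | h
    · rw [if_pos h, if_neg h.not_gt]; simp
    · subst h; simp
    · rw [if_neg h.not_gt, if_pos h, if_pos h]; simp
  rw [Finset.prod_congr rfl fun j _ => h1 j, Finset.prod_ite, Finset.prod_const_one, mul_one,
    Finset.prod_const]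
  congr 1
  have h2 : (Finset.univ.filter fun j => i < j) = Finset.Ioi i := by
    ext j; simp
  rw [h2, Fin.card_Ioi]

open Classical in
theorem ce_fiber {n m : ℕ} (d : Fin n → ℕ) (hd : d ∈ Nat.finMulAntidiag n m) :
    (repR n m).filter (fun a => (fun i => (a i i).toNat) = d) = ce_fib d := by
  rw [Nat.mem_finMulAntidiag] at hd
  obtain ⟨hd1, hm⟩ := hd
  have hdp : ∀ i, 0 < d i := by
    intro i
    rcases Nat.eq_zero_or_pos (d i) with h | h
    · exact absurd (hd1 ▸ Finset.prod_eq_zero (Finset.mem_univ i) h) hm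
    · exact h
  have hdm : ∀ i, d i ≤ m := by
    intro i
    apply Nat.le_of_dvd (Nat.pos_of_ne_zero hm)
    rw [← hd1]
    exact Finset.dvd_prod_of_mem _ (Finset.mem_univ i)
  ext a
  rw [Finset.mem_filter, ce_mem_repR]
  simp only [ce_fib, Fintype.mem_piFinset]
  constructor
  · rintro ⟨⟨h1, h2, h3, h4⟩, h5⟩ i j
    have h6 : ∀ i, a i i = d i := by
      intro i
      have := congrFun h5 i
      have h7 := (h1 i i).1
      omega
    rcases lt_trichotomy j i with h | h | h
    · rw [if_pos h]; simpa using h2 i j h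
    · subst h; simp [h6]
    · rw [if_neg h.not_gt, if_pos h, Finset.mem_Ico]
      exact ⟨(h1 i j).1, h6 i ▸ h3 i j h⟩
  · intro h
    have h6 : ∀ i, a i i = d i := by
      intro i
      have := h i i
      simpa using this
    have h2 : ∀ i j, j < i → a i j = 0 := by
      intro i j hij
      have := h i j
      rw [if_pos hij] at this
      simpa using this
    have h3 : ∀ i j, i < j → 0 ≤ a i j ∧ a i j < d i := by
      intro i j hij
      have := h i j
      rw [if_neg hij.not_gt, if_pos hij, Finset.mem_Ico] at this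
      exact this
    refine ⟨⟨?_, h2, fun i j hij => by rw [h6 i]; exact (h3 i j hij).2, ?_⟩, ?_⟩
    · intro i j
      have hi := hdm i
      rcases lt_trichotomy j i with hh | hh | hh
      · rw [h2 i j hh]; exact ⟨le_refl _, by positivity⟩
      · subst hh; rw [h6 j]; exact ⟨by positivity, by exact_mod_cast hi⟩
      · have h7 := h3 i j hh
        exact ⟨h7.1, by omega⟩
    · rw [Finset.prod_congr rfl fun i _ => h6 i, ← hd1]
      push_cast; rfl
    · funext i
      simp only [h6 i]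
      simp

open Classical in
theorem ce_maps {n m : ℕ} (hm : 1 ≤ m) (a : Fin n → Fin n → ℤ) (ha : a ∈ repR n m) :
    (fun i => (a i i).toNat) ∈ Nat.finMulAntidiag n m := by
  rw [ce_mem_repR] at ha
  obtain ⟨h1, h2, h3, h4⟩ := ha
  rw [Nat.mem_finMulAntidiag]
  refine ⟨?_, by omega⟩
  have h5 : ((∏ i, (a i i).toNat : ℕ) : ℤ) = m := by
    rw [← h4]
    push_cast
    exact Finset.prod_congr rfl fun i _ => Int.toNat_of_nonneg (h1 i i).1
  exact_mod_cast h5

/-! ### the number of ordered factorisations -/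

theorem ce_card_succ (n m : ℕ) (hm : 1 ≤ m) :
    (Nat.finMulAntidiag (n + 1) m).card =
      ∑ d ∈ m.divisors, (Nat.finMulAntidiag n (m / d)).card := by
  classical
  rw [Finset.card_eq_sum_card_fiberwise (f := fun g : Fin (n + 1) → ℕ => g 0) (t := m.divisors)]
  · refine Finset.sum_congr rfl fun d hd => ?_
    rw [Nat.mem_divisors] at hd
    have hd0 : 0 < d := Nat.pos_of_dvd_of_pos hd.1 hm
    refine Finset.card_nbij' (fun g => Fin.tail g) (fun g => Fin.cons d g) ?_ ?_ ?_ ?_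
    · intro g hg
      simp only [Finset.coe_filter, Set.mem_ofPred_eq, Nat.mem_finMulAntidiag] at hg
      obtain ⟨⟨h1, h2⟩, h3⟩ := hg
      simp only [Finset.mem_coe, Nat.mem_finMulAntidiag]
      rw [Fin.prod_univ_succ, h3] at h1
      refine ⟨?_, ?_⟩
      · rw [← h1, Nat.mul_div_cancel_left _ hd0]; rfl
      · exact (Nat.div_pos (Nat.le_of_dvd hm hd.1) hd0).ne'
    · intro g hg
      simp only [Finset.mem_coe, Nat.mem_finMulAntidiag] at hg
      simp only [Finset.coe_filter, Set.mem_ofPred_eq, Nat.mem_finMulAntidiag]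
      refine ⟨⟨?_, by omega⟩, rfl⟩
      rw [Fin.prod_univ_succ]
      simp only [Fin.cons_zero, Fin.cons_succ]
      rw [hg.1]
      exact Nat.mul_div_cancel' hd.1
    · intro g hg
      simp only [Finset.coe_filter, Set.mem_ofPred_eq] at hg
      rw [← hg.2]
      exact Fin.cons_self_tail g
    · intro g _
      exact Fin.tail_cons _ _
  · intro g hg
    simp only [Finset.mem_coe, Nat.mem_finMulAntidiag] at hg
    simp only [Finset.mem_coe, Nat.mem_divisors]
    refine ⟨?_, by omega⟩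
    rw [← hg.1, Fin.prod_univ_succ]
    exact Dvd.intro _ rfl

theorem ce_dn_one (m : ℕ) : dn 1 m = 1 := by
  unfold dn
  rw [Finsupp.prod]
  exact Finset.prod_eq_one fun p _ => by simp

theorem ce_card (n : ℕ) (hn : 1 ≤ n) : ∀ m : ℕ, 1 ≤ m →
    (Nat.finMulAntidiag n m).card = dn n m := by
  induction n, hn using Nat.le_induction with
  | base =>
    intro m hm
    rw [ce_dn_one, Finset.card_eq_one]
    refine ⟨fun _ => m, ?_⟩
    ext g
    rw [Nat.mem_finMulAntidiag, Finset.mem_singleton]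
    constructor
    · rintro ⟨h, _⟩
      funext i
      rw [Fin.prod_univ_one] at h
      rw [Subsingleton.elim i 0, h]
    · rintro rfl
      exact ⟨by simp, by omega⟩
  | succ n hn ih =>
    intro m hm
    rw [ce_card_succ n m hm, Nat.add_comm n 1, ← dn_conv 1 n m (le_refl _) hn hm]
    refine Finset.sum_congr rfl fun d hd => ?_
    rw [Nat.mem_divisors] at hd
    have hd0 : 0 < d := Nat.pos_of_dvd_of_pos hd.1 hm
    rw [ce_dn_one, one_mul]
    exact ih _ (Nat.div_pos (Nat.le_of_dvd hm hd.1) hd0)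

/-! ### the sums -/

theorem sum_repR (n m : ℕ) (hn : 1 ≤ n) (hm : 1 ≤ m) :
    ∑ a ∈ repR n m, ∏ i, ((a i i : ℤ) : ℝ) ^ (((n : ℝ) - 1) / 2 - ((n : ℝ) - 1 - ((i : ℕ) : ℝ))) =
      (m : ℝ) ^ (((n : ℝ) - 1) / 2) * dn n m := by
  classical
  rw [← Finset.sum_fiberwise_of_maps_to (g := fun a : Fin n → Fin n → ℤ => fun i => (a i i).toNat)
    (t := Nat.finMulAntidiag n m) (fun a ha => ce_maps hm a ha)]
  have h1 : ∀ d ∈ Nat.finMulAntidiag n m,
      ∑ a ∈ (repR n m).filter (fun a => (fun i => (a i i).toNat) = d),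
        ∏ i, ((a i i : ℤ) : ℝ) ^ (((n : ℝ) - 1) / 2 - ((n : ℝ) - 1 - ((i : ℕ) : ℝ))) =
      (m : ℝ) ^ (((n : ℝ) - 1) / 2) := by
    intro d hd
    have h2 : ∀ a ∈ (repR n m).filter (fun a => (fun i => (a i i).toNat) = d),
        ∏ i, ((a i i : ℤ) : ℝ) ^ (((n : ℝ) - 1) / 2 - ((n : ℝ) - 1 - ((i : ℕ) : ℝ))) =
          ∏ i, (d i : ℝ) ^ (((n : ℝ) - 1) / 2 - ((n : ℝ) - 1 - ((i : ℕ) : ℝ))) := by
      intro a ha
      rw [Finset.mem_filter, ce_mem_repR] at ha
      obtain ⟨⟨h3, _⟩, h4⟩ := ha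
      refine Finset.prod_congr rfl fun i _ => ?_
      have h5 : a i i = d i := by
        have := congrFun h4 i
        have h7 := (h3 i i).1
        omega
      rw [h5]; simp
    rw [Finset.sum_congr rfl h2, Finset.sum_const, ce_fiber d hd, ce_card_fib, nsmul_eq_mul]
    rw [Nat.mem_finMulAntidiag] at hd
    obtain ⟨hd1, hm0⟩ := hd
    have hdp : ∀ i, 0 < d i := by
      intro i
      rcases Nat.eq_zero_or_pos (d i) with h | h
      · exact absurd (hd1 ▸ Finset.prod_eq_zero (Finset.mem_univ i) h) hm0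
      · exact h
    push_cast
    rw [← Finset.prod_mul_distrib, ← hd1]
    push_cast
    rw [← Real.finsetProd_rpow _ _ (fun i _ => by positivity)]
    refine Finset.prod_congr rfl fun i _ => ?_
    have hi : (0 : ℝ) < d i := by exact_mod_cast hdp i
    have hin : (i : ℕ) < n := i.2
    rw [← Real.rpow_natCast, ← Real.rpow_add hi]
    congr 1
    rw [Nat.cast_sub (by omega), Nat.cast_sub hn]
    push_cast
    ring
  rw [Finset.sum_congr rfl h1, Finset.sum_const, ce_card n hn m hm, nsmul_eq_mul, mul_comm]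

theorem sum_repL (n m : ℕ) (hn : 1 ≤ n) (hm : 1 ≤ m) :
    ∑ a ∈ repL n m, ∏ i, ((a i i : ℤ) : ℝ) ^ (((n : ℝ) - 1) / 2 - ((i : ℕ) : ℝ)) =
      (m : ℝ) ^ (((n : ℝ) - 1) / 2) * dn n m := by
  rw [← sum_repR n m hn hm]
  refine Finset.sum_nbij' ce_fl ce_fl (fun a ha => ce_fl_L a ha) (fun a ha => ce_fl_R a ha)
    (fun a _ => ce_fl_fl a) (fun a _ => ce_fl_fl a) ?_
  intro a _
  rw [← Equiv.prod_comp Fin.revPerm (fun i => ((ce_fl a i i : ℤ) : ℝ) ^
    (((n : ℝ) - 1) / 2 - ((n : ℝ) - 1 - ((i : ℕ) : ℝ))))]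
  refine Finset.prod_congr rfl fun i _ => ?_
  simp only [ce_fl, Fin.revPerm_apply, Fin.rev_rev, Fin.val_rev]
  congr 1
  have hin : (i : ℕ) < n := i.2
  rw [Nat.cast_sub (by omega)]
  push_cast
  ring

end

end Pool.Agent.SGN
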