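import Pool.Agent.Lib_helper84.SGN.DefsM
import Pool.Agent.Lib_helper84.SGCF.CA
import Pool.Agent.Lib_helper84.SGCF.CC
import Pool.Agent.Lib_helper84.SGCF.CD
import Pool.Agent.Lib_helper84.SGCF.CE
import Pool.Agent.Lib_helper84.SGCF.HNFD

/-!
# SGN, part C: block CF (Schur weight on the lattices)
-/

set_option autoImplicit false

namespace Pool.Agent.SGN

open MeasureTheory Matrix Complex ProbabilityTheory
open Pool.Agent.GLQ (re unip cube Lat Lz latt sp qq)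
open scoped ArithmeticFunction.Omega ENNReal

noncomputable section

/-- upper triangular with positive diagonal -/
def cf_T {n : ℕ} (δ : Matrix (Fin n) (Fin n) ℚ) : Prop :=
  (∀ i j, j < i → δ i j = 0) ∧ ∀ i, 0 < δ i i

theorem cf_T_det {n : ℕ} {δ : Matrix (Fin n) (Fin n) ℚ} (h : cf_T δ) : δ.det ≠ 0 := by
  have h1 : δ.det = ∏ i, δ i i := Matrix.det_of_isUpperTriangular (by
    intro i j hij
    exact h.1 i j hij)
  rw [h1]
  exact (Finset.prod_pos fun i _ => h.2 i).ne'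

theorem cf_basis (hnf : HNF) {n : ℕ} (L : Lat n) (hL : Full L) :
    ∃ δ : Matrix (Fin n) (Fin n) ℚ, cf_T δ ∧ latt δ = L := by
  obtain ⟨δ, h1, h2, h3⟩ := tri_basis hnf L hL
  exact ⟨δ, ⟨h1, h2⟩, h3⟩

theorem cf_sum_sup (hnf : HNF) {n k : ℕ} (hk : 1 ≤ k) {δ : Matrix (Fin n) (Fin n) ℚ}
    (hδ : δ.det ≠ 0) (hL : Full (latt δ)) {M : Type} [AddCommMonoid M] (g : Lat n → M) :
    ∑ N ∈ supS k (latt δ), g N = ∑ a ∈ repR n k, g (latt ((qq (Matrix.of a))⁻¹ * δ)) := by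
  have hb := sup_rep hnf hk δ hδ
  symm
  refine Finset.sum_nbij (fun a : Fin n → Fin n → ℤ => latt ((qq (Matrix.of a))⁻¹ * δ))
    ?_ hb.injOn ?_ fun a _ => rfl
  · intro a ha
    exact (mem_supS hk _ hL _).2 (hb.mapsTo ha)
  · intro N hN
    exact hb.surjOn ((mem_supS hk _ hL _).1 hN)

theorem cf_sum_sub (hnf : HNF) {n k : ℕ} (hk : 1 ≤ k) {δ : Matrix (Fin n) (Fin n) ℚ}
    (hδ : δ.det ≠ 0) (hL : Full (latt δ)) {M : Type} [AddCommMonoid M] (g : Lat n → M) :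
    ∑ N ∈ subS k (latt δ), g N = ∑ a ∈ repL n k, g (latt (qq (Matrix.of a) * δ)) := by
  have hb := sub_rep hnf hk δ hδ
  symm
  refine Finset.sum_nbij (fun a : Fin n → Fin n → ℤ => latt (qq (Matrix.of a) * δ))
    ?_ hb.injOn ?_ fun a _ => rfl
  · intro a ha
    exact (mem_subS hk _ hL _).2 (hb.mapsTo ha)
  · intro N hN
    exact hb.surjOn ((mem_subS hk _ hL _).1 hN)

theorem card_sup_sub (hnf : HNF) {n k : ℕ} (hk : 1 ≤ k) (L L' : Lat n) (hL : Full L)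
    (hL' : Full L') : (supS k L).card = (subS k L').card := by
  obtain ⟨δ, hδ, rfl⟩ := cf_basis hnf L hL
  obtain ⟨δ', hδ', rfl⟩ := cf_basis hnf L' hL'
  rw [Finset.card_eq_sum_ones, Finset.card_eq_sum_ones,
    cf_sum_sup hnf hk (cf_T_det hδ) hL (fun _ => (1 : ℕ)),
    cf_sum_sub hnf hk (cf_T_det hδ') hL' (fun _ => (1 : ℕ)), ← Finset.card_eq_sum_ones,
    ← Finset.card_eq_sum_ones, card_repR_eq]

/-! ### triangular matrices -/

theorem cf_mul {n : ℕ} {a b : Matrix (Fin n) (Fin n) ℚ} (ha : cf_T a) (hb : cf_T b) :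
    cf_T (a * b) ∧ ∀ i, (a * b) i i = a i i * b i i := by
  have h1 : ∀ i, (a * b) i i = a i i * b i i := by
    intro i
    rw [Matrix.mul_apply]
    refine Finset.sum_eq_single_of_mem i (Finset.mem_univ _) fun j _ hj => ?_
    rcases lt_or_gt_of_ne hj with h | h
    · rw [ha.1 i j h, zero_mul]
    · rw [hb.1 j i h, mul_zero]
  refine ⟨⟨?_, fun i => ?_⟩, h1⟩
  · intro i j hij
    rw [Matrix.mul_apply]
    refine Finset.sum_eq_zero fun k _ => ?_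
    rcases lt_or_ge k i with h | h
    · rw [ha.1 i k h, zero_mul]
    · rw [hb.1 k j (lt_of_lt_of_le hij h), mul_zero]
  · rw [h1]
    exact mul_pos (ha.2 i) (hb.2 i)

theorem cf_inv {n : ℕ} {a : Matrix (Fin n) (Fin n) ℚ} (ha : cf_T a) :
    cf_T a⁻¹ ∧ ∀ i, a⁻¹ i i = (a i i)⁻¹ := by
  have hd : IsUnit a.det := (cf_T_det ha).isUnit
  have : Invertible a := Matrix.invertibleOfIsUnitDet a hd
  have h0 : Matrix.BlockTriangular a id := fun i j hij => ha.1 i j hij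
  have h1 : Matrix.BlockTriangular a⁻¹ id := Matrix.blockTriangular_inv_of_blockTriangular h0
  have h2 : ∀ i j, j < i → a⁻¹ i j = 0 := fun i j hij => h1 hij
  have h3 : ∀ i, a i i * a⁻¹ i i = 1 := by
    intro i
    have h4 := congrFun (congrFun (Matrix.mul_nonsing_inv a hd) i) i
    rw [Matrix.one_apply_eq, Matrix.mul_apply] at h4
    rw [← h4]
    symm
    refine Finset.sum_eq_single_of_mem i (Finset.mem_univ _) fun j _ hj => ?_
    rcases lt_or_gt_of_ne hj with h | h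
    · rw [ha.1 i j h, zero_mul]
    · rw [h2 j i h, mul_zero]
  have h5 : ∀ i, a⁻¹ i i = (a i i)⁻¹ := fun i => eq_inv_of_mul_eq_one_right (h3 i)
  refine ⟨⟨h2, fun i => ?_⟩, h5⟩
  rw [h5]
  exact inv_pos.2 (ha.2 i)

theorem cf_qq {n : ℕ} {a : Fin n → Fin n → ℤ} (h1 : ∀ i j, j < i → a i j = 0)
    (h2 : ∀ i, 0 < a i i) : cf_T (qq (Matrix.of a)) := by
  refine ⟨fun i j hij => ?_, fun i => ?_⟩
  · show ((a i j : ℤ) : ℚ) = 0
    rw [h1 i j hij, Int.cast_zero]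
  · show (0 : ℚ) < ((a i i : ℤ) : ℚ)
    exact Int.cast_pos.2 (h2 i)

theorem cf_repR {n m : ℕ} (hm : 1 ≤ m) {a : Fin n → Fin n → ℤ} (ha : a ∈ repR n m) :
    (∀ i j, j < i → a i j = 0) ∧ ∀ i, 0 < a i i := by
  unfold repR at ha
  rw [Finset.mem_filter] at ha
  obtain ⟨h0, h1, -, h3⟩ := ha
  refine ⟨h1, fun i => ?_⟩
  have h4 := Finset.mem_Icc.1 (Fintype.mem_piFinset.1 (Fintype.mem_piFinset.1 h0 i) i)
  refine lt_of_le_of_ne h4.1 fun h5 => ?_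
  have h6 : ∏ i, a i i = 0 := Finset.prod_eq_zero (Finset.mem_univ i) h5.symm
  rw [h6] at h3
  omega

theorem cf_repL {n m : ℕ} (hm : 1 ≤ m) {a : Fin n → Fin n → ℤ} (ha : a ∈ repL n m) :
    (∀ i j, j < i → a i j = 0) ∧ ∀ i, 0 < a i i := by
  unfold repL at ha
  rw [Finset.mem_filter] at ha
  obtain ⟨h0, h1, -, h3⟩ := ha
  refine ⟨h1, fun i => ?_⟩
  have h4 := Finset.mem_Icc.1 (Fintype.mem_piFinset.1 (Fintype.mem_piFinset.1 h0 i) i)
  refine lt_of_le_of_ne h4.1 fun h5 => ?_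
  have h6 : ∏ i, a i i = 0 := Finset.prod_eq_zero (Finset.mem_univ i) h5.symm
  rw [h6] at h3
  omega

/-! ### the weight -/

/-- the product of the powers of the diagonal entries -/
def cf_p {n : ℕ} (δ : Matrix (Fin n) (Fin n) ℚ) : ℝ :=
  ∏ i : Fin n, ((δ i i : ℚ) : ℝ) ^ (((n : ℝ) - 1) / 2 - ((i : ℕ) : ℝ))

open Classical in
/-- the weight -/
def cf_w {n : ℕ} (L : Lat n) : ℝ :=
  if h : ∃ δ : Matrix (Fin n) (Fin n) ℚ, cf_T δ ∧ latt δ = L then cf_p h.choose else 1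

theorem cf_p_pos {n : ℕ} {δ : Matrix (Fin n) (Fin n) ℚ} (h : cf_T δ) : 0 < cf_p δ :=
  Finset.prod_pos fun i _ => Real.rpow_pos_of_pos (Rat.cast_pos.2 (h.2 i)) _

theorem cf_w_pos {n : ℕ} (L : Lat n) : 0 < cf_w L := by
  unfold cf_w
  split_ifs with h
  · exact cf_p_pos h.choose_spec.1
  · exact one_pos

theorem cf_w_eq {n : ℕ} {δ : Matrix (Fin n) (Fin n) ℚ} (h : cf_T δ) : cf_w (latt δ) = cf_p δ := by
  have h0 : ∃ δ' : Matrix (Fin n) (Fin n) ℚ, cf_T δ' ∧ latt δ' = latt δ := ⟨δ, h, rfl⟩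
  unfold cf_w
  rw [dif_pos h0]
  obtain ⟨h1, h2⟩ := h0.choose_spec
  have h3 := tri_uniq h0.choose δ h1.1 h1.2 h.1 h.2 h2
  unfold cf_p
  exact Finset.prod_congr rfl fun i _ => by rw [h3 i]

theorem schur_w (hnf : HNF) (n : ℕ) (hn : 1 ≤ n) : ∃ w : Lat n → ℝ, (∀ L, Full L → 0 < w L) ∧
    ∀ m : ℕ, 1 ≤ m → ∀ L, Full L →
      ∑ M ∈ supS m L, w M ≤ (m : ℝ) ^ (((n : ℝ) - 1) / 2) * dn n m * w L ∧
      ∑ M ∈ subS m L, w M ≤ (m : ℝ) ^ (((n : ℝ) - 1) / 2) * dn n m * w L := by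
  refine ⟨cf_w, fun L _ => cf_w_pos L, fun m hm L hL => ?_⟩
  obtain ⟨δ, hδ, rfl⟩ := cf_basis hnf L hL
  constructor
  · rw [cf_sum_sup hnf hm (cf_T_det hδ) hL, cf_w_eq hδ, ← sum_repR n m hn hm, Finset.sum_mul]
    refine Finset.sum_le_sum fun a ha => ?_
    obtain ⟨h1, h2⟩ := cf_repR hm ha
    obtain ⟨h3, h4⟩ := cf_inv (cf_qq h1 h2)
    obtain ⟨h5, h6⟩ := cf_mul h3 hδ
    rw [cf_w_eq h5]
    unfold cf_p
    rw [← Finset.prod_mul_distrib]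
    refine le_of_eq (Finset.prod_congr rfl fun i _ => ?_)
    rw [h6 i, h4 i]
    have h7 : (0 : ℝ) < ((a i i : ℤ) : ℝ) := Int.cast_pos.2 (h2 i)
    have h8 : (0 : ℝ) < ((δ i i : ℚ) : ℝ) := Rat.cast_pos.2 (hδ.2 i)
    have h9 : ((((qq (Matrix.of a) i i)⁻¹ * δ i i : ℚ)) : ℝ) =
        ((a i i : ℤ) : ℝ)⁻¹ * ((δ i i : ℚ) : ℝ) := by
      show ((((((a i i : ℤ) : ℚ))⁻¹ * δ i i : ℚ)) : ℝ) = _
      push_cast
      rfl
    rw [h9, Real.mul_rpow (inv_pos.2 h7).le h8.le, Real.inv_rpow h7.le, ← Real.rpow_neg h7.le]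
    congr 2
    ring
  · rw [cf_sum_sub hnf hm (cf_T_det hδ) hL, cf_w_eq hδ, ← sum_repL n m hn hm, Finset.sum_mul]
    refine Finset.sum_le_sum fun a ha => ?_
    obtain ⟨h1, h2⟩ := cf_repL hm ha
    obtain ⟨h5, h6⟩ := cf_mul (cf_qq h1 h2) hδ
    rw [cf_w_eq h5]
    unfold cf_p
    rw [← Finset.prod_mul_distrib]
    refine le_of_eq (Finset.prod_congr rfl fun i _ => ?_)
    rw [h6 i]
    have h7 : (0 : ℝ) < ((a i i : ℤ) : ℝ) := Int.cast_pos.2 (h2 i)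
    have h8 : (0 : ℝ) < ((δ i i : ℚ) : ℝ) := Rat.cast_pos.2 (hδ.2 i)
    have h9 : (((qq (Matrix.of a) i i * δ i i : ℚ)) : ℝ) =
        ((a i i : ℤ) : ℝ) * ((δ i i : ℚ) : ℝ) := by
      show (((((a i i : ℤ) : ℚ) * δ i i : ℚ)) : ℝ) = _
      push_cast
      rfl
    rw [h9, Real.mul_rpow h7.le h8.le]

end

end Pool.Agent.SGN
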