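import Pool.Agent.Lib_helper84.SGN.DefsM

/-! SGN, part C, block CB: as many subgroups of order `d` as of index `d` (finite abelian groups). -/

set_option autoImplicit false

namespace Pool.Agent.SGN

theorem cb_mul (G : Type) [CommGroup G] [Finite G] :
    ∃ F : Subgroup G ≃ Subgroup G, ∀ K, Nat.card (F K) = K.index := by
  obtain ⟨e⟩ := CommGroup.monoidHom_mulEquiv_of_hasEnoughRootsOfUnity G ℂ
  refine ⟨(CommGroup.subgroupOrderIsoSubgroupMonoidHom G ℂ).toEquiv.trans
    (OrderDual.ofDual.trans e.mapSubgroup.toEquiv), fun K => ?_⟩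
  rw [Subgroup.index, ← CommGroup.card_subgroupOrderIsoSubgroupMonoidHom (M := ℂ) K]
  exact Nat.card_congr (e.subgroupMap
    (CommGroup.subgroupOrderIsoSubgroupMonoidHom G ℂ K).ofDual).toEquiv.symm

theorem cb_mul_card (G : Type) [CommGroup G] [Finite G] (d : ℕ) :
    Nat.card {K : Subgroup G // Nat.card K = d} = Nat.card {K : Subgroup G // K.index = d} := by
  obtain ⟨F, hF⟩ := cb_mul G
  refine (Nat.card_congr (F.subtypeEquiv fun K => ?_)).symm
  rw [hF]

theorem sub_dual (H : Type) [AddCommGroup H] [Finite H] (d : ℕ) :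
    Nat.card {K : AddSubgroup H // Nat.card K = d} =
      Nat.card {K : AddSubgroup H // K.index = d} := by
  have h1 : Nat.card {K : AddSubgroup H // Nat.card K = d} =
      Nat.card {K : Subgroup (Multiplicative H) // Nat.card K = d} := by
    refine Nat.card_congr (AddSubgroup.toSubgroup.toEquiv.subtypeEquiv fun K => ?_)
    exact Iff.rfl
  have h2 : Nat.card {K : AddSubgroup H // K.index = d} =
      Nat.card {K : Subgroup (Multiplicative H) // K.index = d} := by
    refine Nat.card_congr (AddSubgroup.toSubgroup.toEquiv.subtypeEquiv fun K => ?_)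
    exact Iff.rfl
  rw [h1, h2]
  exact cb_mul_card _ d

end Pool.Agent.SGN
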