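import Pool.Agent.Lib_helper84.SGN.DefsM
import Pool.Agent.Lib_helper84.SGCF.CA
import Pool.Agent.Lib_helper84.SGCF.CB
import Pool.Agent.Lib_helper84.SGCF.CF
import Pool.Agent.Lib_helper84.SGCF.HNFD

/-!
# SGN, part C, block CG: the operators commute
-/

set_option autoImplicit false

namespace Pool.Agent.SGN

open MeasureTheory Matrix Complex ProbabilityTheory
open Pool.Agent.GLQ (re unip cube Lat Lz latt sp qq)
open scoped ArithmeticFunction.Omega ENNReal

noncomputable section

/-- the subgroups between `L` and `N` with given indices -/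
def cg_T {G : Type} [AddCommGroup G] (L N : AddSubgroup G) (a b : ℕ) : Set (AddSubgroup G) :=
  {M | L ≤ M ∧ M ≤ N ∧ L.relIndex M = a ∧ M.relIndex N = b}

/-- the correspondence theorem -/
theorem cg_corr {G : Type} [AddCommGroup G] (L N : AddSubgroup G) (a b : ℕ) (hLN : L ≤ N) :
    (cg_T L N a b).ncard =
      Nat.card {K : AddSubgroup (N ⧸ L.addSubgroupOf N) // Nat.card K = a ∧ K.index = b} := by
  set f := QuotientAddGroup.mk' (L.addSubgroupOf N) with hf
  have hfs : Function.Surjective f := QuotientAddGroup.mk'_surjective _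
  have hker : f.ker = L.addSubgroupOf N := QuotientAddGroup.ker_mk' _
  have hinj : Function.Injective N.subtype := N.subtype_injective
  rw [← Nat.card_coe_set_eq]
  refine Nat.card_congr
    { toFun := fun M => ⟨(M.1.addSubgroupOf N).map f, ?_, ?_⟩
      invFun := fun K => ⟨(K.1.comap f).map N.subtype, ?_, ?_, ?_, ?_⟩
      left_inv := ?_
      right_inv := ?_ }
  · have h1 := AddSubgroup.relIndex_ker (M.1.addSubgroupOf N) f
    rw [← h1, hker, AddSubgroup.relIndex_addSubgroupOf M.2.2.1]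
    exact M.2.2.2.1
  · rw [AddSubgroup.index_map_eq _ hfs]
    · exact M.2.2.2.2
    · rw [hker]
      exact AddSubgroup.comap_mono M.2.1
  · intro x hx
    refine ⟨⟨x, hLN hx⟩, ?_, rfl⟩
    have h1 : (⟨x, hLN hx⟩ : N) ∈ f.ker := by
      rw [hker]
      exact hx
    show f ⟨x, hLN hx⟩ ∈ K.1
    rw [AddMonoidHom.mem_ker.mp h1]
    exact K.1.zero_mem
  · exact (AddSubgroup.map_subtype_le _)
  · have h1 : ((K.1.comap f).map N.subtype).addSubgroupOf N = K.1.comap f :=
      AddSubgroup.comap_map_eq_self_of_injective hinj _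
    have h2 : (K.1.comap f).map N.subtype ≤ N := AddSubgroup.map_subtype_le _
    rw [← AddSubgroup.relIndex_addSubgroupOf h2, h1]
    have h3 := AddSubgroup.relIndex_ker (K.1.comap f) f
    rw [hker, AddSubgroup.map_comap_eq_self_of_surjective hfs] at h3
    exact h3.trans K.2.1
  · have h1 : ((K.1.comap f).map N.subtype).addSubgroupOf N = K.1.comap f :=
      AddSubgroup.comap_map_eq_self_of_injective hinj _
    show (((K.1.comap f).map N.subtype).addSubgroupOf N).index = b
    rw [h1, AddSubgroup.index_comap_of_surjective _ hfs]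
    exact K.2.2
  · intro M
    apply Subtype.ext
    show (((M.1.addSubgroupOf N).map f).comap f).map N.subtype = M.1
    have h3 : L.addSubgroupOf N ≤ M.1.addSubgroupOf N := AddSubgroup.comap_mono M.2.1
    rw [AddSubgroup.comap_map_eq, hker, sup_eq_left.mpr h3]
    rw [AddSubgroup.addSubgroupOf_map_subtype, inf_eq_left.mpr M.2.2.1]
  · intro K
    apply Subtype.ext
    show (((K.1.comap f).map N.subtype).addSubgroupOf N).map f = K.1
    have h1 : ((K.1.comap f).map N.subtype).addSubgroupOf N = K.1.comap f :=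
      AddSubgroup.comap_map_eq_self_of_injective hinj _
    rw [h1, AddSubgroup.map_comap_eq_self_of_surjective hfs]

theorem cg_T_empty {G : Type} [AddCommGroup G] (L N : AddSubgroup G) (a b : ℕ)
    (h : ¬ (L ≤ N ∧ L.relIndex N = a * b)) : cg_T L N a b = ∅ := by
  ext M
  simp only [Set.mem_empty_iff_false, iff_false]
  intro hM
  apply h
  refine ⟨hM.1.trans hM.2.1, ?_⟩
  rw [← AddSubgroup.relIndex_mul_relIndex L M N hM.1 hM.2.1, hM.2.2.1, hM.2.2.2]

theorem cg_T_symm {G : Type} [AddCommGroup G] (L N : AddSubgroup G) (a b : ℕ) (ha : 1 ≤ a)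
    (hb : 1 ≤ b) : (cg_T L N a b).ncard = (cg_T L N b a).ncard := by
  by_cases h : L ≤ N ∧ L.relIndex N = a * b
  · rw [cg_corr _ _ _ _ h.1, cg_corr _ _ _ _ h.1]
    have hcard : Nat.card (N ⧸ L.addSubgroupOf N) = a * b := h.2
    haveI : Finite (N ⧸ L.addSubgroupOf N) := by
      apply Nat.finite_of_card_ne_zero
      rw [hcard]
      exact Nat.mul_ne_zero (by omega) (by omega)
    have hmul : ∀ K : AddSubgroup (N ⧸ L.addSubgroupOf N), Nat.card K * K.index = a * b :=
      fun K => by rw [AddSubgroup.card_mul_index, hcard]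
    have e1 : ∀ K : AddSubgroup (N ⧸ L.addSubgroupOf N),
        (Nat.card K = a ∧ K.index = b) ↔ Nat.card K = a := by
      intro K
      refine ⟨fun h => h.1, fun h => ⟨h, ?_⟩⟩
      have := hmul K
      rw [h] at this
      exact Nat.eq_of_mul_eq_mul_left (by omega) this
    have e2 : ∀ K : AddSubgroup (N ⧸ L.addSubgroupOf N),
        (Nat.card K = b ∧ K.index = a) ↔ K.index = a := by
      intro K
      refine ⟨fun h => h.2, fun h => ⟨?_, h⟩⟩
      have := hmul K
      rw [h, mul_comm a b] at this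
      exact Nat.eq_of_mul_eq_mul_right (by omega) this
    rw [Nat.card_congr (Equiv.subtypeEquivRight e1), Nat.card_congr (Equiv.subtypeEquivRight e2)]
    exact sub_dual _ a
  · rw [cg_T_empty L N a b h, cg_T_empty L N b a (by rwa [mul_comm b a])]

/-- a finite abelian group of order `a * b`, `(a, b) = 1`, has exactly one subgroup of order `a` -/
theorem cg_hall {H : Type} [AddCommGroup H] {a b : ℕ} (ha : 1 ≤ a) (hb : 1 ≤ b)
    (hc : Nat.Coprime a b) (hH : Nat.card H = a * b) :
    Nat.card {K : AddSubgroup H // Nat.card K = a ∧ K.index = b} = 1 := by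
  haveI : Finite H := by
    apply Nat.finite_of_card_ne_zero
    rw [hH]
    exact Nat.mul_ne_zero (by omega) (by omega)
  have hco : ∀ (K : AddSubgroup H) (c d : ℕ), Nat.Coprime c d → (∀ x ∈ K, c • x = 0) →
      Nat.Coprime (Nat.card K) d := by
    intro K c d hcd hK
    refine Nat.coprime_of_dvd fun p hp h1 h2 => ?_
    haveI : Fact p.Prime := ⟨hp⟩
    obtain ⟨x, hx⟩ := exists_prime_addOrderOf_dvd_card' (G := K) p h1
    have h3 : c • x = 0 := by
      apply Subtype.ext
      exact hK x.1 x.2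
    have h4 : p ∣ c := by
      rw [← hx]
      exact addOrderOf_dvd_of_nsmul_eq_zero h3
    exact hp.one_lt.ne' (Nat.dvd_one.mp (hcd ▸ Nat.dvd_gcd h4 h2))
  have hall : ∀ x : H, (a * b) • x = 0 := by
    intro x
    rw [← hH]
    exact card_nsmul_eq_zero'
  set f : H →+ H := b • AddMonoidHom.id H with hf
  have hfx : ∀ x, f x = b • x := fun x => rfl
  have hprod : Nat.card f.range * Nat.card f.ker = a * b := by
    rw [← hH, ← AddSubgroup.card_mul_index f.ker, AddSubgroup.index_ker, mul_comm]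
  have h1 : Nat.Coprime (Nat.card f.range) b := by
    apply hco f.range a b hc
    rintro x ⟨y, rfl⟩
    rw [hfx, ← mul_nsmul', hall]
  have h2 : Nat.Coprime (Nat.card f.ker) a := by
    apply hco f.ker b a hc.symm
    intro x hx
    exact AddMonoidHom.mem_ker.mp hx
  have h3 : Nat.card f.range ∣ a := by
    apply h1.dvd_of_dvd_mul_right
    rw [← hprod]
    exact dvd_mul_right _ _
  have h4 : Nat.card f.ker ∣ b := by
    apply h2.dvd_of_dvd_mul_left
    rw [← hprod]
    exact dvd_mul_left _ _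
  have h5 : Nat.card f.range = a := by
    have e1 := Nat.le_of_dvd (by omega) h3
    have e2 := Nat.le_of_dvd (by omega) h4
    rcases Nat.lt_or_ge (Nat.card f.range) a with h | h
    · exfalso
      have : Nat.card f.range * Nat.card f.ker < a * b := by
        calc Nat.card f.range * Nat.card f.ker ≤ Nat.card f.range * b := Nat.mul_le_mul_left _ e2
          _ < a * b := Nat.mul_lt_mul_of_pos_right h (by omega)
      omega
    · omega
  rw [Nat.card_eq_one_iff_unique]
  refine ⟨⟨fun K K' => ?_⟩, ⟨⟨f.range, h5, ?_⟩⟩⟩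
  · have key : ∀ K K' : {K : AddSubgroup H // Nat.card K = a ∧ K.index = b}, K'.1 ≤ K.1 := by
      intro K K'
      rw [← AddSubgroup.relIndex_eq_one]
      have e1 : K.1.relIndex K'.1 ∣ a :=
        (AddSubgroup.relIndex_dvd_card K.1 K'.1).trans (dvd_of_eq K'.2.1)
      have e2 : K.1.relIndex K'.1 ∣ b :=
        (AddSubgroup.relIndex_dvd_index_of_normal K.1 K'.1).trans (dvd_of_eq K.2.2)
      exact Nat.dvd_one.mp (hc ▸ Nat.dvd_gcd e1 e2)
    exact Subtype.ext (le_antisymm (key K' K) (key K K'))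
  · have e1 := AddSubgroup.card_mul_index f.range
    rw [h5, hH] at e1
    exact Nat.eq_of_mul_eq_mul_left (by omega) e1

theorem cg_T_cop {G : Type} [AddCommGroup G] (L N : AddSubgroup G) (a b : ℕ) (ha : 1 ≤ a)
    (hb : 1 ≤ b) (hc : Nat.Coprime a b) (hLN : L ≤ N) (h : L.relIndex N = a * b) :
    (cg_T L N a b).ncard = 1 := by
  rw [cg_corr _ _ _ _ hLN]
  exact cg_hall ha hb hc h

open Classical in
theorem cg_filter_uu {n m m' : ℕ} (hm : 1 ≤ m) (hm' : 1 ≤ m') (L N : Lat n) (hL : Full L) :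
    ((supS m L).filter fun M => N ∈ supS m' M).card = (cg_T L N m m').ncard := by
  rw [← Set.ncard_coe_finset]
  congr 1
  ext M
  rw [Finset.coe_filter]
  constructor
  · rintro ⟨h1, h2⟩
    rw [mem_supS hm L hL] at h1
    have hM : Full M := (supS_fin hm L hL).2 M h1.1 h1.2
    rw [mem_supS hm' M hM] at h2
    exact ⟨h1.1, h2.1, h1.2, h2.2⟩
  · rintro ⟨h1, h2, h3, h4⟩
    have hM : Full M := (supS_fin hm L hL).2 M h1 h3
    exact ⟨(mem_supS hm L hL M).mpr ⟨h1, h3⟩, (mem_supS hm' M hM N).mpr ⟨h2, h4⟩⟩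

open Classical in
theorem comm_uu {n m m' : ℕ} (hm : 1 ≤ m) (hm' : 1 ≤ m') (L N : Lat n) (hL : Full L)
    (hN : Full N) :
    ((supS m L).filter fun M => N ∈ supS m' M).card =
      ((supS m' L).filter fun M => N ∈ supS m M).card := by
  rw [cg_filter_uu hm hm' L N hL, cg_filter_uu hm' hm L N hL]
  exact cg_T_symm L N m m' hm hm'

open Classical in
theorem mul_uu {n m m' : ℕ} (hm : 1 ≤ m) (hm' : 1 ≤ m') (hc : Nat.Coprime m m') (L N : Lat n)
    (hL : Full L) (hN : Full N) :
    ((supS m L).filter fun M => N ∈ supS m' M).card = if N ∈ supS (m * m') L then 1 else 0 := by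
  rw [cg_filter_uu hm hm' L N hL]
  have h1 : 1 ≤ m * m' := Nat.mul_pos hm hm'
  split_ifs with h
  · rw [mem_supS h1 L hL] at h
    exact cg_T_cop L N m m' hm hm' hc h.1 h.2
  · rw [mem_supS h1 L hL] at h
    rw [cg_T_empty L N m m' h, Set.ncard_empty]

theorem cg_full_sup {n : ℕ} (L N : Lat n) (hL : Full L) (hN : Full N) : Full (L ⊔ N) := by
  obtain ⟨a, ha, ha1, ha2⟩ := hL
  obtain ⟨b, hb, hb1, hb2⟩ := hN
  refine ⟨a * b, Nat.mul_pos ha hb, fun v hv => ?_, fun v hv => ?_⟩
  · have h1 : ((a * b : ℕ) : ℚ) • v = (b : ℕ) • ((a : ℚ) • v) := by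
      rw [← Nat.cast_smul_eq_nsmul ℚ, smul_smul]
      congr 1
      push_cast
      ring
    rw [h1]
    exact AddSubgroup.mem_sup_left (AddSubgroup.nsmul_mem _ (ha1 v hv) _)
  · obtain ⟨l, hl, w, hw, rfl⟩ := AddSubgroup.mem_sup.mp hv
    have h1 : ((a * b : ℕ) : ℚ) • (l + w) = (b : ℕ) • ((a : ℚ) • l) + (a : ℕ) • ((b : ℚ) • w) := by
      rw [← Nat.cast_smul_eq_nsmul ℚ, ← Nat.cast_smul_eq_nsmul ℚ, smul_smul, smul_smul, smul_add]
      congr 1
      · congr 1
        push_cast
        ring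
      · congr 1
        push_cast
        ring
    rw [h1]
    exact AddSubgroup.add_mem _ (AddSubgroup.nsmul_mem _ (ha2 l hl) _)
      (AddSubgroup.nsmul_mem _ (hb2 w hw) _)

theorem cg_full_inf {n : ℕ} (L N : Lat n) (hL : Full L) (hN : Full N) : Full (L ⊓ N) := by
  obtain ⟨a, ha, ha1, ha2⟩ := hL
  obtain ⟨b, hb, hb1, hb2⟩ := hN
  have e1 : ∀ v : Fin n → ℚ, ((a * b : ℕ) : ℚ) • v = (b : ℕ) • ((a : ℚ) • v) := by
    intro v
    rw [← Nat.cast_smul_eq_nsmul ℚ, smul_smul]
    congr 1
    push_cast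
    ring
  have e2 : ∀ v : Fin n → ℚ, ((a * b : ℕ) : ℚ) • v = (a : ℕ) • ((b : ℚ) • v) := by
    intro v
    rw [← Nat.cast_smul_eq_nsmul ℚ, smul_smul]
    congr 1
    push_cast
    ring
  refine ⟨a * b, Nat.mul_pos ha hb, fun v hv => ⟨?_, ?_⟩, fun v hv => ?_⟩
  · rw [e1]
    exact AddSubgroup.nsmul_mem _ (ha1 v hv) _
  · rw [e2]
    exact AddSubgroup.nsmul_mem _ (hb1 v hv) _
  · rw [e1]
    exact AddSubgroup.nsmul_mem _ (ha2 v hv.1) _

open Classical in
theorem comm_ud (hnf : HNF) {n m m' : ℕ} (hm : 1 ≤ m) (hm' : 1 ≤ m') (L N : Lat n)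
    (hL : Full L) (hN : Full N) :
    ((supS m L).filter fun M => N ∈ subS m' M).card =
      ((subS m' L).filter fun M => N ∈ supS m M).card := by
  set S := L ⊔ N with hS
  set D := L ⊓ N with hD
  have hSf : Full S := cg_full_sup L N hL hN
  have hDf : Full D := cg_full_inf L N hL hN
  set x := L.relIndex S with hx
  set y := N.relIndex S with hy
  have hDL : D.relIndex L = y := by
    rw [hy, hS, hD, sup_comm, AddSubgroup.relIndex_sup_left, AddSubgroup.inf_relIndex_left]
  have hDN : D.relIndex N = x := by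
    rw [hx, hS, hD, AddSubgroup.relIndex_sup_left, AddSubgroup.inf_relIndex_right]
  -- the two filters as sets
  have hleft : ∀ M, M ∈ ((supS m L).filter fun M => N ∈ subS m' M) ↔
      S ≤ M ∧ x * S.relIndex M = m ∧ y * S.relIndex M = m' := by
    intro M
    rw [Finset.mem_filter]
    constructor
    · rintro ⟨h1, h2⟩
      rw [mem_supS hm L hL] at h1
      have hM : Full M := (supS_fin hm L hL).2 M h1.1 h1.2
      rw [mem_subS hm' M hM] at h2
      have hSM : S ≤ M := sup_le h1.1 h2.1
      refine ⟨hSM, ?_, ?_⟩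
      · rw [hx, AddSubgroup.relIndex_mul_relIndex L S M le_sup_left hSM]
        exact h1.2
      · rw [hy, AddSubgroup.relIndex_mul_relIndex N S M le_sup_right hSM]
        exact h2.2
    · rintro ⟨hSM, h1, h2⟩
      rw [hx, AddSubgroup.relIndex_mul_relIndex L S M le_sup_left hSM] at h1
      rw [hy, AddSubgroup.relIndex_mul_relIndex N S M le_sup_right hSM] at h2
      have hLM : L ≤ M := le_sup_left.trans hSM
      have hM : Full M := (supS_fin hm L hL).2 M hLM h1
      exact ⟨(mem_supS hm L hL M).mpr ⟨hLM, h1⟩,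
        (mem_subS hm' M hM N).mpr ⟨le_sup_right.trans hSM, h2⟩⟩
  have hright : ∀ M, M ∈ ((subS m' L).filter fun M => N ∈ supS m M) ↔
      M ≤ D ∧ x * M.relIndex D = m ∧ y * M.relIndex D = m' := by
    intro M
    rw [Finset.mem_filter]
    constructor
    · rintro ⟨h1, h2⟩
      rw [mem_subS hm' L hL] at h1
      have hM : Full M := (subS_fin hm' L hL).2 M h1.1 h1.2
      rw [mem_supS hm M hM] at h2
      have hMD : M ≤ D := le_inf h1.1 h2.1
      refine ⟨hMD, ?_, ?_⟩
      · rw [← hDN, mul_comm, AddSubgroup.relIndex_mul_relIndex M D N hMD inf_le_right]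
        exact h2.2
      · rw [← hDL, mul_comm, AddSubgroup.relIndex_mul_relIndex M D L hMD inf_le_left]
        exact h1.2
    · rintro ⟨hMD, h1, h2⟩
      rw [← hDN, mul_comm, AddSubgroup.relIndex_mul_relIndex M D N hMD inf_le_right] at h1
      rw [← hDL, mul_comm, AddSubgroup.relIndex_mul_relIndex M D L hMD inf_le_left] at h2
      have hML : M ≤ L := hMD.trans inf_le_left
      have hM : Full M := (subS_fin hm' L hL).2 M hML h2
      exact ⟨(mem_subS hm' L hL M).mpr ⟨hML, h2⟩,
        (mem_supS hm M hM N).mpr ⟨hMD.trans inf_le_right, h1⟩⟩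
  by_cases hk : ∃ k, x * k = m ∧ y * k = m'
  · obtain ⟨k, hk1, hk2⟩ := hk
    have hx0 : 0 < x := by
      rcases Nat.eq_zero_or_pos x with h | h
      · rw [h, zero_mul] at hk1
        omega
      · exact h
    have hk0 : 1 ≤ k := by
      rcases Nat.eq_zero_or_pos k with h | h
      · rw [h, mul_zero] at hk1
        omega
      · exact h
    have e1 : ((supS m L).filter fun M => N ∈ subS m' M) = supS k S := by
      ext M
      rw [hleft, mem_supS hk0 S hSf]
      constructor
      · rintro ⟨h1, h2, -⟩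
        refine ⟨h1, Nat.eq_of_mul_eq_mul_left hx0 (h2.trans hk1.symm)⟩
      · rintro ⟨h1, h2⟩
        rw [h2]
        exact ⟨h1, hk1, hk2⟩
    have e2 : ((subS m' L).filter fun M => N ∈ supS m M) = subS k D := by
      ext M
      rw [hright, mem_subS hk0 D hDf]
      constructor
      · rintro ⟨h1, h2, -⟩
        refine ⟨h1, Nat.eq_of_mul_eq_mul_left hx0 (h2.trans hk1.symm)⟩
      · rintro ⟨h1, h2⟩
        rw [h2]
        exact ⟨h1, hk1, hk2⟩
    rw [e1, e2]
    exact card_sup_sub hnf hk0 S D hSf hDf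
  · have e1 : ((supS m L).filter fun M => N ∈ subS m' M) = ∅ := by
      ext M
      rw [hleft]
      simp only [Finset.notMem_empty, iff_false]
      rintro ⟨-, h1, h2⟩
      exact hk ⟨_, h1, h2⟩
    have e2 : ((subS m' L).filter fun M => N ∈ supS m M) = ∅ := by
      ext M
      rw [hright]
      simp only [Finset.notMem_empty, iff_false]
      rintro ⟨-, h1, h2⟩
      exact hk ⟨_, h1, h2⟩
    rw [e1, e2]

end

end Pool.Agent.SGN
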