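import Pool.Agent.Lib_helper84.SGN.DefsM
import Pool.Agent.Lib_helper84.SGCF.CA

/-!
# SGN block CH: the Moebius function vanishes on non-elementary quotients
-/

set_option autoImplicit false

namespace Pool.Agent.SGN

open MeasureTheory Matrix Complex ProbabilityTheory
open Pool.Agent.GLQ (re unip cube Lat Lz latt sp qq)
open scoped ArithmeticFunction.Omega ENNReal

noncomputable section

theorem ch_emb {n : ℕ} (N : Lat n) (hN : Full N) :
    ∃ f : N →ₗ[ℤ] (Fin n → ℤ), Function.Injective f := by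
  obtain ⟨a, ha, -, h⟩ := hN
  have h1 : ∀ v : N, ∃ x : Fin n → ℤ, (a : ℚ) • (v : Fin n → ℚ) = fun i => (x i : ℚ) := by
    intro v
    obtain ⟨x, hx⟩ := h v.1 v.2
    exact ⟨x, by rw [hx, Matrix.vecMul_one]⟩
  choose f hf using h1
  have ha0 : (a : ℚ) ≠ 0 := by exact_mod_cast ha.ne'
  have hadd : ∀ v w : N, f (v + w) = f v + f w := by
    intro v w
    have e := hf (v + w)
    have e1 : (a : ℚ) • ((v + w : N) : Fin n → ℚ) =
        (a : ℚ) • (v : Fin n → ℚ) + (a : ℚ) • (w : Fin n → ℚ) := by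
      rw [← smul_add]; rfl
    rw [e1, hf v, hf w] at e
    funext i
    have e2 := congrFun e i
    simp only [Pi.add_apply] at e2 ⊢
    exact_mod_cast e2.symm
  refine ⟨(AddMonoidHom.mk' f hadd).toIntLinearMap, ?_⟩
  intro v w hvw
  have e : f v = f w := hvw
  have e1 : (a : ℚ) • (v : Fin n → ℚ) = (a : ℚ) • (w : Fin n → ℚ) := by
    rw [hf v, hf w, e]
  exact Subtype.ext (smul_right_injective (Fin n → ℚ) ha0 e1)

theorem ch_index {n p : ℕ} (hp : p.Prime) (L N : Lat n) (hN : Full N)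
    (hpN : ∀ v ∈ N, (p : ℚ) • v ∈ L) : L.relIndex N ≤ p ^ n := by
  obtain ⟨f, hf⟩ := ch_emb N hN
  have : NeZero p := ⟨hp.ne_zero⟩
  have : Module.Finite ℤ N := Module.Finite.of_injective f hf
  have : Module.Free ℤ N := Module.Free.of_equiv (LinearEquiv.ofInjective f hf).symm
  have hr : Module.finrank ℤ N ≤ n := by
    have := LinearMap.finrank_le_finrank_of_injective hf
    simpa using this
  set H : AddSubgroup N := (LinearMap.range (LinearMap.lsmul ℤ N (p : ℤ))).toAddSubgroup with hH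
  have hc : Nat.card (N ⧸ H) = p ^ Module.finrank ℤ N := ModN.natCard_eq N p
  have hHle : H ≤ L.addSubgroupOf N := by
    rintro v ⟨w, rfl⟩
    rw [AddSubgroup.mem_addSubgroupOf]
    have e : ((LinearMap.lsmul ℤ N (p : ℤ)) w : Fin n → ℚ) = (p : ℚ) • (w : Fin n → ℚ) := by
      simp [Nat.cast_smul_eq_nsmul]
    have e2 := hpN w.1 w.2
    rw [← e] at e2
    exact e2
  have hidx : H.index = p ^ Module.finrank ℤ N := by
    rw [← hc]; rfl
  have : H.FiniteIndex := ⟨by rw [hidx]; exact (pow_pos hp.pos _).ne'⟩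
  calc L.relIndex N = (L.addSubgroupOf N).index := rfl
    _ ≤ H.index := AddSubgroup.index_antitone hHle
    _ = p ^ Module.finrank ℤ N := hidx
    _ ≤ p ^ n := Nat.pow_le_pow_right hp.pos hr

/-- the elements of `N` which are killed by `p` modulo `L` -/
def chE {n : ℕ} (p : ℕ) (L N : Lat n) : Lat n where
  carrier := {v | v ∈ N ∧ (p : ℚ) • v ∈ L}
  add_mem' := by
    rintro v w ⟨h1, h2⟩ ⟨h3, h4⟩
    exact ⟨N.add_mem h1 h3, by rw [smul_add]; exact L.add_mem h2 h4⟩
  zero_mem' := ⟨N.zero_mem, by rw [smul_zero]; exact L.zero_mem⟩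
  neg_mem' := by
    rintro v ⟨h1, h2⟩
    exact ⟨N.neg_mem h1, by rw [smul_neg]; exact L.neg_mem h2⟩

theorem ch_E {n p : ℕ} (hp : p.Prime) (L N : Lat n) (hLN : L ≤ N) {j : ℕ} (hj : 1 ≤ j)
    (hi : L.relIndex N = p ^ j) (hpN : ¬ ∀ v ∈ N, (p : ℚ) • v ∈ L) :
    L ≤ chE p L N ∧ chE p L N ≤ N ∧ ∃ i, 1 ≤ i ∧ i < j ∧ L.relIndex (chE p L N) = p ^ i := by
  have h1 : L ≤ chE p L N := by
    intro v hv
    refine ⟨hLN hv, ?_⟩
    rw [Nat.cast_smul_eq_nsmul]
    exact L.nsmul_mem hv p
  have h2 : chE p L N ≤ N := fun v hv => hv.1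
  refine ⟨h1, h2, ?_⟩
  have h3 : L.relIndex (chE p L N) * (chE p L N).relIndex N = p ^ j := by
    rw [AddSubgroup.relIndex_mul_relIndex _ _ _ h1 h2, hi]
  obtain ⟨i, hij, hi1⟩ := (Nat.dvd_prime_pow hp).1 ⟨_, h3.symm⟩
  refine ⟨i, ?_, ?_, hi1⟩
  · -- there is an element of order `p`
    rcases Nat.eq_zero_or_pos i with h0 | h0
    swap
    · exact h0
    exfalso
    rw [h0, pow_zero, AddSubgroup.relIndex_eq_one] at hi1
    -- the quotient
    have hcard : Nat.card (N ⧸ L.addSubgroupOf N) = p ^ j := hi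
    have : Finite (N ⧸ L.addSubgroupOf N) :=
      Nat.finite_of_card_ne_zero (by rw [hcard]; exact (pow_pos hp.pos _).ne')
    have := Fact.mk hp
    have hdvd : p ∣ Nat.card (N ⧸ L.addSubgroupOf N) := by
      rw [hcard]; exact dvd_pow_self p (by omega)
    obtain ⟨x, hx⟩ := exists_prime_addOrderOf_dvd_card' p hdvd
    obtain ⟨v, rfl⟩ := QuotientAddGroup.mk_surjective x
    have hv : (p : ℚ) • (v : Fin n → ℚ) ∈ L := by
      have e : p • (QuotientAddGroup.mk v : N ⧸ L.addSubgroupOf N) = 0 := by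
        rw [← hx]; exact addOrderOf_nsmul_eq_zero _
      rw [← QuotientAddGroup.mk_nsmul, QuotientAddGroup.eq_zero_iff,
        AddSubgroup.mem_addSubgroupOf] at e
      rw [Nat.cast_smul_eq_nsmul]
      exact e
    have hvE : (v : Fin n → ℚ) ∈ chE p L N := ⟨v.2, hv⟩
    have hvL := hi1 hvE
    have e : (QuotientAddGroup.mk v : N ⧸ L.addSubgroupOf N) = 0 := by
      rw [QuotientAddGroup.eq_zero_iff, AddSubgroup.mem_addSubgroupOf]
      exact hvL
    rw [e, addOrderOf_zero] at hx
    exact hp.one_lt.ne hx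
  · refine lt_of_le_of_ne hij fun h => hpN ?_
    rw [hi1, h] at h3
    have h4 : (chE p L N).relIndex N = 1 := by
      have h5 := pow_pos hp.pos j
      nlinarith
    rw [AddSubgroup.relIndex_eq_one] at h4
    intro v hv
    exact (h4 hv).2

open Classical in
theorem ch_main {n p : ℕ} (hp : p.Prime) (L : Lat n) (hL : Full L) (ν : Lat n → ℤ)
    (h1 : ν L = 1)
    (h2 : ∀ j : ℕ, 1 ≤ j → ∀ N ∈ supS (p ^ j) L,
      ∑ i ∈ Finset.range (j + 1), ∑ M ∈ (supS (p ^ i) L).filter (fun M => M ≤ N), ν M = 0)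
    (j : ℕ) : ∀ N ∈ supS (p ^ j) L, ¬ (∀ v ∈ N, (p : ℚ) • v ∈ L) → ν N = 0 := by
  induction j using Nat.strong_induction_on with
  | _ j ih =>
  intro N hN hpN
  have hpj : ∀ i : ℕ, 1 ≤ p ^ i := fun i => Nat.one_le_pow _ _ hp.pos
  have hN' := (mem_supS (hpj j) L hL N).1 hN
  obtain ⟨hLN, hidx⟩ := hN'
  -- `1 ≤ j`
  have hj : 1 ≤ j := by
    rcases Nat.eq_zero_or_pos j with h0 | h0
    · exfalso
      rw [h0, pow_zero, AddSubgroup.relIndex_eq_one] at hidx
      apply hpN
      intro v hv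
      rw [Nat.cast_smul_eq_nsmul]
      exact L.nsmul_mem (hidx hv) p
    · exact h0
  obtain ⟨hE1, hE2, i₀, hi1, hi2, hi3⟩ := ch_E hp L N hLN hj hidx hpN
  set E := chE p L N with hE
  have hEm : E ∈ supS (p ^ i₀) L := (mem_supS (hpj i₀) L hL E).2 ⟨hE1, hi3⟩
  have sN := h2 j hj N hN
  have sE := h2 i₀ hi1 E hEm
  -- members of the sums
  have key : ∀ i ∈ Finset.range (j + 1),
      ∑ M ∈ (supS (p ^ i) L).filter (fun M => M ≤ N), ν M =
      (if i ∈ Finset.range (i₀ + 1) then
        ∑ M ∈ (supS (p ^ i) L).filter (fun M => M ≤ E), ν M else 0) +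
      (if i = j then ν N else 0) := by
    intro i hi
    have hij : i ≤ j := Nat.lt_succ_iff.1 (Finset.mem_range.1 hi)
    -- split according to `M ≤ E`
    have hsplit : ∑ M ∈ (supS (p ^ i) L).filter (fun M => M ≤ N), ν M =
        ∑ M ∈ (supS (p ^ i) L).filter (fun M => M ≤ E), ν M +
        ∑ M ∈ (supS (p ^ i) L).filter (fun M => M ≤ N ∧ ¬ M ≤ E), ν M := by
      rw [← Finset.sum_union]
      · refine Finset.sum_congr ?_ fun _ _ => rfl
        ext M
        simp only [Finset.mem_filter, Finset.mem_union]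
        constructor
        · rintro ⟨a, b⟩
          by_cases h : M ≤ E
          · exact Or.inl ⟨a, h⟩
          · exact Or.inr ⟨a, b, h⟩
        · rintro (⟨a, b⟩ | ⟨a, b, _⟩)
          · exact ⟨a, b.trans hE2⟩
          · exact ⟨a, b⟩
      · rw [Finset.disjoint_filter]
        intro M _ h h'
        exact h'.2 h
    rw [hsplit]
    congr 1
    · split_ifs with h
      · rfl
      · -- no `M ≤ E` of index `> p ^ i₀`
        refine Finset.sum_eq_zero fun M hM => ?_
        exfalso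
        rw [Finset.mem_filter, mem_supS (hpj i) L hL] at hM
        obtain ⟨⟨a, b⟩, c⟩ := hM
        have h3 : L.relIndex M * M.relIndex E = L.relIndex E :=
          AddSubgroup.relIndex_mul_relIndex _ _ _ a c
        rw [b, hi3] at h3
        have h4 : p ^ i ∣ p ^ i₀ := ⟨_, h3.symm⟩
        have h5 := (Nat.pow_dvd_pow_iff_le_right hp.one_lt).1 h4
        rw [Finset.mem_range] at h
        omega
    · split_ifs with h
      · subst h
        have e : (supS (p ^ i) L).filter (fun M => M ≤ N ∧ ¬ M ≤ E) = {N} := by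
          ext M
          rw [Finset.mem_filter, Finset.mem_singleton, mem_supS (hpj i) L hL]
          constructor
          · rintro ⟨⟨a, b⟩, c, d⟩
            have h3 : L.relIndex M * M.relIndex N = L.relIndex N :=
              AddSubgroup.relIndex_mul_relIndex _ _ _ a c
            rw [b, hidx] at h3
            have h4 : M.relIndex N = 1 := by
              have h5 := hpj i
              have h6 : p ^ i * M.relIndex N = p ^ i * 1 := by rw [h3, mul_one]
              exact Nat.eq_of_mul_eq_mul_left h5 h6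
            rw [AddSubgroup.relIndex_eq_one] at h4
            exact le_antisymm c h4
          · rintro rfl
            refine ⟨⟨hLN, hidx⟩, le_rfl, fun h => hpN fun v hv => (h hv).2⟩
        rw [e, Finset.sum_singleton]
      · refine Finset.sum_eq_zero fun M hM => ?_
        rw [Finset.mem_filter] at hM
        obtain ⟨a, b, c⟩ := hM
        refine ih i (lt_of_le_of_ne hij h) M a fun hc => c fun v hv => ⟨b hv, hc v hv⟩
  rw [Finset.sum_congr rfl key, Finset.sum_add_distrib, Finset.sum_ite_eq',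
    if_pos (Finset.mem_range.2 (Nat.lt_succ_self j)), ← Finset.sum_filter] at sN
  have e : (Finset.range (j + 1)).filter (fun i => i ∈ Finset.range (i₀ + 1)) =
      Finset.range (i₀ + 1) := by
    ext i
    simp only [Finset.mem_filter, Finset.mem_range]
    omega
  rw [e, sE, zero_add] at sN
  exact sN

open Classical in
theorem moebius_zero {n p : ℕ} (hp : p.Prime) (L : Lat n) (hL : Full L) (ν : Lat n → ℤ)
    (h1 : ν L = 1)
    (h2 : ∀ j : ℕ, 1 ≤ j → ∀ N ∈ supS (p ^ j) L,
      ∑ i ∈ Finset.range (j + 1), ∑ M ∈ (supS (p ^ i) L).filter (fun M => M ≤ N), ν M = 0)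
    (k : ℕ) (hk : n < k) (N : Lat n) (hN : N ∈ supS (p ^ k) L) : ν N = 0 := by
  refine ch_main hp L hL ν h1 h2 k N hN fun h => ?_
  have hpk : 1 ≤ p ^ k := Nat.one_le_pow _ _ hp.pos
  obtain ⟨hLN, hidx⟩ := (mem_supS hpk L hL N).1 hN
  have hNf := (supS_fin hpk L hL).2 N hLN hidx
  have h3 := ch_index hp L N hNf h
  rw [hidx] at h3
  have h4 := Nat.pow_lt_pow_right hp.one_lt hk
  omega

end

end Pool.Agent.SGN
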