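import Pool.Agent.Lib_helper84.SGN.DefsM

set_option autoImplicit false

namespace Pool.Agent.SGN

open MeasureTheory Matrix Complex ProbabilityTheory
open scoped ENNReal

noncomputable section

open Classical in
theorem ci_sum {V : Type} (nb nb' : V → Finset V) (htr : ∀ u v, v ∈ nb u ↔ u ∈ nb' v)
    (w : V → ℝ) (hw : ∀ v, 0 < w v) (c : ℝ) (hc : 0 ≤ c)
    (h1 : ∀ v, ∑ u ∈ nb v, w u ≤ c * w v) (h2 : ∀ v, ∑ u ∈ nb' v, w u ≤ c * w v)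
    (f : V → ℂ) (F : Finset V) :
    ∑ v ∈ F, ‖∑ u ∈ nb' v, f u‖ ^ 2 ≤ c ^ 2 * ∑ u ∈ F.biUnion nb', ‖f u‖ ^ 2 := by
  have e1 : ∀ v ∈ F, ‖∑ u ∈ nb' v, f u‖ ^ 2 ≤
      ∑ u ∈ nb' v, c * w v * (‖f u‖ ^ 2 / w u) := by
    intro v _
    have a1 : ‖∑ u ∈ nb' v, f u‖ ≤ ∑ u ∈ nb' v, ‖f u‖ := norm_sum_le _ _
    have a2 : (∑ u ∈ nb' v, ‖f u‖) ^ 2 ≤ (∑ u ∈ nb' v, w u) * ∑ u ∈ nb' v, ‖f u‖ ^ 2 / w u := by
      refine Finset.sum_sq_le_sum_mul_sum_of_sq_eq_mul _ (fun u _ => (hw u).le)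
        (fun u _ => div_nonneg (sq_nonneg _) (hw u).le) fun u _ => ?_
      field_simp [(hw u).ne']
    calc ‖∑ u ∈ nb' v, f u‖ ^ 2 ≤ (∑ u ∈ nb' v, ‖f u‖) ^ 2 :=
          pow_le_pow_left₀ (norm_nonneg _) a1 2
      _ ≤ (∑ u ∈ nb' v, w u) * ∑ u ∈ nb' v, ‖f u‖ ^ 2 / w u := a2
      _ ≤ (c * w v) * ∑ u ∈ nb' v, ‖f u‖ ^ 2 / w u :=
          mul_le_mul_of_nonneg_right (h2 v)
            (Finset.sum_nonneg fun u _ => div_nonneg (sq_nonneg _) (hw u).le)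
      _ = ∑ u ∈ nb' v, c * w v * (‖f u‖ ^ 2 / w u) := by rw [Finset.mul_sum]
  refine (Finset.sum_le_sum e1).trans ?_
  have e2 : ∑ v ∈ F, ∑ u ∈ nb' v, c * w v * (‖f u‖ ^ 2 / w u) =
      ∑ v ∈ F, ∑ u ∈ F.biUnion nb', if u ∈ nb' v then c * w v * (‖f u‖ ^ 2 / w u) else 0 := by
    refine Finset.sum_congr rfl fun v hv => ?_
    rw [← Finset.sum_filter]
    congr 1
    ext u
    rw [Finset.mem_filter, Finset.mem_biUnion]
    exact ⟨fun h => ⟨⟨v, hv, h⟩, h⟩, fun h => h.2⟩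
  rw [e2, Finset.sum_comm, Finset.mul_sum]
  refine Finset.sum_le_sum fun u _ => ?_
  rw [← Finset.sum_filter]
  have e3 : ∑ v ∈ F with u ∈ nb' v, c * w v * (‖f u‖ ^ 2 / w u) =
      c * (‖f u‖ ^ 2 / w u) * ∑ v ∈ F with u ∈ nb' v, w v := by
    rw [Finset.mul_sum]
    exact Finset.sum_congr rfl fun v _ => by ring
  have e4 : ∑ v ∈ F with u ∈ nb' v, w v ≤ c * w u := by
    refine (Finset.sum_le_sum_of_subset_of_nonneg ?_ fun v _ _ => (hw v).le).trans (h1 u)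
    intro v hv
    exact (htr u v).2 (Finset.mem_filter.1 hv).2
  rw [e3]
  calc c * (‖f u‖ ^ 2 / w u) * ∑ v ∈ F with u ∈ nb' v, w v
      ≤ c * (‖f u‖ ^ 2 / w u) * (c * w u) :=
        mul_le_mul_of_nonneg_left e4 (mul_nonneg hc (div_nonneg (sq_nonneg _) (hw u).le))
    _ = c ^ 2 * ‖f u‖ ^ 2 := by field_simp [(hw u).ne']

theorem schur_op {V : Type} (nb nb' : V → Finset V) (htr : ∀ u v, v ∈ nb u ↔ u ∈ nb' v)
    (w : V → ℝ) (hw : ∀ v, 0 < w v) (c : ℝ) (hc : 0 ≤ c)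
    (h1 : ∀ v, ∑ u ∈ nb v, w u ≤ c * w v) (h2 : ∀ v, ∑ u ∈ nb' v, w u ≤ c * w v) :
    ∃ T : lp (fun _ : V => ℂ) 2 →L[ℂ] lp (fun _ : V => ℂ) 2, ‖T‖ ≤ c ∧
      (∀ f v, (T f : V → ℂ) v = ∑ u ∈ nb' v, (f : V → ℂ) u) ∧
      ∀ f v, (ContinuousLinearMap.adjoint T f : V → ℂ) v = ∑ u ∈ nb v, (f : V → ℂ) u := by
  classical
  have htr2 : (2 : ℝ≥0∞).toReal = 2 := by norm_num
  have hb : ∀ (f : lp (fun _ : V => ℂ) 2) (F : Finset V),
      ∑ v ∈ F, ‖∑ u ∈ nb' v, (f : V → ℂ) u‖ ^ (2 : ℝ≥0∞).toReal ≤ (c * ‖f‖) ^ (2 : ℝ≥0∞).toReal := by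
    intro f F
    rw [htr2]
    have a1 := ci_sum nb nb' htr w hw c hc h1 h2 (f : V → ℂ) F
    have a2 := lp.sum_rpow_le_norm_rpow (p := 2) (by norm_num) f (F.biUnion nb')
    rw [htr2] at a2
    simp only [Real.rpow_two] at a2 ⊢
    rw [mul_pow]
    exact a1.trans (mul_le_mul_of_nonneg_left a2 (sq_nonneg _))
  have hm : ∀ f : lp (fun _ : V => ℂ) 2, Memℓp (fun v => ∑ u ∈ nb' v, (f : V → ℂ) u) 2 :=
    fun f => memℓp_gen' (hb f)
  let L : lp (fun _ : V => ℂ) 2 →ₗ[ℂ] lp (fun _ : V => ℂ) 2 :=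
    { toFun := fun f => ⟨fun v => ∑ u ∈ nb' v, (f : V → ℂ) u, hm f⟩
      map_add' := fun f g => by
        ext v
        show ∑ u ∈ nb' v, ((f : V → ℂ) u + (g : V → ℂ) u) =
          ∑ u ∈ nb' v, (f : V → ℂ) u + ∑ u ∈ nb' v, (g : V → ℂ) u
        rw [Finset.sum_add_distrib]
      map_smul' := fun a f => by
        ext v
        show ∑ u ∈ nb' v, (a * (f : V → ℂ) u) = a * ∑ u ∈ nb' v, (f : V → ℂ) u
        rw [Finset.mul_sum] }
  have hL : ∀ f, ‖L f‖ ≤ c * ‖f‖ := fun f =>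
    lp.norm_le_of_forall_sum_le (by norm_num) (by positivity) (hb f)
  let T := L.mkContinuous c hL
  have hT : ∀ f v, (T f : V → ℂ) v = ∑ u ∈ nb' v, (f : V → ℂ) u := fun f v => rfl
  refine ⟨T, L.mkContinuous_norm_le hc hL, hT, fun g u => ?_⟩
  have e1 : (ContinuousLinearMap.adjoint T g : V → ℂ) u =
      inner ℂ (lp.single 2 u (1 : ℂ)) (ContinuousLinearMap.adjoint T g) := by
    rw [lp.inner_single_left]
    simp
  rw [e1, ContinuousLinearMap.adjoint_inner_right, lp.inner_eq_tsum]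
  have e2 : ∀ v, inner ℂ ((T (lp.single 2 u (1 : ℂ)) : V → ℂ) v) ((g : V → ℂ) v) =
      if v ∈ nb u then (g : V → ℂ) v else 0 := by
    intro v
    rw [hT]
    have e3 : ∑ u' ∈ nb' v, ((lp.single 2 u (1 : ℂ) : lp (fun _ : V => ℂ) 2) : V → ℂ) u' =
        if v ∈ nb u then 1 else 0 := by
      have e4 : ∀ u', ((lp.single 2 u (1 : ℂ) : lp (fun _ : V => ℂ) 2) : V → ℂ) u' =
          if u' = u then 1 else 0 := by
        intro u'
        rw [lp.single_apply]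
        by_cases h : u' = u
        · subst h
          simp
        · simp [h]
      simp only [e4]
      rw [Finset.sum_ite_eq']
      exact if_congr (htr u v).symm rfl rfl
    rw [e3]
    split_ifs <;> simp
  rw [tsum_congr e2, tsum_eq_sum (s := nb u) (fun v hv => if_neg hv)]
  exact Finset.sum_congr rfl fun v hv => if_pos hv

end

end Pool.Agent.SGN
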