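import Pool.Agent.Lib_helper84.SGN.DefsM

/-!
# SGN, part C, block CJ: Gelfand and Riesz
-/

set_option autoImplicit false

namespace Pool.Agent.SGN

open MeasureTheory Matrix Complex ProbabilityTheory
open Pool.Agent.GLQ (re unip cube Lat Lz latt sp qq)
open scoped ArithmeticFunction.Omega ENNReal

noncomputable section

open WeakDual CompactlySupported in
/-- states on commutative C*-algebras are measures on the spectrum -/
theorem cj_state (A : Type) [CommCStarAlgebra A] (φ : A →ₗ[ℂ] ℂ) (h1 : φ 1 = 1)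
    (hpos : ∀ a : A, 0 ≤ (φ (star a * a)).re) (hst : ∀ a : A, φ (star a) = (starRingEnd ℂ) (φ a)) :
    ∃ (_ : MeasurableSpace (characterSpace ℂ A)) (_ : BorelSpace (characterSpace ℂ A))
      (P : Measure (characterSpace ℂ A)), IsProbabilityMeasure P ∧
      ∀ a : A, ∫ w, w a ∂P = φ a := by
  let X := characterSpace ℂ A
  let mX : MeasurableSpace X := borel X
  have bX : BorelSpace X := ⟨rfl⟩
  let G := gelfandStarTransform A
  -- real functions as complex functions
  let c : C(X, ℝ) → C(X, ℂ) := fun f => ⟨fun w => (f w : ℂ), by fun_prop⟩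
  have c_add : ∀ f g, c (f + g) = c f + c g := fun f g => by ext w; simp [c]
  have c_smul : ∀ (r : ℝ) f, c (r • f) = (r : ℂ) • c f := fun r f => by ext w; simp [c]
  have c_star : ∀ f, star (c f) = c f := fun f => by ext w; simp [c]
  let toC : C_c(X, ℝ) → C(X, ℝ) := fun f => f.toContinuousMap
  let Λ0 : C_c(X, ℝ) →ₗ[ℝ] ℝ :=
    { toFun := fun f => (φ (G.symm (c (toC f)))).re
      map_add' := fun f g => by
        have : toC (f + g) = toC f + toC g := by ext w; simp [toC]
        rw [this, c_add, map_add, map_add, Complex.add_re]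
      map_smul' := fun r f => by
        have : toC (r • f) = r • toC f := by ext w; simp [toC]
        rw [this, c_smul, map_smul, map_smul, smul_eq_mul, Complex.re_ofReal_mul]
        simp }
  have hΛ0 : ∀ f : C_c(X, ℝ), 0 ≤ f → 0 ≤ Λ0 f := by
    intro f hf
    let g : C(X, ℝ) := ⟨fun w => √(f w), by fun_prop⟩
    have hg : c (toC f) = star (c g) * c g := by
      rw [c_star]
      ext w
      have h0 : 0 ≤ f w := hf w
      have : (√(f w) * √(f w) : ℝ) = f w := Real.mul_self_sqrt h0
      simp only [c, g, toC, ContinuousMap.coe_mk, ContinuousMap.mul_apply]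
      rw [← Complex.ofReal_mul, this]
      rfl
    change 0 ≤ (φ (G.symm (c (toC f)))).re
    rw [hg, map_mul, map_star]
    exact hpos _
  let Λ : C_c(X, ℝ) →ₚ[ℝ] ℝ := PositiveLinearMap.mk₀ Λ0 hΛ0
  let P := RealRMK.rieszMeasure Λ
  let toCc : C(X, ℝ) → C_c(X, ℝ) := fun f =>
    ⟨f, HasCompactSupport.of_compactSpace _⟩
  have hint : ∀ f : C(X, ℝ), ∫ w, f w ∂P = (φ (G.symm (c f))).re := fun f =>
    RealRMK.integral_rieszMeasure Λ (toCc f)
  have him : ∀ f : C(X, ℝ), (φ (G.symm (c f))).im = 0 := by
    intro f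
    have h2 : φ (G.symm (c f)) = (starRingEnd ℂ) (φ (G.symm (c f))) := by
      rw [← hst, ← map_star, c_star]
    have := congrArg Complex.im h2
    rw [Complex.conj_im] at this
    linarith
  have hfin : IsFiniteMeasure P := inferInstance
  have hprob : IsProbabilityMeasure P := by
    constructor
    have h3 := hint 1
    have h4 : c 1 = 1 := by ext w; simp [c]
    rw [h4, map_one, h1] at h3
    simp at h3
    have h5 : P Set.univ ≠ ∞ := measure_ne_top P _
    have h6 : (P Set.univ).toReal = 1 := by simpa [Measure.real] using h3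
    rw [← ENNReal.ofReal_toReal h5, h6, ENNReal.ofReal_one]
  refine ⟨mX, bX, P, hprob, fun a => ?_⟩
  let F := G a
  let u : C(X, ℝ) := ⟨fun w => (F w).re, by fun_prop⟩
  let v : C(X, ℝ) := ⟨fun w => (F w).im, by fun_prop⟩
  have hF : F = c u + (I : ℂ) • c v := by
    ext w
    simp only [c, u, v, ContinuousMap.add_apply, ContinuousMap.smul_apply, ContinuousMap.coe_mk,
      smul_eq_mul]
    rw [mul_comm]
    exact (Complex.re_add_im (F w)).symm
  have hru : ∀ f : C(X, ℝ), ∫ w, ((f w : ℝ) : ℂ) ∂P = φ (G.symm (c f)) := by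
    intro f
    have h7 : ∫ w, ((f w : ℝ) : ℂ) ∂P = ((∫ w, f w ∂P : ℝ) : ℂ) := integral_complex_ofReal
    rw [h7, hint f]
    apply Complex.ext
    · simp
    · simp [him f]
  have ha : a = G.symm F := (G.symm_apply_apply a).symm
  have hw : ∀ w : X, w a = ((u w : ℝ) : ℂ) + I * ((v w : ℝ) : ℂ) := by
    intro w
    have : w a = F w := rfl
    rw [this, hF]
    simp [c]
  have hiu : ∀ f : C(X, ℝ), Integrable (fun w => ((f w : ℝ) : ℂ)) P := fun f => by
    have hc : Continuous fun w => ((f w : ℝ) : ℂ) := by fun_prop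
    exact hc.integrable_of_hasCompactSupport (HasCompactSupport.of_compactSpace _)
  calc ∫ w, w a ∂P = ∫ w, ((u w : ℝ) : ℂ) + I * ((v w : ℝ) : ℂ) ∂P := by
        congr 1; funext w; exact hw w
    _ = φ (G.symm (c u)) + I * φ (G.symm (c v)) := by
        rw [integral_add (hiu u) ((hiu v).const_mul I), integral_const_mul, hru, hru]
    _ = φ a := by
        rw [ha, hF, map_add, map_smul, map_add, map_smul, smul_eq_mul]

open WeakDual in
/-- the joint spectral measure for a representation of a commutative C*-algebra -/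
theorem cj_main {H : Type} [NormedAddCommGroup H] [InnerProductSpace ℂ H] [CompleteSpace H]
    (A : Type) [CommCStarAlgebra A] (π : A →⋆ₐ[ℂ] (H →L[ℂ] H)) {ι : Type} (t : ι → A)
    (δ : H) (hδ : ‖δ‖ = 1) :
    ∃ (Om : Type) (_ : MeasurableSpace Om) (P : Measure Om) (_ : IsProbabilityMeasure P)
      (X : ι → Om → ℂ), (∀ i, Measurable (X i)) ∧ (∀ i w, ‖X i w‖ ≤ ‖t i‖) ∧
      (∀ w, ∃ ψ : A →ₐ[ℂ] ℂ, ∀ i, ψ (t i) = X i w) ∧
      ∀ l l' k k' : List ι,
        ∫ w, ((l.map fun i => X i w).prod * (l'.map fun i => (starRingEnd ℂ) (X i w)).prod) *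
          (starRingEnd ℂ) ((k.map fun i => X i w).prod *
            (k'.map fun i => (starRingEnd ℂ) (X i w)).prod) ∂P =
        inner ℂ ((k.map fun i => π (t i)).prod
            ((k'.map fun i => ContinuousLinearMap.adjoint (π (t i))).prod δ))
          ((l.map fun i => π (t i)).prod
            ((l'.map fun i => ContinuousLinearMap.adjoint (π (t i))).prod δ)) := by
  have hadj : ∀ a : A, π (star a) = ContinuousLinearMap.adjoint (π a) := fun a => by
    rw [map_star]; rfl
  let φ : A →ₗ[ℂ] ℂ :=
    { toFun := fun a => inner ℂ δ (π a δ)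
      map_add' := fun a b => by
        rw [map_add, _root_.add_apply, inner_add_right]
      map_smul' := fun r a => by
        rw [map_smul, _root_.smul_apply, inner_smul_right]; rfl }
  have hφ : ∀ a b : A, φ (star b * a) = inner ℂ (π b δ) (π a δ) := fun a b => by
    change inner ℂ δ (π (star b * a) δ) = _
    rw [map_mul, hadj, mul_apply_eq_comp]
    exact ContinuousLinearMap.adjoint_inner_right _ _ _
  obtain ⟨mX, bX, P, hP, hint⟩ := cj_state A φ
    (by
      change inner ℂ δ (π 1 δ) = 1
      rw [map_one, one_apply_eq_self, inner_self_eq_norm_sq_to_K, hδ]; simp)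
    (fun a => by
      rw [hφ, inner_self_eq_norm_sq_to_K]
      have : (((‖π a δ‖ : ℝ) : ℂ) ^ 2).re = ‖π a δ‖ ^ 2 := by
        rw [← Complex.ofReal_pow, Complex.ofReal_re]
      exact this ▸ sq_nonneg _)
    (fun a => by
      change inner ℂ δ (π (star a) δ) = (starRingEnd ℂ) (inner ℂ δ (π a δ))
      rw [hadj, ContinuousLinearMap.adjoint_inner_right, inner_conj_symm])
  refine ⟨characterSpace ℂ A, mX, P, hP, fun i w => w (t i), fun i => ?_, fun i w => ?_,
    fun w => ⟨WeakDual.CharacterSpace.toAlgHom w, fun i => rfl⟩, fun l l' k k' => ?_⟩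
  · have hc : Continuous fun w : characterSpace ℂ A => w (t i) :=
      (gelfandTransform ℂ A (t i)).continuous
    exact hc.measurable
  · have h3 : ‖gelfandTransform ℂ A (t i)‖ = ‖t i‖ :=
      (AddMonoidHomClass.isometry_iff_norm (gelfandTransform ℂ A)).1
        (gelfandTransform_isometry A) (t i)
    rw [← h3]
    exact (gelfandTransform ℂ A (t i)).norm_coe_le_norm w
  · let wd : List ι → List ι → A := fun l l' =>
      (l.map t).prod * (l'.map fun i => star (t i)).prod
    have hwd : ∀ (l l' : List ι) (w : characterSpace ℂ A), w (wd l l') =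
        (l.map fun i => w (t i)).prod * (l'.map fun i => (starRingEnd ℂ) (w (t i))).prod := by
      intro l l' w
      simp only [wd]
      rw [map_mul, map_list_prod, map_list_prod, List.map_map, List.map_map]
      congr 2
      refine List.map_congr_left fun i _ => ?_
      exact map_star w (t i)
    have hpi : ∀ l l' : List ι, π (wd l l') = (l.map fun i => π (t i)).prod *
        (l'.map fun i => ContinuousLinearMap.adjoint (π (t i))).prod := by
      intro l l'
      simp only [wd]
      rw [map_mul, map_list_prod, map_list_prod, List.map_map, List.map_map]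
      congr 2
      refine List.map_congr_left fun i _ => ?_
      exact hadj (t i)
    have h4 : ∀ w : characterSpace ℂ A,
        ((l.map fun i => w (t i)).prod * (l'.map fun i => (starRingEnd ℂ) (w (t i))).prod) *
          (starRingEnd ℂ) ((k.map fun i => w (t i)).prod *
            (k'.map fun i => (starRingEnd ℂ) (w (t i))).prod) = w (star (wd k k') * wd l l') := by
      intro w
      have hs : ∀ a b : A, w (star b * a) = (starRingEnd ℂ) (w b) * w a := fun a b => by
        rw [map_mul, map_star]; rfl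
      rw [← hwd, ← hwd, hs, mul_comm]
    rw [integral_congr_ae (Filter.Eventually.of_forall h4), hint, hφ, hpi, hpi,
      mul_apply_eq_comp, mul_apply_eq_comp]

theorem gel {H : Type} [NormedAddCommGroup H] [InnerProductSpace ℂ H] [CompleteSpace H]
    {ι : Type} (T : ι → H →L[ℂ] H) (h1 : ∀ i j, T i * T j = T j * T i)
    (h2 : ∀ i j, T i * ContinuousLinearMap.adjoint (T j) =
      ContinuousLinearMap.adjoint (T j) * T i) (δ : H) (hδ : ‖δ‖ = 1) :
    ∃ (Om : Type) (_ : MeasurableSpace Om) (P : Measure Om) (_ : IsProbabilityMeasure P)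
      (X : ι → Om → ℂ), (∀ i, Measurable (X i)) ∧ (∀ i w, ‖X i w‖ ≤ ‖T i‖) ∧
      (∀ w, ∃ χ : Algebra.adjoin ℂ (Set.range T) →ₐ[ℂ] ℂ,
        ∀ i, χ ⟨T i, Algebra.subset_adjoin ⟨i, rfl⟩⟩ = X i w) ∧
      ∀ l l' k k' : List ι,
        ∫ w, ((l.map fun i => X i w).prod * (l'.map fun i => (starRingEnd ℂ) (X i w)).prod) *
          (starRingEnd ℂ) ((k.map fun i => X i w).prod *
            (k'.map fun i => (starRingEnd ℂ) (X i w)).prod) ∂P =
        inner ℂ ((k.map T).prod ((k'.map fun i => ContinuousLinearMap.adjoint (T i)).prod δ))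
          ((l.map T).prod ((l'.map fun i => ContinuousLinearMap.adjoint (T i)).prod δ)) := by
  have hc1 : ∀ x ∈ Set.range T, ∀ y ∈ Set.range T, x * y = y * x := by
    rintro _ ⟨i, rfl⟩ _ ⟨j, rfl⟩; exact h1 i j
  have hc2 : ∀ x ∈ Set.range T, ∀ y ∈ Set.range T, x * star y = star y * x := by
    rintro _ ⟨i, rfl⟩ _ ⟨j, rfl⟩; exact h2 i j
  have hm : IsMulCommutative (StarAlgebra.adjoin ℂ (Set.range T)) :=
    StarAlgebra.isMulCommutative_adjoin ℂ hc1 hc2
  let S := (StarAlgebra.adjoin ℂ (Set.range T)).topologicalClosure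
  have hS : IsClosed (S : Set (H →L[ℂ] H)) :=
    StarSubalgebra.isClosed_topologicalClosure _
  let cS : CommRing S := StarSubalgebra.commRingTopologicalClosure
    (StarAlgebra.adjoin ℂ (Set.range T)) (fun x y => hm.is_comm.comm x y)
  have hmul : ∀ x y : S, x * y = y * x := fun x y => cS.mul_comm x y
  let iS : CStarAlgebra S := StarSubalgebra.cstarAlgebra S (h_closed := hS)
  let jS : CommCStarAlgebra S := { iS with mul_comm := hmul }
  have hTS : ∀ i, T i ∈ S := fun i =>
    StarSubalgebra.le_topologicalClosure _ (StarAlgebra.subset_adjoin ℂ _ ⟨i, rfl⟩)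
  obtain ⟨Om, mO, P, hP, X, k1, k2, k3, k4⟩ := cj_main (H := H) S S.subtype
    (fun i => (⟨T i, hTS i⟩ : S)) δ hδ
  refine ⟨Om, mO, P, hP, X, k1, k2, fun w => ?_, fun l l' k k' => ?_⟩
  · obtain ⟨ψ, hψ⟩ := k3 w
    have hle : Algebra.adjoin ℂ (Set.range T) ≤ S.toSubalgebra := by
      refine Algebra.adjoin_le ?_
      rintro _ ⟨i, rfl⟩
      exact hTS i
    exact ⟨ψ.comp (Subalgebra.inclusion hle), fun i => hψ i⟩
  · exact k4 l l' k k'


end

end Pool.Agent.SGN
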