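import Pool.Agent.Lib_helper84.SGN.DefsM
import Pool.Agent.Lib_helper84.SGCF.CA
import Pool.Agent.Lib_helper84.SGCF.CF
import Pool.Agent.Lib_helper84.SGCF.CG
import Pool.Agent.Lib_helper84.SGCF.CH
import Pool.Agent.Lib_helper84.SGCF.CI
import Pool.Agent.Lib_helper84.SGCF.CJ
import Pool.Agent.Lib_helper84.SGCF.HNFD

/-!
# SGN, part C, block CK: the model exists
-/

set_option autoImplicit false

namespace Pool.Agent.SGN

open MeasureTheory Matrix Complex ProbabilityTheory
open Pool.Agent.GLQ (re unip cube Lat Lz latt sp qq)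
open scoped ArithmeticFunction.Omega ENNReal

noncomputable section

theorem dn_pow (N p j : ℕ) (hp : p.Prime) (hN : 1 ≤ N) :
    dn N (p ^ j) = Nat.choose (j + N - 1) j := by
  unfold dn
  rw [hp.factorization_pow, Finsupp.prod_single_index (by simp)]

/-- the lattices -/
abbrev ck_V (n : ℕ) : Type := {L : Lat n // Full L}

/-- the Hilbert space -/
abbrev ck_H (n : ℕ) : Type := lp (fun _ : ck_V n => ℂ) 2

open Classical in
/-- the basis vectors -/
def ck_e {n : ℕ} (L : Lat n) : ck_H n :=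
  if h : Full L then lp.single 2 (⟨L, h⟩ : ck_V n) (1 : ℂ) else 0

open Classical in
theorem ck_e_apply {n : ℕ} (L : Lat n) (v : ck_V n) :
    (ck_e L : ck_V n → ℂ) v = if v.1 = L then 1 else 0 := by
  unfold ck_e
  by_cases h : Full L
  · rw [dif_pos h, lp.single_apply, Pi.single_apply]
    by_cases h2 : v.1 = L
    · rw [if_pos h2, if_pos (Subtype.ext h2)]
    · rw [if_neg h2, if_neg fun h3 => h2 (congrArg Subtype.val h3)]
  · rw [dif_neg h]
    have h2 : v.1 ≠ L := fun h3 => h (h3 ▸ v.2)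
    rw [if_neg h2]
    rfl

theorem ck_e_zero {n : ℕ} {L : Lat n} (h : ¬ Full L) : (ck_e L : ck_H n) = 0 := by
  unfold ck_e
  rw [dif_neg h]

theorem ck_e_single {n : ℕ} (v : ck_V n) (c : ℂ) [DecidableEq (ck_V n)] :
    (lp.single 2 v c : ck_H n) = c • ck_e v.1 := by
  apply lp.ext
  funext u
  rw [lp.single_apply, lp.coeFn_smul, Pi.smul_apply, ck_e_apply, Pi.single_apply, smul_eq_mul]
  by_cases h : u = v
  · rw [if_pos h, if_pos (congrArg Subtype.val h), mul_one]
  · rw [if_neg h, if_neg fun h2 => h (Subtype.ext h2), mul_zero]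

/-- operators which agree on the basis are equal -/
theorem ck_ext {n : ℕ} (A B : ck_H n →L[ℂ] ck_H n)
    (h : ∀ L : Lat n, Full L → A (ck_e L) = B (ck_e L)) : A = B := by
  classical
  refine ContinuousLinearMap.ext fun f => ?_
  have h1 := lp.hasSum_single (by norm_num : (2 : ℝ≥0∞) ≠ ⊤) f
  have h2 := h1.mapL A
  have h3 := h1.mapL B
  refine h2.unique ?_
  convert h3 using 2 with v
  rw [ck_e_single, map_smul, map_smul, h v.1 v.2]

/-- the normalising factor -/
def ck_nu (n m : ℕ) : ℝ := (m : ℝ) ^ (-(((n : ℝ) - 1) / 2))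

theorem ck_nu_mul (n a b : ℕ) : ck_nu n (a * b) = ck_nu n a * ck_nu n b := by
  unfold ck_nu
  rw [Nat.cast_mul, Real.mul_rpow (Nat.cast_nonneg a) (Nat.cast_nonneg b)]

theorem ck_nu_one (n : ℕ) : ck_nu n 1 = 1 := by
  unfold ck_nu
  rw [Nat.cast_one, Real.one_rpow]

theorem ck_nu_pow (n p k : ℕ) : ck_nu n (p ^ k) = ck_nu n p ^ k := by
  induction k with
  | zero => rw [pow_zero, pow_zero, ck_nu_one]
  | succ k ih => rw [pow_succ, ck_nu_mul, ih, pow_succ]

theorem ck_nu_nonneg (n m : ℕ) : 0 ≤ ck_nu n m := Real.rpow_nonneg (Nat.cast_nonneg m) _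

theorem ck_sup_spec {n m : ℕ} {L M : Lat n} (h : M ∈ supS m L) : L ≤ M ∧ L.relIndex M = m := by
  unfold supS at h
  split_ifs at h with h1
  · exact (h1.mem_toFinset).1 h
  · exact absurd h (Finset.notMem_empty _)

theorem ck_sub_spec {n m : ℕ} {L M : Lat n} (h : M ∈ subS m L) : M ≤ L ∧ M.relIndex L = m := by
  unfold subS at h
  split_ifs at h with h1
  · exact (h1.mem_toFinset).1 h
  · exact absurd h (Finset.notMem_empty _)

theorem ck_sup_full {n m : ℕ} (hm : 1 ≤ m) {L M : Lat n} (h : M ∈ supS m L) :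
    Full M ↔ Full L := by
  obtain ⟨h1, h2⟩ := ck_sup_spec h
  exact ⟨fun hM => (subS_fin hm M hM).2 L h1 h2, fun hL => (supS_fin hm L hL).2 M h1 h2⟩

theorem ck_sub_full {n m : ℕ} (hm : 1 ≤ m) {L M : Lat n} (h : M ∈ subS m L) :
    Full M ↔ Full L := by
  obtain ⟨h1, h2⟩ := ck_sub_spec h
  exact ⟨fun hM => (supS_fin hm M hM).2 L h1 h2, fun hL => (subS_fin hm L hL).2 M h1 h2⟩

theorem ck_sup_sub {n m : ℕ} (hm : 1 ≤ m) {L M : Lat n} (hL : Full L) (hM : Full M) :
    M ∈ supS m L ↔ L ∈ subS m M := by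
  rw [mem_supS hm L hL, mem_subS hm M hM]

/-- the operator `T_m` -/
theorem ck_op (hnf : HNF) (n : ℕ) (hn : 1 ≤ n) (m : ℕ) (hm : 1 ≤ m) :
    ∃ T : ck_H n →L[ℂ] ck_H n, ‖T‖ ≤ dn n m ∧
      (∀ L : Lat n, T (ck_e L) = (ck_nu n m : ℂ) • ∑ M ∈ supS m L, ck_e M) ∧
      ∀ L : Lat n, ContinuousLinearMap.adjoint T (ck_e L) =
        (ck_nu n m : ℂ) • ∑ M ∈ subS m L, ck_e M := by
  classical
  obtain ⟨w, hw, hs⟩ := schur_w hnf n hn
  have hm0 : (0 : ℝ) < m := by exact_mod_cast hm
  have hA : ∀ v : ck_V n, ∀ M ∈ supS m v.1, Full M := fun v M h => (ck_sup_full hm h).2 v.2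
  have hB : ∀ v : ck_V n, ∀ M ∈ subS m v.1, Full M := fun v M h => (ck_sub_full hm h).2 v.2
  obtain ⟨T, hT1, hT2, hT3⟩ := schur_op (V := ck_V n) (fun v => (supS m v.1).subtype Full)
    (fun v => (subS m v.1).subtype Full) (by
      intro u v
      rw [Finset.mem_subtype, Finset.mem_subtype]
      exact ck_sup_sub hm u.2 v.2) (fun v => w v.1) (fun v => hw v.1 v.2)
    ((m : ℝ) ^ (((n : ℝ) - 1) / 2) * dn n m) (by positivity)
    (by
      intro v
      rw [Finset.sum_subtype_of_mem w (hA v)]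
      exact (hs m hm v.1 v.2).1)
    (by
      intro v
      rw [Finset.sum_subtype_of_mem w (hB v)]
      exact (hs m hm v.1 v.2).2)
  have key : ∀ (L : Lat n) (S : Finset (Lat n)) (v : ck_V n),
      ((∑ M ∈ S, ck_e M : ck_H n) : ck_V n → ℂ) v = if v.1 ∈ S then 1 else 0 := by
    intro L S v
    rw [lp.coeFn_sum, Finset.sum_apply]
    simp only [ck_e_apply, Finset.sum_ite_eq]
  refine ⟨(ck_nu n m : ℂ) • T, ?_, ?_, ?_⟩
  · rw [norm_smul, Complex.norm_real, Real.norm_of_nonneg (ck_nu_nonneg n m)]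
    calc ck_nu n m * ‖T‖ ≤ ck_nu n m * ((m : ℝ) ^ (((n : ℝ) - 1) / 2) * dn n m) :=
          mul_le_mul_of_nonneg_left hT1 (ck_nu_nonneg n m)
      _ = dn n m := by
          unfold ck_nu
          rw [← mul_assoc, ← Real.rpow_add hm0]
          simp
  · intro L
    by_cases hL : Full L
    · rw [ContinuousLinearMap.smul_apply]
      congr 1
      apply lp.ext
      funext v
      rw [hT2, key L]
      have h1 : ∀ u : ck_V n, (ck_e L : ck_V n → ℂ) u = (fun M : Lat n => if M = L then (1 : ℂ)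
        else 0) u.1 := fun u => ck_e_apply L u
      rw [Finset.sum_congr rfl fun u _ => h1 u, Finset.sum_subtype_of_mem
        (fun M : Lat n => if M = L then (1 : ℂ) else 0) (hB v), Finset.sum_ite_eq']
      simp only [ck_sup_sub hm hL v.2]
    · rw [ck_e_zero hL, map_zero, Finset.sum_eq_zero, smul_zero]
      intro M hM
      exact ck_e_zero fun h => hL ((ck_sup_full hm hM).1 h)
  · intro L
    have h0 : ContinuousLinearMap.adjoint ((ck_nu n m : ℂ) • T) =
        (ck_nu n m : ℂ) • ContinuousLinearMap.adjoint T := by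
      rw [map_smulₛₗ, Complex.conj_ofReal]
    rw [h0]
    by_cases hL : Full L
    · rw [ContinuousLinearMap.smul_apply]
      congr 1
      apply lp.ext
      funext v
      rw [hT3, key L]
      have h1 : ∀ u : ck_V n, (ck_e L : ck_V n → ℂ) u = (fun M : Lat n => if M = L then (1 : ℂ)
        else 0) u.1 := fun u => ck_e_apply L u
      rw [Finset.sum_congr rfl fun u _ => h1 u, Finset.sum_subtype_of_mem
        (fun M : Lat n => if M = L then (1 : ℂ) else 0) (hA v), Finset.sum_ite_eq']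
      simp only [ck_sup_sub hm v.2 hL]
    · rw [ck_e_zero hL, map_zero, Finset.sum_eq_zero, smul_zero]
      intro M hM
      exact ck_e_zero fun h => hL ((ck_sub_full hm hM).1 h)

/-! ### finitely supported vectors -/

theorem ck_sp_zero {n : ℕ} (nb : Lat n → Finset (Lat n)) : sp nb (0 : Lat n →₀ ℕ) = 0 := by
  unfold sp
  exact Finsupp.sum_zero_index

theorem ck_sp_add {n : ℕ} (nb : Lat n → Finset (Lat n)) (f g : Lat n →₀ ℕ) :
    sp nb (f + g) = sp nb f + sp nb g := by
  unfold sp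
  refine Finsupp.sum_add_index' (fun L => ?_) fun L a b => ?_
  · exact Finset.sum_eq_zero fun M _ => Finsupp.single_zero M
  · rw [← Finset.sum_add_distrib]
    exact Finset.sum_congr rfl fun M _ => Finsupp.single_add M a b

theorem ck_sp_single {n : ℕ} (nb : Lat n → Finset (Lat n)) (L : Lat n) (c : ℕ) :
    sp nb (Finsupp.single L c) = ∑ M ∈ nb L, Finsupp.single M c := by
  unfold sp
  refine Finsupp.sum_single_index ?_
  exact Finset.sum_eq_zero fun M _ => Finsupp.single_zero M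

/-- the vector of a finitely supported function -/
def ck_emb {n : ℕ} : (Lat n →₀ ℕ) →+ ck_H n :=
  Finsupp.liftAddHom fun L =>
    { toFun := fun c : ℕ => (c : ℂ) • ck_e L
      map_zero' := by rw [Nat.cast_zero, zero_smul]
      map_add' := fun a b => by rw [Nat.cast_add, add_smul] }

theorem ck_emb_single {n : ℕ} (L : Lat n) (c : ℕ) :
    ck_emb (Finsupp.single L c) = (c : ℂ) • ck_e L := by
  unfold ck_emb
  rw [Finsupp.liftAddHom_apply_single]
  rfl

theorem ck_emb_sum {n : ℕ} (f : Lat n →₀ ℕ) :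
    ck_emb f = ∑ L ∈ f.support, (f L : ℂ) • ck_e L := by
  conv_lhs => rw [← f.sum_single]
  unfold Finsupp.sum
  rw [map_sum]
  exact Finset.sum_congr rfl fun L _ => ck_emb_single L (f L)

theorem ck_emb_apply {n : ℕ} (f : Lat n →₀ ℕ) (v : ck_V n) :
    (ck_emb f : ck_V n → ℂ) v = f v.1 := by
  classical
  rw [ck_emb_sum, lp.coeFn_sum, Finset.sum_apply]
  have h1 : ∀ L ∈ f.support, (((f L : ℂ) • ck_e L : ck_H n) : ck_V n → ℂ) v =
      if v.1 = L then (f L : ℂ) else 0 := by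
    intro L _
    rw [lp.coeFn_smul, Pi.smul_apply, ck_e_apply, smul_eq_mul, mul_ite, mul_one, mul_zero]
  rw [Finset.sum_congr rfl h1, Finset.sum_ite_eq]
  split_ifs with h
  · rfl
  · rw [Finsupp.notMem_support_iff.1 h, Nat.cast_zero]

/-- one letter -/
theorem ck_letter {n : ℕ} (T : ck_H n →L[ℂ] ck_H n) (c : ℂ) (nb : Lat n → Finset (Lat n))
    (hT : ∀ L : Lat n, T (ck_e L) = c • ∑ M ∈ nb L, ck_e M) (f : Lat n →₀ ℕ) :
    T (ck_emb f) = c • ck_emb (sp nb f) := by
  induction f using Finsupp.induction_linear with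
  | zero => rw [ck_sp_zero, map_zero, map_zero, smul_zero]
  | add f g hf hg => rw [ck_sp_add, map_add, map_add, map_add, hf, hg, smul_add]
  | single L a =>
    rw [ck_sp_single, ck_emb_single, map_smul, hT, map_sum]
    simp only [ck_emb_single]
    rw [← Finset.smul_sum, smul_comm]

/-- one list of letters -/
theorem ck_list {n : ℕ} (T : ℕ → ck_H n →L[ℂ] ck_H n) (nb : ℕ → Lat n → Finset (Lat n))
    (hT : ∀ m, 1 ≤ m → ∀ L : Lat n, T m (ck_e L) = (ck_nu n m : ℂ) • ∑ M ∈ nb m L, ck_e M)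
    (l : List ℕ) (hl : ∀ a ∈ l, 1 ≤ a) (f : Lat n →₀ ℕ) :
    (l.map T).prod (ck_emb f) = (ck_nu n l.prod : ℂ) •
      ck_emb (l.foldr (fun a f => sp (nb a) f) f) := by
  induction l with
  | nil =>
    rw [List.map_nil, List.prod_nil, List.prod_nil, ck_nu_one, Complex.ofReal_one, one_smul]
    rfl
  | cons a l ih =>
    rw [List.map_cons, List.prod_cons, List.prod_cons, ContinuousLinearMap.mul_apply,
      ih fun b hb => hl b (List.mem_cons_of_mem a hb), map_smul,
      ck_letter (T a) _ (nb a) (hT a (hl a List.mem_cons_self)), smul_smul, ck_nu_mul]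
    congr 1
    push_cast
    ring

/-- the supports -/
theorem ck_supp {n : ℕ} (nb : ℕ → Lat n → Finset (Lat n))
    (hnb : ∀ m, 1 ≤ m → ∀ L M : Lat n, M ∈ nb m L → Full L → Full M)
    (l : List ℕ) (hl : ∀ a ∈ l, 1 ≤ a) (f : Lat n →₀ ℕ) (hf : ∀ L ∈ f.support, Full L) :
    ∀ L ∈ (l.foldr (fun a f => sp (nb a) f) f).support, Full L := by
  classical
  induction l with
  | nil => exact hf
  | cons a l ih =>
    intro M hM
    rw [List.foldr_cons] at hM
    have h1 := ih fun b hb => hl b (List.mem_cons_of_mem a hb)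
    set g := l.foldr (fun a f => sp (nb a) f) f with hg
    unfold sp at hM
    have h2 := Finsupp.support_sum hM
    rw [Finset.mem_biUnion] at h2
    obtain ⟨K, hK, h3⟩ := h2
    have h4 := Finsupp.support_finset_sum h3
    rw [Finset.mem_biUnion] at h4
    obtain ⟨M', hM', h5⟩ := h4
    have h6 := Finsupp.support_single_subset h5
    rw [Finset.mem_singleton] at h6
    subst h6
    exact hnb a (hl a List.mem_cons_self) K M hM' (h1 K hK)

theorem ck_inner {n : ℕ} (f g : Lat n →₀ ℕ) (hf : ∀ L ∈ f.support, Full L) :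
    inner ℂ (ck_emb g) (ck_emb f) = ((f.sum fun L c => c * g L : ℕ) : ℂ) := by
  classical
  rw [ck_emb_sum f, inner_sum]
  unfold Finsupp.sum
  rw [Nat.cast_sum]
  refine Finset.sum_congr rfl fun L hL => ?_
  rw [inner_smul_right]
  have h1 : (ck_e L : ck_H n) = lp.single 2 (⟨L, hf L hL⟩ : ck_V n) (1 : ℂ) := by
    unfold ck_e
    rw [dif_pos (hf L hL)]
  rw [h1, lp.inner_single_right, ck_emb_apply]
  simp

/-- the value of a word -/
theorem ck_word {n : ℕ} (T : ℕ → ck_H n →L[ℂ] ck_H n)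
    (hT : ∀ m, 1 ≤ m → ∀ L : Lat n, T m (ck_e L) = (ck_nu n m : ℂ) • ∑ M ∈ supS m L, ck_e M)
    (hT' : ∀ m, 1 ≤ m → ∀ L : Lat n, ContinuousLinearMap.adjoint (T m) (ck_e L) =
      (ck_nu n m : ℂ) • ∑ M ∈ subS m L, ck_e M) (W : Wd) (h1 : ∀ a ∈ W.1, 1 ≤ a)
    (h2 : ∀ a ∈ W.2, 1 ≤ a) :
    (W.1.map T).prod ((W.2.map fun i => ContinuousLinearMap.adjoint (T i)).prod
      (ck_e (Lz n))) = (nf n W : ℂ) • ck_emb (UW n W) := by
  have h3 : (ck_e (Lz n) : ck_H n) = ck_emb (Finsupp.single (Lz n) 1) := by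
    rw [ck_emb_single, Nat.cast_one, one_smul]
  rw [h3, ck_list (fun i => ContinuousLinearMap.adjoint (T i)) subS hT' W.2 h2, map_smul,
    ck_list T supS hT W.1 h1, smul_smul]
  unfold UW nf wt
  congr 1
  have h4 : ck_nu n (W.1.prod * W.2.prod) =
      ((W.1.prod * W.2.prod : ℕ) : ℝ) ^ (-(((n : ℝ) - 1) / 2)) := rfl
  rw [← h4, ck_nu_mul]
  push_cast
  ring

theorem ck_UW_full {n : ℕ} (W : Wd) (h1 : ∀ a ∈ W.1, 1 ≤ a) (h2 : ∀ a ∈ W.2, 1 ≤ a) :
    ∀ L ∈ (UW n W).support, Full L := by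
  unfold UW
  refine ck_supp supS (fun m hm L M h hL => (ck_sup_full hm h).2 hL) W.1 h1 _
    (ck_supp subS (fun m hm L M h hL => (ck_sub_full hm h).2 hL) W.2 h2 _ fun L hL => ?_)
  have h3 := Finsupp.support_single_subset hL
  rw [Finset.mem_singleton] at h3
  rw [h3]
  exact full_Lz n

/-! ### products of two operators -/

open Classical in
theorem ck_two {n : ℕ} (A B : ck_H n →L[ℂ] ck_H n) (c d : ℂ) (na nb : Lat n → Finset (Lat n))
    (hA : ∀ L : Lat n, A (ck_e L) = c • ∑ M ∈ na L, ck_e M)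
    (hB : ∀ L : Lat n, B (ck_e L) = d • ∑ M ∈ nb L, ck_e M) (L : Lat n) (v : ck_V n) :
    ((A * B) (ck_e L) : ck_V n → ℂ) v =
      c * d * (((nb L).filter fun M => v.1 ∈ na M).card : ℂ) := by
  rw [ContinuousLinearMap.mul_apply, hB, map_smul, map_sum, Finset.sum_congr rfl fun M _ => hA M,
    ← Finset.smul_sum, smul_smul, lp.coeFn_smul, Pi.smul_apply, lp.coeFn_sum, Finset.sum_apply,
    smul_eq_mul, mul_comm d c, Finset.card_filter, Nat.cast_sum]
  congr 1
  refine Finset.sum_congr rfl fun M _ => ?_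
  rw [lp.coeFn_sum, Finset.sum_apply]
  simp only [ck_e_apply, Finset.sum_ite_eq]
  split_ifs <;> simp

theorem ck_sup_one {n : ℕ} {L : Lat n} (hL : Full L) : supS 1 L = {L} := by
  ext M
  rw [mem_supS le_rfl L hL, Finset.mem_singleton, AddSubgroup.relIndex_eq_one]
  exact ⟨fun h => le_antisymm h.2 h.1, fun h => by rw [h]; exact ⟨le_rfl, le_rfl⟩⟩

theorem ck_comp {n a b : ℕ} (ha : 1 ≤ a) (hb : 1 ≤ b) {L M N : Lat n} (hL : Full L)
    (hM : M ∈ supS a L) (hN : N ∈ supS b M) : N ∈ supS (a * b) L := by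
  have hMF := (ck_sup_full ha hM).2 hL
  rw [mem_supS ha L hL] at hM
  rw [mem_supS hb M hMF] at hN
  rw [mem_supS (Nat.mul_pos ha hb) L hL]
  refine ⟨hM.1.trans hN.1, ?_⟩
  rw [← AddSubgroup.relIndex_mul_relIndex L M N hM.1 hN.1, hM.2, hN.2]

/-! ### the coefficients of the inverse series -/

open Classical in
/-- the coefficients of the inverse series -/
def ck_b {n : ℕ} (p : ℕ) (L : Lat n) : ℕ → Lat n → ℤ
  | 0 => fun N => if N = L then 1 else 0
  | j + 1 => fun N => -∑ i : Fin (j + 1),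
      ∑ M ∈ (supS (p ^ (j - (i : ℕ))) L).filter (fun M => N ∈ supS (p ^ ((i : ℕ) + 1)) M),
        ck_b p L (j - i) M

open Classical in
theorem ck_swap {n : ℕ} {E : Type} [AddCommMonoid E] {a b : ℕ} (ha : 1 ≤ a) (hb : 1 ≤ b)
    {L : Lat n} (hL : Full L) (g : Lat n → Lat n → E) :
    ∑ M ∈ supS a L, ∑ N ∈ supS b M, g M N =
      ∑ N ∈ supS (a * b) L, ∑ M ∈ (supS a L).filter (fun M => N ∈ supS b M), g M N := by
  refine Finset.sum_comm' fun M N => ?_
  rw [Finset.mem_filter]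
  constructor
  · rintro ⟨h1, h2⟩
    exact ⟨⟨h1, h2⟩, ck_comp ha hb hL h1 h2⟩
  · rintro ⟨⟨h1, h2⟩, -⟩
    exact ⟨h1, h2⟩

open Classical in
theorem ck_inv_coeff {n : ℕ} (T : ℕ → ck_H n →L[ℂ] ck_H n)
    (hT : ∀ m, 1 ≤ m → ∀ L : Lat n, T m (ck_e L) = (ck_nu n m : ℂ) • ∑ M ∈ supS m L, ck_e M)
    {p : ℕ} (hp : 1 ≤ p) {L : Lat n} (hL : Full L) (k : ℕ) :
    invR (fun j => T (p ^ j)) k (ck_e L) =
      (ck_nu n (p ^ k) : ℂ) • ∑ N ∈ supS (p ^ k) L, (ck_b p L k N : ℂ) • ck_e N := by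
  induction k using Nat.strong_induction_on with
  | _ k ih =>
    match k with
    | 0 =>
      rw [invR, ck_b, pow_zero, ck_sup_one hL, ck_nu_one, Finset.sum_singleton]
      simp
    | j + 1 =>
      rw [invR, ck_b]
      have hpp : ∀ i : ℕ, 1 ≤ p ^ i := fun i => Nat.one_le_pow _ _ hp
      have h1 : ∀ i : Fin (j + 1), (T (p ^ ((i : ℕ) + 1)) * invR (fun j => T (p ^ j)) (j - i))
          (ck_e L) = (ck_nu n (p ^ (j + 1)) : ℂ) • ∑ N ∈ supS (p ^ (j + 1)) L,
          ((∑ M ∈ (supS (p ^ (j - (i : ℕ))) L).filter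
            (fun M => N ∈ supS (p ^ ((i : ℕ) + 1)) M), ck_b p L (j - i) M : ℤ) : ℂ) • ck_e N := by
        intro i
        have hi : j - (i : ℕ) + ((i : ℕ) + 1) = j + 1 := by omega
        have hpow : p ^ (j - (i : ℕ)) * p ^ ((i : ℕ) + 1) = p ^ (j + 1) := by
          rw [← pow_add, hi]
        rw [ContinuousLinearMap.mul_apply, ih (j - i) (by omega), map_smul, map_sum]
        have h2 : ∀ M ∈ supS (p ^ (j - (i : ℕ))) L,
            T (p ^ ((i : ℕ) + 1)) ((ck_b p L (j - i) M : ℂ) • ck_e M) =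
            (ck_nu n (p ^ ((i : ℕ) + 1)) : ℂ) • ∑ N ∈ supS (p ^ ((i : ℕ) + 1)) M,
              (ck_b p L (j - i) M : ℂ) • ck_e N := by
          intro M _
          rw [map_smul, hT _ (hpp _), smul_comm, Finset.smul_sum]
        rw [Finset.sum_congr rfl h2, ← Finset.smul_sum, ck_swap (hpp _) (hpp _) hL, hpow,
          smul_smul, ← Complex.ofReal_mul, ← ck_nu_mul, hpow]
        congr 1
        refine Finset.sum_congr rfl fun N _ => ?_
        rw [← Finset.sum_smul]
        push_cast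
        rfl
      rw [ContinuousLinearMap.neg_apply, ContinuousLinearMap.sum_apply]
      rw [Finset.sum_congr rfl fun i _ => h1 i, ← Finset.smul_sum, ← smul_neg,
        Finset.sum_comm, ← Finset.sum_neg_distrib]
      congr 1
      refine Finset.sum_congr rfl fun N _ => ?_
      rw [← Finset.sum_smul, ← neg_smul]
      push_cast
      rfl

theorem ck_b_zero {n p : ℕ} (hp : p.Prime) {L : Lat n} (hL : Full L) (k : ℕ) (hk : n < k)
    (N : Lat n) (hN : N ∈ supS (p ^ k) L) : ck_b p L k N = 0 := by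
  classical
  have hpp : ∀ i : ℕ, 1 ≤ p ^ i := fun i => Nat.one_le_pow _ _ hp.pos
  have hlog : ∀ j : ℕ, ∀ M ∈ supS (p ^ j) L, Nat.log p (L.relIndex M) = j := by
    intro j M hM
    rw [((mem_supS (hpp j) L hL M).1 hM).2, Nat.log_pow hp.one_lt]
  have key := moebius_zero hp L hL (fun M => ck_b p L (Nat.log p (L.relIndex M)) M) ?_ ?_ k hk N hN
  · simpa only [hlog k N hN] using key
  · show ck_b p L (Nat.log p (L.relIndex L)) L = 1
    rw [AddSubgroup.relIndex_self, Nat.log_one_right, ck_b]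
    exact if_pos rfl
  · intro j hj N hN
    obtain ⟨j, rfl⟩ : ∃ j', j = j' + 1 := ⟨j - 1, by omega⟩
    have hN' := (mem_supS (hpp _) L hL N).1 hN
    have hNF := (ck_sup_full (hpp _) hN).2 hL
    rw [Finset.sum_range_succ]
    have h1 : (supS (p ^ (j + 1)) L).filter (fun M => M ≤ N) = {N} := by
      ext M
      rw [Finset.mem_filter, Finset.mem_singleton, mem_supS (hpp _) L hL]
      constructor
      · rintro ⟨⟨h2, h3⟩, h4⟩
        have h5 := AddSubgroup.relIndex_mul_relIndex L M N h2 h4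
        rw [h3, hN'.2] at h5
        have h6 : M.relIndex N = 1 := by
          have h7 : 0 < p ^ (j + 1) := hpp _
          exact Nat.eq_of_mul_eq_mul_left h7 (by rw [h5, mul_one])
        exact le_antisymm h4 (AddSubgroup.relIndex_eq_one.1 h6)
      · intro h
        rw [h]
        exact ⟨hN', le_rfl⟩
    rw [h1, Finset.sum_singleton, hlog _ N hN, ck_b]
    have h2 : ∀ i ∈ Finset.range (j + 1), ∑ M ∈ (supS (p ^ i) L).filter (fun M => M ≤ N),
        ck_b p L (Nat.log p (L.relIndex M)) M =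
        ∑ M ∈ (supS (p ^ i) L).filter (fun M => N ∈ supS (p ^ (j - i + 1)) M), ck_b p L i M := by
      intro i hi
      rw [Finset.mem_range] at hi
      refine Finset.sum_congr ?_ fun M hM => ?_
      · ext M
        rw [Finset.mem_filter, Finset.mem_filter]
        refine and_congr_right fun hM => ?_
        have hM' := (mem_supS (hpp i) L hL M).1 hM
        rw [mem_supS (hpp _) M ((ck_sup_full (hpp i) hM).2 hL)]
        refine ⟨fun h => ⟨h, ?_⟩, fun h => h.1⟩
        have h5 := AddSubgroup.relIndex_mul_relIndex L M N hM'.1 h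
        rw [hM'.2, hN'.2] at h5
        have h6 : p ^ (j + 1) = p ^ i * p ^ (j - i + 1) := by
          rw [← pow_add]
          congr 1
          omega
        rw [h6] at h5
        exact Nat.eq_of_mul_eq_mul_left (hpp i) h5
      · rw [hlog i M (Finset.mem_of_mem_filter M hM)]
    rw [Finset.sum_congr rfl h2, ← Finset.sum_range_reflect]
    rw [← Fin.sum_univ_eq_sum_range (fun i => ∑ M ∈ (supS (p ^ (j + 1 - 1 - i)) L).filter
      (fun M => N ∈ supS (p ^ (j - (j + 1 - 1 - i) + 1)) M), ck_b p L (j + 1 - 1 - i) M) (j + 1)]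
    rw [← sub_eq_add_neg, sub_eq_zero]
    refine Finset.sum_congr rfl fun i _ => ?_
    have h3 : j - (j + 1 - 1 - (i : ℕ)) + 1 = (i : ℕ) + 1 := by omega
    have h4 : j + 1 - 1 - (i : ℕ) = j - i := by omega
    rw [h3, h4]

/-- a ring homomorphism maps the inverse series to the inverse series -/
theorem ck_map_inv {A B : Type*} [Ring A] [Ring B] (φ : A →+* B) (a : ℕ → A) (k : ℕ) :
    φ (invR a k) = invR (fun j => φ (a j)) k := by
  induction k using Nat.strong_induction_on with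
  | _ k ih =>
    match k with
    | 0 => rw [invR, invR, map_one]
    | j + 1 =>
      rw [invR, invR, map_neg, map_sum]
      congr 1
      refine Finset.sum_congr rfl fun i _ => ?_
      rw [map_mul, ih (j - i) (by omega)]

theorem ck_invR_invc (a : ℕ → ℂ) (k : ℕ) : invR a k = invc a k := by
  induction k using Nat.strong_induction_on with
  | _ k ih =>
    match k with
    | 0 => rw [invR, invc]
    | j + 1 =>
      rw [invR, invc]
      congr 1
      refine Finset.sum_congr rfl fun i _ => ?_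
      rw [ih (j - i) (by omega)]

/-! ### the model -/

theorem model_exists (hnf : HNF) (n : ℕ) (hn : 1 ≤ n) : Nonempty (Model n) := by
  classical
  choose! Tp hTn hTe hTa using fun m (hm : 1 ≤ m) => ck_op hnf n hn m hm
  let T : ℕ → ck_H n →L[ℂ] ck_H n := fun m => if m = 0 then 0 else Tp m
  have hT0 : T 0 = 0 := if_pos rfl
  have hTm : ∀ m, 1 ≤ m → T m = Tp m := fun m hm => if_neg (by omega)
  have hn1 : ∀ m, 1 ≤ m → ‖T m‖ ≤ dn n m := fun m hm => by rw [hTm m hm]; exact hTn m hm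
  have he : ∀ m, 1 ≤ m → ∀ L : Lat n, T m (ck_e L) =
      (ck_nu n m : ℂ) • ∑ M ∈ supS m L, ck_e M := fun m hm => by rw [hTm m hm]; exact hTe m hm
  have ha : ∀ m, 1 ≤ m → ∀ L : Lat n, ContinuousLinearMap.adjoint (T m) (ck_e L) =
      (ck_nu n m : ℂ) • ∑ M ∈ subS m L, ck_e M := fun m hm => by rw [hTm m hm]; exact hTa m hm
  -- commutation
  have hc1 : ∀ i j, T i * T j = T j * T i := by
    intro i j
    rcases Nat.eq_zero_or_pos i with rfl | hi
    · rw [hT0, zero_mul, mul_zero]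
    rcases Nat.eq_zero_or_pos j with rfl | hj
    · rw [hT0, zero_mul, mul_zero]
    refine ck_ext _ _ fun L hL => lp.ext (funext fun v => ?_)
    rw [ck_two _ _ _ _ _ _ (he i hi) (he j hj), ck_two _ _ _ _ _ _ (he j hj) (he i hi),
      mul_comm (ck_nu n j : ℂ)]
    congr 2
    convert comm_uu hj hi L v.1 hL v.2
  have hc2 : ∀ i j, T i * ContinuousLinearMap.adjoint (T j) =
      ContinuousLinearMap.adjoint (T j) * T i := by
    intro i j
    rcases Nat.eq_zero_or_pos i with rfl | hi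
    · rw [hT0, zero_mul, mul_zero]
    rcases Nat.eq_zero_or_pos j with rfl | hj
    · rw [hT0, map_zero, zero_mul, mul_zero]
    refine ck_ext _ _ fun L hL => lp.ext (funext fun v => ?_)
    rw [ck_two _ _ _ _ _ _ (he i hi) (ha j hj), ck_two _ _ _ _ _ _ (ha j hj) (he i hi),
      mul_comm (ck_nu n j : ℂ)]
    congr 2
    convert (comm_ud hnf hi hj L v.1 hL v.2).symm
  have hT1 : T 1 = 1 := by
    refine ck_ext _ _ fun L hL => ?_
    rw [he 1 le_rfl, ck_sup_one hL, Finset.sum_singleton, ck_nu_one, Complex.ofReal_one, one_smul]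
    rfl
  have hmul : ∀ m m' : ℕ, Nat.Coprime m m' → T (m * m') = T m * T m' := by
    intro m m' hmm
    rcases Nat.eq_zero_or_pos m with rfl | hm
    · rw [zero_mul, hT0, zero_mul]
    rcases Nat.eq_zero_or_pos m' with rfl | hm'
    · rw [mul_zero, hT0, mul_zero]
    refine ck_ext _ _ fun L hL => lp.ext (funext fun v => ?_)
    rw [ck_two _ _ _ _ _ _ (he m hm) (he m' hm'), he _ (Nat.mul_pos hm hm'), ck_nu_mul]
    have h1 := mul_uu hm' hm hmm.symm L v.1 hL v.2
    have h2 : ((supS m' L).filter fun M => v.1 ∈ supS m M).card =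
        if v.1 ∈ supS (m' * m) L then 1 else 0 := by convert h1
    rw [h2, lp.coeFn_smul, Pi.smul_apply, lp.coeFn_sum, Finset.sum_apply]
    simp only [ck_e_apply, Finset.sum_ite_eq]
    rw [mul_comm m' m, smul_eq_mul]
    push_cast
    rfl
  have hinv : ∀ p : ℕ, p.Prime → ∀ k, n < k → invR (fun j => T (p ^ j)) k = 0 := by
    intro p hp k hk
    refine ck_ext _ _ fun L hL => ?_
    rw [ck_inv_coeff T he hp.pos hL k, Finset.sum_eq_zero, smul_zero]
    · rfl
    · intro N hN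
      rw [ck_b_zero hp hL k hk N hN, Int.cast_zero, zero_smul]
  have hδ : ‖(ck_e (Lz n) : ck_H n)‖ = 1 := by
    unfold ck_e
    rw [dif_pos (full_Lz n), lp.norm_single (by norm_num), norm_one]
  obtain ⟨Om, ms, P, hP, X, hXm, hXb, hχ, hmom⟩ := gel T hc1 hc2 (ck_e (Lz n)) hδ
  refine ⟨⟨Om, ms, P, hP, X, hXm, ?_, ?_, ?_, ?_, ?_, ?_⟩⟩
  · intro w
    obtain ⟨χ, h⟩ := hχ w
    rw [← h 1]
    have h1 : (⟨T 1, Algebra.subset_adjoin ⟨1, rfl⟩⟩ : Algebra.adjoin ℂ (Set.range T)) = 1 :=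
      Subtype.ext hT1
    rw [h1, map_one]
  · intro w
    obtain ⟨χ, h⟩ := hχ w
    rw [← h 0]
    have h1 : (⟨T 0, Algebra.subset_adjoin ⟨0, rfl⟩⟩ : Algebra.adjoin ℂ (Set.range T)) = 0 :=
      Subtype.ext hT0
    rw [h1, map_zero]
  · intro m m' hmm w
    obtain ⟨χ, h⟩ := hχ w
    rw [← h (m * m'), ← h m, ← h m', ← map_mul]
    congr 1
    exact Subtype.ext (hmul m m' hmm)
  · intro p hp j w
    refine (hXb (p ^ j) w).trans ((hn1 (p ^ j) (Nat.one_le_pow _ _ hp.pos)).trans ?_)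
    rw [dn_pow n p j hp hn]
  · intro p hp k w hk
    obtain ⟨χ, h⟩ := hχ w
    set T' : ℕ → Algebra.adjoin ℂ (Set.range T) :=
      fun j => ⟨T (p ^ j), Algebra.subset_adjoin ⟨p ^ j, rfl⟩⟩ with hT'
    have h1 : invR T' k = 0 := by
      apply Subtype.ext
      have h2 := ck_map_inv (Algebra.adjoin ℂ (Set.range T)).val.toRingHom T' k
      have h3 := hinv p hp k hk
      exact h2.trans h3
    have h4 := ck_map_inv χ.toRingHom T' k
    rw [h1, map_zero] at h4
    rw [← ck_invR_invc]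
    rw [h4]
    congr 1
    funext j
    exact (h (p ^ j)).symm
  · intro W W' h1 h2 h3 h4
    have h5 := hmom W.1 W.2 W'.1 W'.2
    rw [ck_word T he ha W h1 h2, ck_word T he ha W' h3 h4, inner_smul_left, inner_smul_right,
      ck_inner _ _ (ck_UW_full W h1 h2), Complex.conj_ofReal] at h5
    refine h5.trans ?_
    show (nf n W' : ℂ) * ((nf n W : ℂ) * ((cnt n W W' : ℕ) : ℂ)) =
      ((nf n W * nf n W' * cnt n W W' : ℝ) : ℂ)
    push_cast
    ring

end

end Pool.Agent.SGN
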