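import Pool.Agent.Lib_helper84.SGN.DefsM

set_option autoImplicit false

namespace Pool.Agent.SGN

open MeasureTheory Matrix Complex ProbabilityTheory
open Pool.Agent.GLQ (re unip cube Lat Lz latt sp qq)

noncomputable section

/-! ### charges -/

theorem cl_supp_sp {V : Type} (nb : V → Finset V) (f : V →₀ ℕ) (M : V)
    (h : sp nb f M ≠ 0) : ∃ L, f L ≠ 0 ∧ M ∈ nb L := by
  classical
  unfold sp at h
  rw [Finsupp.sum_apply, Finsupp.sum] at h
  obtain ⟨L, hL, h2⟩ := Finset.exists_ne_zero_of_sum_ne_zero h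
  rw [Finsupp.finsetSum_apply] at h2
  obtain ⟨M', hM', h3⟩ := Finset.exists_ne_zero_of_sum_ne_zero h2
  rw [Finsupp.single_apply] at h3
  have : M' = M := by
    by_contra hne
    rw [if_neg hne] at h3
    exact h3 rfl
  subst this
  exact ⟨L, by simpa using hL, hM'⟩

theorem cl_sup {n m : ℕ} {L M : Lat n} (h : M ∈ supS m L) : L ≤ M ∧ L.relIndex M = m := by
  unfold supS at h
  split_ifs at h with hf
  · simpa using h
  · simp at h

theorem cl_sub {n m : ℕ} {L M : Lat n} (h : M ∈ subS m L) : M ≤ L ∧ M.relIndex L = m := by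
  unfold subS at h
  split_ifs at h with hf
  · simpa using h
  · simp at h

theorem cl_step {n k : ℕ} {L M : Lat n} (h : M ≤ L) (hk : M.relIndex L = k) :
    M.relIndex (Lz n) * (Lz n).relIndex L = k * L.relIndex (Lz n) * (Lz n).relIndex M := by
  have e1 : (M ⊓ Lz n).relIndex M * M.relIndex L = (M ⊓ Lz n).relIndex L :=
    AddSubgroup.relIndex_mul_relIndex _ _ _ inf_le_left h
  have e2 : (M ⊓ Lz n).relIndex (L ⊓ Lz n) * (L ⊓ Lz n).relIndex L = (M ⊓ Lz n).relIndex L :=
    AddSubgroup.relIndex_mul_relIndex _ _ _ (inf_le_inf_right _ h) inf_le_left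
  have e3 : (M ⊓ Lz n).relIndex (L ⊓ Lz n) * (L ⊓ Lz n).relIndex (Lz n) =
      (M ⊓ Lz n).relIndex (Lz n) :=
    AddSubgroup.relIndex_mul_relIndex _ _ _ (inf_le_inf_right _ h) inf_le_right
  have f1 : (M ⊓ Lz n).relIndex M = (Lz n).relIndex M := by
    rw [inf_comm, AddSubgroup.inf_relIndex_right]
  have f2 : (L ⊓ Lz n).relIndex L = (Lz n).relIndex L := by
    rw [inf_comm, AddSubgroup.inf_relIndex_right]
  have f3 : (L ⊓ Lz n).relIndex (Lz n) = L.relIndex (Lz n) := AddSubgroup.inf_relIndex_right _ _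
  have f4 : (M ⊓ Lz n).relIndex (Lz n) = M.relIndex (Lz n) := AddSubgroup.inf_relIndex_right _ _
  rw [f1, hk] at e1
  rw [f2] at e2
  rw [f3, f4] at e3
  calc M.relIndex (Lz n) * (Lz n).relIndex L
      = (M ⊓ Lz n).relIndex (L ⊓ Lz n) * (Lz n).relIndex L * L.relIndex (Lz n) := by
        rw [← e3]; ring
    _ = (Lz n).relIndex M * k * L.relIndex (Lz n) := by rw [e2, e1]
    _ = k * L.relIndex (Lz n) * (Lz n).relIndex M := by ring

/-- the covolume of `L` is `b / a` -/
def ClC {n : ℕ} (a b : ℕ) (L : Lat n) : Prop :=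
  L.relIndex (Lz n) ≠ 0 ∧ (Lz n).relIndex L ≠ 0 ∧ L.relIndex (Lz n) * a = b * (Lz n).relIndex L

theorem cl_inv {n : ℕ} (l l' : List ℕ) (hl : ∀ a ∈ l, 1 ≤ a) (hl' : ∀ a ∈ l', 1 ≤ a) (L : Lat n)
    (h : UW n (l, l') L ≠ 0) : ClC l.prod l'.prod L := by
  induction l generalizing L with
  | nil =>
    unfold UW at h
    simp only [List.foldr_nil] at h
    rw [List.prod_nil]
    induction l' generalizing L with
    | nil =>
      simp only [List.foldr_nil] at h
      have : L = Lz n := by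
        by_contra hne
        exact h (Finsupp.single_eq_of_ne hne)
      subst this
      refine ⟨by simp, by simp, by simp⟩
    | cons b l' ih =>
      simp only [List.foldr_cons] at h
      obtain ⟨L', h1, h2⟩ := cl_supp_sp _ _ _ h
      obtain ⟨c1, c2, c3⟩ := ih (fun a ha => hl' a (List.mem_cons_of_mem _ ha)) L' h1
      obtain ⟨d1, d2⟩ := cl_sub h2
      have hb : 1 ≤ b := hl' b List.mem_cons_self
      have g1 : L.relIndex (Lz n) ≠ 0 :=
        AddSubgroup.relIndex_ne_zero_trans (by rw [d2]; omega) c1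
      have g2 : (Lz n).relIndex L ≠ 0 :=
        AddSubgroup.relIndex_ne_zero_trans c2 (by rw [AddSubgroup.relIndex_eq_one.2 d1]; omega)
      refine ⟨g1, g2, ?_⟩
      have e := cl_step d1 d2
      rw [List.prod_cons]
      apply mul_right_cancel₀ c2
      calc L.relIndex (Lz n) * 1 * (Lz n).relIndex L'
          = L.relIndex (Lz n) * (Lz n).relIndex L' := by ring
        _ = b * L'.relIndex (Lz n) * (Lz n).relIndex L := e
        _ = b * (L'.relIndex (Lz n) * 1) * (Lz n).relIndex L := by ring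
        _ = b * l'.prod * (Lz n).relIndex L * (Lz n).relIndex L' := by rw [c3]; ring
  | cons a l ih =>
    have h0 : UW n (a :: l, l') = sp (supS a) (UW n (l, l')) := rfl
    rw [h0] at h
    obtain ⟨L', h1, h2⟩ := cl_supp_sp _ _ _ h
    obtain ⟨c1, c2, c3⟩ := ih (fun a ha => hl a (List.mem_cons_of_mem _ ha)) L' h1
    obtain ⟨d1, d2⟩ := cl_sup h2
    have ha : 1 ≤ a := hl a List.mem_cons_self
    have g1 : L.relIndex (Lz n) ≠ 0 :=
      AddSubgroup.relIndex_ne_zero_trans (by rw [AddSubgroup.relIndex_eq_one.2 d1]; omega) c1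
    have g2 : (Lz n).relIndex L ≠ 0 :=
      AddSubgroup.relIndex_ne_zero_trans c2 (by rw [d2]; omega)
    refine ⟨g1, g2, ?_⟩
    have e := cl_step d1 d2
    rw [List.prod_cons]
    apply mul_right_cancel₀ c2
    calc L.relIndex (Lz n) * (a * l.prod) * (Lz n).relIndex L'
        = (a * L.relIndex (Lz n) * (Lz n).relIndex L') * l.prod := by ring
      _ = (L'.relIndex (Lz n) * (Lz n).relIndex L) * l.prod := by rw [← e]
      _ = (L'.relIndex (Lz n) * l.prod) * (Lz n).relIndex L := by ring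
      _ = l'.prod * (Lz n).relIndex L * (Lz n).relIndex L' := by rw [c3]; ring

theorem charge (n : ℕ) (W W' : Wd) (hW : ∀ a ∈ W.1, 1 ≤ a) (hW2 : ∀ a ∈ W.2, 1 ≤ a)
    (hW' : ∀ a ∈ W'.1, 1 ≤ a) (hW'2 : ∀ a ∈ W'.2, 1 ≤ a)
    (h : W.1.prod * W'.2.prod ≠ W'.1.prod * W.2.prod) : cnt n W W' = 0 := by
  unfold cnt
  rw [Finsupp.sum]
  refine Finset.sum_eq_zero fun L hL => ?_
  by_contra hne
  have h1 : UW n W L ≠ 0 := by simpa using hL
  have h2 : UW n W' L ≠ 0 := right_ne_zero_of_mul hne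
  obtain ⟨a1, a2, a3⟩ := cl_inv W.1 W.2 hW hW2 L h1
  obtain ⟨b1, b2, b3⟩ := cl_inv W'.1 W'.2 hW' hW'2 L h2
  apply h
  apply mul_right_cancel₀ a2
  apply mul_left_cancel₀ a1
  calc L.relIndex (Lz n) * (W.1.prod * W'.2.prod * (Lz n).relIndex L)
      = (L.relIndex (Lz n) * W.1.prod) * (W'.2.prod * (Lz n).relIndex L) := by ring
    _ = (W.2.prod * (Lz n).relIndex L) * (L.relIndex (Lz n) * W'.1.prod) := by rw [a3, b3]
    _ = L.relIndex (Lz n) * (W'.1.prod * W.2.prod * (Lz n).relIndex L) := by ring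

/-! ### the second moment -/

theorem cl_bdd {n : ℕ} (M : Model n) (m : ℕ) : ∃ C : ℝ, ∀ w, ‖M.X m w‖ ≤ C := by
  induction m using Nat.recOnPosPrimePosCoprime with
  | prime_pow p k hp hk => exact ⟨_, fun w => M.bdd p hp k w⟩
  | zero => exact ⟨0, fun w => by rw [M.zero w, norm_zero]⟩
  | one => exact ⟨1, fun w => by rw [M.one w, norm_one]⟩
  | coprime a b ha hb hab h1 h2 =>
    obtain ⟨C1, h1⟩ := h1
    obtain ⟨C2, h2⟩ := h2
    refine ⟨|C1| * |C2|, fun w => ?_⟩
    rw [M.mul a b hab w, norm_mul]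
    exact mul_le_mul ((h1 w).trans (le_abs_self _)) ((h2 w).trans (le_abs_self _))
      (norm_nonneg _) (abs_nonneg _)

theorem cl_lw_bdd {n : ℕ} (M : Model n) (W : Wd) :
    ∃ C : ℝ, ∀ w, ‖lw (fun m => M.X m w) W‖ ≤ C := by
  obtain ⟨l, l'⟩ := W
  have h1 : ∀ l : List ℕ, ∃ C : ℝ, 0 ≤ C ∧ ∀ w, ‖(l.map fun m => M.X m w).prod‖ ≤ C := by
    intro l
    induction l with
    | nil => exact ⟨1, zero_le_one, fun w => by simp⟩
    | cons a l ih =>
      obtain ⟨C, hC, h⟩ := ih
      obtain ⟨C', h'⟩ := cl_bdd M a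
      refine ⟨|C'| * C, by positivity, fun w => ?_⟩
      rw [List.map_cons, List.prod_cons, norm_mul]
      exact mul_le_mul ((h' w).trans (le_abs_self _)) (h w) (norm_nonneg _) (abs_nonneg _)
  have h2 : ∀ l : List ℕ, ∃ C : ℝ, 0 ≤ C ∧
      ∀ w, ‖(l.map fun m => (starRingEnd ℂ) (M.X m w)).prod‖ ≤ C := by
    intro l
    induction l with
    | nil => exact ⟨1, zero_le_one, fun w => by simp⟩
    | cons a l ih =>
      obtain ⟨C, hC, h⟩ := ih
      obtain ⟨C', h'⟩ := cl_bdd M a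
      refine ⟨|C'| * C, by positivity, fun w => ?_⟩
      rw [List.map_cons, List.prod_cons, norm_mul, RCLike.norm_conj]
      exact mul_le_mul ((h' w).trans (le_abs_self _)) (h w) (norm_nonneg _) (abs_nonneg _)
  obtain ⟨C1, hC1, h1⟩ := h1 l
  obtain ⟨C2, hC2, h2⟩ := h2 l'
  refine ⟨C1 * C2, fun w => ?_⟩
  unfold lw
  rw [norm_mul]
  exact mul_le_mul (h1 w) (h2 w) (norm_nonneg _) hC1

theorem cl_lw_meas {n : ℕ} (M : Model n) (W : Wd) :
    @Measurable M.Om ℂ M.ms _ (fun w => lw (fun m => M.X m w) W) := by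
  letI := M.ms
  obtain ⟨l, l'⟩ := W
  unfold lw
  refine Measurable.mul ?_ ?_
  · simp only
    induction l with
    | nil => simp
    | cons a l ih =>
      simp only [List.map_cons, List.prod_cons]
      exact (M.meas a).mul ih
  · simp only
    induction l' with
    | nil => simp
    | cons a l ih =>
      simp only [List.map_cons, List.prod_cons]
      exact (continuous_star.measurable.comp (M.meas a)).mul ih

theorem unrm_eq (n : ℕ) (hn : 1 ≤ n) (M : Model n) (N : ℕ) (V : Finset Wd) (c : ℕ → Wd → ℂ)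
    (hV : ∀ W ∈ V, (∀ a ∈ W.1, 1 ≤ a) ∧ ∀ b ∈ W.2, 1 ≤ b) :
    unrm n N V c = M.EE fun w => ‖xval N V c fun m => M.X m w‖ ^ 2 := by
  letI := M.ms
  haveI := M.pr
  -- index set
  set J : Finset (ℕ × Wd) := Finset.Icc 1 N ×ˢ V with hJ
  set wd : ℕ × Wd → Wd := fun j => (j.1 :: j.2.1, j.2.2) with hwd
  have hxv : ∀ lam : ℕ → ℂ, xval N V c lam = ∑ j ∈ J, c j.1 j.2 * lw lam (wd j) := by
    intro lam
    unfold xval
    rw [hJ, Finset.sum_product]
    refine Finset.sum_congr rfl fun m _ => Finset.sum_congr rfl fun W _ => ?_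
    simp only [hwd, lw, List.map_cons, List.prod_cons]
    ring
  have huv : ∀ L : Lat n, uvec n N V c L =
      ∑ j ∈ J, c j.1 j.2 * (nf n (wd j) : ℝ) * (UW n (wd j) L : ℂ) := by
    intro L
    unfold uvec
    rw [hJ, Finset.sum_product]
  have hwdp : ∀ j ∈ J, (∀ a ∈ (wd j).1, 1 ≤ a) ∧ ∀ b ∈ (wd j).2, 1 ≤ b := by
    intro j hj
    rw [hJ, Finset.mem_product, Finset.mem_Icc] at hj
    refine ⟨fun a ha => ?_, (hV j.2 hj.2).2⟩
    rcases List.mem_cons.1 ha with rfl | ha
    · exact hj.1.1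
    · exact (hV j.2 hj.2).1 a ha
  -- the right side
  have hR : ((M.EE fun w => ‖xval N V c fun m => M.X m w‖ ^ 2 : ℝ) : ℂ) =
      ∑ j ∈ J, ∑ k ∈ J, c j.1 j.2 * (starRingEnd ℂ) (c k.1 k.2) *
        ((nf n (wd j) * nf n (wd k) * cnt n (wd j) (wd k) : ℝ) : ℂ) := by
    unfold Model.EE
    rw [← integral_complex_ofReal]
    have e1 : ∀ w, ((‖xval N V c fun m => M.X m w‖ ^ 2 : ℝ) : ℂ) =
        ∑ j ∈ J, ∑ k ∈ J, (c j.1 j.2 * (starRingEnd ℂ) (c k.1 k.2)) *
          (lw (fun m => M.X m w) (wd j) * (starRingEnd ℂ) (lw (fun m => M.X m w) (wd k))) := by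
      intro w
      rw [← Complex.normSq_eq_norm_sq, ← Complex.mul_conj, hxv, map_sum, Finset.sum_mul_sum]
      refine Finset.sum_congr rfl fun j _ => Finset.sum_congr rfl fun k _ => ?_
      rw [map_mul]
      ring
    simp only [e1]
    have hint : ∀ j k : ℕ × Wd, Integrable (fun w => (c j.1 j.2 * (starRingEnd ℂ) (c k.1 k.2)) *
        (lw (fun m => M.X m w) (wd j) * (starRingEnd ℂ) (lw (fun m => M.X m w) (wd k)))) M.P := by
      intro j k
      obtain ⟨C1, h1⟩ := cl_lw_bdd M (wd j)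
      obtain ⟨C2, h2⟩ := cl_lw_bdd M (wd k)
      refine Integrable.const_mul ?_ _
      refine Integrable.of_bound (C := |C1| * |C2|) ?_ (Filter.Eventually.of_forall fun w => ?_)
      · exact ((cl_lw_meas M (wd j)).mul
          (continuous_star.measurable.comp (cl_lw_meas M (wd k)))).aestronglyMeasurable
      · rw [norm_mul, RCLike.norm_conj]
        exact mul_le_mul ((h1 w).trans (le_abs_self _)) ((h2 w).trans (le_abs_self _))
          (norm_nonneg _) (abs_nonneg _)
    rw [integral_finset_sum _ fun j _ => integrable_finset_sum _ fun k _ => hint j k]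
    refine Finset.sum_congr rfl fun j hj => ?_
    rw [integral_finset_sum _ fun k _ => hint j k]
    refine Finset.sum_congr rfl fun k hk => ?_
    rw [integral_const_mul]
    congr 1
    exact M.mom (wd j) (wd k) (hwdp j hj).1 (hwdp j hj).2 (hwdp k hk).1 (hwdp k hk).2
  -- the left side
  classical
  set F : Finset (Lat n) := J.biUnion fun j => (UW n (wd j)).support with hF
  have hsupp : ∀ j ∈ J, ∀ L ∉ F, UW n (wd j) L = 0 := by
    intro j hj L hL
    by_contra hne
    exact hL (Finset.mem_biUnion.2 ⟨j, hj, by simpa using hne⟩)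
  have hL : ((unrm n N V c : ℝ) : ℂ) = ∑ L ∈ F, ((‖uvec n N V c L‖ ^ 2 : ℝ) : ℂ) := by
    unfold unrm
    rw [tsum_eq_sum (s := F)]
    · push_cast
      rfl
    · intro L hL
      rw [huv L, Finset.sum_eq_zero fun j hj => by rw [hsupp j hj L hL]; simp]
      simp
  have hcnt : ∀ j ∈ J, ∀ k ∈ J, (cnt n (wd j) (wd k) : ℂ) =
      ∑ L ∈ F, (UW n (wd j) L : ℂ) * (UW n (wd k) L : ℂ) := by
    intro j hj k hk
    unfold cnt
    rw [Finsupp.sum]
    push_cast
    apply Finset.sum_subset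
    · intro L hL
      exact Finset.mem_biUnion.2 ⟨j, hj, hL⟩
    · intro L _ hL
      have : UW n (wd j) L = 0 := by simpa using hL
      rw [this]
      simp
  have key : ((unrm n N V c : ℝ) : ℂ) =
      ((M.EE fun w => ‖xval N V c fun m => M.X m w‖ ^ 2 : ℝ) : ℂ) := by
    rw [hL, hR]
    have e2 : ∀ L ∈ F, ((‖uvec n N V c L‖ ^ 2 : ℝ) : ℂ) =
        ∑ j ∈ J, ∑ k ∈ J, c j.1 j.2 * (starRingEnd ℂ) (c k.1 k.2) *
          ((nf n (wd j) * nf n (wd k) : ℝ) : ℂ) * ((UW n (wd j) L : ℂ) * (UW n (wd k) L : ℂ)) := by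
      intro L _
      rw [← Complex.normSq_eq_norm_sq, ← Complex.mul_conj, huv, map_sum, Finset.sum_mul_sum]
      refine Finset.sum_congr rfl fun j _ => Finset.sum_congr rfl fun k _ => ?_
      rw [map_mul, map_mul, Complex.conj_ofReal, Complex.conj_natCast]
      push_cast
      ring
    rw [Finset.sum_congr rfl e2, Finset.sum_comm]
    refine Finset.sum_congr rfl fun j hj => ?_
    rw [Finset.sum_comm]
    refine Finset.sum_congr rfl fun k hk => ?_
    rw [← Finset.mul_sum, ← hcnt j hj k hk]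
    push_cast
    ring
  exact_mod_cast key

end

end Pool.Agent.SGN
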