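import Pool.Agent.Lib_helper84.SGN.DefsM

set_option autoImplicit false

namespace Pool.Agent.SGN

open MeasureTheory Matrix Complex ProbabilityTheory
open Pool.Agent.GLQ (re unip cube Lat Lz latt sp qq)
open scoped ArithmeticFunction.Omega ENNReal

noncomputable section

/-- the value of a combination of words -/
def cm_W (x : ℕ → ℂ) (T : List (ℂ × List ℕ)) : ℂ := (T.map fun t => t.1 * (t.2.map x).prod).sum

/-- the product of two combinations -/
def cm_M (T T' : List (ℂ × List ℕ)) : List (ℂ × List ℕ) :=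
  T.flatMap fun t => T'.map fun t' => (t.1 * t'.1, t.2 ++ t'.2)

theorem cm_M_len (T T' : List (ℂ × List ℕ)) : (cm_M T T').length = T.length * T'.length := by
  unfold cm_M
  induction T with
  | nil => simp
  | cons t T ih => simp [ih]; ring

theorem cm_M_W (x : ℕ → ℂ) (T T' : List (ℂ × List ℕ)) :
    cm_W x (cm_M T T') = cm_W x T * cm_W x T' := by
  induction T with
  | nil => simp [cm_M, cm_W]
  | cons t T ih =>
    have h1 : cm_W x (cm_M (t :: T) T') =
        cm_W x (T'.map fun t' => (t.1 * t'.1, t.2 ++ t'.2)) + cm_W x (cm_M T T') := by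
      simp [cm_W, cm_M]
    have h2 : cm_W x (T'.map fun t' => (t.1 * t'.1, t.2 ++ t'.2)) =
        (t.1 * (t.2.map x).prod) * cm_W x T' := by
      unfold cm_W
      rw [List.map_map, ← List.sum_map_mul_left]
      congr 1
      refine List.map_congr_left fun t' _ => ?_
      simp only [Function.comp, List.map_append, List.prod_append]
      ring
    rw [h1, h2, ih]
    have h3 : cm_W x (t :: T) = t.1 * (t.2.map x).prod + cm_W x T := by simp [cm_W]
    rw [h3]
    ring

theorem cm_M_mem {T T' : List (ℂ × List ℕ)} {s : ℂ × List ℕ} (h : s ∈ cm_M T T') :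
    ∃ t ∈ T, ∃ t' ∈ T', s = (t.1 * t'.1, t.2 ++ t'.2) := by
  unfold cm_M at h
  rw [List.mem_flatMap] at h
  obtain ⟨t, ht, h⟩ := h
  rw [List.mem_map] at h
  obtain ⟨t', ht', h⟩ := h
  exact ⟨t, ht, t', ht', h.symm⟩

/-- `F` is a combination of at most `N` words of weight `j` -/
def cm_E (F : (ℕ → ℂ) → ℂ) (j N : ℕ) : Prop :=
  ∃ T : List (ℂ × List ℕ), (∀ t ∈ T, (∀ i ∈ t.2, 1 ≤ i) ∧ t.2.sum = j ∧ ‖t.1‖ ≤ 1) ∧
    T.length ≤ N ∧ ∀ x, F x = cm_W x T

theorem cm_E_mono {F : (ℕ → ℂ) → ℂ} {j N M : ℕ} (h : cm_E F j N) (hNM : N ≤ M) : cm_E F j M := by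
  obtain ⟨T, h1, h2, h3⟩ := h
  exact ⟨T, h1, h2.trans hNM, h3⟩

theorem cm_E_zero (j : ℕ) : cm_E (fun _ => 0) j 0 := ⟨[], by simp, by simp, by simp [cm_W]⟩

theorem cm_E_one : cm_E (fun _ => 1) 0 1 := ⟨[(1, [])], by simp, by simp, by simp [cm_W]⟩

theorem cm_E_x (i : ℕ) (hi : 1 ≤ i) : cm_E (fun x => x i) i 1 :=
  ⟨[(1, [i])], by simp [hi], by simp, by simp [cm_W]⟩

theorem cm_E_add {F G : (ℕ → ℂ) → ℂ} {j N M : ℕ} (h : cm_E F j N) (h' : cm_E G j M) :
    cm_E (fun x => F x + G x) j (N + M) := by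
  obtain ⟨T, h1, h2, h3⟩ := h
  obtain ⟨T', h1', h2', h3'⟩ := h'
  refine ⟨T ++ T', ?_, ?_, ?_⟩
  · intro t ht
    rcases List.mem_append.1 ht with ht | ht
    · exact h1 t ht
    · exact h1' t ht
  · rw [List.length_append]
    omega
  · intro x
    show F x + G x = cm_W x (T ++ T')
    rw [h3, h3']
    simp [cm_W]

theorem cm_E_smul {F : (ℕ → ℂ) → ℂ} {j N : ℕ} (a : ℂ) (ha : ‖a‖ ≤ 1) (h : cm_E F j N) :
    cm_E (fun x => a * F x) j N := by
  obtain ⟨T, h1, h2, h3⟩ := h
  refine ⟨T.map fun t => (a * t.1, t.2), ?_, ?_, ?_⟩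
  · intro t ht
    rw [List.mem_map] at ht
    obtain ⟨s, hs, rfl⟩ := ht
    obtain ⟨e1, e2, e3⟩ := h1 s hs
    refine ⟨e1, e2, ?_⟩
    show ‖a * s.1‖ ≤ 1
    rw [norm_mul]
    exact mul_le_one₀ ha (norm_nonneg _) e3
  · rw [List.length_map]
    exact h2
  · intro x
    show a * F x = _
    rw [h3]
    unfold cm_W
    rw [← List.sum_map_mul_left, List.map_map]
    congr 1
    refine List.map_congr_left fun t _ => ?_
    simp only [Function.comp]
    ring

theorem cm_E_mul {F G : (ℕ → ℂ) → ℂ} {i j N M : ℕ} (h : cm_E F i N) (h' : cm_E G j M) :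
    cm_E (fun x => F x * G x) (i + j) (N * M) := by
  obtain ⟨T, h1, h2, h3⟩ := h
  obtain ⟨T', h1', h2', h3'⟩ := h'
  refine ⟨cm_M T T', ?_, ?_, ?_⟩
  · intro s hs
    obtain ⟨t, ht, t', ht', rfl⟩ := cm_M_mem hs
    obtain ⟨e1, e2, e3⟩ := h1 t ht
    obtain ⟨e1', e2', e3'⟩ := h1' t' ht'
    refine ⟨?_, ?_, ?_⟩
    · intro i hi
      rcases List.mem_append.1 hi with hi | hi
      · exact e1 i hi
      · exact e1' i hi
    · show (t.2 ++ t'.2).sum = i + j
      rw [List.sum_append, e2, e2']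
    · show ‖t.1 * t'.1‖ ≤ 1
      rw [norm_mul]
      exact mul_le_one₀ e3 (norm_nonneg _) e3'
  · rw [cm_M_len]
    exact Nat.mul_le_mul h2 h2'
  · intro x
    show F x * G x = _
    rw [h3, h3', cm_M_W]

theorem cm_E_sum {j : ℕ} (n : ℕ) (F : ℕ → (ℕ → ℂ) → ℂ) (N : ℕ → ℕ)
    (h : ∀ i, i < n → cm_E (F i) j (N i)) :
    cm_E (fun x => ∑ i ∈ Finset.range n, F i x) j (∑ i ∈ Finset.range n, N i) := by
  induction n with
  | zero => simpa using cm_E_zero j
  | succ n ih =>
    have h1 := cm_E_add (ih fun i hi => h i (by omega)) (h n (by omega))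
    rw [Finset.sum_range_succ]
    simpa only [Finset.sum_range_succ] using h1

theorem cm_geom (j : ℕ) : ∑ i ∈ Finset.range (j + 1), 1 * 2 ^ (j - i) ≤ 2 ^ (j + 1) := by
  have h := Finset.sum_range_reflect (fun i => 2 ^ i) (j + 1)
  have h2 : ∑ i ∈ Finset.range (j + 1), 1 * 2 ^ (j - i) =
      ∑ i ∈ Finset.range (j + 1), 2 ^ (j + 1 - 1 - i) := by
    refine Finset.sum_congr rfl fun i _ => ?_
    rw [one_mul]
    congr 1
  rw [h2, h]
  have h3 := Nat.geomSum_lt (m := 2) (n := j + 1) (s := Finset.range (j + 1)) le_rfl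
    (fun k hk => Finset.mem_range.1 hk)
  exact h3.le

theorem cm_invc (j : ℕ) : cm_E (fun x => invc x j) j (2 ^ j) := by
  induction j using Nat.strong_induction_on with
  | _ j ih =>
    rcases j with _ | j
    · simpa [invc] using cm_E_one
    · have h1 : cm_E (fun x => ∑ i ∈ Finset.range (j + 1), x (i + 1) * invc x (j - i)) (j + 1)
          (∑ i ∈ Finset.range (j + 1), 1 * 2 ^ (j - i)) := by
        refine cm_E_sum (j + 1) (fun i x => x (i + 1) * invc x (j - i)) _ fun i hi => ?_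
        have h2 := cm_E_mul (cm_E_x (i + 1) (by omega)) (ih (j - i) (by omega))
        have e : i + 1 + (j - i) = j + 1 := by omega
        rw [e] at h2
        exact h2
      have h3 := cm_E_smul (-1) (by simp) (cm_E_mono h1 (cm_geom j))
      refine (?_ : (fun x => -1 * ∑ i ∈ Finset.range (j + 1), x (i + 1) * invc x (j - i)) =
        fun x : ℕ → ℂ => invc x (j + 1)) ▸ h3
      funext x
      rw [invc, Finset.sum_range (fun i => x (i + 1) * invc x (j - i))]
      ring

theorem cm_cat (m : ℕ) :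
    2 ^ (m + 1) + ∑ i ∈ Finset.range m, (2 * 4 ^ i * catalan i) *
      (2 * 4 ^ (m - i - 1) * catalan (m - i - 1)) ≤ 2 * 4 ^ m * catalan m := by
  rcases m with _ | m
  · simp
  · have h1 : ∑ i ∈ Finset.range (m + 1), (2 * 4 ^ i * catalan i) *
        (2 * 4 ^ (m + 1 - i - 1) * catalan (m + 1 - i - 1)) = 4 ^ (m + 1) * catalan (m + 1) := by
      rw [catalan_succ, ← Finset.sum_range (fun i => catalan i * catalan (m - i)) , Finset.mul_sum]
      refine Finset.sum_congr rfl fun i hi => ?_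
      rw [Finset.mem_range] at hi
      have e : m + 1 - i - 1 = m - i := by omega
      have e2 : (4 : ℕ) ^ (m + 1) = 4 * (4 ^ i * 4 ^ (m - i)) := by
        rw [← pow_add, ← pow_succ']
        congr 1
        omega
      rw [e, e2]
      ring
    rw [h1]
    have h2 : 1 ≤ catalan (m + 1) := by
      rw [catalan_eq_centralBinom_div]
      refine Nat.div_pos ?_ (by omega)
      have := Nat.succ_dvd_centralBinom (m + 1)
      exact Nat.le_of_dvd (Nat.centralBinom_pos _) this
    have h3 : 2 ^ (m + 1 + 1) ≤ 4 ^ (m + 1) := by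
      have e : (4 : ℕ) = 2 ^ 2 := by norm_num
      rw [e, ← pow_mul]
      exact Nat.pow_le_pow_right (by norm_num) (by omega)
    nlinarith [Nat.mul_le_mul h3 h2]

theorem cm_sqr (m : ℕ) : cm_E (fun x => sqr (invc x) (m + 1)) (m + 1) (2 * 4 ^ m * catalan m) := by
  induction m using Nat.strong_induction_on with
  | _ m ih =>
    have h1 : cm_E (fun x => ∑ i ∈ Finset.range m, sqr (invc x) (i + 1) * sqr (invc x) (m - i))
        (m + 1) (∑ i ∈ Finset.range m, (2 * 4 ^ i * catalan i) *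
          (2 * 4 ^ (m - i - 1) * catalan (m - i - 1))) := by
      refine cm_E_sum m (fun i x => sqr (invc x) (i + 1) * sqr (invc x) (m - i)) _ fun i hi => ?_
      have h2 := cm_E_mul (ih i hi) (ih (m - i - 1) (by omega))
      have e1 : m - i - 1 + 1 = m - i := by omega
      have e2 : i + 1 + (m - i) = m + 1 := by omega
      simp only [e1, e2] at h2
      exact h2
    have h3 := cm_E_smul (1 / 2) (by norm_num) (cm_E_add (cm_invc (m + 1)) (cm_E_smul (-1) (by simp) h1))
    have h4 := cm_E_mono h3 (cm_cat m)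
    refine (?_ : (fun x => 1 / 2 * (invc x (m + 1) + -1 * ∑ i ∈ Finset.range m,
      sqr (invc x) (i + 1) * sqr (invc x) (m - i))) = fun x : ℕ → ℂ => sqr (invc x) (m + 1)) ▸ h4
    funext x
    rw [sqr, Finset.sum_range (fun i => sqr (invc x) (i + 1) * sqr (invc x) (m - i))]
    ring

theorem cm_sqr' (j : ℕ) : cm_E (fun x => sqr (invc x) j) j (16 ^ j) := by
  rcases j with _ | m
  · simpa [sqr] using cm_E_one
  · refine cm_E_mono (cm_sqr m) ?_
    have h1 : catalan m ≤ 4 ^ m := by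
      rw [catalan_eq_centralBinom_div]
      refine (Nat.div_le_self _ _).trans ?_
      have h2 : Nat.centralBinom m ≤ 2 ^ (2 * m) := Nat.choose_le_two_pow _ _
      rwa [pow_mul] at h2
    calc 2 * 4 ^ m * catalan m ≤ 2 * 4 ^ m * 4 ^ m := Nat.mul_le_mul_left _ h1
      _ = 2 * 16 ^ m := by
          rw [mul_assoc, ← mul_pow]
          norm_num
      _ ≤ 16 ^ (m + 1) := by
          rw [pow_succ]
          have : 0 < 16 ^ m := by positivity
          omega

theorem cm_al (k : ℕ) (hk : 1 ≤ k) : ∃ T : List (ℂ × List ℕ),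
    (∀ t ∈ T, (∀ i ∈ t.2, 1 ≤ i) ∧ t.2.prod = k ∧ ‖t.1‖ ≤ 1) ∧ T.length ≤ k ^ 4 ∧
      ∀ lam, al lam k = cm_W lam T := by
  induction k using Nat.recOnPosPrimePosCoprime with
  | prime_pow p j hp hj =>
    obtain ⟨T, h1, h2, h3'⟩ := cm_sqr' j
    have h3 : ∀ x : ℕ → ℂ, sqr (invc x) j = cm_W x T := h3'
    refine ⟨T.map fun t => (t.1, t.2.map fun i => p ^ i), ?_, ?_, ?_⟩
    · intro s hs
      rw [List.mem_map] at hs
      obtain ⟨t, ht, rfl⟩ := hs
      obtain ⟨e1, e2, e3⟩ := h1 t ht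
      refine ⟨?_, ?_, e3⟩
      · intro i hi
        rw [List.mem_map] at hi
        obtain ⟨i', -, rfl⟩ := hi
        exact Nat.pos_of_ne_zero (pow_ne_zero _ hp.ne_zero)
      · have hgen : ∀ l : List ℕ, (l.map fun i => p ^ i).prod = p ^ l.sum := by
          intro l
          induction l with
          | nil => simp
          | cons i l ih => simp [ih, pow_add]
        show (t.2.map fun i => p ^ i).prod = p ^ j
        rw [hgen, e2]
    · rw [List.length_map]
      refine h2.trans ?_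
      rw [← pow_mul, mul_comm j 4, pow_mul]
      exact Nat.pow_le_pow_left (by
        calc 16 = 2 ^ 4 := by norm_num
          _ ≤ p ^ 4 := Nat.pow_le_pow_left hp.two_le 4) j
    · intro lam
      have e : al lam (p ^ j) = sqr (invc fun i => lam (p ^ i)) j := by
        unfold al
        rw [hp.factorization_pow, Finsupp.prod_single_index]
        simp [sqr]
      rw [e, h3]
      unfold cm_W
      rw [List.map_map]
      congr 1
      refine List.map_congr_left fun t _ => ?_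
      simp only [Function.comp, List.map_map]
      rfl
  | zero => omega
  | one => exact ⟨[(1, [])], by simp, by simp, by simp [cm_W, al]⟩
  | coprime a b ha hb hab iha ihb =>
    obtain ⟨T, h1, h2, h3⟩ := iha (by omega)
    obtain ⟨T', h1', h2', h3'⟩ := ihb (by omega)
    refine ⟨cm_M T T', ?_, ?_, ?_⟩
    · intro s hs
      obtain ⟨t, ht, t', ht', rfl⟩ := cm_M_mem hs
      obtain ⟨e1, e2, e3⟩ := h1 t ht
      obtain ⟨e1', e2', e3'⟩ := h1' t' ht'
      refine ⟨?_, ?_, ?_⟩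
      · intro i hi
        rcases List.mem_append.1 hi with hi | hi
        · exact e1 i hi
        · exact e1' i hi
      · show (t.2 ++ t'.2).prod = a * b
        rw [List.prod_append, e2, e2']
      · show ‖t.1 * t'.1‖ ≤ 1
        rw [norm_mul]
        exact mul_le_one₀ e3 (norm_nonneg _) e3'
    · rw [cm_M_len, mul_pow]
      exact Nat.mul_le_mul h2 h2'
    · intro lam
      rw [cm_M_W, ← h3, ← h3']
      unfold al
      rw [Nat.factorization_mul_of_coprime hab]
      refine Finsupp.prod_add_index_of_disjoint ?_ _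
      simpa using hab.disjoint_primeFactors

theorem al_words : ∃ c : ℝ, 0 < c ∧ ∀ k : ℕ, 1 ≤ k → ∃ (V : Finset Wd) (a : Wd → ℂ),
    (V.card : ℝ) ≤ (k : ℝ) ^ c ∧
    (∀ W ∈ V, W.2 = [] ∧ (∀ i ∈ W.1, 1 ≤ i) ∧ W.1.prod = k ∧ ‖a W‖ ≤ (k : ℝ) ^ c) ∧
    ∀ lam : ℕ → ℂ, al lam k = ∑ W ∈ V, a W * lw lam W := by
  classical
  refine ⟨4, by norm_num, fun k hk => ?_⟩
  obtain ⟨T, h1, h2, h3⟩ := cm_al k hk
  have hpow : (k : ℝ) ^ (4 : ℝ) = ((k ^ 4 : ℕ) : ℝ) := by
    have e : (4 : ℝ) = ((4 : ℕ) : ℝ) := by norm_num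
    rw [e, Real.rpow_natCast]
    push_cast
    ring
  set w : Fin T.length → Wd := fun i => ((T.get i).2, []) with hw
  refine ⟨Finset.univ.image w, fun W => ∑ i ∈ Finset.univ.filter (fun i => w i = W), (T.get i).1,
    ?_, ?_, ?_⟩
  · rw [hpow]
    have h4 : (Finset.univ.image w).card ≤ T.length := by
      refine Finset.card_image_le.trans ?_
      simp
    exact_mod_cast h4.trans h2
  · intro W hW
    rw [Finset.mem_image] at hW
    obtain ⟨i, -, rfl⟩ := hW
    obtain ⟨e1, e2, e3⟩ := h1 (T.get i) (List.get_mem T i)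
    refine ⟨rfl, e1, e2, ?_⟩
    rw [hpow]
    refine (norm_sum_le _ _).trans ?_
    refine (Finset.sum_le_sum (g := fun _ => (1 : ℝ)) fun i' _ =>
      (h1 (T.get i') (List.get_mem T i')).2.2).trans ?_
    rw [Finset.sum_const, nsmul_eq_mul, mul_one]
    have h5 : (Finset.univ.filter (fun i' => w i' = w i)).card ≤ T.length := by
      refine (Finset.card_filter_le _ _).trans ?_
      simp
    exact_mod_cast h5.trans h2
  · intro lam
    have h6 : cm_W lam T = ∑ i : Fin T.length, (T.get i).1 * lw lam (w i) := by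
      unfold cm_W
      conv_lhs => rw [← List.ofFn_get T]
      rw [List.map_ofFn, List.sum_ofFn]
      refine Finset.sum_congr rfl fun i _ => ?_
      simp [lw, hw]
    rw [h3, h6, ← Finset.sum_fiberwise_of_maps_to (g := w) (t := Finset.univ.image w)
      (fun i _ => Finset.mem_image_of_mem w (Finset.mem_univ i))]
    refine Finset.sum_congr rfl fun W _ => ?_
    rw [Finset.sum_mul]
    refine Finset.sum_congr rfl fun i hi => ?_
    rw [Finset.mem_filter] at hi
    rw [hi.2]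

theorem cm_word_le (n : ℕ) (lam : ℕ → ℂ) (h : ∀ m : ℕ, ‖lam m‖ ≤ (m : ℝ) ^ n) (l : List ℕ) :
    ‖(l.map lam).prod‖ ≤ ((l.prod : ℕ) : ℝ) ^ n := by
  induction l with
  | nil => simp
  | cons i l ih =>
    rw [List.map_cons, List.prod_cons, List.prod_cons, norm_mul, Nat.cast_mul, mul_pow]
    exact mul_le_mul (h i) ih (norm_nonneg _) (by positivity)

theorem cm_W_le (k n : ℕ) (lam : ℕ → ℂ) (h : ∀ m : ℕ, ‖lam m‖ ≤ (m : ℝ) ^ n)
    (T : List (ℂ × List ℕ)) (hT : ∀ t ∈ T, t.2.prod = k ∧ ‖t.1‖ ≤ 1) :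
    ‖cm_W lam T‖ ≤ T.length * (k : ℝ) ^ n := by
  induction T with
  | nil => simp [cm_W]
  | cons t T ih =>
    have h1 : cm_W lam (t :: T) = t.1 * (t.2.map lam).prod + cm_W lam T := by simp [cm_W]
    have h2 := ih fun s hs => hT s (List.mem_cons_of_mem t hs)
    obtain ⟨e1, e2⟩ := hT t List.mem_cons_self
    have h3 := cm_word_le n lam h t.2
    rw [e1] at h3
    rw [h1, List.length_cons]
    refine (norm_add_le _ _).trans ?_
    rw [norm_mul]
    have h4 : ‖t.1‖ * ‖(t.2.map lam).prod‖ ≤ 1 * (k : ℝ) ^ n :=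
      mul_le_mul e2 h3 (norm_nonneg _) zero_le_one
    push_cast
    linarith

theorem al_triv (n : ℕ) (hn : 1 ≤ n) : ∃ c : ℝ, 0 < c ∧ ∀ (lam : ℕ → ℂ),
    (∀ m : ℕ, ‖lam m‖ ≤ (m : ℝ) ^ n) → ∀ k : ℕ, 1 ≤ k → ‖al lam k‖ ≤ (k : ℝ) ^ c := by
  have _ := hn
  refine ⟨((4 + n : ℕ) : ℝ), by positivity, fun lam h k hk => ?_⟩
  obtain ⟨T, h1, h2, h3⟩ := cm_al k hk
  rw [h3, Real.rpow_natCast, pow_add]
  refine (cm_W_le k n lam h T fun t ht => (h1 t ht).2).trans ?_
  refine mul_le_mul_of_nonneg_right ?_ (by positivity)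
  exact_mod_cast h2

end

end Pool.Agent.SGN
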