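import Pool.Agent.Lib_helper84.SGN.DefsM

/-!
# SGN, part C: block CQ (rough part of the index)
-/

set_option autoImplicit false

namespace Pool.Agent.SGN

open MeasureTheory Matrix Complex ProbabilityTheory
open Pool.Agent.GLQ (re unip cube Lat Lz latt sp qq)
open scoped ArithmeticFunction.Omega ENNReal

noncomputable section

theorem cq_cop {y : ℝ} {l s : ℕ} (h : Rough y l) (hs : Smooth y s) : Nat.Coprime l s := by
  by_contra hc
  obtain ⟨p, hp, h1, h2⟩ := Nat.Prime.not_coprime_iff_dvd.1 hc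
  exact absurd (h p hp h1) (not_lt.2 (hs p hp h2))

theorem cq_mul {y : ℝ} {a b : ℕ} (ha : Smooth y a) (hb : Smooth y b) : Smooth y (a * b) := by
  intro p hp h
  rcases (Nat.Prime.dvd_mul hp).1 h with h1 | h1
  · exact ha p hp h1
  · exact hb p hp h1

theorem cq_dvd {y : ℝ} {a b : ℕ} (hb : Smooth y b) (h : a ∣ b) : Smooth y a :=
  fun p hp h1 => hb p hp (h1.trans h)

theorem cq_nd (r : ℚ) (k k' : ℕ) (hk : 1 ≤ k) :
    (r * k' / k).num.natAbs ∣ r.num.natAbs * k' ∧ (r * k' / k).den ∣ r.den * k := by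
  have h1 : r * k' / k = Rat.divInt (r.num * k') (r.den * k) := by
    rw [Rat.divInt_eq_div]
    push_cast
    conv_lhs => rw [← Rat.num_div_den r]
    field_simp
  have h2 : ((r.den : ℤ) * k) ≠ 0 := by
    have := r.den_pos
    positivity
  rw [h1]
  constructor
  · have h3 := Int.natAbs_dvd_natAbs.2 (Rat.num_dvd (r.num * k') h2)
    rwa [Int.natAbs_mul, Int.natAbs_natCast] at h3
  · have h3 := Rat.den_dvd (r.num * k') (r.den * k)
    exact_mod_cast h3

theorem cq_den (l : ℕ) (hl : 1 ≤ l) (s : ℚ) (h : Nat.Coprime l s.den) :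
    ((l : ℚ) * s).den = 1 ↔ s.den = 1 := by
  constructor
  · intro h1
    have h2 : (((l : ℚ) * s).num : ℚ) = (l : ℚ) * s := by
      conv_rhs => rw [← Rat.num_div_den ((l : ℚ) * s), h1]
      simp
    have h3 : s = Rat.divInt ((l : ℚ) * s).num l := by
      rw [Rat.divInt_eq_div, h2]
      have : (l : ℚ) ≠ 0 := by positivity
      push_cast
      field_simp
    have h4 : s.den ∣ l := by
      have h5 := Rat.den_dvd ((l : ℚ) * s).num l
      rw [← h3] at h5
      exact_mod_cast h5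
    exact Nat.eq_one_of_dvd_coprimes h h4 dvd_rfl
  · intro h1
    have h2 : ((s.num : ℤ) : ℚ) = s := by
      conv_rhs => rw [← Rat.num_div_den s, h1]
      simp
    have h3 : (l : ℚ) * s = (((l : ℤ) * s.num : ℤ) : ℚ) := by
      push_cast
      rw [h2]
    rw [h3]
    exact Rat.den_intCast _

theorem cq_num (l : ℕ) (s : ℚ) (h1 : s.den = 1) :
    ((l : ℚ) * s).num.natAbs = l * s.num.natAbs := by
  have h2 : ((s.num : ℤ) : ℚ) = s := by
    conv_rhs => rw [← Rat.num_div_den s, h1]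
    simp
  have h3 : (l : ℚ) * s = (((l : ℤ) * s.num : ℤ) : ℚ) := by
    push_cast
    rw [h2]
  rw [h3, Rat.num_intCast, Int.natAbs_mul, Int.natAbs_natCast]

theorem rough_fact (n : ℕ) (hn : 1 ≤ n) (lam : ℕ → ℂ) (h : Temp n lam) (S : Finset ℕ) (y : ℝ)
    (hS : ∀ k ∈ S, 1 ≤ k ∧ Smooth y k) :
    (∀ l r : ℕ, 1 ≤ l → Rough y l → 1 ≤ r → Smooth y r →
      vt lam S (l * r) = lam l * ((l : ℝ) ^ (-(1 / 2) : ℝ) : ℝ) * vr lam S y r) ∧
    (∀ (l : ℕ) (r : ℚ), 1 ≤ l → Rough y l → 0 < r → Smooth y r.num.natAbs → Smooth y r.den →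
      wtt lam S (l * r) = lam l * ((l : ℝ) ^ (-(1 / 2) : ℝ) : ℝ) * wr lam S y r) ∧
    (∀ r : ℚ, 0 < r → ¬ Smooth y r.den → wtt lam S r = 0) := by
  classical
  refine ⟨?_, ?_, ?_⟩
  · intro l r hl hlr hr hrs
    unfold vt vr
    have h1 : (((l * r : ℕ) : ℝ) ^ (-(1 / 2) : ℝ)) =
        (l : ℝ) ^ (-(1 / 2) : ℝ) * (r : ℝ) ^ (-(1 / 2) : ℝ) := by
      push_cast
      exact Real.mul_rpow (Nat.cast_nonneg _) (Nat.cast_nonneg _)
    have h2 : ∀ k ∈ S, ∀ k' ∈ S,
        (if k * k' ∣ l * r then lam (l * r / (k * k')) * al lam k * al lam k' else 0) =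
        lam l * (if k * k' ∣ r ∧ Smooth y (r / (k * k')) then
          lam (r / (k * k')) * al lam k * al lam k' else 0) := by
      intro k hk k' hk'
      have h3 : Nat.Coprime l (k * k') := cq_cop hlr (cq_mul (hS k hk).2 (hS k' hk').2)
      have h4 : k * k' ∣ l * r ↔ k * k' ∣ r := Nat.Coprime.dvd_mul_left h3.symm
      by_cases h5 : k * k' ∣ r
      · have h6 : Smooth y (r / (k * k')) := cq_dvd hrs (Nat.div_dvd_of_dvd h5)
        rw [if_pos (h4.2 h5), if_pos ⟨h5, h6⟩, Nat.mul_div_assoc _ h5,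
          h.mul _ _ (cq_cop hlr h6)]
        ring
      · rw [if_neg (fun h7 => h5 (h4.1 h7)), if_neg (fun h7 => h5 h7.1), mul_zero]
    have h3 : ∑ k ∈ S, ∑ k' ∈ S,
        (if k * k' ∣ l * r then lam (l * r / (k * k')) * al lam k * al lam k' else 0) =
        lam l * ∑ k ∈ S, ∑ k' ∈ S, (if k * k' ∣ r ∧ Smooth y (r / (k * k')) then
          lam (r / (k * k')) * al lam k * al lam k' else 0) := by
      rw [Finset.mul_sum]
      refine Finset.sum_congr rfl fun k hk => ?_
      rw [Finset.mul_sum]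
      exact Finset.sum_congr rfl fun k' hk' => h2 k hk k' hk'
    rw [h3, h1]
    push_cast
    ring
  · intro l r hl hlr hr hrn hrd
    unfold wtt wr
    rw [Finset.mul_sum]
    refine Finset.sum_congr rfl fun k hk => ?_
    rw [Finset.mul_sum]
    refine Finset.sum_congr rfl fun k' hk' => ?_
    obtain ⟨d1, d2⟩ := cq_nd r k k' (hS k hk).1
    have s1 : Smooth y (r * k' / k).num.natAbs := cq_dvd (cq_mul hrn (hS k' hk').2) d1
    have s2 : Smooth y (r * k' / k).den := cq_dvd (cq_mul hrd (hS k hk).2) d2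
    have e1 : (l : ℚ) * r * k' / k = l * (r * k' / k) := by ring
    rw [e1]
    have e2 := cq_den l hl (r * k' / k) (cq_cop hlr s2)
    by_cases h5 : (r * k' / k).den = 1
    · rw [if_pos (e2.2 h5), if_pos ⟨h5, s1⟩, cq_num l _ h5, h.mul _ _ (cq_cop hlr s1)]
      have h1 : ((((l * (r * k' / k).num.natAbs : ℕ) : ℝ) * k * k') ^ (-(1 / 2) : ℝ)) =
          (l : ℝ) ^ (-(1 / 2) : ℝ) *
            ((((r * k' / k).num.natAbs : ℕ) : ℝ) * k * k') ^ (-(1 / 2) : ℝ) := by
        rw [← Real.mul_rpow (Nat.cast_nonneg _) (by positivity)]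
        congr 1
        push_cast
        ring
      rw [h1]
      push_cast
      ring
    · rw [if_neg (fun h7 => h5 (e2.1 h7)), if_neg (fun h7 => h5 h7.1), mul_zero]
  · intro r hr hrd
    unfold wtt
    refine Finset.sum_eq_zero fun k hk => Finset.sum_eq_zero fun k' hk' => ?_
    refine if_neg fun h1 => hrd ?_
    have hk0 : (k : ℚ) ≠ 0 := by
      have := (hS k hk).1
      positivity
    have h2 : (((r * k' / k).num : ℤ) : ℚ) = r * k' / k := by
      conv_rhs => rw [← Rat.num_div_den (r * k' / k), h1]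
      simp
    have h3 : r.num * k' = (r * k' / k).num * k * r.den := by
      have h4 : ((r.num * k' : ℤ) : ℚ) = (((r * k' / k).num * k * r.den : ℤ) : ℚ) := by
        push_cast
        rw [h2]
        have h5 : (r.den : ℚ) ≠ 0 := by exact_mod_cast r.den_nz
        have h6 : (r.num : ℚ) = r * r.den := (Rat.mul_den_eq_num r).symm
        rw [h6]
        field_simp
      exact_mod_cast h4
    have h4 : (r.den : ℤ) ∣ r.num * k' := ⟨(r * k' / k).num * k, by rw [h3]; ring⟩
    have h5 : r.den ∣ r.num.natAbs * k' := by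
      have h6 := Int.natAbs_dvd_natAbs.2 h4
      rwa [Int.natAbs_mul, Int.natAbs_natCast, Int.natAbs_natCast] at h6
    have h6 : r.den ∣ k' := Nat.Coprime.dvd_of_dvd_mul_left r.reduced.symm h5
    exact cq_dvd (hS k' hk').2 h6

end

end Pool.Agent.SGN
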