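import Pool.Agent.Lib_helper84.SGN.DefsM
import Pool.Agent.Lib_helper84.SGCF.CL
import Pool.Agent.Lib_helper84.SGCF.CM
import Pool.Agent.Lib_helper84.SGCF.CP

/-!
# SGN, part C, block CV: orthogonality of the charges
-/

set_option autoImplicit false

namespace Pool.Agent.SGN

open MeasureTheory Matrix Complex ProbabilityTheory
open Pool.Agent.GLQ (re unip cube Lat Lz latt sp qq)
open scoped ArithmeticFunction.Omega ENNReal

noncomputable section

/-! ### Parseval for absolutely convergent orthogonal series -/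

theorem cv_pyth {Om : Type} [MeasurableSpace Om] (P : Measure Om) [IsProbabilityMeasure P] {I : Type}
    (f : I → Om → ℂ) (C : I → ℝ) (hfb : ∀ i w, ‖f i w‖ ≤ C i) (hm : ∀ i, Measurable (f i))
    (hort : ∀ i j, i ≠ j → ∫ w, f i w * (starRingEnd ℂ) (f j w) ∂P = 0) (s : Finset I) :
    ∫ w, ‖∑ i ∈ s, f i w‖ ^ 2 ∂P = ∑ i ∈ s, ∫ w, ‖f i w‖ ^ 2 ∂P := by
  classical
  have hi : ∀ i j, Integrable (fun w => f i w * (starRingEnd ℂ) (f j w)) P := by
    intro i j
    refine Integrable.of_bound (C := C i * C j) ?_ (Filter.Eventually.of_forall fun w => ?_)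
    · exact ((hm i).mul (Complex.continuous_conj.measurable.comp (hm j))).aestronglyMeasurable
    · rw [norm_mul, RCLike.norm_conj]
      exact mul_le_mul (hfb i w) (hfb j w) (norm_nonneg _) ((norm_nonneg _).trans (hfb i w))
  have hsq : ∀ z : ℂ, ((‖z‖ ^ 2 : ℝ) : ℂ) = z * (starRingEnd ℂ) z := fun z => by
    rw [Complex.mul_conj, Complex.normSq_eq_norm_sq]
  apply Complex.ofReal_injective
  rw [← integral_complex_ofReal, Complex.ofReal_sum]
  have e1 : ∀ w, ((‖∑ i ∈ s, f i w‖ ^ 2 : ℝ) : ℂ) =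
      ∑ i ∈ s, ∑ j ∈ s, f i w * (starRingEnd ℂ) (f j w) := by
    intro w
    rw [hsq, map_sum, Finset.sum_mul_sum]
  have e2 : ∫ w, ((‖∑ i ∈ s, f i w‖ ^ 2 : ℝ) : ℂ) ∂P =
      ∑ i ∈ s, ∑ j ∈ s, ∫ w, f i w * (starRingEnd ℂ) (f j w) ∂P := by
    rw [integral_congr_ae (Filter.Eventually.of_forall e1),
      integral_finsetSum s fun i _ => integrable_finsetSum s fun j _ => hi i j]
    exact Finset.sum_congr rfl fun i _ => integral_finsetSum s fun j _ => hi i j
  rw [e2]
  refine Finset.sum_congr rfl fun i his => ?_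
  rw [Finset.sum_eq_single i (fun j _ hj => hort i j hj.symm) (fun h => absurd his h),
    ← integral_complex_ofReal]
  refine integral_congr_ae (Filter.Eventually.of_forall fun w => ?_)
  exact (hsq (f i w)).symm

theorem cv_parseval {Om : Type} [MeasurableSpace Om] (P : Measure Om) [IsProbabilityMeasure P]
    {I : Type} [Countable I] (f : I → Om → ℂ) (b : I → ℝ) (hb : Summable b)
    (hfb : ∀ i w, ‖f i w‖ ≤ b i) (hm : ∀ i, Measurable (f i))
    (hort : ∀ i j, i ≠ j → ∫ w, f i w * (starRingEnd ℂ) (f j w) ∂P = 0) (F : Om → ℂ)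
    (hF : ∀ w, HasSum (fun i => f i w) (F w)) :
    HasSum (fun i => ∫ w, ‖f i w‖ ^ 2 ∂P) (∫ w, ‖F w‖ ^ 2 ∂P) := by
  have hb0 : ∀ i w, 0 ≤ b i := fun i w => (norm_nonneg _).trans (hfb i w)
  have h1 : Filter.Tendsto (fun s : Finset I => ∫ w, ‖∑ i ∈ s, f i w‖ ^ 2 ∂P) Filter.atTop
      (nhds (∫ w, ‖F w‖ ^ 2 ∂P)) := by
    refine tendsto_integral_filter_of_dominated_convergence (fun _ => (∑' i, b i) ^ 2) ?_ ?_ ?_ ?_
    · refine Filter.Eventually.of_forall fun s => ?_
      exact ((Finset.measurable_sum s fun i _ => hm i).norm.pow_const 2).aestronglyMeasurable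
    · refine Filter.Eventually.of_forall fun s => Filter.Eventually.of_forall fun w => ?_
      rw [Real.norm_eq_abs, abs_of_nonneg (by positivity)]
      refine pow_le_pow_left₀ (norm_nonneg _) ?_ 2
      refine (norm_sum_le _ _).trans ((Finset.sum_le_sum fun i _ => hfb i w).trans ?_)
      exact hb.sum_le_tsum s fun i _ => hb0 i w
    · exact integrable_const _
    · refine Filter.Eventually.of_forall fun w => ?_
      exact ((hF w).norm.pow 2)
  have h2 : (fun s : Finset I => ∫ w, ‖∑ i ∈ s, f i w‖ ^ 2 ∂P) =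
      fun s : Finset I => ∑ i ∈ s, ∫ w, ‖f i w‖ ^ 2 ∂P := by
    funext s
    exact cv_pyth P f b hfb hm hort s
  rw [h2] at h1
  exact h1

/-! ### the charges -/

/-- functions of charge `ρ` -/
def cvS {n : ℕ} (M : Model n) (ρ : ℚ) : Submodule ℂ (M.Om → ℂ) :=
  Submodule.span ℂ {f | ∃ W : Wd, (∀ a ∈ W.1, 1 ≤ a) ∧ (∀ a ∈ W.2, 1 ≤ a) ∧
    (W.1.prod : ℚ) = ρ * W.2.prod ∧ f = fun w => lw (fun m => M.X m w) W}

theorem cv_X {n : ℕ} (M : Model n) {m : ℕ} (hm : 1 ≤ m) : (M.X m) ∈ cvS M (m : ℚ) := by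
  refine Submodule.subset_span ⟨([m], []), ?_, ?_, ?_, ?_⟩
  · intro a ha; simp at ha; omega
  · intro a ha; simp at ha
  · simp
  · funext w; simp [lw]

theorem cv_al {n : ℕ} (M : Model n) {k : ℕ} (hk : 1 ≤ k) :
    (fun w => al (fun m => M.X m w) k) ∈ cvS M (k : ℚ) := by
  obtain ⟨c, -, h⟩ := al_words
  obtain ⟨V, a, -, hV, hl⟩ := h k hk
  have e : (fun w => al (fun m => M.X m w) k) =
      ∑ W ∈ V, a W • (fun w => lw (fun m => M.X m w) W) := by
    funext w
    rw [hl, Finset.sum_apply]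
    rfl
  rw [e]
  refine Submodule.sum_mem _ fun W hW => Submodule.smul_mem _ _ (Submodule.subset_span ?_)
  obtain ⟨h1, h2, h3, -⟩ := hV W hW
  refine ⟨W, h2, ?_, ?_, rfl⟩
  · intro b hb; rw [h1] at hb; simp at hb
  · rw [h1, h3]; simp

theorem cv_mul {n : ℕ} (M : Model n) {ρ σ : ℚ} {f g : M.Om → ℂ} (hf : f ∈ cvS M ρ)
    (hg : g ∈ cvS M σ) : (fun w => f w * g w) ∈ cvS M (ρ * σ) := by
  have key : ∀ f ∈ cvS M ρ, ∀ g ∈ cvS M σ, f * g ∈ cvS M (ρ * σ) := by
    intro f hf g hg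
    refine Submodule.span_induction₂ (p := fun f g _ _ => f * g ∈ cvS M (ρ * σ))
      ?_ ?_ ?_ ?_ ?_ ?_ ?_ hf hg
    · rintro x y ⟨W, w1, w2, w3, rfl⟩ ⟨W', w1', w2', w3', rfl⟩
      refine Submodule.subset_span ⟨(W.1 ++ W'.1, W.2 ++ W'.2), ?_, ?_, ?_, ?_⟩
      · intro a ha
        rcases List.mem_append.1 ha with h | h
        · exact w1 a h
        · exact w1' a h
      · intro a ha
        rcases List.mem_append.1 ha with h | h
        · exact w2 a h
        · exact w2' a h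
      · simp only [List.prod_append, Nat.cast_mul]
        rw [w3, w3']; ring
      · funext w
        simp only [Pi.mul_apply, lw, List.map_append, List.prod_append]
        ring
    · intro y _; rw [zero_mul]; exact Submodule.zero_mem _
    · intro y _; rw [mul_zero]; exact Submodule.zero_mem _
    · intro x y z _ _ _ h1 h2; rw [add_mul]; exact Submodule.add_mem _ h1 h2
    · intro x y z _ _ _ h1 h2; rw [mul_add]; exact Submodule.add_mem _ h1 h2
    · intro r x y _ _ h; rw [smul_mul_assoc]; exact Submodule.smul_mem _ _ h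
    · intro r x y _ _ h; rw [mul_smul_comm]; exact Submodule.smul_mem _ _ h
  exact key f hf g hg

theorem cv_conj {n : ℕ} (M : Model n) {ρ : ℚ} (hρ : 0 < ρ) {f : M.Om → ℂ} (hf : f ∈ cvS M ρ) :
    (fun w => (starRingEnd ℂ) (f w)) ∈ cvS M ρ⁻¹ := by
  refine Submodule.span_induction (p := fun f _ => (fun w => (starRingEnd ℂ) (f w)) ∈ cvS M ρ⁻¹)
    ?_ ?_ ?_ ?_ hf
  · rintro x ⟨W, w1, w2, w3, rfl⟩
    refine Submodule.subset_span ⟨(W.2, W.1), w2, w1, ?_, ?_⟩
    · rw [w3]; field_simp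
    · funext w
      simp only [lw, map_mul, map_list_prod, List.map_map]
      rw [mul_comm]
      congr 2
      refine List.map_congr_left fun i _ => ?_
      simp
  · simp only [Pi.zero_apply, map_zero]; exact Submodule.zero_mem _
  · intro x y _ _ h1 h2
    simp only [Pi.add_apply, map_add]; exact Submodule.add_mem _ h1 h2
  · intro r x _ h
    simp only [Pi.smul_apply, smul_eq_mul, map_mul]
    exact Submodule.smul_mem _ _ h

theorem cv_bdd {n : ℕ} (hn : 1 ≤ n) (M : Model n) {ρ : ℚ} {f : M.Om → ℂ} (hf : f ∈ cvS M ρ) :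
    @Measurable M.Om ℂ M.ms _ f ∧ ∃ C : ℝ, ∀ w, ‖f w‖ ≤ C := by
  let _ := M.ms
  refine Submodule.span_induction (p := fun f _ => Measurable f ∧ ∃ C : ℝ, ∀ w, ‖f w‖ ≤ C)
    ?_ ?_ ?_ ?_ hf
  · rintro x ⟨W, w1, w2, w3, rfl⟩
    have hb : ∀ m : ℕ, 1 ≤ m → ∀ w, ‖M.X m w‖ ≤ dn n m := fun m hm w =>
      (temp_bound n hn _ (M.temp w) m hm).1
    have hl : ∀ l : List ℕ, (∀ a ∈ l, 1 ≤ a) →
        (Measurable fun w => (l.map fun m => M.X m w).prod) ∧
        ∃ C : ℝ, ∀ w, ‖(l.map fun m => M.X m w).prod‖ ≤ C := by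
      intro l
      induction l with
      | nil => intro _; exact ⟨by simp, 1, by simp⟩
      | cons a l ih =>
        intro h
        obtain ⟨i1, C, i2⟩ := ih fun b hb => h b (List.mem_cons_of_mem _ hb)
        have ha := h a List.mem_cons_self
        refine ⟨?_, (dn n a : ℝ) * C, fun w => ?_⟩
        · simp only [List.map_cons, List.prod_cons]
          exact (M.meas a).mul i1
        · simp only [List.map_cons, List.prod_cons, norm_mul]
          exact mul_le_mul (hb a ha w) (i2 w) (norm_nonneg _) (Nat.cast_nonneg _)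
    obtain ⟨a1, C, a2⟩ := hl W.1 w1
    obtain ⟨b1, D, b2⟩ := hl W.2 w2
    have e : ∀ w, (W.2.map fun b => (starRingEnd ℂ) (M.X b w)).prod =
        (starRingEnd ℂ) (W.2.map fun m => M.X m w).prod := by
      intro w
      rw [map_list_prod, List.map_map]
      rfl
    refine ⟨?_, C * D, fun w => ?_⟩
    · simp only [lw, e]
      exact a1.mul (Complex.continuous_conj.measurable.comp b1)
    · simp only [lw, e, norm_mul, RCLike.norm_conj]
      exact mul_le_mul (a2 w) (b2 w) (norm_nonneg _) ((norm_nonneg _).trans (a2 w))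
  · exact ⟨measurable_zero, 0, by simp⟩
  · rintro x y _ _ ⟨a1, C, a2⟩ ⟨b1, D, b2⟩
    exact ⟨a1.add b1, C + D, fun w => (norm_add_le _ _).trans (add_le_add (a2 w) (b2 w))⟩
  · rintro r x _ ⟨a1, C, a2⟩
    refine ⟨a1.const_smul r, ‖r‖ * C, fun w => ?_⟩
    rw [Pi.smul_apply, norm_smul]
    exact mul_le_mul_of_nonneg_left (a2 w) (norm_nonneg _)

theorem cv_orth {n : ℕ} (hn : 1 ≤ n) (M : Model n) {ρ σ : ℚ} (hρσ : ρ ≠ σ) {f g : M.Om → ℂ}
    (hf : f ∈ cvS M ρ) (hg : g ∈ cvS M σ) :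
    @integral M.Om ℂ _ _ M.ms M.P (fun w => f w * (starRingEnd ℂ) (g w)) = 0 := by
  let _ := M.ms
  have _ := M.pr
  have hint : ∀ {ρ σ : ℚ} {f g : M.Om → ℂ}, f ∈ cvS M ρ → g ∈ cvS M σ →
      Integrable (fun w => f w * (starRingEnd ℂ) (g w)) M.P := by
    intro ρ σ f g hf hg
    obtain ⟨a1, C, a2⟩ := cv_bdd hn M hf
    obtain ⟨b1, D, b2⟩ := cv_bdd hn M hg
    refine Integrable.of_bound (C := C * D) ?_ (Filter.Eventually.of_forall fun w => ?_)
    · exact (a1.mul (Complex.continuous_conj.measurable.comp b1)).aestronglyMeasurable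
    · rw [norm_mul, RCLike.norm_conj]
      exact mul_le_mul (a2 w) (b2 w) (norm_nonneg _) ((norm_nonneg _).trans (a2 w))
  refine Submodule.span_induction₂
    (p := fun f g _ _ => ∫ w, f w * (starRingEnd ℂ) (g w) ∂M.P = 0) ?_ ?_ ?_ ?_ ?_ ?_ ?_ hf hg
  · rintro x y ⟨W, w1, w2, w3, rfl⟩ ⟨W', w1', w2', w3', rfl⟩
    rw [M.mom W W' w1 w2 w1' w2', charge n W W' w1 w2 w1' w2']
    · simp
    · intro h
      apply hρσ
      have p1 : ∀ l : List ℕ, (∀ a ∈ l, 1 ≤ a) → (l.prod : ℚ) ≠ 0 := by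
        intro l hl
        have : l.prod ≠ 0 := by
          intro h0
          have := List.prod_eq_zero_iff.1 h0
          have := hl 0 this
          omega
        exact_mod_cast this
      have h' : (W.1.prod : ℚ) * W'.2.prod = W'.1.prod * W.2.prod := by exact_mod_cast h
      rw [w3, w3'] at h'
      have q1 := p1 _ w2
      have q2 := p1 _ w2'
      have h3 : (ρ - σ) * ((W.2.prod : ℚ) * W'.2.prod) = 0 := by linear_combination h'
      rcases mul_eq_zero.1 h3 with h4 | h4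
      · linarith
      · exact absurd h4 (mul_ne_zero q1 q2)
  · intro y _; simp
  · intro y _; simp
  · intro x y z hx hy hz h1 h2
    simp only [Pi.add_apply, add_mul]
    rw [integral_add (hint hx hz) (hint hy hz), h1, h2, add_zero]
  · intro x y z hx hy hz h1 h2
    simp only [Pi.add_apply, map_add, mul_add]
    rw [integral_add (hint hx hy) (hint hx hz), h1, h2, add_zero]
  · intro r x y hx hy h
    simp only [Pi.smul_apply, smul_eq_mul, mul_assoc]
    rw [integral_const_mul, h, mul_zero]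
  · intro r x y hx hy h
    simp only [Pi.smul_apply, smul_eq_mul, map_mul]
    have e : (fun w => x w * ((starRingEnd ℂ) r * (starRingEnd ℂ) (y w))) =
        fun w => (starRingEnd ℂ) r * (x w * (starRingEnd ℂ) (y w)) := by funext w; ring
    rw [e, integral_const_mul, h, mul_zero]

/-! ### powers, smooth numbers -/

theorem cv_zz (a : ℝ) {m : ℕ} (hm : 1 ≤ m) : zz (fun p => (p : ℝ) ^ a) m = (m : ℝ) ^ a := by
  unfold zz
  have h1 : ∀ p j : ℕ, ((p : ℝ) ^ a) ^ j = (((p ^ j : ℕ) : ℝ)) ^ a := by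
    intro p j
    rw [← Real.rpow_natCast, ← Real.rpow_mul (Nat.cast_nonneg p), mul_comm,
      Real.rpow_mul (Nat.cast_nonneg p), Real.rpow_natCast, Nat.cast_pow]
  have h2 : (m.factorization.prod fun p j => ((p : ℝ) ^ a) ^ j) =
      ∏ p ∈ m.factorization.support, (((p ^ m.factorization p : ℕ) : ℝ)) ^ a := by
    unfold Finsupp.prod
    exact Finset.prod_congr rfl fun p _ => h1 _ _
  rw [h2, Real.finsetProd_rpow _ _ (fun p _ => Nat.cast_nonneg _), ← Nat.cast_prod]
  congr 2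
  exact Nat.prod_factorization_pow_eq_self (by omega)

theorem cv_smooth (y : ℝ) {m : ℕ} (hm : 1 ≤ m) : m ∈ Nat.factoredNumbers (pl y) ↔ Smooth y m := by
  rw [Nat.mem_factoredNumbers]
  constructor
  · rintro ⟨-, h⟩ p hp hpm
    have h1 := h p ((Nat.mem_primeFactorsList (by omega)).2 ⟨hp, hpm⟩)
    simp only [pl, Finset.mem_filter, Finset.mem_range] at h1
    have h2 : p ≤ ⌊y⌋₊ := by omega
    have h3 : ⌊y⌋₊ ≠ 0 := by have := hp.pos; omega
    exact (Nat.le_floor_iff' hp.pos.ne').1 h2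
  · intro h
    refine ⟨by omega, fun p hp => ?_⟩
    obtain ⟨h1, h2⟩ := (Nat.mem_primeFactorsList (by omega)).1 hp
    have h3 := h p h1 h2
    simp only [pl, Finset.mem_filter, Finset.mem_range]
    have := Nat.le_floor h3
    exact ⟨by omega, h1⟩

theorem vr_eq_ub (lam : ℕ → ℂ) (S : Finset ℕ) (y : ℝ) (hS : ∀ k ∈ S, 1 ≤ k) (r : ℕ)
    (hr : 1 ≤ r) :
    vr lam S y r = ub lam S (pl y) (fun p => (p : ℝ) ^ (-(1 / 2) : ℝ))
      (fun p => (p : ℝ) ^ (-(1 / 2) : ℝ)) r := by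
  classical
  unfold vr ub
  rw [Finset.mul_sum]
  refine Finset.sum_congr rfl fun k hk => ?_
  rw [Finset.mul_sum]
  refine Finset.sum_congr rfl fun k' hk' => ?_
  have h1 := hS k hk
  have h2 := hS k' hk'
  by_cases hd : k * k' ∣ r
  · obtain ⟨m, rfl⟩ := hd
    have hm : 1 ≤ m := by
      rcases Nat.eq_zero_or_pos m with h | h
      · subst h; simp at hr
      · exact h
    have e1 : k * k' * m / (k * k') = m := Nat.mul_div_cancel_left _ (by positivity)
    have e2 : k * k' * m / k' = k * m := by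
      rw [show k * k' * m = k' * (k * m) by ring]
      exact Nat.mul_div_cancel_left _ (by omega)
    rw [e1, e2]
    have hsm := cv_smooth y hm
    by_cases hs : Smooth y m
    · rw [if_pos ⟨dvd_mul_right _ _, hs⟩, if_pos ⟨dvd_mul_right _ _, hsm.2 hs⟩,
        cv_zz _ (Nat.mul_pos h1 hm), cv_zz _ h2]
      have e3 : (((k * k' * m : ℕ) : ℝ) ^ (-(1 / 2) : ℝ)) =
          ((k * m : ℕ) : ℝ) ^ (-(1 / 2) : ℝ) * (k' : ℝ) ^ (-(1 / 2) : ℝ) := by
        rw [← Real.mul_rpow (by positivity) (by positivity)]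
        congr 1; push_cast; ring
      rw [e3]; ring
    · rw [if_neg fun h => hs h.2, if_neg fun h => hs (hsm.1 h.2), mul_zero]
  · rw [if_neg fun h => hd h.1, if_neg fun h => hd h.1, mul_zero]

theorem cv_dn_pow (N p j : ℕ) (hp : p.Prime) : dn N (p ^ j) = Nat.choose (j + N - 1) j := by
  unfold dn
  rw [hp.factorization_pow, Finsupp.prod_single_index]
  simp

/-- absolute convergence of the sum over the smooth numbers -/
theorem cv_summable (n : ℕ) (hn : 1 ≤ n) (y a : ℝ) (ha : a < 0) :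
    Summable fun m : ℕ => Set.indicator {m : ℕ | 1 ≤ m ∧ Smooth y m}
      (fun m : ℕ => (dn n m : ℝ) * (m : ℝ) ^ a) m := by
  have h0 : ∀ {m k : ℕ}, Nat.Coprime m k → (dn n (m * k) : ℝ) * ((m * k : ℕ) : ℝ) ^ a =
      (dn n m * (m : ℝ) ^ a) * (dn n k * (k : ℝ) ^ a) := by
    intro m k h
    have hz : (0 : ℝ) ^ a = 0 := Real.zero_rpow ha.ne
    rcases Nat.eq_zero_or_pos m with hm | hm
    · subst hm; simp [hz]
    rcases Nat.eq_zero_or_pos k with hk | hk
    · subst hk; simp [hz]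
    rw [dn_cop n m k h hm hk]
    push_cast
    rw [Real.mul_rpow (by positivity) (by positivity)]; ring
  have h1 : (dn n 1 : ℝ) * ((1 : ℕ) : ℝ) ^ a = 1 := by simp [dn]
  have h2 : ∀ {p : ℕ}, p.Prime →
      Summable fun j : ℕ => ‖(dn n (p ^ j) : ℝ) * ((p ^ j : ℕ) : ℝ) ^ a‖ := by
    intro p hp
    have hp1 : (1 : ℝ) < p := by exact_mod_cast hp.one_lt
    have hx0 : 0 ≤ (p : ℝ) ^ a := Real.rpow_nonneg (by positivity) _
    have hx1 : (p : ℝ) ^ a < 1 := Real.rpow_lt_one_of_one_lt_of_neg hp1 ha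
    have e : (fun j : ℕ => ‖(dn n (p ^ j) : ℝ) * ((p ^ j : ℕ) : ℝ) ^ a‖) =
        fun j : ℕ => ‖((Nat.choose (j + (n - 1)) (n - 1) : ℝ)) * ((p : ℝ) ^ a) ^ j‖ := by
      funext j
      rw [cv_dn_pow n p j hp]
      congr 2
      · have : j + n - 1 = j + (n - 1) := by omega
        rw [this, Nat.choose_symm_add]
      · rw [Nat.cast_pow, ← Real.rpow_natCast, ← Real.rpow_natCast, ← Real.rpow_mul (by positivity),
          ← Real.rpow_mul (by positivity), mul_comm]
    rw [e]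
    have := summable_choose_mul_geometric_of_norm_lt_one (n - 1) (r := (p : ℝ) ^ a)
      (by rw [Real.norm_of_nonneg hx0]; exact hx1)
    exact this.norm
  have h3 := (EulerProduct.summable_and_hasSum_factoredNumbers_prod_filter_prime_tsum
    (f := fun m : ℕ => (dn n m : ℝ) * (m : ℝ) ^ a) h1 h0 h2 (pl y)).1
  have h4 : Summable fun m : Nat.factoredNumbers (pl y) => (dn n m : ℝ) * ((m : ℕ) : ℝ) ^ a :=
    Summable.of_norm h3
  have h5 := (summable_subtype_iff_indicator (f := fun m : ℕ => (dn n m : ℝ) * (m : ℝ) ^ a)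
    (s := Nat.factoredNumbers (pl y))).1 h4
  have h6 : (Nat.factoredNumbers (pl y)) = {m : ℕ | 1 ≤ m ∧ Smooth y m} := by
    ext m
    constructor
    · intro h
      have hm : 1 ≤ m := Nat.one_le_iff_ne_zero.2 (Nat.ne_zero_of_mem_factoredNumbers h)
      exact ⟨hm, (cv_smooth y hm).1 h⟩
    · rintro ⟨hm, h⟩
      exact (cv_smooth y hm).2 h
  rw [h6] at h5
  exact h5

/-! ### the sums over the index -/

theorem cv_core {I : Type} (S : Finset ℕ) (τ : ℕ → ℕ → ℕ → I)
    (hτ : ∀ k ∈ S, ∀ k' ∈ S, Function.Injective (τ k k')) (c : ℕ → ℕ → ℂ) (u : ℕ → ℂ)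
    (C : ℕ → ℕ → ℝ) (U : ℕ → ℝ) (hc : ∀ k ∈ S, ∀ k' ∈ S, ‖c k k'‖ ≤ C k k')
    (hu : ∀ m, ‖u m‖ ≤ U m) (hU : Summable U) :
    HasSum (fun r => ∑ k ∈ S, ∑ k' ∈ S, Function.extend (τ k k') (fun m => c k k' * u m) 0 r)
      ((∑ k ∈ S, ∑ k' ∈ S, c k k') * ∑' m, u m) ∧
    (∀ r, ‖∑ k ∈ S, ∑ k' ∈ S, Function.extend (τ k k') (fun m => c k k' * u m) 0 r‖ ≤
      ∑ k ∈ S, ∑ k' ∈ S, Function.extend (τ k k') (fun m => C k k' * U m) 0 r) ∧
    Summable (fun r => ∑ k ∈ S, ∑ k' ∈ S,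
      Function.extend (τ k k') (fun m => C k k' * U m) (0 : I → ℝ) r) := by
  have hsu : Summable u := Summable.of_norm_bounded hU hu
  refine ⟨?_, fun r => ?_, ?_⟩
  · rw [Finset.sum_mul]
    refine hasSum_sum fun k hk => ?_
    rw [Finset.sum_mul]
    refine hasSum_sum fun k' hk' => ?_
    exact (hasSum_extend_zero (hτ k hk k' hk')).2 (hsu.hasSum.mul_left _)
  · refine (norm_sum_le _ _).trans (Finset.sum_le_sum fun k hk => ?_)
    refine (norm_sum_le _ _).trans (Finset.sum_le_sum fun k' hk' => ?_)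
    by_cases h : ∃ m, τ k k' m = r
    · obtain ⟨m, rfl⟩ := h
      rw [(hτ k hk k' hk').extend_apply, (hτ k hk k' hk').extend_apply, norm_mul]
      exact mul_le_mul (hc k hk k' hk') (hu m) (norm_nonneg _)
        ((norm_nonneg _).trans (hc k hk k' hk'))
    · rw [Function.extend_apply' _ _ _ h, Function.extend_apply' _ _ _ h]
      simp
  · refine summable_sum fun k hk => summable_sum fun k' hk' => ?_
    exact ⟨_, (hasSum_extend_zero (hτ k hk k' hk')).2 (hU.hasSum.mul_left (C k k'))⟩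

/-- the index of `F` -/
def cvt (k k' m : ℕ) : ℚ := (m : ℚ) * k / k'

theorem cvt_inj {k k' : ℕ} (hk : 1 ≤ k) (hk' : 1 ≤ k') : Function.Injective (cvt k k') := by
  intro m m' h
  have h1 : (k : ℚ) ≠ 0 := by positivity
  have h2 : (k' : ℚ) ≠ 0 := by positivity
  simp only [cvt] at h
  field_simp at h
  exact_mod_cast h

theorem cvg_inj {k k' : ℕ} (hk : 1 ≤ k) (hk' : 1 ≤ k') :
    Function.Injective (fun m : ℕ => m * k * k') := by
  intro m m' h
  simp only [mul_assoc] at h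
  exact Nat.eq_of_mul_eq_mul_right (Nat.mul_pos hk hk') h

open Classical in
/-- `X_m m^a` at the smooth numbers -/
def cvu (lam : ℕ → ℂ) (y a : ℝ) (m : ℕ) : ℂ :=
  if 1 ≤ m ∧ Smooth y m then lam m * (((m : ℝ) ^ a : ℝ) : ℂ) else 0

/-- the coefficient of `F` -/
def cvF (lam : ℕ → ℂ) (a a' : ℝ) (k k' : ℕ) : ℂ :=
  (al lam k * (((k : ℝ) ^ a : ℝ) : ℂ)) * (starRingEnd ℂ) (al lam k' * (((k' : ℝ) ^ a' : ℝ) : ℂ))

/-- the coefficient of `G` -/
def cvG (lam : ℕ → ℂ) (a a' : ℝ) (k k' : ℕ) : ℂ :=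
  (al lam k * (((k : ℝ) ^ a : ℝ) : ℂ)) * (al lam k' * (((k' : ℝ) ^ a' : ℝ) : ℂ))

theorem cv_idF (lam : ℕ → ℂ) (S : Finset ℕ) (y κ : ℝ) (hS : ∀ k ∈ S, 1 ≤ k) (r : ℚ)
    (hr : 0 < r) :
    ∑ k ∈ S, ∑ k' ∈ S, Function.extend (cvt k k')
      (fun m => cvF lam (-(1 / 2) + κ) (-(1 / 2) - κ) k k' * cvu lam y (-(1 / 2) + κ) m) 0 r =
    (((r : ℝ) ^ κ : ℝ) : ℂ) * wr lam S y r := by
  classical
  unfold wr
  rw [Finset.mul_sum]
  refine Finset.sum_congr rfl fun k hk => ?_
  rw [Finset.mul_sum]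
  refine Finset.sum_congr rfl fun k' hk' => ?_
  have h1 := hS k hk
  have h2 := hS k' hk'
  have hk0 : (k : ℚ) ≠ 0 := by positivity
  have hk0' : (k' : ℚ) ≠ 0 := by positivity
  by_cases h : ∃ m, cvt k k' m = r
  · obtain ⟨m, rfl⟩ := h
    have hm : 1 ≤ m := by
      rcases Nat.eq_zero_or_pos m with h | h
      · subst h; simp [cvt] at hr
      · exact h
    have e1 : cvt k k' m * k' / k = (m : ℚ) := by
      simp only [cvt]; field_simp
    have e2 : (cvt k k' m * k' / k).den = 1 := by rw [e1]; exact Rat.den_natCast m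
    have e3 : (cvt k k' m * k' / k).num.natAbs = m := by rw [e1, Rat.num_natCast]; rfl
    rw [(cvt_inj h1 h2).extend_apply]
    simp only [e2, e3, true_and, cvu, hm]
    by_cases hs : Smooth y m
    · rw [if_pos hs, if_pos hs]
      have p1 : (0 : ℝ) < m := by positivity
      have p2 : (0 : ℝ) < k := by positivity
      have p3 : (0 : ℝ) < k' := by positivity
      have e4 : ((cvt k k' m : ℚ) : ℝ) = (m : ℝ) * k / k' := by
        simp only [cvt]; push_cast; ring
      have e5 : (k : ℝ) ^ (-(1 / 2) + κ) * (k' : ℝ) ^ (-(1 / 2) - κ) * (m : ℝ) ^ (-(1 / 2) + κ) =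
          ((cvt k k' m : ℚ) : ℝ) ^ κ * ((m : ℝ) * k * k') ^ (-(1 / 2) : ℝ) := by
        rw [e4, Real.div_rpow (by positivity) p3.le, Real.mul_rpow p1.le p2.le,
          Real.mul_rpow (by positivity) p3.le, Real.mul_rpow p1.le p2.le,
          Real.rpow_add p2, Real.rpow_sub p3, Real.rpow_add p1]
        have : (k' : ℝ) ^ κ ≠ 0 := (Real.rpow_pos_of_pos p3 _).ne'
        field_simp
      unfold cvF
      rw [map_mul, Complex.conj_ofReal]
      have e6 : (((k : ℝ) ^ (-(1 / 2) + κ) : ℝ) : ℂ) * (((k' : ℝ) ^ (-(1 / 2) - κ) : ℝ) : ℂ) *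
          (((m : ℝ) ^ (-(1 / 2) + κ) : ℝ) : ℂ) = ((((cvt k k' m : ℚ) : ℝ) ^ κ : ℝ) : ℂ) *
            ((((m : ℝ) * k * k') ^ (-(1 / 2) : ℝ) : ℝ) : ℂ) := by
        rw [← Complex.ofReal_mul, ← Complex.ofReal_mul, ← Complex.ofReal_mul, e5]
      linear_combination (al lam k * (starRingEnd ℂ) (al lam k') * lam m) * e6
    · rw [if_neg hs, if_neg hs, mul_zero, mul_zero]
  · rw [Function.extend_apply' _ _ _ h, if_neg, mul_zero]
    · rfl
    · rintro ⟨h3, -⟩
      apply h
      refine ⟨(r * k' / k).num.natAbs, ?_⟩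
      have h4 : ((r * k' / k).num : ℚ) = r * k' / k := by
        conv_rhs => rw [← Rat.num_div_den (r * k' / k)]
        rw [h3]; simp
      have h5 : 0 < r * k' / k := by positivity
      have h0 : 0 ≤ (r * k' / k).num := (Rat.num_pos.2 h5).le
      have h7 : (((r * k' / k).num.natAbs : ℕ) : ℤ) = (r * k' / k).num :=
        Int.natAbs_of_nonneg h0
      have h8 : (((r * k' / k).num.natAbs : ℕ) : ℚ) =
          ((((r * k' / k).num.natAbs : ℕ) : ℤ) : ℚ) := (Int.cast_natCast _).symm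
      have h6 : ((r * k' / k).num.natAbs : ℚ) = r * k' / k := by
        rw [h8, h7]; exact h4
      simp only [cvt, h6]
      field_simp

theorem cv_idG (lam : ℕ → ℂ) (S : Finset ℕ) (y a a' : ℝ) (hS : ∀ k ∈ S, 1 ≤ k ∧ Smooth y k)
    (r : ℕ) :
    ((1 ≤ r ∧ Smooth y r) →
      ∑ k ∈ S, ∑ k' ∈ S, Function.extend (fun m : ℕ => m * k * k')
      (fun m => cvG lam a a' k k' * cvu lam y a m) 0 r =
      ub lam S (pl y) (fun p => (p : ℝ) ^ a) (fun p => (p : ℝ) ^ a') r) ∧
    (¬ (1 ≤ r ∧ Smooth y r) → ∑ k ∈ S, ∑ k' ∈ S, Function.extend (fun m : ℕ => m * k * k')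
      (fun m => cvG lam a a' k k' * cvu lam y a m) 0 r = 0) := by
  classical
  constructor
  · rintro ⟨hr, -⟩
    unfold ub
    refine Finset.sum_congr rfl fun k hk => ?_
    refine Finset.sum_congr rfl fun k' hk' => ?_
    have h1 := (hS k hk).1
    have h2 := (hS k' hk').1
    by_cases h : ∃ m, (fun m : ℕ => m * k * k') m = r
    · obtain ⟨m, rfl⟩ := h
      have hm : 1 ≤ m := by
        rcases Nat.eq_zero_or_pos m with h | h
        · subst h; simp at hr
        · exact h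
      rw [(cvg_inj h1 h2).extend_apply]
      have e1 : m * k * k' / (k * k') = m := by
        rw [mul_assoc]; exact Nat.mul_div_cancel _ (Nat.mul_pos h1 h2)
      have e2 : m * k * k' / k' = m * k := Nat.mul_div_cancel _ (by omega)
      have hd : k * k' ∣ m * k * k' := ⟨m, by ring⟩
      have hsm := cv_smooth y hm
      simp only [e1, e2]
      by_cases hs : Smooth y m
      · rw [if_pos ⟨hd, hsm.2 hs⟩, cv_zz _ (Nat.mul_pos hm h1), cv_zz _ h2]
        simp only [cvu, cvG]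
        rw [if_pos ⟨hm, hs⟩]
        push_cast
        rw [Real.mul_rpow (by positivity) (by positivity)]
        push_cast
        ring
      · rw [if_neg fun h => hs (hsm.1 h.2)]
        simp only [cvu]
        rw [if_neg fun h => hs h.2, mul_zero]
    · rw [Function.extend_apply' _ _ _ h, if_neg]
      · rfl
      · rintro ⟨⟨m, hm⟩, -⟩
        exact h ⟨m, by simp only [hm]; ring⟩
  · intro hr
    refine Finset.sum_eq_zero fun k hk => Finset.sum_eq_zero fun k' hk' => ?_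
    obtain ⟨h1, s1⟩ := hS k hk
    obtain ⟨h2, s2⟩ := hS k' hk'
    by_cases h : ∃ m, (fun m : ℕ => m * k * k') m = r
    · obtain ⟨m, rfl⟩ := h
      rw [(cvg_inj h1 h2).extend_apply]
      simp only [cvu]
      rw [if_neg, mul_zero]
      rintro ⟨hm, hs⟩
      apply hr
      refine ⟨Nat.mul_pos (Nat.mul_pos hm h1) h2, fun p hp hpd => ?_⟩
      rcases hp.dvd_mul.1 hpd with h3 | h3
      · rcases hp.dvd_mul.1 h3 with h4 | h4
        · exact hs p hp h4
        · exact s1 p hp h4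
      · exact s2 p hp h3
    · rw [Function.extend_apply' _ _ _ h]; rfl

/-- sums of elements of `cvS` -/
theorem cv_sum {n : ℕ} (M : Model n) {ρ : ℚ} (S : Finset ℕ) (f : ℕ → ℕ → M.Om → ℂ)
    (h : ∀ k ∈ S, ∀ k' ∈ S, f k k' ∈ cvS M ρ) :
    (fun w => ∑ k ∈ S, ∑ k' ∈ S, f k k' w) ∈ cvS M ρ := by
  have e : (fun w => ∑ k ∈ S, ∑ k' ∈ S, f k k' w) = ∑ k ∈ S, ∑ k' ∈ S, f k k' := by
    funext w; simp [Finset.sum_apply]
  rw [e]
  exact Submodule.sum_mem _ fun k hk => Submodule.sum_mem _ fun k' hk' => h k hk k' hk'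

theorem cv_u_mem {n : ℕ} (M : Model n) (y a : ℝ) {m : ℕ} :
    (fun w => cvu (fun m => M.X m w) y a m) ∈ cvS M (m : ℚ) := by
  classical
  by_cases h : 1 ≤ m ∧ Smooth y m
  · have e : (fun w => cvu (fun m => M.X m w) y a m) = (((m : ℝ) ^ a : ℝ) : ℂ) • M.X m := by
      funext w
      simp only [cvu, Pi.smul_apply, smul_eq_mul]
      rw [if_pos h, mul_comm]
    rw [e]
    exact Submodule.smul_mem _ _ (cv_X M h.1)
  · have e : (fun w => cvu (fun m => M.X m w) y a m) = 0 := by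
      funext w
      simp only [cvu]
      rw [if_neg h]; rfl
    rw [e]; exact Submodule.zero_mem _

theorem cv_al' {n : ℕ} (M : Model n) (a : ℝ) {k : ℕ} (hk : 1 ≤ k) :
    (fun w => al (fun m => M.X m w) k * (((k : ℝ) ^ a : ℝ) : ℂ)) ∈ cvS M (k : ℚ) := by
  have e : (fun w => al (fun m => M.X m w) k * (((k : ℝ) ^ a : ℝ) : ℂ)) =
      (((k : ℝ) ^ a : ℝ) : ℂ) • (fun w => al (fun m => M.X m w) k) := by
    funext w; simp only [Pi.smul_apply, smul_eq_mul]; ring
  rw [e]; exact Submodule.smul_mem _ _ (cv_al M hk)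

theorem cv_memF {n : ℕ} (M : Model n) (S : Finset ℕ) (y a a' : ℝ) (hS : ∀ k ∈ S, 1 ≤ k) (r : ℚ)
    (hr : 0 < r) :
    (fun w => ∑ k ∈ S, ∑ k' ∈ S, Function.extend (cvt k k')
      (fun m => cvF (fun m => M.X m w) a a' k k' * cvu (fun m => M.X m w) y a m) 0 r) ∈
      cvS M r := by
  refine cv_sum M S (fun k k' w => Function.extend (cvt k k')
      (fun m => cvF (fun m => M.X m w) a a' k k' * cvu (fun m => M.X m w) y a m) 0 r) ?_
  intro k hk k' hk'
  have h1 := hS k hk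
  have h2 := hS k' hk'
  by_cases h : ∃ m, cvt k k' m = r
  · obtain ⟨m, rfl⟩ := h
    simp only [(cvt_inj h1 h2).extend_apply]
    have h3 := cv_mul M (cv_mul M (cv_al' M a h1) (cv_conj M (by positivity) (cv_al' M a' h2)))
      (cv_u_mem M y a (m := m))
    have e : (k : ℚ) * (k' : ℚ)⁻¹ * m = cvt k k' m := by simp only [cvt]; ring
    rw [e] at h3
    exact h3
  · have e : (fun w => Function.extend (cvt k k')
      (fun m => cvF (fun m => M.X m w) a a' k k' * cvu (fun m => M.X m w) y a m) 0 r) = 0 := by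
      funext w
      rw [Function.extend_apply' _ _ _ h]; rfl
    rw [e]; exact Submodule.zero_mem _

theorem cv_memG {n : ℕ} (M : Model n) (S : Finset ℕ) (y a a' : ℝ) (hS : ∀ k ∈ S, 1 ≤ k) (r : ℕ) :
    (fun w => ∑ k ∈ S, ∑ k' ∈ S, Function.extend (fun m : ℕ => m * k * k')
      (fun m => cvG (fun m => M.X m w) a a' k k' * cvu (fun m => M.X m w) y a m) 0 r) ∈
      cvS M (r : ℚ) := by
  refine cv_sum M S (fun k k' w => Function.extend (fun m : ℕ => m * k * k')
      (fun m => cvG (fun m => M.X m w) a a' k k' * cvu (fun m => M.X m w) y a m) 0 r) ?_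
  intro k hk k' hk'
  have h1 := hS k hk
  have h2 := hS k' hk'
  by_cases h : ∃ m, (fun m : ℕ => m * k * k') m = r
  · obtain ⟨m, rfl⟩ := h
    simp only [(cvg_inj h1 h2).extend_apply]
    have h3 := cv_mul M (cv_mul M (cv_al' M a h1) (cv_al' M a' h2)) (cv_u_mem M y a (m := m))
    have e : (k : ℚ) * (k' : ℚ) * m = ((m * k * k' : ℕ) : ℚ) := by push_cast; ring
    rw [e] at h3
    exact h3
  · have e : (fun w => Function.extend (fun m : ℕ => m * k * k')
      (fun m => cvG (fun m => M.X m w) a a' k k' * cvu (fun m => M.X m w) y a m) 0 r) = 0 := by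
      funext w
      rw [Function.extend_apply' _ _ _ h]; rfl
    rw [e]; exact Submodule.zero_mem _

theorem parseval (n : ℕ) (hn : 1 ≤ n) (M : Model n) (S : Finset ℕ) (y κ : ℝ) (hy : 1 ≤ y)
    (hκ : 0 ≤ κ) (hκ1 : κ < 1 / 4)
    (hS : ∀ k ∈ S, 1 ≤ k ∧ Smooth y k) (B : ℝ)
    (hB : ∀ R : Finset ℕ, (∀ r ∈ R, 1 ≤ r ∧ Smooth y r) →
      ∑ r ∈ R, M.EE (fun w => ‖ub (fun m => M.X m w) S (pl y)
        (fun p => (p : ℝ) ^ (-(1 / 2) + κ : ℝ)) (fun p => (p : ℝ) ^ (-(1 / 2) - κ : ℝ)) r‖ ^ 2) ≤ B)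
    (R : Finset ℚ) (hR : ∀ r ∈ R, 0 < r) :
    ∑ r ∈ R, (r : ℝ) ^ (2 * κ) * M.EE (fun w => ‖wr (fun m => M.X m w) S y r‖ ^ 2) ≤ B := by
  classical
  let _ := M.ms
  have _ := M.pr
  set a : ℝ := -(1 / 2) + κ with ha
  set a' : ℝ := -(1 / 2) - κ with ha'
  have ha0 : a < 0 := by rw [ha]; linarith
  have hS1 : ∀ k ∈ S, 1 ≤ k := fun k hk => (hS k hk).1
  -- the functions
  let fF : ℚ → M.Om → ℂ := fun r w => ∑ k ∈ S, ∑ k' ∈ S, Function.extend (cvt k k')
    (fun m => cvF (fun m => M.X m w) a a' k k' * cvu (fun m => M.X m w) y a m) 0 r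
  let fG : ℕ → M.Om → ℂ := fun r w => ∑ k ∈ S, ∑ k' ∈ S,
    Function.extend (fun m : ℕ => m * k * k')
    (fun m => cvG (fun m => M.X m w) a a' k k' * cvu (fun m => M.X m w) y a m) 0 r
  let C : ℕ → ℕ → ℝ := fun k k' => (dn n k : ℝ) * (k : ℝ) ^ a * ((dn n k' : ℝ) * (k' : ℝ) ^ a')
  let U : ℕ → ℝ := fun m => Set.indicator {m : ℕ | 1 ≤ m ∧ Smooth y m}
      (fun m : ℕ => (dn n m : ℝ) * (m : ℝ) ^ a) m
  have hU : Summable U := cv_summable n hn y a ha0
  have hal : ∀ (w : M.Om) (b : ℝ) (k : ℕ), 1 ≤ k →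
      ‖al (fun m => M.X m w) k * (((k : ℝ) ^ b : ℝ) : ℂ)‖ ≤ (dn n k : ℝ) * (k : ℝ) ^ b := by
    intro w b k hk
    rw [norm_mul, Complex.norm_real, Real.norm_of_nonneg (by positivity)]
    exact mul_le_mul_of_nonneg_right (temp_bound n hn _ (M.temp w) k hk).2 (by positivity)
  have hcF : ∀ w, ∀ k ∈ S, ∀ k' ∈ S, ‖cvF (fun m => M.X m w) a a' k k'‖ ≤ C k k' := by
    intro w k hk k' hk'
    unfold cvF
    rw [norm_mul, RCLike.norm_conj]
    exact mul_le_mul (hal w a k (hS1 k hk)) (hal w a' k' (hS1 k' hk')) (norm_nonneg _)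
      (by positivity)
  have hcG : ∀ w, ∀ k ∈ S, ∀ k' ∈ S, ‖cvG (fun m => M.X m w) a a' k k'‖ ≤ C k k' := by
    intro w k hk k' hk'
    unfold cvG
    rw [norm_mul]
    exact mul_le_mul (hal w a k (hS1 k hk)) (hal w a' k' (hS1 k' hk')) (norm_nonneg _)
      (by positivity)
  have hu : ∀ w, ∀ m, ‖cvu (fun m => M.X m w) y a m‖ ≤ U m := by
    intro w m
    simp only [cvu, U, Set.indicator_apply, Set.mem_ofPred_eq]
    by_cases h : 1 ≤ m ∧ Smooth y m
    · rw [if_pos h, if_pos h, norm_mul, Complex.norm_real, Real.norm_of_nonneg (by positivity)]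
      exact mul_le_mul_of_nonneg_right (temp_bound n hn _ (M.temp w) m h.1).1 (by positivity)
    · rw [if_neg h, if_neg h, norm_zero]
  have coreF := fun w => cv_core S cvt (fun k hk k' hk' => cvt_inj (hS1 k hk) (hS1 k' hk'))
    (cvF (fun m => M.X m w) a a') (cvu (fun m => M.X m w) y a) C U (hcF w) (hu w) hU
  have coreG := fun w => cv_core S (fun k k' m => m * k * k')
    (fun k hk k' hk' => cvg_inj (hS1 k hk) (hS1 k' hk'))
    (cvG (fun m => M.X m w) a a') (cvu (fun m => M.X m w) y a) C U (hcG w) (hu w) hU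
  have hne : Nonempty M.Om := by
    by_contra h
    rw [not_nonempty_iff] at h
    have h1 : M.P Set.univ = 1 := measure_univ
    have h2 : (Set.univ : Set M.Om) = ∅ := Set.univ_eq_empty_iff.2 h
    rw [h2, measure_empty] at h1
    exact zero_ne_one h1
  obtain ⟨w₀⟩ := hne
  -- zero outside
  have hF0 : ∀ r : ℚ, ¬ 0 < r → fF r = 0 := by
    intro r hr
    funext w
    refine Finset.sum_eq_zero fun k hk => Finset.sum_eq_zero fun k' hk' => ?_
    have h1 := hS1 k hk
    have h2 := hS1 k' hk'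
    by_cases h : ∃ m, cvt k k' m = r
    · obtain ⟨m, rfl⟩ := h
      rw [(cvt_inj h1 h2).extend_apply]
      have hm : ¬ 1 ≤ m := by
        intro hm
        apply hr
        simp only [cvt]
        positivity
      simp only [cvu]
      rw [if_neg (fun h => hm h.1), mul_zero]
    · rw [Function.extend_apply' _ _ _ h]; rfl
  -- measurability and orthogonality
  have hFm : ∀ r, Measurable (fF r) := by
    intro r
    by_cases hr : 0 < r
    · exact (cv_bdd hn M (cv_memF M S y a a' hS1 r hr)).1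
    · rw [hF0 r hr]; exact measurable_zero
  have hGm : ∀ r, Measurable (fG r) := fun r => (cv_bdd hn M (cv_memG M S y a a' hS1 r)).1
  have hFo : ∀ r r', r ≠ r' → ∫ w, fF r w * (starRingEnd ℂ) (fF r' w) ∂M.P = 0 := by
    intro r r' h
    by_cases hr : 0 < r
    · by_cases hr' : 0 < r'
      · exact cv_orth hn M h (cv_memF M S y a a' hS1 r hr) (cv_memF M S y a a' hS1 r' hr')
      · rw [hF0 r' hr']; simp
    · rw [hF0 r hr]; simp
  have hGo : ∀ r r', r ≠ r' → ∫ w, fG r w * (starRingEnd ℂ) (fG r' w) ∂M.P = 0 := by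
    intro r r' h
    exact cv_orth hn M (by exact_mod_cast h) (cv_memG M S y a a' hS1 r)
      (cv_memG M S y a a' hS1 r')
  -- Parseval
  have pF := cv_parseval M.P fF _ (coreF w₀).2.2 (fun r w => (coreF w).2.1 r) hFm hFo _
    (fun w => (coreF w).1)
  have pG := cv_parseval M.P fG _ (coreG w₀).2.2 (fun r w => (coreG w).2.1 r) hGm hGo _
    (fun w => (coreG w).1)
  -- the two sums have the same absolute value
  have hFG : ∀ w, ‖(∑ k ∈ S, ∑ k' ∈ S, cvF (fun m => M.X m w) a a' k k') *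
      ∑' m, cvu (fun m => M.X m w) y a m‖ = ‖(∑ k ∈ S, ∑ k' ∈ S, cvG (fun m => M.X m w) a a' k k') *
      ∑' m, cvu (fun m => M.X m w) y a m‖ := by
    intro w
    unfold cvF cvG
    rw [norm_mul, norm_mul, ← Finset.sum_mul_sum, ← Finset.sum_mul_sum, ← map_sum, norm_mul,
      norm_mul, RCLike.norm_conj]
  have hFG' : ∫ w, ‖(∑ k ∈ S, ∑ k' ∈ S, cvF (fun m => M.X m w) a a' k k') *
      ∑' m, cvu (fun m => M.X m w) y a m‖ ^ 2 ∂M.P =
      ∫ w, ‖(∑ k ∈ S, ∑ k' ∈ S, cvG (fun m => M.X m w) a a' k k') *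
      ∑' m, cvu (fun m => M.X m w) y a m‖ ^ 2 ∂M.P :=
    integral_congr_ae (Filter.Eventually.of_forall fun w => by simp only [hFG w])
  -- the bound for `G`
  have hG1 : ∫ w, ‖(∑ k ∈ S, ∑ k' ∈ S, cvG (fun m => M.X m w) a a' k k') *
      ∑' m, cvu (fun m => M.X m w) y a m‖ ^ 2 ∂M.P ≤ B := by
    rw [← pG.tsum_eq]
    refine pG.summable.tsum_le_of_sum_le fun T => ?_
    have h1 : ∑ r ∈ T, ∫ w, ‖fG r w‖ ^ 2 ∂M.P =
        ∑ r ∈ T.filter (fun r => 1 ≤ r ∧ Smooth y r), ∫ w, ‖fG r w‖ ^ 2 ∂M.P := by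
      rw [Finset.sum_filter]
      refine Finset.sum_congr rfl fun r _ => ?_
      by_cases h : 1 ≤ r ∧ Smooth y r
      · rw [if_pos h]
      · rw [if_neg h]
        have : fG r = 0 := by
          funext w
          exact (cv_idG (fun m => M.X m w) S y a a' hS r).2 h
        rw [this]; simp
    rw [h1]
    refine le_trans (le_of_eq (Finset.sum_congr rfl fun r hr => ?_))
      (hB (T.filter (fun r => 1 ≤ r ∧ Smooth y r)) fun r hr => (Finset.mem_filter.1 hr).2)
    unfold Model.EE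
    refine integral_congr_ae (Filter.Eventually.of_forall fun w => ?_)
    have := (cv_idG (fun m => M.X m w) S y a a' hS r).1 (Finset.mem_filter.1 hr).2
    simp only [fG, this]
  -- the sum for `F`
  have hF1 : ∑ r ∈ R, (r : ℝ) ^ (2 * κ) * M.EE (fun w => ‖wr (fun m => M.X m w) S y r‖ ^ 2) =
      ∑ r ∈ R, ∫ w, ‖fF r w‖ ^ 2 ∂M.P := by
    refine Finset.sum_congr rfl fun r hr => ?_
    have hr0 : (0 : ℝ) < r := by exact_mod_cast hR r hr
    unfold Model.EE
    rw [← integral_const_mul]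
    refine integral_congr_ae (Filter.Eventually.of_forall fun w => ?_)
    have h1 := cv_idF (fun m => M.X m w) S y κ hS1 r (hR r hr)
    have h2 : fF r w = (((r : ℝ) ^ κ : ℝ) : ℂ) * wr (fun m => M.X m w) S y r := h1
    have h3 : ((r : ℝ) ^ κ) ^ 2 = (r : ℝ) ^ (2 * κ) := by
      rw [← Real.rpow_natCast, ← Real.rpow_mul hr0.le]
      congr 1
      push_cast; ring
    simp only [h2]
    rw [norm_mul, Complex.norm_real, Real.norm_of_nonneg (by positivity), mul_pow, h3]
  rw [hF1]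
  refine le_trans (sum_le_hasSum R (fun r _ => integral_nonneg fun w => by positivity) pF) ?_
  rw [hFG']
  exact hG1


end

end Pool.Agent.SGN
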