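import Pool.Agent.Lib_helper84.SGN.DefsM

/-!
# SGN, block CR: Rankin
-/

set_option autoImplicit false

namespace Pool.Agent.SGN

open MeasureTheory Matrix Complex ProbabilityTheory
open Pool.Agent.GLQ (re unip cube Lat Lz latt sp qq)
open scoped ArithmeticFunction.Omega ENNReal

noncomputable section

/-- Euler product inequality -/
theorem cr_euler (I : Finset ℕ) (g : ℕ → ℕ → ℝ) (hg : ∀ p ∈ I, ∀ s, 0 ≤ g p s)
    (h0 : ∀ p, g p 0 = 1) (e : ℕ → ℝ) (he : ∀ p ∈ I, ∀ s : ℕ,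
      ∑ i ∈ Finset.range (s + 1), g p i ≤ 1 + e p) (R : Finset ℕ)
    (hR : ∀ k ∈ R, k ∈ Nat.factoredNumbers I) :
    ∑ k ∈ R, k.factorization.prod g ≤ Real.exp (∑ p ∈ I, e p) := by
  classical
  set s : ℕ := R.sup id with hs
  have hne : ∀ k ∈ R, k ≠ 0 := fun k hk => Nat.ne_zero_of_mem_factoredNumbers (hR k hk)
  have hsub : ∀ k ∈ R, k.factorization.support ⊆ I := fun k hk => by
    rw [Nat.support_factorization]
    exact Nat.primeFactors_subset_of_mem_factoredNumbers (hR k hk)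
  set F : ℕ → ((a : ℕ) → a ∈ I → ℕ) := fun k a _ => k.factorization a with hF
  have hinj : Set.InjOn F R := by
    intro k hk k' hk' h
    refine Nat.eq_of_factorization_eq (hne k hk) (hne k' hk') fun p => ?_
    by_cases hp : p ∈ I
    · exact congrFun (congrFun h p) hp
    · have h1 : k.factorization p = 0 := by
        by_contra h2
        exact hp (hsub k hk (Finsupp.mem_support_iff.2 h2))
      have h2 : k'.factorization p = 0 := by
        by_contra h2
        exact hp (hsub k' hk' (Finsupp.mem_support_iff.2 h2))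
      rw [h1, h2]
  have hmem : ∀ k ∈ R, F k ∈ I.pi fun _ => Finset.range (s + 1) := fun k hk => by
    rw [Finset.mem_pi]
    intro p _
    rw [Finset.mem_range]
    have h1 : k.factorization p < k := Nat.factorization_lt p (hne k hk)
    have h2 : k ≤ s := Finset.le_sup (f := id) hk
    show k.factorization p < s + 1
    omega
  have hterm : ∀ k ∈ R, k.factorization.prod g = ∏ x ∈ I.attach, g x.1 (F k x.1 x.2) := by
    intro k hk
    rw [Finsupp.prod_of_support_subset _ (hsub k hk) _ (fun p _ => h0 p)]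
    exact (Finset.prod_attach I fun p => g p (k.factorization p)).symm
  calc ∑ k ∈ R, k.factorization.prod g
      = ∑ k ∈ R, ∏ x ∈ I.attach, g x.1 (F k x.1 x.2) := Finset.sum_congr rfl hterm
    _ = ∑ φ ∈ R.image F, ∏ x ∈ I.attach, g x.1 (φ x.1 x.2) := by
        rw [Finset.sum_image hinj]
    _ ≤ ∑ φ ∈ I.pi fun _ => Finset.range (s + 1), ∏ x ∈ I.attach, g x.1 (φ x.1 x.2) := by
        refine Finset.sum_le_sum_of_subset_of_nonneg ?_ fun φ _ _ =>
          Finset.prod_nonneg fun x _ => hg _ x.2 _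
        intro φ hφ
        obtain ⟨k, hk, rfl⟩ := Finset.mem_image.1 hφ
        exact hmem k hk
    _ = ∏ p ∈ I, ∑ i ∈ Finset.range (s + 1), g p i := by
        rw [Finset.prod_sum]
    _ ≤ ∏ p ∈ I, Real.exp (e p) := by
        refine Finset.prod_le_prod (fun p hp => Finset.sum_nonneg fun i _ => hg p hp i)
          fun p hp => (he p hp s).trans ?_
        rw [add_comm]
        exact Real.add_one_le_exp (e p)
    _ = Real.exp (∑ p ∈ I, e p) := (Real.exp_sum I e).symm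

theorem cr_summable (N : ℕ) {r : ℝ} (hr0 : 0 < r) (hr : r < 1) :
    Summable fun i : ℕ => r ^ i * ((Nat.choose (i + 1 + N - 1) (i + 1) : ℕ) : ℝ) ^ 2 := by
  have h1 : Summable fun n : ℕ => (n : ℝ) ^ (2 * N) * r ^ n :=
    summable_pow_mul_geometric_of_norm_lt_one (2 * N) (by rwa [Real.norm_of_nonneg hr0.le])
  have h2 := (summable_nat_add_iff 1).2 h1
  have h3 := h2.mul_left (r⁻¹ * ((N : ℝ) + 1) ^ (2 * N))
  refine Summable.of_nonneg_of_le (fun i => by positivity) (fun i => ?_) h3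
  have h4 : Nat.choose (i + 1 + N - 1) (i + 1) ≤ ((N + 1) * (i + 1)) ^ N := by
    rcases Nat.eq_zero_or_pos N with h | h
    · subst h
      rw [Nat.choose_eq_zero_of_lt (by omega)]
      exact Nat.zero_le _
    · have h5 : i + 1 + N - 1 = (N - 1) + (i + 1) := by omega
      rw [h5, Nat.choose_symm_add.symm]
      calc Nat.choose (N - 1 + (i + 1)) (N - 1) ≤ (N - 1 + (i + 1)) ^ (N - 1) :=
            Nat.choose_le_pow _ _
        _ ≤ ((N + 1) * (i + 1)) ^ (N - 1) := by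
            refine Nat.pow_le_pow_left ?_ _
            nlinarith [Nat.zero_le (N * i), Nat.sub_le N 1]
        _ ≤ ((N + 1) * (i + 1)) ^ N := Nat.pow_le_pow_right (by positivity) (Nat.sub_le N 1)
  have h5 : ((Nat.choose (i + 1 + N - 1) (i + 1) : ℕ) : ℝ) ≤ (((N : ℝ) + 1) * (i + 1)) ^ N := by
    exact_mod_cast h4
  calc r ^ i * ((Nat.choose (i + 1 + N - 1) (i + 1) : ℕ) : ℝ) ^ 2
      ≤ r ^ i * ((((N : ℝ) + 1) * (i + 1)) ^ N) ^ 2 := by gcongr
    _ = r⁻¹ * ((N : ℝ) + 1) ^ (2 * N) * (((i + 1 : ℕ) : ℝ) ^ (2 * N) * r ^ (i + 1)) := by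
        rw [← pow_mul, mul_pow, mul_comm N 2, pow_succ r i]
        push_cast
        field_simp

theorem cr_local (N : ℕ) (ρ r₁ : ℝ) (hρ : 1 ≤ ρ) (hr : r₁ < 1) : ∃ C : ℝ, 0 < C ∧
    ∀ t : ℝ, 0 ≤ t → ρ * t ≤ r₁ → ∀ s : ℕ,
      ∑ j ∈ Finset.range (s + 1),
        ρ ^ j * ((Nat.choose (j + N - 1) j : ℕ) : ℝ) ^ 2 * t ^ j ≤ 1 + C * t := by
  set r : ℝ := max r₁ (1 / 2) with hrdef
  have hr0 : 0 < r := lt_of_lt_of_le (by norm_num) (le_max_right _ _)
  have hr1 : r < 1 := max_lt hr (by norm_num)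
  have hsum := cr_summable N hr0 hr1
  set S : ℝ := ∑' i : ℕ, r ^ i * ((Nat.choose (i + 1 + N - 1) (i + 1) : ℕ) : ℝ) ^ 2 with hS
  have hS0 : 0 ≤ S := tsum_nonneg fun i => by positivity
  refine ⟨ρ * S + 1, by positivity, fun t ht htr s => ?_⟩
  have hρt : ρ * t ≤ r := htr.trans (le_max_left _ _)
  have hρt0 : 0 ≤ ρ * t := by positivity
  rw [Finset.sum_range_succ']
  have h1 : ∑ j ∈ Finset.range s,
      ρ ^ (j + 1) * ((Nat.choose (j + 1 + N - 1) (j + 1) : ℕ) : ℝ) ^ 2 * t ^ (j + 1) ≤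
      ρ * t * S := by
    calc ∑ j ∈ Finset.range s,
        ρ ^ (j + 1) * ((Nat.choose (j + 1 + N - 1) (j + 1) : ℕ) : ℝ) ^ 2 * t ^ (j + 1)
        ≤ ∑ j ∈ Finset.range s, ρ * t *
          (r ^ j * ((Nat.choose (j + 1 + N - 1) (j + 1) : ℕ) : ℝ) ^ 2) := by
          refine Finset.sum_le_sum fun j _ => ?_
          have h2 : (ρ * t) ^ j ≤ r ^ j := pow_le_pow_left₀ hρt0 hρt j
          calc _ = ρ * t * ((ρ * t) ^ j * ((Nat.choose (j + 1 + N - 1) (j + 1) : ℕ) : ℝ) ^ 2) := by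
                rw [mul_pow]; ring
            _ ≤ _ := by gcongr
      _ = ρ * t * ∑ j ∈ Finset.range s,
          (r ^ j * ((Nat.choose (j + 1 + N - 1) (j + 1) : ℕ) : ℝ) ^ 2) := by
          rw [Finset.mul_sum]
      _ ≤ ρ * t * S := by
          gcongr
          exact hsum.sum_le_tsum _ fun i _ => by positivity
  have h2 : ρ ^ 0 * ((Nat.choose (0 + N - 1) 0 : ℕ) : ℝ) ^ 2 * t ^ 0 = 1 := by
    rw [Nat.choose_zero_right]
    norm_num
  rw [h2]
  nlinarith

theorem rankin (N : ℕ) (ρ r₁ : ℝ) (hρ : 1 ≤ ρ) (hr : r₁ < 1) : ∃ C : ℝ, 0 < C ∧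
    ∀ (I : Finset ℕ) (t : ℕ → ℝ), (∀ p ∈ I, p.Prime) → (∀ p ∈ I, 0 ≤ t p ∧ ρ * t p ≤ r₁) →
    ∀ R : Finset ℕ, (∀ k ∈ R, k ∈ Nat.factoredNumbers I) →
      ∑ k ∈ R, ρ ^ (Ω k) * (dn N k : ℝ) ^ 2 * zz t k ≤ Real.exp (C * ∑ p ∈ I, t p) := by
  obtain ⟨C, hC, hloc⟩ := cr_local N ρ r₁ hρ hr
  refine ⟨C, hC, fun I t hI ht R hR => ?_⟩
  set g : ℕ → ℕ → ℝ := fun p j => ρ ^ j * ((Nat.choose (j + N - 1) j : ℕ) : ℝ) ^ 2 * t p ^ j with hg
  have h1 := cr_euler I g (fun p hp s => by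
    have := (ht p hp).1
    simp only [hg]
    positivity) (fun p => by
    simp only [hg, Nat.choose_zero_right]
    norm_num) (fun p => C * t p) (fun p hp s => hloc (t p) (ht p hp).1 (ht p hp).2 s) R hR
  rw [← Finset.mul_sum] at h1
  refine le_trans (le_of_eq (Finset.sum_congr rfl fun k hk => ?_)) h1
  have hk0 : k ≠ 0 := Nat.ne_zero_of_mem_factoredNumbers (hR k hk)
  have hΩ : Ω k = ∑ p ∈ k.primeFactors, k.factorization p := by
    rw [ArithmeticFunction.cardFactors_apply]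
    have h2 : k.primeFactorsList.length = k.primeFactorsList.toFinset.sum
        fun p => k.primeFactorsList.count p := by
      exact (List.sum_toFinset_count_eq_length k.primeFactorsList).symm
    rw [h2]
    refine Finset.sum_congr rfl fun p _ => ?_
    exact Nat.primeFactorsList_count_eq
  unfold dn zz Finsupp.prod
  rw [Nat.support_factorization, hΩ, ← Finset.prod_pow_eq_pow_sum, Nat.cast_prod,
    ← Finset.prod_pow, ← Finset.prod_mul_distrib, ← Finset.prod_mul_distrib]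

end

end Pool.Agent.SGN
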