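import Pool.Agent.Lib_helper84.SGN.DefsM

/-!
# Block CS: Euler product inequality for finite sets
-/

set_option autoImplicit false

namespace Pool.Agent.SGN

open MeasureTheory Matrix Complex ProbabilityTheory
open scoped ArithmeticFunction.Omega ENNReal

noncomputable section

private lemma cs_split (g : ℕ → ℕ → ℝ) (p : ℕ) (k : ℕ) :
    k.factorization.prod g = (if k.factorization p = 0 then 1 else g p (k.factorization p)) *
      (ordCompl[p] k).factorization.prod g := by
  classical
  rw [Nat.factorization_ordCompl]
  by_cases h : k.factorization p = 0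
  · rw [if_pos h, one_mul]
    congr 1
    ext q
    by_cases hq : q = p
    · subst hq; simp [h]
    · rw [Finsupp.erase_ne hq]
  · rw [if_neg h]
    have hps : p ∈ k.factorization.support := Finsupp.mem_support_iff.mpr h
    rw [← Finsupp.mul_prod_erase k.factorization p g hps]

private lemma cs_main (g : ℕ → ℕ → ℝ) (hg : ∀ p s, 0 ≤ g p s) (e : ℕ → ℝ) :
    ∀ I : Finset ℕ, (∀ p ∈ I, p.Prime) → (∀ p ∈ I, ∀ s : ℕ,
      ∑ i ∈ Finset.Icc 1 s, g p i ≤ e p) → ∀ R : Finset ℕ,
      (∀ k ∈ R, k ∈ Nat.factoredNumbers I) →
      ∑ k ∈ R, k.factorization.prod g ≤ ∏ p ∈ I, (1 + e p) := by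
  classical
  intro I
  induction I using Finset.induction_on with
  | empty =>
    intro _ _ R hR
    have hR' : R ⊆ {1} := by
      intro k hk
      have := hR k hk
      rw [Nat.mem_factoredNumbers] at this
      rw [Finset.mem_singleton]
      have h2 : k.primeFactorsList = [] := by
        apply List.eq_nil_iff_forall_not_mem.mpr
        intro a ha
        exact absurd (this.2 a ha) (Finset.notMem_empty a)
      rcases (Nat.primeFactorsList_eq_nil _).mp h2 with h | h
      · exact absurd h this.1
      · exact h
    calc ∑ k ∈ R, k.factorization.prod g ≤ ∑ k ∈ ({1} : Finset ℕ), k.factorization.prod g := by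
          apply Finset.sum_le_sum_of_subset_of_nonneg hR'
          intro k _ _
          exact Finset.prod_nonneg fun p _ => hg _ _
      _ = _ := by simp
  | insert p I hpI ih =>
    intro hI he R hR
    have hp : p.Prime := hI p (Finset.mem_insert_self p I)
    set s : ℕ := R.sup fun k => k.factorization p with hs
    set R' : Finset ℕ := R.image fun k => ordCompl[p] k with hR'
    have hk0 : ∀ k ∈ R, k ≠ 0 := fun k hk => ((Nat.mem_factoredNumbers).mp (hR k hk)).1
    have hR'I : ∀ m ∈ R', m ∈ Nat.factoredNumbers I := by
      intro m hm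
      obtain ⟨k, hk, rfl⟩ := Finset.mem_image.mp hm
      have h1 := hR k hk
      rw [Nat.mem_factoredNumbers] at h1 ⊢
      refine ⟨(Nat.ordCompl_pos p h1.1).ne', ?_⟩
      intro q hq
      have hqp : q.Prime := Nat.prime_of_mem_primeFactorsList hq
      have hqd : q ∣ ordCompl[p] k := Nat.dvd_of_mem_primeFactorsList hq
      have hqk : q ∣ k := hqd.trans (Nat.ordCompl_dvd k p)
      have h2 := h1.2 q ((Nat.mem_primeFactorsList h1.1).mpr ⟨hqp, hqk⟩)
      rcases Finset.mem_insert.mp h2 with h3 | h3
      · subst h3
        exact absurd hqd (Nat.not_dvd_ordCompl hqp h1.1)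
      · exact h3
    have ih' := ih (fun q hq => hI q (Finset.mem_insert_of_mem hq))
      (fun q hq => he q (Finset.mem_insert_of_mem hq)) R' hR'I
    have hG0 : ∀ m : ℕ, 0 ≤ m.factorization.prod g := fun m =>
      Finset.prod_nonneg fun p _ => hg _ _
    set G1 : ℕ → ℝ := fun a => if a = 0 then 1 else g p a with hG1
    have hG10 : ∀ a, 0 ≤ G1 a := by
      intro a; rw [hG1]; dsimp only; split_ifs
      · norm_num
      · exact hg _ _
    have step1 : ∑ k ∈ R, k.factorization.prod g ≤
        ∑ am ∈ (Finset.range (s + 1)) ×ˢ R', G1 am.1 * am.2.factorization.prod g := by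
      have hinj : Set.InjOn (fun k : ℕ => (k.factorization p, ordCompl[p] k)) (R : Set ℕ) := by
        intro k _ k' _ h
        simp only [Prod.mk.injEq] at h
        rw [← Nat.ordProj_mul_ordCompl_eq_self k p, ← Nat.ordProj_mul_ordCompl_eq_self k' p, h.2,
          h.1]
      calc ∑ k ∈ R, k.factorization.prod g
          = ∑ k ∈ R, G1 (k.factorization p) * (ordCompl[p] k).factorization.prod g := by
            apply Finset.sum_congr rfl
            intro k hk
            rw [cs_split g p k]
        _ = ∑ am ∈ R.image (fun k : ℕ => (k.factorization p, ordCompl[p] k)),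
              G1 am.1 * am.2.factorization.prod g := by
            rw [Finset.sum_image hinj]
        _ ≤ _ := by
            apply Finset.sum_le_sum_of_subset_of_nonneg
            · intro am ham
              obtain ⟨k, hk, rfl⟩ := Finset.mem_image.mp ham
              rw [Finset.mem_product]
              refine ⟨Finset.mem_range.mpr (Nat.lt_succ_of_le ?_),
                Finset.mem_image.mpr ⟨k, hk, rfl⟩⟩
              exact Finset.le_sup (f := fun k : ℕ => k.factorization p) hk
            · intro am _ _
              exact mul_nonneg (hG10 _) (hG0 _)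
    have step2 : ∑ am ∈ (Finset.range (s + 1)) ×ˢ R', G1 am.1 * am.2.factorization.prod g =
        (∑ a ∈ Finset.range (s + 1), G1 a) * ∑ m ∈ R', m.factorization.prod g := by
      rw [Finset.sum_product, Finset.sum_mul_sum]
    have step3 : ∑ a ∈ Finset.range (s + 1), G1 a ≤ 1 + e p := by
      rw [Finset.sum_range_succ']
      have h4 : ∑ a ∈ Finset.range s, G1 (a + 1) = ∑ i ∈ Finset.Icc 1 s, g p i := by
        have h5 : ∀ s : ℕ, ∑ a ∈ Finset.range s, G1 (a + 1) = ∑ i ∈ Finset.Icc 1 s, g p i := by
          intro s
          induction s with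
          | zero => simp
          | succ s ihs =>
            rw [Finset.sum_range_succ, ihs, Finset.sum_Icc_succ_top (by omega)]
            simp [hG1]
        exact h5 s
      rw [h4]
      have := he p (Finset.mem_insert_self p I) s
      simp only [hG1, if_true]
      linarith
    rw [Finset.prod_insert hpI]
    calc ∑ k ∈ R, k.factorization.prod g
        ≤ (∑ a ∈ Finset.range (s + 1), G1 a) * ∑ m ∈ R', m.factorization.prod g :=
          step1.trans_eq step2
      _ ≤ (1 + e p) * ∏ q ∈ I, (1 + e q) := by
          apply mul_le_mul step3 ih' (Finset.sum_nonneg fun m _ => hG0 m)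
          have := he p (Finset.mem_insert_self p I) 0
          simp at this
          linarith

theorem euler_ineq (I : Finset ℕ) (hI : ∀ p ∈ I, p.Prime) (g : ℕ → ℕ → ℝ)
    (hg : ∀ p s, 0 ≤ g p s) (e : ℕ → ℝ) (he : ∀ p ∈ I, ∀ s : ℕ,
      ∑ i ∈ Finset.Icc 1 s, g p i ≤ e p) (R : Finset ℕ)
    (hR : ∀ k ∈ R, k ∈ Nat.factoredNumbers I ∧ k ≠ 1) :
    ∑ k ∈ R, k.factorization.prod g ≤ Real.exp (∑ p ∈ I, e p) - 1 := by
  classical
  have h1 : (1 : ℕ) ∉ R := fun h => (hR 1 h).2 rfl
  have h2 := cs_main g hg e I hI he (insert 1 R) (by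
    intro k hk
    rcases Finset.mem_insert.mp hk with h | h
    · subst h
      rw [Nat.mem_factoredNumbers]
      simp
    · exact (hR k h).1)
  rw [Finset.sum_insert h1] at h2
  have h3 : (1 : ℕ).factorization.prod g = 1 := by simp
  rw [h3] at h2
  have h4 : ∏ p ∈ I, (1 + e p) ≤ Real.exp (∑ p ∈ I, e p) := by
    rw [Real.exp_sum]
    apply Finset.prod_le_prod
    · intro p hp
      have := he p hp 0
      simp at this
      linarith
    · intro p _
      linarith [Real.add_one_le_exp (e p)]
  linarith


end

end Pool.Agent.SGN
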