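import Pool.Agent.Lib_helper84.SGN.DefsM
import Pool.Agent.Lib_helper84.SGCF.CO
import Pool.Agent.Lib_helper84.SGCF.CP
import Pool.Agent.Lib_helper84.SGCF.CR
import Pool.Agent.Lib_helper84.SGCF.CS

/-!
# SGN, part C, block CT: one block of the mollifier
-/

set_option autoImplicit false

namespace Pool.Agent.SGN

open MeasureTheory Matrix Complex ProbabilityTheory
open Pool.Agent.GLQ (re unip cube Lat Lz latt sp qq)
open scoped ArithmeticFunction.Omega ENNReal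

noncomputable section

/-! ### completely multiplicative functions -/

theorem ct_zz_one (z : ℕ → ℝ) : zz z 1 = 1 := by
  unfold zz
  rw [Nat.factorization_one, Finsupp.prod_zero_index]

theorem ct_zz_mul (z : ℕ → ℝ) {a b : ℕ} (ha : a ≠ 0) (hb : b ≠ 0) :
    zz z (a * b) = zz z a * zz z b := by
  unfold zz
  rw [Nat.factorization_mul ha hb]
  exact Finsupp.prod_add_index' (fun p => pow_zero _) (fun p i j => pow_add _ _ _)

theorem ct_zz_pow (z : ℕ → ℝ) {p : ℕ} (hp : p.Prime) (s : ℕ) : zz z (p ^ s) = z p ^ s := by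
  unfold zz
  rw [hp.factorization_pow]
  exact Finsupp.prod_single_index (pow_zero _)

theorem ct_zz_sq (z : ℕ → ℝ) (k : ℕ) : zz z k ^ 2 = zz (fun p => z p ^ 2) k := by
  unfold zz Finsupp.prod
  rw [← Finset.prod_pow]
  refine Finset.prod_congr rfl fun p _ => ?_
  show (z p ^ k.factorization p) ^ 2 = (z p ^ 2) ^ k.factorization p
  rw [← pow_mul, ← pow_mul, mul_comm]

theorem ct_zz_nonneg {I : Finset ℕ} {z : ℕ → ℝ} (hz : ∀ p ∈ I, 0 ≤ z p) {k : ℕ}
    (hk : k ∈ Nat.factoredNumbers I) : 0 ≤ zz z k := by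
  unfold zz Finsupp.prod
  refine Finset.prod_nonneg fun p hp => pow_nonneg (hz p ?_) _
  exact Nat.primeFactors_subset_of_mem_factoredNumbers hk hp

theorem ct_zz_mono {I : Finset ℕ} {z z' : ℕ → ℝ} (hz : ∀ p ∈ I, 0 ≤ z' p ∧ z' p ≤ z p) {k : ℕ}
    (hk : k ∈ Nat.factoredNumbers I) : zz z' k ≤ zz z k := by
  unfold zz Finsupp.prod
  refine Finset.prod_le_prod (fun p hp => ?_) (fun p hp => ?_)
  · exact pow_nonneg (hz p (Nat.primeFactors_subset_of_mem_factoredNumbers hk hp)).1 _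
  · have := hz p (Nat.primeFactors_subset_of_mem_factoredNumbers hk hp)
    exact pow_le_pow_left₀ this.1 this.2 _

/-! ### rearranging the sum -/

theorem ct_switch {M : Type} [AddCommMonoid M] (S D : Finset ℕ) (G : ℕ → M)
    (h : ∀ k, k ∉ D → G k = 0) : ∑ k ∈ S, G k = ∑ k ∈ D, if k ∈ S then G k else 0 := by
  rw [← Finset.sum_filter]
  symm
  refine Finset.sum_subset (fun k hk => (Finset.mem_filter.mp hk).2) fun k hk hk2 => ?_
  apply h
  intro hD
  exact hk2 (Finset.mem_filter.mpr ⟨hD, hk⟩)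

open Classical in
theorem ct_sum {M : Type} [AddCommMonoid M] (S P : Finset ℕ) {r : ℕ} (hr : r ≠ 0)
    (F : ℕ → ℕ → ℕ → M) :
    (∑ k ∈ S, ∑ k' ∈ S, if k * k' ∣ r ∧ r / (k * k') ∈ Nat.factoredNumbers P then
      F (r / (k * k')) k k' else 0) =
    ∑ x ∈ r.divisorsAntidiagonal, ∑ y ∈ x.1.divisorsAntidiagonal,
      if y.1 ∈ Nat.factoredNumbers P ∧ y.2 ∈ S ∧ x.2 ∈ S then F y.1 y.2 x.2 else 0 := by
  rw [Finset.sum_comm]
  rw [Nat.sum_divisorsAntidiagonal' (fun a b => ∑ y ∈ a.divisorsAntidiagonal,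
      if y.1 ∈ Nat.factoredNumbers P ∧ y.2 ∈ S ∧ b ∈ S then F y.1 y.2 b else 0)]
  rw [ct_switch S r.divisors]
  · refine Finset.sum_congr rfl fun k' hk' => ?_
    have hk'r : k' ∣ r := Nat.dvd_of_mem_divisors hk'
    have hk'0 : k' ≠ 0 := fun h => hr (by rw [h] at hk'r; exact Nat.eq_zero_of_zero_dvd hk'r)
    have hq0 : r / k' ≠ 0 := (Nat.div_pos (Nat.le_of_dvd (Nat.pos_of_ne_zero hr) hk'r)
      (Nat.pos_of_ne_zero hk'0)).ne'
    rw [Nat.sum_divisorsAntidiagonal' (fun a b =>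
      if a ∈ Nat.factoredNumbers P ∧ b ∈ S ∧ k' ∈ S then F a b k' else 0)]
    split_ifs with hS
    · rw [ct_switch S (r / k').divisors]
      · refine Finset.sum_congr rfl fun k hk => ?_
        have hkr : k ∣ r / k' := Nat.dvd_of_mem_divisors hk
        have hdvd : k * k' ∣ r := by
          rw [mul_comm]
          exact (Nat.dvd_div_iff_mul_dvd hk'r).mp hkr
        have hdiv : r / (k * k') = r / k' / k := by rw [Nat.div_div_eq_div_mul, mul_comm]
        by_cases hkS : k ∈ S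
        · rw [if_pos hkS, hdiv]
          simp only [hdvd, true_and, hkS, hS, and_true]
        · rw [if_neg hkS, if_neg (fun h => hkS h.2.1)]
      · intro k hk
        rw [if_neg]
        rintro ⟨h1, -⟩
        apply hk
        rw [Nat.mem_divisors]
        exact ⟨(Nat.dvd_div_iff_mul_dvd hk'r).mpr (by rwa [mul_comm]), hq0⟩
    · symm
      refine Finset.sum_eq_zero fun k _ => ?_
      rw [if_neg (fun h => hS h.2.2)]
  · intro k' hk'
    refine Finset.sum_eq_zero fun k _ => ?_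
    rw [if_neg]
    rintro ⟨h1, -⟩
    exact hk' (Nat.mem_divisors.mpr ⟨(Dvd.intro_left k rfl).trans h1, hr⟩)

/-- convolution at the powers of a prime -/
theorem ct_conv_pow {M : Type} [AddCommMonoid M] {p : ℕ} (hp : p.Prime) (s : ℕ)
    (F : ℕ → ℕ → M) :
    ∑ x ∈ (p ^ s).divisorsAntidiagonal, F x.1 x.2 =
      ∑ i ∈ Finset.HasAntidiagonal.antidiagonal s, F (p ^ i.1) (p ^ i.2) := by
  rw [Nat.sum_divisorsAntidiagonal F, Nat.sum_divisors_prime_pow hp,
    Finset.Nat.sum_antidiagonal_eq_sum_range_succ (fun i j => F (p ^ i) (p ^ j))]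
  refine Finset.sum_congr rfl fun i hi => ?_
  have : i ≤ s := by
    rw [Finset.mem_range] at hi
    omega
  rw [Nat.pow_div this hp.pos]

/-! ### arithmetic functions -/

/-- an arithmetic function from a function -/
def ctAf (f : ℕ → ℂ) : ArithmeticFunction ℂ := ⟨fun k => if k = 0 then 0 else f k, if_pos rfl⟩

theorem ctAf_apply (f : ℕ → ℂ) {k : ℕ} (hk : k ≠ 0) : ctAf f k = f k := if_neg hk

theorem ctAf_mult {f : ℕ → ℂ} (h1 : f 1 = 1)
    (h : ∀ a b : ℕ, a ≠ 0 → b ≠ 0 → Nat.Coprime a b → f (a * b) = f a * f b) :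
    (ctAf f).IsMultiplicative := by
  rw [ArithmeticFunction.IsMultiplicative.iff_ne_zero]
  refine ⟨by rw [ctAf_apply f one_ne_zero, h1], fun {a b} ha hb hab => ?_⟩
  rw [ctAf_apply f (Nat.mul_ne_zero ha hb), ctAf_apply f ha, ctAf_apply f hb]
  exact h a b ha hb hab

theorem ct_al_one (lam : ℕ → ℂ) : al lam 1 = 1 := by
  unfold al
  rw [Nat.factorization_one, Finsupp.prod_zero_index]

theorem ct_al_pow (lam : ℕ → ℂ) {p : ℕ} (hp : p.Prime) (s : ℕ) :
    al lam (p ^ s) = sqr (invc fun i => lam (p ^ i)) s := by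
  unfold al
  rw [hp.factorization_pow]
  apply Finsupp.prod_single_index
  show sqr (invc fun i => lam (p ^ i)) 0 = 1
  unfold sqr
  rfl

/-- the full convolution -/
theorem ct_full (n : ℕ) (lam : ℕ → ℂ) (h : Temp n lam) (z z' : ℕ → ℝ) {r : ℕ} (hr : r ≠ 0) :
    ∑ x ∈ r.divisorsAntidiagonal, ∑ y ∈ x.1.divisorsAntidiagonal,
      lam y.1 * al lam y.2 * al lam x.2 * (zz z (r / x.2) * zz z' x.2 : ℝ) =
    r.factorization.prod fun p s => hz (fun i => lam (p ^ i)) (z p) (z' p) s := by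
  set A := ctAf fun m => lam m * (zz z m : ℂ) with hA
  set B := ctAf fun m => al lam m * (zz z m : ℂ) with hB
  set C := ctAf fun m => al lam m * (zz z' m : ℂ) with hC
  have mA : A.IsMultiplicative := by
    apply ctAf_mult
    · rw [h.one, ct_zz_one]
      norm_num
    · intro a b ha hb hab
      rw [h.mul a b hab, ct_zz_mul z ha hb]
      push_cast
      ring
  have mB : B.IsMultiplicative := by
    apply ctAf_mult
    · rw [ct_al_one, ct_zz_one]
      norm_num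
    · intro a b ha hb hab
      rw [al_mul lam a b hab, ct_zz_mul z ha hb]
      push_cast
      ring
  have mC : C.IsMultiplicative := by
    apply ctAf_mult
    · rw [ct_al_one, ct_zz_one]
      norm_num
    · intro a b ha hb hab
      rw [al_mul lam a b hab, ct_zz_mul z' ha hb]
      push_cast
      ring
  have m3 : ((A * B) * C).IsMultiplicative := (mA.mul mB).mul mC
  have e1 : ∑ x ∈ r.divisorsAntidiagonal, ∑ y ∈ x.1.divisorsAntidiagonal,
      lam y.1 * al lam y.2 * al lam x.2 * (zz z (r / x.2) * zz z' x.2 : ℝ) =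
      ((A * B) * C) r := by
    rw [ArithmeticFunction.mul_apply]
    refine Finset.sum_congr rfl fun x hx => ?_
    rw [ArithmeticFunction.mul_apply, Finset.sum_mul]
    refine Finset.sum_congr rfl fun y hy => ?_
    rw [Nat.mem_divisorsAntidiagonal] at hx hy
    have hx1 : x.1 ≠ 0 := fun h0 => hx.2 (by rw [← hx.1, h0, zero_mul])
    have hx2 : x.2 ≠ 0 := fun h0 => hx.2 (by rw [← hx.1, h0, mul_zero])
    have hy1 : y.1 ≠ 0 := fun h0 => hy.2 (by rw [← hy.1, h0, zero_mul])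
    have hy2 : y.2 ≠ 0 := fun h0 => hy.2 (by rw [← hy.1, h0, mul_zero])
    rw [hA, hB, hC, ctAf_apply _ hy1, ctAf_apply _ hy2, ctAf_apply _ hx2]
    have : r / x.2 = y.1 * y.2 := by
      rw [hy.1, ← hx.1, Nat.mul_div_cancel _ (Nat.pos_of_ne_zero hx2)]
    rw [this, ct_zz_mul z hy1 hy2]
    push_cast
    ring
  rw [e1, ArithmeticFunction.IsMultiplicative.multiplicative_factorization _ m3 hr]
  refine Finset.prod_congr rfl fun p hp => ?_
  have hpp : p.Prime := Nat.prime_of_mem_primeFactors hp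
  set s := r.factorization p with hs
  show ((A * B) * C) (p ^ s) = hz (fun i => lam (p ^ i)) (z p) (z' p) s
  rw [ArithmeticFunction.mul_apply, ct_conv_pow hpp s fun a b => (A * B) a * C b]
  unfold hz
  refine Finset.sum_congr rfl fun i _ => ?_
  rw [ArithmeticFunction.mul_apply, ct_conv_pow hpp i.1 fun a b => A a * B b]
  have hpn : ∀ t : ℕ, p ^ t ≠ 0 := fun t => pow_ne_zero _ hpp.ne_zero
  rw [hC, ctAf_apply _ (hpn _), ct_al_pow lam hpp, ct_zz_pow z' hpp]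
  have e2 : ∑ j ∈ Finset.HasAntidiagonal.antidiagonal i.1, A (p ^ j.1) * B (p ^ j.2) =
      bx (fun i => lam (p ^ i)) i.1 * (z p : ℂ) ^ i.1 := by
    unfold bx
    rw [Finset.sum_mul]
    refine Finset.sum_congr rfl fun j hj => ?_
    rw [hA, hB, ctAf_apply _ (hpn _), ctAf_apply _ (hpn _), ct_al_pow lam hpp, ct_zz_pow z hpp,
      ct_zz_pow z hpp, ← Finset.HasAntidiagonal.mem_antidiagonal.mp hj, pow_add]
    push_cast
    ring
  rw [e2]
  push_cast
  ring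

/-! ### the two cases -/

theorem ct_mem_SI {I : Finset ℕ} (hI : ∀ p ∈ I, p.Prime) {l k : ℕ}
    (hk : k ∈ Nat.factoredNumbers I) (hl : Ω k ≤ l) : k ∈ SI I l := by
  unfold SI
  rw [Finset.mem_filter, Finset.mem_range]
  refine ⟨?_, hk, hl⟩
  have hprod : ∀ p ∈ I, p ≤ ∏ q ∈ I, q := fun p hp =>
    Finset.single_le_prod' (fun q hq => (hI q hq).one_le) hp
  have h1 : k ≤ (∏ p ∈ I, p) ^ (Ω k) := by
    have e1 := Nat.prod_primeFactorsList hk.1
    rw [ArithmeticFunction.cardFactors_apply]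
    calc k = k.primeFactorsList.prod := e1.symm
      _ ≤ (∏ p ∈ I, p) ^ k.primeFactorsList.length := by
          apply List.prod_le_pow_card
          intro q hq
          exact hprod q (hk.2 q hq)
  have h2 : 1 ≤ ∏ p ∈ I, p := Finset.one_le_prod' fun p hp => (hI p hp).one_le
  have h3 : (∏ p ∈ I, p) ^ (Ω k) ≤ (∏ p ∈ I, p) ^ l := Nat.pow_le_pow_right h2 hl
  omega

theorem ct_low (n : ℕ) (lam : ℕ → ℂ) (h : Temp n lam) {I : Finset ℕ} (hI : ∀ p ∈ I, p.Prime)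
    (z z' : ℕ → ℝ) {l r : ℕ} (hr : r ∈ Nat.factoredNumbers I) (hl : Ω r ≤ l) :
    ub lam (SI I l) I z z' r =
      r.factorization.prod fun p s => hz (fun i => lam (p ^ i)) (z p) (z' p) s := by
  rw [← ct_full n lam h z z' hr.1]
  unfold ub
  classical
  rw [ct_sum (SI I l) I hr.1 fun m k k' =>
    lam m * al lam k * al lam k' * (zz z (r / k') * zz z' k' : ℝ)]
  refine Finset.sum_congr rfl fun x hx => Finset.sum_congr rfl fun y hy => ?_
  rw [Nat.mem_divisorsAntidiagonal] at hx hy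
  have hx1r : x.1 ∣ r := Dvd.intro _ hx.1
  have hx2r : x.2 ∣ r := Dvd.intro_left _ hx.1
  have hy1r : y.1 ∣ r := (Dvd.intro _ hy.1).trans hx1r
  have hy2r : y.2 ∣ r := (Dvd.intro_left _ hy.1).trans hx1r
  have key : ∀ d, d ∣ r → d ∈ SI I l := by
    intro d hd
    refine ct_mem_SI hI (Nat.mem_factoredNumbers_of_dvd hr hd) ?_
    obtain ⟨e, he⟩ := hd
    have hd0 : d ≠ 0 := fun h0 => hr.1 (by rw [he, h0, zero_mul])
    have he0 : e ≠ 0 := fun h0 => hr.1 (by rw [he, h0, mul_zero])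
    have : Ω r = Ω d + Ω e := by
      conv_lhs => rw [he]
      exact ArithmeticFunction.cardFactors_mul hd0 he0
    omega
  rw [if_pos ⟨Nat.mem_factoredNumbers_of_dvd hr hy1r, key _ hy2r, key _ hx2r⟩]

theorem ct_high (n : ℕ) (hn : 1 ≤ n) (lam : ℕ → ℂ) (h : Temp n lam) {I : Finset ℕ}
    (z z' : ℕ → ℝ) (hz : ∀ p ∈ I, 0 ≤ z' p ∧ z' p ≤ z p) (S : Finset ℕ) {r : ℕ}
    (hr : r ∈ Nat.factoredNumbers I) :
    ‖ub lam S I z z' r‖ ≤ zz z r * dn (3 * n) r := by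
  have hr0 : r ≠ 0 := hr.1
  have hr1 : 1 ≤ r := Nat.pos_of_ne_zero hr0
  have hdn : (∑ x ∈ r.divisorsAntidiagonal, ∑ y ∈ x.1.divisorsAntidiagonal,
      dn n y.1 * dn n y.2 * dn n x.2) = dn (3 * n) r := by
    have e1 : ∀ x ∈ r.divisorsAntidiagonal, ∑ y ∈ x.1.divisorsAntidiagonal,
        dn n y.1 * dn n y.2 * dn n x.2 = dn (n + n) x.1 * dn n x.2 := by
      intro x hx
      rw [Nat.mem_divisorsAntidiagonal] at hx
      have hx1 : x.1 ≠ 0 := fun h0 => hx.2 (by rw [← hx.1, h0, zero_mul])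
      rw [← Finset.sum_mul, Nat.sum_divisorsAntidiagonal (fun a b => dn n a * dn n b),
        dn_conv n n x.1 hn hn (Nat.pos_of_ne_zero hx1)]
    rw [Finset.sum_congr rfl e1, Nat.sum_divisorsAntidiagonal (fun a b => dn (n + n) a * dn n b),
      dn_conv (n + n) n r (by omega) hn hr1]
    congr 1
    ring
  have hdnR : (∑ x ∈ r.divisorsAntidiagonal, ∑ y ∈ x.1.divisorsAntidiagonal,
      (dn n y.1 * dn n y.2 * dn n x.2 : ℝ)) = dn (3 * n) r := by
    rw [← hdn]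
    push_cast
    rfl
  unfold ub
  classical
  rw [ct_sum S I hr.1 fun m k k' =>
    lam m * al lam k * al lam k' * (zz z (r / k') * zz z' k' : ℝ), ← hdnR, Finset.mul_sum]
  refine (norm_sum_le _ _).trans (Finset.sum_le_sum fun x hx => ?_)
  rw [Finset.mul_sum]
  refine (norm_sum_le _ _).trans (Finset.sum_le_sum fun y hy => ?_)
  rw [Nat.mem_divisorsAntidiagonal] at hx hy
  have hx1 : x.1 ≠ 0 := fun h0 => hx.2 (by rw [← hx.1, h0, zero_mul])
  have hx2 : x.2 ≠ 0 := fun h0 => hx.2 (by rw [← hx.1, h0, mul_zero])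
  have hy1 : y.1 ≠ 0 := fun h0 => hy.2 (by rw [← hy.1, h0, zero_mul])
  have hy2 : y.2 ≠ 0 := fun h0 => hy.2 (by rw [← hy.1, h0, mul_zero])
  have hx1I : x.1 ∈ Nat.factoredNumbers I := Nat.mem_factoredNumbers_of_dvd hr (Dvd.intro _ hx.1)
  have hx2I : x.2 ∈ Nat.factoredNumbers I :=
    Nat.mem_factoredNumbers_of_dvd hr (Dvd.intro_left _ hx.1)
  have hzI : ∀ p ∈ I, 0 ≤ z p := fun p hp => (hz p hp).1.trans (hz p hp).2
  have hz'I : ∀ p ∈ I, 0 ≤ z' p := fun p hp => (hz p hp).1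
  have hzr : 0 ≤ zz z r := ct_zz_nonneg hzI hr
  split_ifs with hc
  · have e1 : r / x.2 = x.1 := by
      rw [← hx.1, Nat.mul_div_cancel _ (Nat.pos_of_ne_zero hx2)]
    have e2 : zz z r = zz z x.1 * zz z x.2 := by rw [← hx.1, ct_zz_mul z hx1 hx2]
    have b1 := (temp_bound n hn lam h y.1 (Nat.pos_of_ne_zero hy1)).1
    have b2 := (temp_bound n hn lam h y.2 (Nat.pos_of_ne_zero hy2)).2
    have b3 := (temp_bound n hn lam h x.2 (Nat.pos_of_ne_zero hx2)).2
    have b4 : zz z' x.2 ≤ zz z x.2 := ct_zz_mono hz hx2I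
    have b5 : 0 ≤ zz z' x.2 := ct_zz_nonneg hz'I hx2I
    have b6 : 0 ≤ zz z x.1 := ct_zz_nonneg hzI hx1I
    rw [e1, norm_mul, norm_mul, norm_mul, Complex.norm_real, Real.norm_of_nonneg
      (mul_nonneg b6 b5), e2]
    have c1 : ‖lam y.1‖ * ‖al lam y.2‖ * ‖al lam x.2‖ ≤ (dn n y.1 * dn n y.2 * dn n x.2 : ℝ) :=
      mul_le_mul (mul_le_mul b1 b2 (norm_nonneg _) (by positivity)) b3 (norm_nonneg _)
        (by positivity)
    have c2 : zz z x.1 * zz z' x.2 ≤ zz z x.1 * zz z x.2 := mul_le_mul_of_nonneg_left b4 b6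
    calc ‖lam y.1‖ * ‖al lam y.2‖ * ‖al lam x.2‖ * (zz z x.1 * zz z' x.2)
        ≤ (dn n y.1 * dn n y.2 * dn n x.2 : ℝ) * (zz z x.1 * zz z x.2) :=
          mul_le_mul c1 c2 (mul_nonneg b6 b5) (by positivity)
      _ = zz z x.1 * zz z x.2 * (dn n y.1 * dn n y.2 * dn n x.2 : ℝ) := by ring
  · rw [norm_zero]
    positivity

/-- the local sums -/
theorem ct_local (n : ℕ) (hn : 1 ≤ n) (r₀ : ℝ) (hr0 : r₀ < 1) : ∃ C₁ : ℝ, 0 < C₁ ∧
    ∀ (x : ℕ → ℂ), x 0 = 1 → (∀ j : ℕ, ‖x j‖ ≤ Nat.choose (j + n - 1) j) →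
    (∀ k : ℕ, n < k → invc x k = 0) → ∀ (z z' : ℝ), 0 ≤ z' → z' ≤ z → z ≤ r₀ → ∀ s : ℕ,
      ∑ i ∈ Finset.Icc 1 s, ‖hz x z z' i‖ ^ 2 ≤ C₁ * (z - z') ^ 2 := by
  set r := max r₀ (1 / 2) with hr
  have hrpos : 0 < r := lt_of_lt_of_le (by norm_num) (le_max_right _ _)
  have hr1 : r < 1 := max_lt hr0 (by norm_num)
  set q := r ^ 2 with hq
  have hqpos : 0 < q := by positivity
  have hq1 : q < 1 := by
    rw [hq]
    nlinarith
  have hsum : Summable fun s : ℕ => (s : ℝ) ^ (4 * n) * q ^ s :=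
    summable_pow_mul_geometric_of_norm_lt_one (4 * n) (by rw [Real.norm_of_nonneg hqpos.le]; exact hq1)
  set K : ℝ := (2 * n : ℝ) ^ (4 * n - 2) / q with hK
  have hKpos : 0 ≤ K := by positivity
  refine ⟨K * (∑' s : ℕ, (s : ℝ) ^ (4 * n) * q ^ s) + 1, ?_, ?_⟩
  · have : 0 ≤ ∑' s : ℕ, (s : ℝ) ^ (4 * n) * q ^ s := tsum_nonneg fun s => by positivity
    positivity
  intro x h0 hb hv z z' h1 h2 h3 s
  have hz0 : 0 ≤ z := h1.trans h2
  have hzr : z ≤ r := h3.trans (le_max_left _ _)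
  have key : ∀ i ∈ Finset.Icc 1 s, ‖hz x z z' i‖ ^ 2 ≤
      (z - z') ^ 2 * (K * ((i : ℝ) ^ (4 * n) * q ^ i)) := by
    intro i hi
    have hi1 : 1 ≤ i := (Finset.mem_Icc.mp hi).1
    have b1 := hz_bound n hn x h0 hb hv z z' h1 h2 i hi1
    have b2 : (Nat.choose (i + 2 * n - 1) i : ℝ) ≤ (2 * n * i : ℝ) ^ (2 * n - 1) := by
      have e1 : Nat.choose (i + 2 * n - 1) i = Nat.choose (i + 2 * n - 1) (2 * n - 1) :=
        Nat.choose_symm_of_eq_add (by omega)
      have e2 : Nat.choose (i + 2 * n - 1) (2 * n - 1) ≤ (i + 2 * n - 1) ^ (2 * n - 1) :=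
        Nat.choose_le_pow _ _
      have e3 : i + 2 * n - 1 ≤ 2 * n * i := by
        obtain ⟨j, rfl⟩ : ∃ j, i = j + 1 := ⟨i - 1, by omega⟩
        have : j ≤ 2 * n * j := Nat.le_mul_of_pos_left _ (by omega)
        rw [Nat.mul_add]
        omega
      rw [e1]
      calc (Nat.choose (i + 2 * n - 1) (2 * n - 1) : ℝ) ≤ (((i + 2 * n - 1) ^ (2 * n - 1) : ℕ) : ℝ) := by
            exact_mod_cast e2
        _ ≤ ((2 * n * i) ^ (2 * n - 1) : ℕ) := by
            exact_mod_cast Nat.pow_le_pow_left e3 _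
        _ = (2 * n * i : ℝ) ^ (2 * n - 1) := by push_cast; ring
    have b3 : z ^ (i - 1) ≤ r ^ (i - 1) := pow_le_pow_left₀ hz0 hzr _
    have hd : 0 ≤ z - z' := sub_nonneg.mpr h2
    have b4 : ‖hz x z z' i‖ ≤ (z - z') * (i * r ^ (i - 1) * (2 * n * i : ℝ) ^ (2 * n - 1)) := by
      calc ‖hz x z z' i‖ ≤ (z - z') * i * z ^ (i - 1) * Nat.choose (i + 2 * n - 1) i := b1
        _ ≤ (z - z') * i * r ^ (i - 1) * (2 * n * i : ℝ) ^ (2 * n - 1) := by
            apply mul_le_mul _ b2 (by positivity) (by positivity)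
            exact mul_le_mul_of_nonneg_left b3 (by positivity)
        _ = _ := by ring
    calc ‖hz x z z' i‖ ^ 2 ≤ ((z - z') * (i * r ^ (i - 1) * (2 * n * i : ℝ) ^ (2 * n - 1))) ^ 2 :=
          pow_le_pow_left₀ (norm_nonneg _) b4 2
      _ = (z - z') ^ 2 * (K * ((i : ℝ) ^ (4 * n) * q ^ i)) := by
          obtain ⟨j, rfl⟩ : ∃ j, i = j + 1 := ⟨i - 1, by omega⟩
          obtain ⟨m, rfl⟩ : ∃ m, n = m + 1 := ⟨n - 1, by omega⟩
          rw [hK, hq]
          have a1 : 2 * (m + 1) - 1 = 2 * m + 1 := by omega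
          have a2 : 4 * (m + 1) - 2 = 4 * m + 2 := by omega
          have a3 : 4 * (m + 1) = 4 * m + 4 := by omega
          have a4 : j + 1 - 1 = j := by omega
          rw [a1, a2, a3, a4]
          field_simp
          ring
  calc ∑ i ∈ Finset.Icc 1 s, ‖hz x z z' i‖ ^ 2
      ≤ ∑ i ∈ Finset.Icc 1 s, (z - z') ^ 2 * (K * ((i : ℝ) ^ (4 * n) * q ^ i)) :=
        Finset.sum_le_sum key
    _ = (z - z') ^ 2 * (K * ∑ i ∈ Finset.Icc 1 s, ((i : ℝ) ^ (4 * n) * q ^ i)) := by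
        rw [← Finset.mul_sum, ← Finset.mul_sum]
    _ ≤ (z - z') ^ 2 * (K * ∑' i : ℕ, ((i : ℝ) ^ (4 * n) * q ^ i)) := by
        apply mul_le_mul_of_nonneg_left _ (sq_nonneg _)
        apply mul_le_mul_of_nonneg_left _ hKpos
        exact hsum.sum_le_tsum _ fun i _ => by positivity
    _ ≤ (K * (∑' s : ℕ, (s : ℝ) ^ (4 * n) * q ^ s) + 1) * (z - z') ^ 2 := by
        have := sq_nonneg (z - z')
        nlinarith

theorem block_bound (n : ℕ) (hn : 1 ≤ n) (ρ r₀ r₁ : ℝ) (hρ : 1 ≤ ρ) (hr0 : r₀ < 1)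
    (hr : r₁ < 1) : ∃ C : ℝ, 0 < C ∧ ∀ (I : Finset ℕ) (z z' : ℕ → ℝ), (∀ p ∈ I, p.Prime) →
    (∀ p ∈ I, 0 ≤ z' p ∧ z' p ≤ z p ∧ z p ≤ r₀ ∧ ρ * z p ^ 2 ≤ r₁) →
    ∀ (lam : ℕ → ℂ), Temp n lam → ∀ (l : ℕ) (R : Finset ℕ),
    (∀ k ∈ R, k ∈ Nat.factoredNumbers I ∧ k ≠ 1) →
      ∑ k ∈ R, ‖ub lam (SI I l) I z z' k‖ ^ 2 ≤
        Real.exp (C * ∑ p ∈ I, (z p - z' p) ^ 2) - 1 +
          ρ ^ (-(l : ℝ)) * Real.exp (C * ∑ p ∈ I, z p ^ 2) := by
  obtain ⟨C₁, hC1, hloc⟩ := ct_local n hn r₀ hr0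
  obtain ⟨C₂, hC2, hran⟩ := rankin (3 * n) ρ r₁ hρ hr
  refine ⟨max C₁ C₂, lt_of_lt_of_le hC1 (le_max_left _ _), ?_⟩
  intro I z z' hI hzz lam hT l R hR
  have hz1 : ∀ p ∈ I, 0 ≤ z' p ∧ z' p ≤ z p := fun p hp => ⟨(hzz p hp).1, (hzz p hp).2.1⟩
  have hρ0 : 0 < ρ := lt_of_lt_of_le one_pos hρ
  rw [← Finset.sum_filter_add_sum_filter_not R (fun k => Ω k ≤ l)]
  apply add_le_add
  · -- at most `l` prime factors
    have e1 : ∑ k ∈ R.filter (fun k => Ω k ≤ l), ‖ub lam (SI I l) I z z' k‖ ^ 2 =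
        ∑ k ∈ R.filter (fun k => Ω k ≤ l), k.factorization.prod fun p s =>
          ‖hz (fun i => lam (p ^ i)) (z p) (z' p) s‖ ^ 2 := by
      refine Finset.sum_congr rfl fun k hk => ?_
      rw [Finset.mem_filter] at hk
      rw [ct_low n lam hT hI z z' (hR k hk.1).1 hk.2]
      unfold Finsupp.prod
      rw [norm_prod, ← Finset.prod_pow]
    rw [e1]
    have e2 := euler_ineq I hI (fun p s => ‖hz (fun i => lam (p ^ i)) (z p) (z' p) s‖ ^ 2)
      (fun p s => sq_nonneg _) (fun p => C₁ * (z p - z' p) ^ 2) (fun p hp s => by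
        have hp' := hI p hp
        exact hloc (fun i => lam (p ^ i)) (by simpa using hT.one) (fun j => hT.bdd p hp' j)
          (fun k hk => hT.inv p hp' k hk) (z p) (z' p) (hzz p hp).1 (hzz p hp).2.1
          (hzz p hp).2.2.1 s) (R.filter (fun k => Ω k ≤ l))
      (fun k hk => hR k (Finset.mem_filter.mp hk).1)
    refine e2.trans ?_
    apply sub_le_sub_right
    apply Real.exp_le_exp.mpr
    rw [← Finset.mul_sum]
    exact mul_le_mul_of_nonneg_right (le_max_left _ _) (Finset.sum_nonneg fun p _ => sq_nonneg _)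
  · -- more than `l` prime factors
    have e1 : ∀ k ∈ R.filter (fun k => ¬ Ω k ≤ l), ‖ub lam (SI I l) I z z' k‖ ^ 2 ≤
        ρ ^ (-(l : ℝ)) * (ρ ^ (Ω k) * (dn (3 * n) k : ℝ) ^ 2 * zz (fun p => z p ^ 2) k) := by
      intro k hk
      rw [Finset.mem_filter] at hk
      have hkI := (hR k hk.1).1
      have b1 := ct_high n hn lam hT z z' hz1 (SI I l) hkI
      have b2 : (1 : ℝ) ≤ ρ ^ (-(l : ℝ)) * ρ ^ (Ω k) := by
        rw [← Real.rpow_natCast ρ (Ω k), ← Real.rpow_add hρ0]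
        apply Real.one_le_rpow hρ
        have : (l : ℝ) ≤ (Ω k : ℝ) := by
          have := hk.2
          exact_mod_cast (by omega : l ≤ Ω k)
        linarith
      have b3 : 0 ≤ (dn (3 * n) k : ℝ) ^ 2 * zz z k ^ 2 := by positivity
      calc ‖ub lam (SI I l) I z z' k‖ ^ 2 ≤ (zz z k * dn (3 * n) k) ^ 2 :=
            pow_le_pow_left₀ (norm_nonneg _) b1 2
        _ = 1 * ((dn (3 * n) k : ℝ) ^ 2 * zz z k ^ 2) := by ring
        _ ≤ (ρ ^ (-(l : ℝ)) * ρ ^ (Ω k)) * ((dn (3 * n) k : ℝ) ^ 2 * zz z k ^ 2) :=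
            mul_le_mul_of_nonneg_right b2 b3
        _ = _ := by rw [ct_zz_sq]; ring
    refine (Finset.sum_le_sum e1).trans ?_
    rw [← Finset.mul_sum]
    apply mul_le_mul_of_nonneg_left _ (Real.rpow_nonneg hρ0.le _)
    refine (hran I (fun p => z p ^ 2) hI (fun p hp => ⟨sq_nonneg _, (hzz p hp).2.2.2⟩)
      (R.filter (fun k => ¬ Ω k ≤ l)) (fun k hk => (hR k (Finset.mem_filter.mp hk).1).1)).trans ?_
    apply Real.exp_le_exp.mpr
    exact mul_le_mul_of_nonneg_right (le_max_right _ _) (Finset.sum_nonneg fun p _ => sq_nonneg _)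

theorem ub_one (lam : ℕ → ℂ) (h1 : lam 1 = 1) (S P : Finset ℕ) (z z' : ℕ → ℝ) (h : 1 ∈ S) :
    ub lam S P z z' 1 = 1 := by
  unfold ub
  classical
  rw [ct_sum S P one_ne_zero fun m k k' =>
    lam m * al lam k * al lam k' * (zz z (1 / k') * zz z' k' : ℝ)]
  rw [Nat.divisorsAntidiagonal_one, Finset.sum_singleton]
  simp only [Nat.divisorsAntidiagonal_one, Finset.sum_singleton]
  have h2 : 1 ∈ Nat.factoredNumbers P :=
    ⟨one_ne_zero, fun p hp => by simp at hp⟩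
  rw [if_pos ⟨h2, h, h⟩, h1, ct_al_one, Nat.div_one, ct_zz_one, ct_zz_one]
  norm_num

end

end Pool.Agent.SGN
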