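import Pool.Agent.Lib_helper84.SGN.DefsM
import Pool.Agent.Lib_helper84.SGCF.CP
import Pool.Agent.Lib_helper84.SGCF.CT

set_option autoImplicit false

namespace Pool.Agent.SGN

open MeasureTheory Matrix Complex ProbabilityTheory
open scoped ArithmeticFunction.Omega ENNReal

noncomputable section

lemma cu_fn_mul {P P' : Finset ℕ} {a b : ℕ} (ha : a ∈ Nat.factoredNumbers P)
    (hb : b ∈ Nat.factoredNumbers P') : a * b ∈ Nat.factoredNumbers (P ∪ P') := by
  rw [Nat.mem_factoredNumbers'] at ha hb ⊢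
  intro p hp hd
  rcases (Nat.Prime.dvd_mul hp).1 hd with h | h
  · exact Finset.mem_union_left _ (ha p hp h)
  · exact Finset.mem_union_right _ (hb p hp h)

lemma cu_cop {P P' : Finset ℕ} (hd : Disjoint P P') {a b : ℕ} (ha : a ∈ Nat.factoredNumbers P)
    (hb : b ∈ Nat.factoredNumbers P') : Nat.Coprime a b := by
  rw [Nat.mem_factoredNumbers'] at ha hb
  by_contra h
  obtain ⟨p, hp, h1, h2⟩ := Nat.Prime.not_coprime_iff_dvd.1 h
  exact Finset.disjoint_left.1 hd (ha p hp h1) (hb p hp h2)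

lemma cu_inj {P P' : Finset ℕ} (hd : Disjoint P P') {a b a' b' : ℕ}
    (ha : a ∈ Nat.factoredNumbers P) (hb : b ∈ Nat.factoredNumbers P')
    (ha' : a' ∈ Nat.factoredNumbers P) (hb' : b' ∈ Nat.factoredNumbers P')
    (h : a * b = a' * b') : a = a' ∧ b = b' := by
  have h1 : a ∣ a' := (cu_cop hd ha hb').dvd_of_dvd_mul_right (h ▸ Dvd.intro _ rfl)
  have h2 : a' ∣ a := (cu_cop hd ha' hb).dvd_of_dvd_mul_right (h ▸ Dvd.intro _ rfl)
  have h3 : a = a' := Nat.dvd_antisymm h1 h2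
  subst h3
  exact ⟨rfl, Nat.eq_of_mul_eq_mul_left
    (Nat.pos_of_ne_zero (Nat.ne_zero_of_mem_factoredNumbers ha)) h⟩

lemma cu_sum_SM {A : Type*} [AddCommMonoid A] {P P' : Finset ℕ} (hd : Disjoint P P')
    (S S' : Finset ℕ) (hS : ∀ k ∈ S, k ∈ Nat.factoredNumbers P)
    (hS' : ∀ k ∈ S', k ∈ Nat.factoredNumbers P') (F : ℕ → A) :
    ∑ k ∈ SM S S', F k = ∑ a ∈ S, ∑ b ∈ S', F (a * b) := by
  unfold SM Finset.image₂
  rw [Finset.sum_image, Finset.sum_product]
  · rfl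
  · rintro ⟨a, b⟩ h1 ⟨a', b'⟩ h2 h
    simp only [Finset.coe_product, Set.mem_prod, Finset.mem_coe] at h1 h2
    have := cu_inj hd (hS a h1.1) (hS' b h1.2) (hS a' h2.1) (hS' b' h2.2) h
    rw [Prod.mk.injEq]
    exact this

lemma cu_zz (z : ℕ → ℝ) {a b : ℕ} (ha : a ≠ 0) (hb : b ≠ 0) : zz z (a * b) = zz z a * zz z b := by
  unfold zz
  rw [Nat.factorization_mul ha hb]
  exact Finsupp.prod_add_index' (fun _ => pow_zero _) (fun _ _ _ => pow_add _ _ _)

lemma cu_ub_mul (lam : ℕ → ℂ) (hm : ∀ m m' : ℕ, Nat.Coprime m m' → lam (m * m') = lam m * lam m')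
    (P P' S S' : Finset ℕ)
    (hd : Disjoint P P') (hS : ∀ k ∈ S, k ∈ Nat.factoredNumbers P)
    (hS' : ∀ k ∈ S', k ∈ Nat.factoredNumbers P') (z z' : ℕ → ℝ) (r r' : ℕ)
    (hr : r ∈ Nat.factoredNumbers P) (hr' : r' ∈ Nat.factoredNumbers P') :
    ub lam (SM S S') (P ∪ P') z z' (r * r') = ub lam S P z z' r * ub lam S' P' z z' r' := by
  classical
  unfold ub
  rw [cu_sum_SM hd S S' hS hS']
  simp_rw [cu_sum_SM hd S S' hS hS']
  rw [Finset.sum_mul_sum]
  refine Finset.sum_congr rfl fun a ha => Finset.sum_congr rfl fun b hb => ?_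
  rw [Finset.sum_mul_sum]
  refine Finset.sum_congr rfl fun a' ha' => Finset.sum_congr rfl fun b' hb' => ?_
  have fa := hS a ha
  have fa' := hS a' ha'
  have fb := hS' b hb
  have fb' := hS' b' hb'
  have faa : a * a' ∈ Nat.factoredNumbers P := Nat.mul_mem_factoredNumbers fa fa'
  have fbb : b * b' ∈ Nat.factoredNumbers P' := Nat.mul_mem_factoredNumbers fb fb'
  have e1 : a * b * (a' * b') = (a * a') * (b * b') := by ring
  rw [e1]
  have hdv : (a * a') * (b * b') ∣ r * r' ↔ a * a' ∣ r ∧ b * b' ∣ r' := by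
    constructor
    · intro h
      exact ⟨(cu_cop hd faa hr').dvd_of_dvd_mul_right ((Dvd.intro _ rfl).trans h),
        (cu_cop hd hr fbb).symm.dvd_of_dvd_mul_left ((Dvd.intro_left _ rfl).trans h)⟩
    · rintro ⟨h1, h2⟩
      exact Nat.mul_dvd_mul h1 h2
  by_cases h1 : a * a' ∣ r
  · by_cases h2 : b * b' ∣ r'
    · have f1 : r / (a * a') ∈ Nat.factoredNumbers P :=
        Nat.mem_factoredNumbers_of_dvd hr (Nat.div_dvd_of_dvd h1)
      have f2 : r' / (b * b') ∈ Nat.factoredNumbers P' :=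
        Nat.mem_factoredNumbers_of_dvd hr' (Nat.div_dvd_of_dvd h2)
      have e2 : r * r' / ((a * a') * (b * b')) = (r / (a * a')) * (r' / (b * b')) :=
        (Nat.div_mul_div_comm h1 h2).symm
      have h3 : a' ∣ r := (Dvd.intro_left _ rfl).trans h1
      have h4 : b' ∣ r' := (Dvd.intro_left _ rfl).trans h2
      have e3 : r * r' / (a' * b') = (r / a') * (r' / b') := (Nat.div_mul_div_comm h3 h4).symm
      rw [if_pos ⟨hdv.2 ⟨h1, h2⟩, e2 ▸ cu_fn_mul f1 f2⟩, if_pos ⟨h1, f1⟩, if_pos ⟨h2, f2⟩, e2, e3]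
      have f3 : r / a' ∈ Nat.factoredNumbers P :=
        Nat.mem_factoredNumbers_of_dvd hr (Nat.div_dvd_of_dvd h3)
      have f4 : r' / b' ∈ Nat.factoredNumbers P' :=
        Nat.mem_factoredNumbers_of_dvd hr' (Nat.div_dvd_of_dvd h4)
      rw [hm _ _ (cu_cop hd f1 f2), al_mul lam a b (cu_cop hd fa fb),
        al_mul lam a' b' (cu_cop hd fa' fb'),
        cu_zz z (Nat.ne_zero_of_mem_factoredNumbers f3) (Nat.ne_zero_of_mem_factoredNumbers f4),
        cu_zz z' (Nat.ne_zero_of_mem_factoredNumbers fa')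
          (Nat.ne_zero_of_mem_factoredNumbers fb')]
      push_cast
      ring
    · rw [if_neg (fun h => h2 (hdv.1 h.1).2), if_neg (fun h : b * b' ∣ r' ∧ _ => h2 h.1), mul_zero]
  · rw [if_neg (fun h => h1 (hdv.1 h.1).1), if_neg (fun h : a * a' ∣ r ∧ _ => h1 h.1), zero_mul]

theorem ub_mul (lam : ℕ → ℂ)
    (hm : ∀ m m' : ℕ, Nat.Coprime m m' → lam (m * m') = lam m * lam m')
    (P P' S S' : Finset ℕ) (hP : ∀ p ∈ P, p.Prime) (hP' : ∀ p ∈ P', p.Prime)
    (hd : Disjoint P P') (hS : ∀ k ∈ S, k ∈ Nat.factoredNumbers P)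
    (hS' : ∀ k ∈ S', k ∈ Nat.factoredNumbers P') (z z' : ℕ → ℝ) (r r' : ℕ)
    (hr : r ∈ Nat.factoredNumbers P) (hr' : r' ∈ Nat.factoredNumbers P') :
    ub lam (SM S S') (P ∪ P') z z' (r * r') = ub lam S P z z' r * ub lam S' P' z z' r' :=
  cu_ub_mul lam hm P P' S S' hd hS hS' z z' r r' hr hr'


/-! ### the list -/

lemma cu_split {P P' : Finset ℕ} (k : ℕ) (hk : k ∈ Nat.factoredNumbers (P ∪ P')) :
    ∃ a b : ℕ, a ∈ Nat.factoredNumbers P ∧ b ∈ Nat.factoredNumbers P' ∧ a * b = k := by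
  induction k using induction_on_primes with
  | zero => exact absurd rfl (Nat.ne_zero_of_mem_factoredNumbers hk)
  | one => exact ⟨1, 1, by rw [Nat.mem_factoredNumbers']; intro p hp h; exact absurd h (by simpa using hp.ne_one), by rw [Nat.mem_factoredNumbers']; intro p hp h; exact absurd h (by simpa using hp.ne_one), rfl⟩
  | prime_mul p m hp ih =>
    obtain ⟨a, b, ha, hb, h⟩ := ih (Nat.mem_factoredNumbers_of_dvd hk (Dvd.intro_left _ rfl))
    have hpm : p ∈ P ∪ P' := (Nat.mem_factoredNumbers'.1 hk) p hp (Dvd.intro _ rfl)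
    rcases Finset.mem_union.1 hpm with h1 | h1
    · refine ⟨p * a, b, Nat.mul_mem_factoredNumbers ?_ ha, hb, by rw [mul_assoc, h]⟩
      rw [Nat.mem_factoredNumbers']
      intro l hl hd
      rwa [(Nat.prime_dvd_prime_iff_eq hl hp).1 hd]
    · refine ⟨a, p * b, ha, Nat.mul_mem_factoredNumbers ?_ hb, by rw [← h]; ring⟩
      rw [Nat.mem_factoredNumbers']
      intro l hl hd
      rwa [(Nat.prime_dvd_prime_iff_eq hl hp).1 hd]

lemma cu_sum_le {P P' : Finset ℕ} (hd : Disjoint P P') (R : Finset ℕ)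
    (hR : ∀ k ∈ R, k ∈ Nat.factoredNumbers (P ∪ P')) (F : ℕ → ℝ) (hF : ∀ k, 0 ≤ F k) :
    ∃ R1 R2 : Finset ℕ, (∀ k ∈ R1, k ∈ Nat.factoredNumbers P) ∧
      (∀ k ∈ R2, k ∈ Nat.factoredNumbers P') ∧
      ∑ k ∈ R, F k ≤ ∑ a ∈ R1, ∑ b ∈ R2, F (a * b) := by
  classical
  choose! f g hf hg hfg using fun k hk => cu_split (P := P) (P' := P') k hk
  have h1 : ∀ k ∈ R.image f, k ∈ Nat.factoredNumbers P := by
    intro k hk
    obtain ⟨j, hj, rfl⟩ := Finset.mem_image.1 hk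
    exact hf j (hR j hj)
  have h2 : ∀ k ∈ R.image g, k ∈ Nat.factoredNumbers P' := by
    intro k hk
    obtain ⟨j, hj, rfl⟩ := Finset.mem_image.1 hk
    exact hg j (hR j hj)
  refine ⟨R.image f, R.image g, h1, h2, ?_⟩
  rw [← cu_sum_SM hd _ _ h1 h2]
  refine Finset.sum_le_sum_of_subset_of_nonneg ?_ fun k _ _ => hF k
  intro k hk
  unfold SM
  rw [Finset.mem_image₂]
  exact ⟨f k, Finset.mem_image_of_mem _ hk, g k, Finset.mem_image_of_mem _ hk, hfg k (hR k hk)⟩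

lemma cu_one_SI (I : Finset ℕ) (l : ℕ) (hI : ∀ p ∈ I, p.Prime) : 1 ∈ SI I l := by
  classical
  unfold SI
  rw [Finset.mem_filter, Finset.mem_range]
  refine ⟨?_, ?_, ?_⟩
  · have : 1 ≤ (∏ p ∈ I, p) ^ l := Nat.one_le_pow _ _ (Finset.prod_pos fun p hp => (hI p hp).pos)
    omega
  · rw [Nat.mem_factoredNumbers']
    intro p hp h
    exact absurd h (by simpa using hp.ne_one)
  · simp

lemma cu_SI_fn (I : Finset ℕ) (l : ℕ) : ∀ k ∈ SI I l, k ∈ Nat.factoredNumbers I := by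
  classical
  intro k hk
  unfold SI at hk
  exact (Finset.mem_filter.1 hk).2.1

lemma cu_SL_fn (Bs : List (Finset ℕ × ℕ)) : ∀ k ∈ SL Bs, k ∈ Nat.factoredNumbers (PL Bs) := by
  classical
  induction Bs with
  | nil =>
    intro k hk
    simp only [SL, Finset.mem_singleton] at hk
    subst hk
    rw [Nat.mem_factoredNumbers']
    intro p hp h
    exact absurd h (by simpa using hp.ne_one)
  | cons B l ih =>
    intro k hk
    simp only [SL, SM, Finset.mem_image₂] at hk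
    obtain ⟨a, ha, b, hb, rfl⟩ := hk
    exact cu_fn_mul (cu_SI_fn _ _ a ha) (ih b hb)

lemma cu_PL_disj (I : Finset ℕ) (l : List (Finset ℕ × ℕ)) (h : ∀ B ∈ l, Disjoint I B.1) :
    Disjoint I (PL l) := by
  classical
  induction l with
  | nil => simp [PL]
  | cons B l ih =>
    simp only [PL]
    rw [Finset.disjoint_union_right]
    exact ⟨h B (by simp), ih fun B' hB' => h B' (by simp [hB'])⟩

theorem ub_list (lam : ℕ → ℂ) (h1 : lam 1 = 1)
    (hm : ∀ m m' : ℕ, Nat.Coprime m m' → lam (m * m') = lam m * lam m')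
    (Bs : List (Finset ℕ × ℕ)) (hB : ∀ B ∈ Bs, ∀ p ∈ B.1, p.Prime)
    (hd : Bs.Pairwise fun B B' => Disjoint B.1 B'.1) (z z' : ℕ → ℝ) (e : Finset ℕ × ℕ → ℝ)
    (he : ∀ B ∈ Bs, ∀ R : Finset ℕ, (∀ k ∈ R, k ∈ Nat.factoredNumbers B.1 ∧ k ≠ 1) →
      ∑ k ∈ R, ‖ub lam (SI B.1 B.2) B.1 z z' k‖ ^ 2 ≤ e B) (R : Finset ℕ)
    (hR : ∀ k ∈ R, k ∈ Nat.factoredNumbers (PL Bs)) :
    ∑ k ∈ R, ‖ub lam (SL Bs) (PL Bs) z z' k‖ ^ 2 ≤ (Bs.map fun B => 1 + e B).prod := by
  classical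
  induction Bs generalizing R with
  | nil =>
    simp only [PL, Nat.factoredNumbers_empty, Set.mem_singleton_iff] at hR
    have h2 : ub lam (SL []) (PL []) z z' 1 = 1 := ub_one lam h1 _ _ _ _ (by simp [SL])
    have h3 : R ⊆ {1} := fun k hk => by simpa using hR k hk
    refine (Finset.sum_le_sum_of_subset_of_nonneg h3 fun _ _ _ => by positivity).trans ?_
    rw [Finset.sum_singleton, h2]
    simp
  | cons B l ih =>
    have hdis : Disjoint B.1 (PL l) := cu_PL_disj B.1 l (List.pairwise_cons.1 hd).1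
    obtain ⟨R1, R2, hR1, hR2, hle⟩ := cu_sum_le hdis R hR
      (fun k => ‖ub lam (SL (B :: l)) (PL (B :: l)) z z' k‖ ^ 2) (fun k => by positivity)
    refine hle.trans ?_
    have e1 : ∀ a ∈ R1, ∀ b ∈ R2, ‖ub lam (SL (B :: l)) (PL (B :: l)) z z' (a * b)‖ ^ 2 =
        ‖ub lam (SI B.1 B.2) B.1 z z' a‖ ^ 2 * ‖ub lam (SL l) (PL l) z z' b‖ ^ 2 := by
      intro a ha b hb
      simp only [SL, PL]
      rw [cu_ub_mul lam hm B.1 (PL l) (SI B.1 B.2) (SL l) hdis (cu_SI_fn _ _) (cu_SL_fn l) z z' a b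
        (hR1 a ha) (hR2 b hb), norm_mul, mul_pow]
    rw [Finset.sum_congr rfl fun a ha => Finset.sum_congr rfl fun b hb => e1 a ha b hb,
      ← Finset.sum_mul_sum, List.map_cons, List.prod_cons]
    have h0 : 0 ≤ e B := by
      have := he B (by simp) ∅ (by simp)
      simpa using this
    have i1 : ∑ a ∈ R1, ‖ub lam (SI B.1 B.2) B.1 z z' a‖ ^ 2 ≤ 1 + e B := by
      have h2 : ub lam (SI B.1 B.2) B.1 z z' 1 = 1 :=
        ub_one lam h1 _ _ _ _ (cu_one_SI B.1 B.2 (hB B (by simp)))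
      have h3 : R1 ⊆ insert 1 (R1.erase 1) := by
        intro k hk
        by_cases hk1 : k = 1
        · simp [hk1]
        · simp [hk1, hk]
      refine (Finset.sum_le_sum_of_subset_of_nonneg h3 fun _ _ _ => by positivity).trans ?_
      rw [Finset.sum_insert (by simp), h2]
      have := he B (by simp) (R1.erase 1) fun k hk => by
        rw [Finset.mem_erase] at hk
        exact ⟨hR1 k hk.2, hk.1⟩
      simpa using this
    have i2 := ih (fun B' hB' => hB B' (by simp [hB'])) (List.pairwise_cons.1 hd).2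
      (fun B' hB' => he B' (by simp [hB'])) R2 hR2
    exact mul_le_mul i1 i2 (Finset.sum_nonneg fun _ _ => by positivity) (by linarith)


lemma cu_le_pow (I : Finset ℕ) (y : ℝ) (hy : 1 ≤ y) (h : ∀ p ∈ I, (p : ℝ) ≤ y) (k : ℕ)
    (hk : k ∈ Nat.factoredNumbers I) : (k : ℝ) ≤ y ^ (Ω k) := by
  induction k using induction_on_primes with
  | zero => exact absurd rfl (Nat.ne_zero_of_mem_factoredNumbers hk)
  | one => simp
  | prime_mul p m hp ih =>
    have hm := Nat.mem_factoredNumbers_of_dvd hk (Dvd.intro_left p rfl)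
    have hm0 := Nat.ne_zero_of_mem_factoredNumbers hm
    have i1 := ih hm
    have hpI : p ∈ I := (Nat.mem_factoredNumbers'.1 hk) p hp (Dvd.intro _ rfl)
    rw [ArithmeticFunction.cardFactors_mul hp.ne_zero hm0,
      ArithmeticFunction.cardFactors_apply_prime hp, pow_add, pow_one, Nat.cast_mul]
    exact mul_le_mul (h p hpI) i1 (by positivity) (by linarith)

theorem SL_props (Bs : List (Finset ℕ × ℕ)) (hB : ∀ B ∈ Bs, ∀ p ∈ B.1, p.Prime) (ym : List ℝ)
    (hy : List.Forall₂ (fun (B : Finset ℕ × ℕ) (y : ℝ) => 1 ≤ y ∧ ∀ p ∈ B.1, (p : ℝ) ≤ y) Bs ym) :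
    1 ∈ SL Bs ∧ (∀ k ∈ SL Bs, k ∈ Nat.factoredNumbers (PL Bs)) ∧
      ∀ k ∈ SL Bs, (k : ℝ) ≤ (List.zipWith (fun (B : Finset ℕ × ℕ) (y : ℝ) => y ^ B.2) Bs ym).prod := by
  classical
  refine ⟨?_, cu_SL_fn Bs, ?_⟩
  · clear hy
    induction Bs with
    | nil => simp [SL]
    | cons B l ih =>
      simp only [SL, SM, Finset.mem_image₂]
      exact ⟨1, cu_one_SI _ _ (hB B (by simp)), 1, ih fun B' hB' => hB B' (by simp [hB']), rfl⟩
  · induction hy with
    | nil => intro k hk; simp only [SL, Finset.mem_singleton] at hk; simp [hk]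
    | @cons B y l ym' h1 _ ih =>
      intro k hk
      simp only [SL, SM, Finset.mem_image₂] at hk
      obtain ⟨a, ha, b, hb, rfl⟩ := hk
      have i2 := ih (fun B' hB' => hB B' (by simp [hB'])) b hb
      rw [List.zipWith_cons_cons, List.prod_cons, Nat.cast_mul]
      have hΩ : Ω a ≤ B.2 := by
        unfold SI at ha
        exact (Finset.mem_filter.1 ha).2.2
      have i1 := (cu_le_pow B.1 y h1.1 h1.2 a (cu_SI_fn _ _ a ha)).trans
        (pow_le_pow_right₀ h1.1 hΩ)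
      exact mul_le_mul i1 i2 (by positivity) (by have := h1.1; positivity)


end

end Pool.Agent.SGN
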