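import Pool.Agent.Lib_helper84.SGN.DefsM
import Pool.Agent.Lib_helper68.LEV.MRT
import Pool.Agent.Lib_helper23.BG4F.MER

set_option autoImplicit false

namespace Pool.Agent.SGN

open MeasureTheory Matrix Complex ProbabilityTheory
open Pool.Agent.GLQ (re unip cube Lat Lz latt sp)
open scoped ArithmeticFunction.Omega

noncomputable section

/-- sums of `1/p` over a long interval -/
theorem cw_one {C2 : ℝ} (hC2 : ∀ x : ℝ, 2 ≤ x →
    |∑ p ∈ (Finset.Icc 1 ⌊x⌋₊).filter Nat.Prime, 1 / (p : ℝ) - Real.log (Real.log x)| ≤ C2)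
    (u v : ℝ) (hu : 1 ≤ u) (hv : v ≤ u ^ 2) :
    ∑ p ∈ (pl v).filter (fun p : ℕ => u < (p : ℝ)), (1 : ℝ) / p ≤ 2 * C2 + 2 := by
  have hC0 : 0 ≤ C2 := (abs_nonneg _).trans (hC2 2 le_rfl)
  rcases le_or_gt 2 u with h2 | h2
  · have hu2 : (2 : ℝ) ≤ u ^ 2 := by nlinarith
    have hlu : 0 < Real.log u := Real.log_pos (by linarith)
    have e1 := abs_le.mp (hC2 (u ^ 2) hu2)
    have e2 := abs_le.mp (hC2 u h2)
    have e3 : Real.log (Real.log (u ^ 2)) = Real.log 2 + Real.log (Real.log u) := by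
      rw [Real.log_pow, Real.log_mul (by norm_num) hlu.ne']
      norm_num
    have hl2 : Real.log 2 ≤ 1 := by
      have := Real.log_le_sub_one_of_pos (show (0 : ℝ) < 2 by norm_num)
      linarith
    have hsub : (Finset.Icc 1 ⌊u⌋₊).filter Nat.Prime ⊆ (Finset.Icc 1 ⌊u ^ 2⌋₊).filter Nat.Prime := by
      apply Finset.filter_subset_filter
      apply Finset.Icc_subset_Icc le_rfl
      apply Nat.floor_le_floor
      nlinarith
    have e4 := Finset.sum_sdiff (f := fun p : ℕ => (1 : ℝ) / p) hsub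
    have e5 : ∑ p ∈ (pl v).filter (fun p : ℕ => u < (p : ℝ)), (1 : ℝ) / p ≤
        ∑ p ∈ ((Finset.Icc 1 ⌊u ^ 2⌋₊).filter Nat.Prime) \ ((Finset.Icc 1 ⌊u⌋₊).filter Nat.Prime),
          (1 : ℝ) / p := by
      apply Finset.sum_le_sum_of_subset_of_nonneg
      · intro p hp
        simp only [pl, Finset.mem_filter, Finset.mem_range] at hp
        simp only [Finset.mem_sdiff, Finset.mem_filter, Finset.mem_Icc]
        obtain ⟨⟨h1, h3⟩, h4⟩ := hp
        refine ⟨⟨⟨h3.one_lt.le, ?_⟩, h3⟩, ?_⟩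
        · have : ⌊v⌋₊ ≤ ⌊u ^ 2⌋₊ := Nat.floor_le_floor hv
          omega
        · rintro ⟨⟨_, h5⟩, _⟩
          have := Nat.floor_le (show (0 : ℝ) ≤ u by linarith)
          have h6 : (p : ℝ) ≤ (⌊u⌋₊ : ℝ) := by exact_mod_cast h5
          linarith
      · intro p _ _
        positivity
    linarith [e1.1, e1.2, e2.1, e2.2]
  · have e5 : ∑ p ∈ (pl v).filter (fun p : ℕ => u < (p : ℝ)), (1 : ℝ) / p ≤
        ∑ p ∈ ({2, 3} : Finset ℕ), (1 : ℝ) / p := by
      apply Finset.sum_le_sum_of_subset_of_nonneg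
      · intro p hp
        simp only [pl, Finset.mem_filter, Finset.mem_range] at hp
        obtain ⟨⟨h1, h3⟩, h4⟩ := hp
        have hv4 : v < 4 := by nlinarith
        have : ⌊v⌋₊ < 4 := by
          rcases le_or_gt 0 v with h | h
          · exact (Nat.floor_lt h).mpr (by exact_mod_cast hv4)
          · rw [Nat.floor_of_nonpos h.le]; norm_num
        have hp4 : p < 4 := by omega
        have := h3.two_le
        interval_cases p <;> simp
      · intro p _ _
        positivity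
    have e6 : ∑ p ∈ ({2, 3} : Finset ℕ), (1 : ℝ) / p ≤ 1 := by
      rw [Finset.sum_pair (by norm_num)]
      norm_num
    linarith

theorem cw_diff {t : ℝ} (h0 : 0 ≤ t) (h1 : t ≤ 1) : 0 ≤ Real.exp t - Real.exp (-t) ∧
    Real.exp t - Real.exp (-t) ≤ 4 * t := by
  have a1 : Real.exp (-t) ≤ Real.exp t := Real.exp_le_exp.mpr (by linarith)
  have a2 : 1 - t ≤ Real.exp (-t) := by
    have := Real.add_one_le_exp (-t)
    linarith
  have a3 : Real.exp t ≤ 1 + 2 * t := by
    have := Real.abs_exp_sub_one_le (x := t) (by rw [abs_of_nonneg h0]; exact h1)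
    rw [abs_of_nonneg h0] at this
    have := (abs_le.mp this).2
    linarith
  constructor
  · linarith
  · linarith

theorem prime_sums : ∃ C : ℝ, 1 ≤ C ∧
    (∀ u v : ℝ, 1 ≤ u → v ≤ u ^ 2 →
      ∑ p ∈ (pl v).filter (fun p : ℕ => u < (p : ℝ)), (1 : ℝ) / p ≤ C) ∧
    (∀ y : ℝ, 3 ≤ y → ∑ p ∈ pl y, (1 : ℝ) / p ≤ C * Real.log (Real.log y) + C) ∧
    (∀ y κ : ℝ, 2 ≤ y → 0 ≤ κ → κ * Real.log y ≤ 1 →
      ∑ p ∈ pl y, ((p : ℝ) ^ (-(1 / 2) + κ : ℝ) - (p : ℝ) ^ (-(1 / 2) - κ : ℝ)) ^ 2 ≤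
        C * (κ * Real.log y) ^ 2) := by
  obtain ⟨C2, hC2⟩ := Pool.Agent.LEV.mertens_two
  obtain ⟨C1, hC1⟩ := Pool.Agent.BG4.mertens_one
  have hC20 : 0 ≤ C2 := (abs_nonneg _).trans (hC2 2 le_rfl)
  have hC10 : 0 ≤ C1 := (abs_nonneg _).trans (hC1 1 le_rfl)
  have hl2 : 0 < Real.log 2 := Real.log_pos (by norm_num)
  have hpl : ∀ y : ℝ, pl y = (Finset.Icc 1 ⌊y⌋₊).filter Nat.Prime := by
    intro y
    ext p
    simp only [pl, Finset.mem_filter, Finset.mem_range, Finset.mem_Icc]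
    constructor
    · rintro ⟨h1, h2⟩
      exact ⟨⟨h2.one_lt.le, by omega⟩, h2⟩
    · rintro ⟨⟨_, h1⟩, h2⟩
      exact ⟨by omega, h2⟩
  refine ⟨max (2 * C2 + 2) (16 * (1 + C1 / Real.log 2)), le_trans (by linarith) (le_max_left _ _),
    ?_, ?_, ?_⟩
  · intro u v hu hv
    exact (cw_one hC2 u v hu hv).trans (le_max_left _ _)
  · intro y hy
    have h1 := (abs_le.mp (hC2 y (by linarith))).2
    rw [← hpl] at h1
    have h3 : 1 ≤ Real.log y := by
      rw [Real.le_log_iff_exp_le (by linarith)]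
      exact Real.exp_one_lt_three.le.trans hy
    have h4 : 0 ≤ Real.log (Real.log y) := Real.log_nonneg h3
    set C := max (2 * C2 + 2) (16 * (1 + C1 / Real.log 2)) with hC
    have h5 : 2 * C2 + 2 ≤ C := le_max_left _ _
    have h6 : Real.log (Real.log y) ≤ C * Real.log (Real.log y) :=
      le_mul_of_one_le_left h4 (by linarith)
    linarith
  · intro y κ hy hκ hky
    have hy0 : 0 < y := by linarith
    have hly : Real.log 2 ≤ Real.log y := Real.log_le_log (by norm_num) hy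
    have hly0 : 0 < Real.log y := hl2.trans_le hly
    have hfl1 : 1 ≤ ⌊y⌋₊ := Nat.le_floor (by push_cast; linarith)
    have h1 : ∑ p ∈ pl y, ((p : ℝ) ^ (-(1 / 2) + κ : ℝ) - (p : ℝ) ^ (-(1 / 2) - κ : ℝ)) ^ 2 ≤
        ∑ p ∈ pl y, 16 * κ ^ 2 * Real.log y * (Real.log p / p) := by
      apply Finset.sum_le_sum
      intro p hp
      rw [hpl, Finset.mem_filter, Finset.mem_Icc] at hp
      obtain ⟨⟨h2, h3⟩, h4⟩ := hp
      have hp0 : (0 : ℝ) < p := by exact_mod_cast h4.pos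
      have hp1 : (1 : ℝ) ≤ p := by exact_mod_cast h4.one_lt.le
      have hpy : (p : ℝ) ≤ y := (Nat.le_floor_iff hy0.le).mp h3
      have hlp : 0 ≤ Real.log p := Real.log_nonneg hp1
      have hlpy : Real.log p ≤ Real.log y := Real.log_le_log hp0 hpy
      have e1 : (p : ℝ) ^ (-(1 / 2) + κ : ℝ) - (p : ℝ) ^ (-(1 / 2) - κ : ℝ) =
          (p : ℝ) ^ (-(1 / 2) : ℝ) * (Real.exp (κ * Real.log p) - Real.exp (-(κ * Real.log p))) := by
        rw [Real.rpow_add hp0, sub_eq_add_neg (-(1 / 2) : ℝ), Real.rpow_add hp0,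
          Real.rpow_def_of_pos hp0 κ, Real.rpow_def_of_pos hp0 (-κ)]
        rw [show Real.log p * κ = κ * Real.log p by ring,
          show Real.log p * -κ = -(κ * Real.log p) by ring]
        ring
      have e2 : ((p : ℝ) ^ (-(1 / 2) : ℝ)) ^ 2 = 1 / p := by
        rw [← Real.rpow_natCast, ← Real.rpow_mul hp0.le]
        norm_num
        rw [Real.rpow_neg_one]
      have ht0 : 0 ≤ κ * Real.log p := mul_nonneg hκ hlp
      have ht1 : κ * Real.log p ≤ 1 := (mul_le_mul_of_nonneg_left hlpy hκ).trans hky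
      obtain ⟨d1, d2⟩ := cw_diff ht0 ht1
      rw [e1, mul_pow, e2]
      have e3 : (Real.exp (κ * Real.log p) - Real.exp (-(κ * Real.log p))) ^ 2 ≤
          (4 * (κ * Real.log p)) ^ 2 := pow_le_pow_left₀ d1 d2 2
      have e4 : (4 * (κ * Real.log p)) ^ 2 ≤ 16 * κ ^ 2 * Real.log y * Real.log p := by
        have : Real.log p * Real.log p ≤ Real.log y * Real.log p :=
          mul_le_mul_of_nonneg_right hlpy hlp
        have hk2 : 0 ≤ 16 * κ ^ 2 := by positivity
        nlinarith [mul_le_mul_of_nonneg_left this hk2]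
      calc 1 / (p : ℝ) * (Real.exp (κ * Real.log p) - Real.exp (-(κ * Real.log p))) ^ 2
          ≤ 1 / (p : ℝ) * (16 * κ ^ 2 * Real.log y * Real.log p) :=
            mul_le_mul_of_nonneg_left (e3.trans e4) (by positivity)
        _ = 16 * κ ^ 2 * Real.log y * (Real.log p / p) := by ring
    rw [← Finset.mul_sum] at h1
    have h2 := (abs_le.mp (hC1 ⌊y⌋₊ hfl1)).2
    have h3 : Real.log (⌊y⌋₊ : ℝ) ≤ Real.log y :=
      Real.log_le_log (by exact_mod_cast hfl1) (Nat.floor_le hy0.le)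
    rw [hpl] at h1
    have h4 : ∑ p ∈ (Finset.Icc 1 ⌊y⌋₊).filter Nat.Prime, Real.log p / p ≤
        (1 + C1 / Real.log 2) * Real.log y := by
      have : C1 ≤ C1 / Real.log 2 * Real.log y := by
        rw [div_mul_eq_mul_div, le_div_iff₀ hl2]
        exact mul_le_mul_of_nonneg_left hly hC10
      linarith
    have h5 : (0 : ℝ) ≤ 16 * κ ^ 2 * Real.log y := by positivity
    rw [hpl]
    refine h1.trans ((mul_le_mul_of_nonneg_left h4 h5).trans ?_)
    have h6 : 16 * (1 + C1 / Real.log 2) ≤ max (2 * C2 + 2) (16 * (1 + C1 / Real.log 2)) :=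
      le_max_right _ _
    have h7 : 16 * κ ^ 2 * Real.log y * ((1 + C1 / Real.log 2) * Real.log y) =
        (16 * (1 + C1 / Real.log 2)) * (κ * Real.log y) ^ 2 := by ring
    rw [h7]
    exact mul_le_mul_of_nonneg_right h6 (by positivity)

end

end Pool.Agent.SGN
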