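import Pool.Agent.Lib_helper84.SGN.DefsM
import Pool.Agent.Lib_helper84.SGCF.CW

/-!
# SGN, part C, block CX: the choice of the blocks
-/

set_option autoImplicit false

namespace Pool.Agent.SGN

open MeasureTheory Matrix Complex ProbabilityTheory
open Pool.Agent.GLQ (re unip cube Lat Lz latt sp qq)
open scoped ArithmeticFunction.Omega ENNReal

noncomputable section

/-- the list of blocks: `(√Y, Y]` with length `l0`, and so on, `J` times, and the last block -/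
def cxBl (lJ : ℕ) : ℕ → ℝ → ℕ → List (Finset ℕ × ℕ)
  | 0, Y, _ => [(pl Y, lJ)]
  | J + 1, Y, l0 => ((pl Y).filter (fun p : ℕ => √Y < (p : ℝ)), l0) :: cxBl lJ J (√Y) (l0 + 1)

/-- the list of the ends of the blocks -/
def cxYm : ℕ → ℝ → List ℝ
  | 0, Y => [Y]
  | J + 1, Y => Y :: cxYm J (√Y)

theorem cx_mem_pl {Y : ℝ} {p : ℕ} (hY : 0 ≤ Y) : p ∈ pl Y ↔ p.Prime ∧ (p : ℝ) ≤ Y := by
  unfold pl
  rw [Finset.mem_filter, Finset.mem_range, Nat.lt_succ_iff, Nat.le_floor_iff hY, and_comm]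

theorem cx_pl_mono {Y Z : ℝ} (hY : 0 ≤ Y) (h : Y ≤ Z) : pl Y ⊆ pl Z := by
  intro p hp
  rw [cx_mem_pl hY] at hp
  rw [cx_mem_pl (hY.trans h)]
  exact ⟨hp.1, hp.2.trans h⟩

theorem cx_sqrt_le {Y : ℝ} (hY : 1 ≤ Y) : √Y ≤ Y := by
  rw [Real.sqrt_le_left (by linarith)]
  nlinarith

theorem cx_one_le_sqrt {Y : ℝ} (hY : 1 ≤ Y) : 1 ≤ √Y := by
  rw [Real.le_sqrt' one_pos]
  linarith

theorem cx_prime (lJ J : ℕ) : ∀ (Y : ℝ) (l0 : ℕ), ∀ B ∈ cxBl lJ J Y l0, ∀ p ∈ B.1, p.Prime := by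
  induction J with
  | zero =>
    intro Y l0 B hB p hp
    simp only [cxBl, List.mem_singleton] at hB
    subst hB
    exact (Finset.mem_filter.1 hp).2
  | succ J ih =>
    intro Y l0 B hB p hp
    simp only [cxBl, List.mem_cons] at hB
    rcases hB with hB | hB
    · subst hB
      exact (Finset.mem_filter.1 (Finset.mem_filter.1 hp).1).2
    · exact ih _ _ B hB p hp

theorem cx_sub_PL : ∀ (Bs : List (Finset ℕ × ℕ)), ∀ B ∈ Bs, B.1 ⊆ PL Bs := by
  intro Bs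
  induction Bs with
  | nil => intro B hB; simp at hB
  | cons A l ih =>
    intro B hB
    rw [List.mem_cons] at hB
    rcases hB with hB | hB
    · subst hB
      exact Finset.subset_union_left
    · exact (ih B hB).trans Finset.subset_union_right

theorem cx_PL (lJ J : ℕ) : ∀ (Y : ℝ) (l0 : ℕ), 1 ≤ Y → PL (cxBl lJ J Y l0) = pl Y := by
  induction J with
  | zero =>
    intro Y l0 hY
    simp [cxBl, PL]
  | succ J ih =>
    intro Y l0 hY
    have h1 := cx_one_le_sqrt hY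
    have h2 := cx_sqrt_le hY
    show (pl Y).filter (fun p : ℕ => √Y < (p : ℝ)) ∪ PL (cxBl lJ J (√Y) (l0 + 1)) = pl Y
    rw [ih _ _ h1]
    ext p
    rw [Finset.mem_union, Finset.mem_filter, cx_mem_pl (by linarith), cx_mem_pl (by linarith)]
    constructor
    · rintro (h | h)
      · exact h.1
      · exact ⟨h.1, h.2.trans h2⟩
    · intro h
      by_cases h3 : √Y < (p : ℝ)
      · exact Or.inl ⟨h, h3⟩
      · exact Or.inr ⟨h.1, not_lt.1 h3⟩

theorem cx_disj (lJ J : ℕ) : ∀ (Y : ℝ) (l0 : ℕ), 1 ≤ Y →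
    (cxBl lJ J Y l0).Pairwise fun B B' => Disjoint B.1 B'.1 := by
  induction J with
  | zero =>
    intro Y l0 hY
    simp [cxBl]
  | succ J ih =>
    intro Y l0 hY
    have h1 := cx_one_le_sqrt hY
    rw [cxBl, List.pairwise_cons]
    refine ⟨fun B hB => ?_, ih _ _ h1⟩
    have h2 := cx_sub_PL _ B hB
    rw [cx_PL lJ J _ _ h1] at h2
    rw [Finset.disjoint_left]
    intro p hp hp'
    have h3 := (cx_mem_pl (by linarith)).1 (h2 hp')
    have h4 := (Finset.mem_filter.1 hp).2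
    linarith [h3.2]

theorem cx_forall (lJ J : ℕ) : ∀ (Y : ℝ) (l0 : ℕ), 1 ≤ Y →
    List.Forall₂ (fun (B : Finset ℕ × ℕ) (y : ℝ) => 1 ≤ y ∧ ∀ p ∈ B.1, (p : ℝ) ≤ y)
      (cxBl lJ J Y l0) (cxYm J Y) := by
  induction J with
  | zero =>
    intro Y l0 hY
    rw [cxBl, cxYm]
    refine List.Forall₂.cons ⟨hY, fun p hp => ((cx_mem_pl (by linarith)).1 hp).2⟩ List.Forall₂.nil
  | succ J ih =>
    intro Y l0 hY
    rw [cxBl, cxYm]
    refine List.Forall₂.cons ⟨hY, fun p hp => ?_⟩ (ih _ _ (cx_one_le_sqrt hY))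
    exact ((cx_mem_pl (by linarith)).1 (Finset.mem_filter.1 hp).1).2

theorem cx_prod (lJ J : ℕ) : ∀ (Y : ℝ) (l0 : ℕ), 1 ≤ Y →
    (List.zipWith (fun (B : Finset ℕ × ℕ) (y : ℝ) => y ^ B.2) (cxBl lJ J Y l0) (cxYm J Y)).prod ≤
      Real.exp ((2 * l0 + 2) * Real.log Y + lJ * (Real.log Y / 2 ^ J)) := by
  induction J with
  | zero =>
    intro Y l0 hY
    have h0 : 0 ≤ Real.log Y := Real.log_nonneg hY
    have h1 : Y ^ lJ = Real.exp (lJ * Real.log Y) := by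
      rw [mul_comm, Real.exp_mul, Real.exp_log (by linarith), Real.rpow_natCast]
    simp only [cxBl, cxYm, List.zipWith_cons_cons, List.zipWith_nil_left, List.prod_cons,
      List.prod_nil, mul_one, pow_zero, div_one]
    rw [h1]
    apply Real.exp_le_exp.2
    have : 0 ≤ (2 * (l0 : ℝ) + 2) * Real.log Y := by positivity
    linarith
  | succ J ih =>
    intro Y l0 hY
    have h0 : 0 ≤ Real.log Y := Real.log_nonneg hY
    have h1 : Y ^ l0 = Real.exp (l0 * Real.log Y) := by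
      rw [mul_comm, Real.exp_mul, Real.exp_log (by linarith), Real.rpow_natCast]
    have h2 := ih (√Y) (l0 + 1) (cx_one_le_sqrt hY)
    simp only [cxBl, cxYm, List.zipWith_cons_cons, List.prod_cons]
    rw [h1]
    refine (mul_le_mul_of_nonneg_left h2 (Real.exp_pos _).le).trans ?_
    rw [← Real.exp_add, Real.log_sqrt (by linarith)]
    apply Real.exp_le_exp.2
    apply le_of_eq
    push_cast
    field_simp
    ring

theorem cx_sum (lJ J : ℕ) {K C S : ℝ} (hK : 0 ≤ K)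
    (hC : ∀ u v : ℝ, 1 ≤ u → v ≤ u ^ 2 →
      ∑ p ∈ (pl v).filter (fun p : ℕ => u < (p : ℝ)), (1 : ℝ) / p ≤ C) :
    ∀ (Y : ℝ) (l0 : ℕ), 1 ≤ Y → (∑ p ∈ pl Y, (1 : ℝ) / p ≤ S) →
    ((cxBl lJ J Y l0).map fun B : Finset ℕ × ℕ =>
      (3 / 2 : ℝ) ^ (-(B.2 : ℝ)) * Real.exp (K * ∑ p ∈ B.1, (1 : ℝ) / p)).sum ≤
      3 * (3 / 2 : ℝ) ^ (-(l0 : ℝ)) * Real.exp (K * C) +
        (3 / 2 : ℝ) ^ (-(lJ : ℝ)) * Real.exp (K * S) := by
  induction J with
  | zero =>
    intro Y l0 hY hS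
    simp only [cxBl, List.map_cons, List.map_nil, List.sum_cons, List.sum_nil, add_zero]
    have h1 : (3 / 2 : ℝ) ^ (-(lJ : ℝ)) * Real.exp (K * ∑ p ∈ pl Y, (1 : ℝ) / p) ≤
        (3 / 2 : ℝ) ^ (-(lJ : ℝ)) * Real.exp (K * S) := by
      apply mul_le_mul_of_nonneg_left _ (by positivity)
      apply Real.exp_le_exp.2
      exact mul_le_mul_of_nonneg_left hS hK
    have h2 : 0 ≤ 3 * (3 / 2 : ℝ) ^ (-(l0 : ℝ)) * Real.exp (K * C) := by positivity
    linarith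
  | succ J ih =>
    intro Y l0 hY hS
    have h1 := cx_one_le_sqrt hY
    have hS' : ∑ p ∈ pl (√Y), (1 : ℝ) / p ≤ S := by
      refine le_trans (Finset.sum_le_sum_of_subset_of_nonneg
        (cx_pl_mono (by linarith) (cx_sqrt_le hY)) ?_) hS
      intro i _ _
      positivity
    have h2 := ih (√Y) (l0 + 1) h1 hS'
    simp only [cxBl, List.map_cons, List.sum_cons]
    have h3 : (3 / 2 : ℝ) ^ (-(l0 : ℝ)) * Real.exp (K * ∑ p ∈ (pl Y).filter
        (fun p : ℕ => √Y < (p : ℝ)), (1 : ℝ) / p) ≤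
        (3 / 2 : ℝ) ^ (-(l0 : ℝ)) * Real.exp (K * C) := by
      apply mul_le_mul_of_nonneg_left _ (by positivity)
      apply Real.exp_le_exp.2
      apply mul_le_mul_of_nonneg_left _ hK
      apply hC _ _ h1
      rw [Real.sq_sqrt (by linarith)]
    have h4 : (3 / 2 : ℝ) ^ (-((l0 + 1 : ℕ) : ℝ)) = (3 / 2 : ℝ) ^ (-(l0 : ℝ)) * (2 / 3) := by
      push_cast
      rw [neg_add, Real.rpow_add (by norm_num), Real.rpow_neg_one]
      norm_num
    rw [h4] at h2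
    linarith

theorem blocks (η K : ℝ) (hη : 0 < η) (hK : 1 ≤ K) : ∃ C c₀ θ₀ : ℝ, 0 < C ∧ 0 < c₀ ∧ c₀ ≤ 1 ∧
    0 < θ₀ ∧ ∀ θ : ℝ, 0 < θ → θ < θ₀ → ∃ q₀ : ℕ, ∀ q : ℕ, q₀ ≤ q →
      ∃ (Bs : List (Finset ℕ × ℕ)) (ym : List ℝ),
        (∀ B ∈ Bs, ∀ p ∈ B.1, p.Prime) ∧
        (Bs.Pairwise fun B B' => Disjoint B.1 B'.1) ∧
        PL Bs = pl ((q : ℝ) ^ θ) ∧
        List.Forall₂ (fun (B : Finset ℕ × ℕ) (y : ℝ) => 1 ≤ y ∧ ∀ p ∈ B.1, (p : ℝ) ≤ y) Bs ym ∧
        (List.zipWith (fun (B : Finset ℕ × ℕ) (y : ℝ) => y ^ B.2) Bs ym).prod ≤ (q : ℝ) ^ η ∧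
        (Bs.map fun B : Finset ℕ × ℕ =>
          (3 / 2 : ℝ) ^ (-(B.2 : ℝ)) * Real.exp (K * ∑ p ∈ B.1, (1 : ℝ) / p)).sum ≤
            C * Real.exp (-(c₀ / θ)) := by
  obtain ⟨C₁, hC₁, hA, hB, -⟩ := prime_sums
  have hl32 : 0 < Real.log (3 / 2) := Real.log_pos (by norm_num)
  set C₂ : ℝ := (K * C₁ + 1) / Real.log (3 / 2) with hC₂
  have hKC : 0 < K * C₁ + 1 := by nlinarith
  have hC₂0 : 0 < C₂ := by positivity
  refine ⟨3 * (3 / 2) * Real.exp (K * C₁) + 1, min 1 (Real.log (3 / 2) * η / 8), min 1 (η / 8),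
    by positivity, by positivity, min_le_left _ _, by positivity, ?_⟩
  intro θ hθ hθ₀
  have hθ1 : θ < 1 := lt_of_lt_of_le hθ₀ (min_le_left _ _)
  have hθη : θ < η / 8 := lt_of_lt_of_le hθ₀ (min_le_right _ _)
  set c₀ : ℝ := min 1 (Real.log (3 / 2) * η / 8) with hc₀
  -- the conditions on `q`
  have hlogq : Filter.Tendsto (fun q : ℕ => Real.log q) Filter.atTop Filter.atTop :=
    Real.tendsto_log_atTop.comp tendsto_natCast_atTop_atTop
  have hE2 : ∀ᶠ t : ℝ in Filter.atTop, (C₂ * Real.log t + 1) * √t ≤ (η / 2) * t := by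
    have h1 : ∀ᶠ t : ℝ in Filter.atTop, ‖Real.log t‖ ≤ (η / 4 / C₂) * ‖t ^ (1 / 2 : ℝ)‖ :=
      (isLittleO_log_rpow_atTop (by norm_num : (0 : ℝ) < 1 / 2)).bound (by positivity)
    have h2 : ∀ᶠ t : ℝ in Filter.atTop, 4 / η ≤ √t :=
      (Real.tendsto_sqrt_atTop).eventually_ge_atTop _
    filter_upwards [h1, h2, Filter.eventually_ge_atTop (1 : ℝ)] with t h1 h2 h3
    rw [← Real.sqrt_eq_rpow, Real.norm_eq_abs, Real.norm_eq_abs,
      abs_of_nonneg (Real.sqrt_nonneg t)] at h1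
    have h4 : C₂ * Real.log t ≤ (η / 4) * √t := by
      have h5 : C₂ * Real.log t ≤ C₂ * ((η / 4 / C₂) * √t) :=
        mul_le_mul_of_nonneg_left ((le_abs_self _).trans h1) hC₂0.le
      have h6 : C₂ * ((η / 4 / C₂) * √t) = (η / 4) * √t := by field_simp
      linarith
    have h5 : 1 ≤ (η / 4) * √t := by
      have := mul_le_mul_of_nonneg_left h2 (by positivity : (0 : ℝ) ≤ η / 4)
      have h6 : η / 4 * (4 / η) = 1 := by field_simp
      linarith
    have h6 : (C₂ * Real.log t + 1) * √t ≤ ((η / 2) * √t) * √t :=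
      mul_le_mul_of_nonneg_right (by linarith) (Real.sqrt_nonneg t)
    have h7 : ((η / 2) * √t) * √t = (η / 2) * t := by
      rw [mul_assoc, Real.mul_self_sqrt (by linarith)]
    linarith
  have hE3 : ∀ᶠ t : ℝ in Filter.atTop, Real.exp (K * C₁) / Real.exp (-(c₀ / θ)) ≤ t :=
    Filter.eventually_ge_atTop _
  have hE := (hlogq.eventually (hE2.and hE3)).and
    ((hlogq.eventually (Filter.eventually_ge_atTop (1 : ℝ))).and (Filter.eventually_ge_atTop 3))
  obtain ⟨q₀, hq₀⟩ := Filter.eventually_atTop.1 hE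
  refine ⟨q₀, fun q hq => ?_⟩
  obtain ⟨⟨hq2, hq3⟩, hq1, hq4⟩ := hq₀ q hq
  have hqpos : (0 : ℝ) < q := by
    have : (3 : ℝ) ≤ q := by exact_mod_cast hq4
    linarith
  have hq3' : (3 : ℝ) ≤ q := by exact_mod_cast hq4
  set t : ℝ := Real.log q with ht
  set Y : ℝ := (q : ℝ) ^ θ with hY
  have hY1 : 1 ≤ Y := Real.one_le_rpow (by linarith) hθ.le
  have hYq : Y ≤ q := by
    calc Y ≤ (q : ℝ) ^ (1 : ℝ) := Real.rpow_le_rpow_of_exponent_le (by linarith) hθ1.le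
      _ = q := Real.rpow_one _
  have hlogY : Real.log Y = θ * t := Real.log_rpow hqpos θ
  have hlogt : 0 ≤ Real.log t := Real.log_nonneg hq1
  obtain ⟨J, hJ⟩ := pow_unbounded_of_one_lt (θ * √t) (one_lt_two : (1 : ℝ) < 2)
  set lJ : ℕ := ⌈C₂ * Real.log t⌉₊ with hlJ
  set l0 : ℕ := ⌊η / (8 * θ)⌋₊ with hl0
  have hlJ1 : (lJ : ℝ) ≤ C₂ * Real.log t + 1 :=
    (Nat.ceil_lt_add_one (by positivity)).le
  have hlJ2 : C₂ * Real.log t ≤ lJ := Nat.le_ceil _
  have hl01 : (l0 : ℝ) ≤ η / (8 * θ) := Nat.floor_le (by positivity)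
  have hl02 : η / (8 * θ) - 1 ≤ l0 := by
    have := Nat.lt_floor_add_one (η / (8 * θ))
    rw [← hl0] at this
    linarith
  refine ⟨cxBl lJ J Y l0, cxYm J Y, cx_prime lJ J Y l0, cx_disj lJ J Y l0 hY1,
    cx_PL lJ J Y l0 hY1, cx_forall lJ J Y l0 hY1, ?_, ?_⟩
  · -- the product
    refine (cx_prod lJ J Y l0 hY1).trans ?_
    rw [Real.rpow_def_of_pos hqpos]
    apply Real.exp_le_exp.2
    rw [hlogY, ← ht]
    have h1 : (2 * (l0 : ℝ) + 2) * (θ * t) ≤ (η / 2) * t := by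
      have h2 : (l0 : ℝ) * θ ≤ η / 8 := by
        calc (l0 : ℝ) * θ ≤ η / (8 * θ) * θ := mul_le_mul_of_nonneg_right hl01 hθ.le
          _ = η / 8 := by field_simp
      have h3 : (2 * (l0 : ℝ) + 2) * θ ≤ η / 2 := by linarith
      calc (2 * (l0 : ℝ) + 2) * (θ * t) = ((2 * (l0 : ℝ) + 2) * θ) * t := by ring
        _ ≤ (η / 2) * t := mul_le_mul_of_nonneg_right h3 (by linarith)
    have h2 : θ * t / 2 ^ J ≤ √t := by
      rw [div_le_iff₀ (by positivity)]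
      calc θ * t = (θ * √t) * √t := by
            rw [mul_assoc, Real.mul_self_sqrt (by linarith)]
        _ ≤ 2 ^ J * √t := mul_le_mul_of_nonneg_right hJ.le (Real.sqrt_nonneg t)
        _ = √t * 2 ^ J := mul_comm _ _
    have h3 : (lJ : ℝ) * (θ * t / 2 ^ J) ≤ (η / 2) * t := by
      calc (lJ : ℝ) * (θ * t / 2 ^ J) ≤ (C₂ * Real.log t + 1) * √t :=
            mul_le_mul hlJ1 h2 (by positivity) (by positivity)
        _ ≤ (η / 2) * t := hq2
    calc (2 * (l0 : ℝ) + 2) * (θ * t) + lJ * (θ * t / 2 ^ J) ≤ (η / 2) * t + (η / 2) * t :=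
          add_le_add h1 h3
      _ = t * η := by ring
  · -- the sum
    have hS : ∑ p ∈ pl Y, (1 : ℝ) / p ≤ C₁ * Real.log t + C₁ := by
      refine le_trans (Finset.sum_le_sum_of_subset_of_nonneg
        (cx_pl_mono (by linarith) hYq) ?_) (hB q hq3')
      intro i _ _
      positivity
    refine (cx_sum lJ J (by linarith) hA Y l0 hY1 hS).trans ?_
    have h1 : (3 / 2 : ℝ) ^ (-(l0 : ℝ)) ≤ (3 / 2) * Real.exp (-(c₀ / θ)) := by
      have h2 : (3 / 2 : ℝ) ^ (-(l0 : ℝ)) ≤ (3 / 2 : ℝ) ^ (1 - η / (8 * θ)) :=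
        Real.rpow_le_rpow_of_exponent_le (by norm_num) (by linarith)
      refine h2.trans ?_
      rw [sub_eq_add_neg, Real.rpow_add (by norm_num), Real.rpow_one]
      apply mul_le_mul_of_nonneg_left _ (by norm_num)
      rw [Real.rpow_def_of_pos (by norm_num)]
      apply Real.exp_le_exp.2
      have h3 : c₀ ≤ Real.log (3 / 2) * η / 8 := min_le_right _ _
      have h4 : c₀ / θ ≤ Real.log (3 / 2) * η / 8 / θ := div_le_div_of_nonneg_right h3 hθ.le
      have h5 : Real.log (3 / 2) * -(η / (8 * θ)) = -(Real.log (3 / 2) * η / 8 / θ) := by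
        field_simp
      linarith
    have h2 : (3 / 2 : ℝ) ^ (-(lJ : ℝ)) * Real.exp (K * (C₁ * Real.log t + C₁)) ≤
        Real.exp (-(c₀ / θ)) := by
      have h3 : (3 / 2 : ℝ) ^ (-(lJ : ℝ)) ≤ Real.exp (-((K * C₁ + 1) * Real.log t)) := by
        rw [Real.rpow_def_of_pos (by norm_num)]
        apply Real.exp_le_exp.2
        have h4 : Real.log (3 / 2) * (C₂ * Real.log t) ≤ Real.log (3 / 2) * lJ :=
          mul_le_mul_of_nonneg_left hlJ2 hl32.le
        have h5 : Real.log (3 / 2) * (C₂ * Real.log t) = (K * C₁ + 1) * Real.log t := by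
          rw [hC₂]
          field_simp
        linarith
      calc (3 / 2 : ℝ) ^ (-(lJ : ℝ)) * Real.exp (K * (C₁ * Real.log t + C₁))
          ≤ Real.exp (-((K * C₁ + 1) * Real.log t)) * Real.exp (K * (C₁ * Real.log t + C₁)) :=
            mul_le_mul_of_nonneg_right h3 (Real.exp_pos _).le
        _ = Real.exp (K * C₁) * Real.exp (-Real.log t) := by
            rw [← Real.exp_add, ← Real.exp_add]
            congr 1
            ring
        _ = Real.exp (K * C₁) / t := by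
            rw [Real.exp_neg, Real.exp_log (by linarith)]
            rfl
        _ ≤ Real.exp (-(c₀ / θ)) := by
            rw [div_le_iff₀ (by linarith)]
            rw [div_le_iff₀ (Real.exp_pos _)] at hq3
            linarith
    have h3 : 3 * (3 / 2 : ℝ) ^ (-(l0 : ℝ)) * Real.exp (K * C₁) ≤
        3 * ((3 / 2) * Real.exp (-(c₀ / θ))) * Real.exp (K * C₁) := by
      apply mul_le_mul_of_nonneg_right _ (Real.exp_pos _).le
      exact mul_le_mul_of_nonneg_left h1 (by norm_num)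
    calc _ ≤ 3 * ((3 / 2) * Real.exp (-(c₀ / θ))) * Real.exp (K * C₁) + Real.exp (-(c₀ / θ)) :=
          add_le_add h3 h2
      _ = (3 * (3 / 2) * Real.exp (K * C₁) + 1) * Real.exp (-(c₀ / θ)) := by ring

end

end Pool.Agent.SGN
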