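import Pool.Agent.Lib_helper84.SGN.DefsM
import Pool.Agent.Lib_helper84.SGCF.CT
import Pool.Agent.Lib_helper84.SGCF.CU
import Pool.Agent.Lib_helper84.SGCF.CV
import Pool.Agent.Lib_helper84.SGCF.CW
import Pool.Agent.Lib_helper84.SGCF.CX

set_option autoImplicit false

namespace Pool.Agent.SGN

open MeasureTheory Matrix Complex ProbabilityTheory
open scoped ArithmeticFunction.Omega ENNReal

noncomputable section

/-! ### measurability -/

lemma cy_meas_invc {Om : Type} [MeasurableSpace Om] (a : ℕ → Om → ℂ) (ha : ∀ i, Measurable (a i))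
    (j : ℕ) : Measurable fun w => invc (fun i => a i w) j := by
  induction j using Nat.strong_induction_on with
  | _ j ih =>
    cases j with
    | zero => simp only [invc]; exact measurable_const
    | succ j =>
      simp only [invc]
      refine Measurable.neg (Finset.measurable_fun_sum _ fun i _ => ?_)
      exact (ha _).mul (ih (j - i) (by omega))

lemma cy_meas_sqr {Om : Type} [MeasurableSpace Om] (a : ℕ → Om → ℂ) (ha : ∀ i, Measurable (a i))
    (j : ℕ) : Measurable fun w => sqr (fun i => a i w) j := by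
  induction j using Nat.strong_induction_on with
  | _ j ih =>
    cases j with
    | zero => simp only [sqr]; exact measurable_const
    | succ j =>
      have e : (fun w => sqr (fun i => a i w) (j + 1)) = fun w => (a (j + 1) w -
          ∑ i : Fin j, sqr (fun i => a i w) (i + 1) * sqr (fun i => a i w) (j - i)) / 2 := by
        funext w
        rw [sqr]
      rw [e]
      refine Measurable.div_const ((ha _).sub (Finset.measurable_fun_sum _ fun i _ => ?_)) _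
      exact (ih (i + 1) (by omega)).mul (ih (j - i) (by omega))

lemma cy_meas_al {Om : Type} [MeasurableSpace Om] (X : ℕ → Om → ℂ) (hX : ∀ i, Measurable (X i))
    (k : ℕ) : Measurable fun w => al (fun m => X m w) k := by
  unfold al
  simp only [Finsupp.prod]
  refine Finset.measurable_fun_prod _ fun p _ => ?_
  exact cy_meas_sqr (fun j w => invc (fun i => X (p ^ i) w) j)
    (fun j => cy_meas_invc (fun i w => X (p ^ i) w) (fun i => hX _) j) _

lemma cy_meas_ub {Om : Type} [MeasurableSpace Om] (X : ℕ → Om → ℂ) (hX : ∀ i, Measurable (X i))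
    (S P : Finset ℕ) (z z' : ℕ → ℝ) (r : ℕ) :
    Measurable fun w => ub (fun m => X m w) S P z z' r := by
  unfold ub
  refine Finset.measurable_fun_sum _ fun k _ => Finset.measurable_fun_sum _ fun k' _ => ?_
  split_ifs with h
  · exact (((hX _).mul (cy_meas_al X hX k)).mul (cy_meas_al X hX k')).mul measurable_const
  · exact measurable_const

lemma cy_EE {n : ℕ} (M : Model n) (R : Finset ℕ) (f : ℕ → M.Om → ℝ)
    (hf : ∀ r, @Measurable _ _ M.ms _ (f r)) (h0 : ∀ r w, 0 ≤ f r w) (B : ℝ)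
    (h : ∀ w, ∑ r ∈ R, f r w ≤ B) : ∑ r ∈ R, M.EE (fun w => f r w) ≤ B := by
  let := M.ms
  have := M.pr
  unfold Model.EE
  have hint : ∀ r ∈ R, Integrable (f r) M.P := by
    intro r hr
    refine Integrable.of_bound (hf r).aestronglyMeasurable B (Filter.Eventually.of_forall fun w => ?_)
    rw [Real.norm_of_nonneg (h0 r w)]
    exact (Finset.single_le_sum (fun r _ => h0 r w) hr).trans (h w)
  rw [← integral_finsetSum R hint]
  calc ∫ w, ∑ r ∈ R, f r w ∂M.P ≤ ∫ w, B ∂M.P :=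
        integral_mono (integrable_finsetSum R hint) (integrable_const B) h
    _ = B := by simp

/-! ### the list of blocks -/

lemma cy_sub_PL (Bs : List (Finset ℕ × ℕ)) : ∀ B ∈ Bs, B.1 ⊆ PL Bs := by
  classical
  induction Bs with
  | nil => intro B hB; simp at hB
  | cons B l ih =>
    intro B' hB'
    simp only [PL]
    rcases List.mem_cons.1 hB' with h | h
    · subst h; exact Finset.subset_union_left
    · exact (ih B' h).trans Finset.subset_union_right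

lemma cy_PL_disj (I : Finset ℕ) (l : List (Finset ℕ × ℕ)) (h : ∀ B ∈ l, Disjoint I B.1) :
    Disjoint I (PL l) := by
  classical
  induction l with
  | nil => simp [PL]
  | cons B l ih =>
    simp only [PL]
    rw [Finset.disjoint_union_right]
    exact ⟨h B (by simp), ih fun B' hB' => h B' (by simp [hB'])⟩

lemma cy_list (Bs : List (Finset ℕ × ℕ)) (hd : Bs.Pairwise fun B B' => Disjoint B.1 B'.1)
    (a d : Finset ℕ × ℕ → ℝ) (w : ℕ → ℝ) (h : ∀ B ∈ Bs, 0 ≤ a B ∧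
      a B ≤ Real.exp (∑ p ∈ B.1, w p + d B)) :
    (Bs.map a).prod ≤ Real.exp (∑ p ∈ PL Bs, w p + (Bs.map d).sum) := by
  classical
  induction Bs with
  | nil => simp [PL]
  | cons B l ih =>
    have hdis : Disjoint B.1 (PL l) := cy_PL_disj B.1 l (List.pairwise_cons.1 hd).1
    simp only [PL, List.map_cons, List.prod_cons, List.sum_cons]
    rw [Finset.sum_union hdis]
    have i1 := ih (List.pairwise_cons.1 hd).2 fun B' hB' => h B' (by simp [hB'])
    have i2 := h B (by simp)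
    have i3 : 0 ≤ (l.map a).prod := List.prod_nonneg fun x hx => by
      obtain ⟨B', hB', rfl⟩ := List.mem_map.1 hx
      exact (h B' (by simp [hB'])).1
    calc a B * (l.map a).prod ≤ Real.exp (∑ p ∈ B.1, w p + d B) *
          Real.exp (∑ p ∈ PL l, w p + (l.map d).sum) :=
          mul_le_mul i2.2 i1 i3 (Real.exp_pos _).le
      _ = _ := by rw [← Real.exp_add]; ring_nf

/-! ### the bound of the block sums -/

lemma cy_exp : Real.exp (1 / 5) ≤ 5 / 4 := by
  have h1 : Real.exp (1 / 5) ^ 5 = Real.exp 1 := by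
    rw [← Real.exp_nat_mul]; norm_num
  have h2 := Real.exp_one_lt_d9
  by_contra h
  rw [not_le] at h
  have h3 : (5 / 4 : ℝ) ^ 5 < Real.exp (1 / 5) ^ 5 := pow_lt_pow_left₀ h (by norm_num) (by norm_num)
  rw [h1] at h3
  norm_num at h3
  linarith

lemma cy_z (y κ : ℝ) (hy : 2 ≤ y) (hκ : 0 ≤ κ) (hκy : κ * Real.log y ≤ 1 / 10) (p : ℕ)
    (hp : p.Prime) (hpy : (p : ℝ) ≤ y) :
    ((p : ℝ) ^ (-(1 / 2) + κ : ℝ)) ^ 2 ≤ 5 / 4 * (1 / p) := by
  have hp0 : (0 : ℝ) < p := by exact_mod_cast hp.pos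
  have e1 : ((p : ℝ) ^ (-(1 / 2) + κ : ℝ)) ^ 2 = (p : ℝ) ^ (2 * κ) * (1 / p) := by
    rw [← Real.rpow_natCast, ← Real.rpow_mul hp0.le]
    have : (-(1 / 2) + κ) * ((2 : ℕ) : ℝ) = 2 * κ + (-1) := by push_cast; ring
    rw [this, Real.rpow_add hp0, Real.rpow_neg_one, one_div]
  rw [e1]
  refine mul_le_mul_of_nonneg_right ?_ (by positivity)
  calc (p : ℝ) ^ (2 * κ) ≤ y ^ (2 * κ) := Real.rpow_le_rpow hp0.le hpy (by positivity)
    _ = Real.exp (2 * (κ * Real.log y)) := by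
        rw [Real.rpow_def_of_pos (by linarith)]; ring_nf
    _ ≤ Real.exp (1 / 5) := Real.exp_le_exp.2 (by linarith)
    _ ≤ 5 / 4 := cy_exp

lemma cy_mem_pl {y : ℝ} {p : ℕ} (h : p ∈ pl y) : p.Prime ∧ (p : ℝ) ≤ y := by
  classical
  unfold pl at h
  rw [Finset.mem_filter, Finset.mem_range] at h
  refine ⟨h.2, ?_⟩
  have h1 : p ≤ ⌊y⌋₊ := by omega
  by_cases hy : 0 ≤ y
  · exact (Nat.le_floor_iff hy).1 h1
  · rw [Nat.floor_of_nonpos (by linarith)] at h1
    have := h.2.pos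
    omega

lemma cy_key (n : ℕ) (hn : 1 ≤ n) : ∃ C1 C3 : ℝ, 0 < C1 ∧ 1 ≤ C3 ∧
    ∀ (y κ : ℝ), 2 ≤ y → 0 ≤ κ → κ * Real.log y ≤ 1 / 10 →
    ∀ (Bs : List (Finset ℕ × ℕ)), (∀ B ∈ Bs, ∀ p ∈ B.1, p.Prime) →
      (Bs.Pairwise fun B B' => Disjoint B.1 B'.1) → PL Bs = pl y →
    ∀ lam : ℕ → ℂ, Temp n lam → ∀ R : Finset ℕ, (∀ k ∈ R, k ∈ Nat.factoredNumbers (pl y)) →
      ∑ k ∈ R, ‖ub lam (SL Bs) (pl y) (fun p => (p : ℝ) ^ (-(1 / 2) + κ : ℝ))
        (fun p => (p : ℝ) ^ (-(1 / 2) - κ : ℝ)) k‖ ^ 2 ≤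
      Real.exp (C1 * C3 * (κ * Real.log y) ^ 2 + (Bs.map fun B : Finset ℕ × ℕ =>
        (3 / 2 : ℝ) ^ (-(B.2 : ℝ)) * Real.exp (5 / 4 * C1 * ∑ p ∈ B.1, (1 : ℝ) / p)).sum) := by
  classical
  obtain ⟨C1, hC1, hbb⟩ := block_bound n hn (3 / 2) (4 / 5) (15 / 16) (by norm_num) (by norm_num)
    (by norm_num)
  obtain ⟨C3, hC3, -, -, hps⟩ := prime_sums
  refine ⟨C1, C3, hC1, hC3, ?_⟩
  intro y κ hy hκ hκy Bs hB hd hPL lam hT R hR
  set z : ℕ → ℝ := fun p => (p : ℝ) ^ (-(1 / 2) + κ : ℝ) with hz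
  set z' : ℕ → ℝ := fun p => (p : ℝ) ^ (-(1 / 2) - κ : ℝ) with hz'
  have hmem : ∀ B ∈ Bs, ∀ p ∈ B.1, p.Prime ∧ (p : ℝ) ≤ y := fun B hB' p hp =>
    cy_mem_pl (hPL ▸ cy_sub_PL Bs B hB' hp)
  have hz2 : ∀ B ∈ Bs, ∀ p ∈ B.1, z p ^ 2 ≤ 5 / 4 * (1 / p) := fun B hB' p hp =>
    cy_z y κ hy hκ hκy p (hmem B hB' p hp).1 (hmem B hB' p hp).2
  have hzz : ∀ B ∈ Bs, ∀ p ∈ B.1, 0 ≤ z' p ∧ z' p ≤ z p ∧ z p ≤ 4 / 5 ∧
      3 / 2 * z p ^ 2 ≤ 15 / 16 := by
    intro B hB' p hp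
    have hpp := (hmem B hB' p hp).1
    have hp2 : (2 : ℝ) ≤ p := by exact_mod_cast hpp.two_le
    have h1 : z p ^ 2 ≤ 5 / 8 := by
      refine (hz2 B hB' p hp).trans ?_
      have : (1 : ℝ) / p ≤ 1 / 2 := one_div_le_one_div_of_le (by norm_num) hp2
      linarith
    have h0 : 0 ≤ z p := Real.rpow_nonneg (by positivity) _
    refine ⟨Real.rpow_nonneg (by positivity) _, ?_, ?_, by linarith⟩
    · exact Real.rpow_le_rpow_of_exponent_le (by linarith) (by linarith)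
    · nlinarith
  have hlist := ub_list lam hT.one hT.mul Bs hB hd z z'
    (fun B => Real.exp (C1 * ∑ p ∈ B.1, (z p - z' p) ^ 2) - 1 +
      (3 / 2 : ℝ) ^ (-(B.2 : ℝ)) * Real.exp (C1 * ∑ p ∈ B.1, z p ^ 2))
    (fun B hB' R' hR' => hbb B.1 z z' (hB B hB') (hzz B hB') lam hT B.2 R' hR') R
    (fun k hk => hPL ▸ hR k hk)
  rw [hPL] at hlist
  refine hlist.trans ?_
  refine (cy_list Bs hd _ (fun B : Finset ℕ × ℕ => (3 / 2 : ℝ) ^ (-(B.2 : ℝ)) *
    Real.exp (5 / 4 * C1 * ∑ p ∈ B.1, (1 : ℝ) / p)) (fun p => C1 * (z p - z' p) ^ 2)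
    fun B hB' => ?_).trans ?_
  · set A : ℝ := C1 * ∑ p ∈ B.1, (z p - z' p) ^ 2 with hA
    set D : ℝ := (3 / 2 : ℝ) ^ (-(B.2 : ℝ)) * Real.exp (C1 * ∑ p ∈ B.1, z p ^ 2) with hD
    have hA0 : 0 ≤ A := mul_nonneg hC1.le (Finset.sum_nonneg fun _ _ => sq_nonneg _)
    have hD0 : 0 ≤ D := by positivity
    have e1 : 1 + (Real.exp A - 1 + D) = Real.exp A + D := by ring
    constructor
    · show 0 ≤ 1 + (Real.exp A - 1 + D)
      rw [e1]; positivity
    · show 1 + (Real.exp A - 1 + D) ≤ _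
      rw [e1, ← Finset.mul_sum, Real.exp_add]
      have hDD : D ≤ (3 / 2 : ℝ) ^ (-(B.2 : ℝ)) *
          Real.exp (5 / 4 * C1 * ∑ p ∈ B.1, (1 : ℝ) / p) := by
        refine mul_le_mul_of_nonneg_left (Real.exp_le_exp.2 ?_) (by positivity)
        have : ∑ p ∈ B.1, z p ^ 2 ≤ 5 / 4 * ∑ p ∈ B.1, (1 : ℝ) / p := by
          rw [Finset.mul_sum]
          exact Finset.sum_le_sum fun p hp => hz2 B hB' p hp
        nlinarith
      have i1 : 1 ≤ Real.exp A := Real.one_le_exp hA0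
      have i2 : D + 1 ≤ Real.exp D := Real.add_one_le_exp D
      calc Real.exp A + D ≤ Real.exp A * (D + 1) := by nlinarith
        _ ≤ Real.exp A * Real.exp D := mul_le_mul_of_nonneg_left i2 (by positivity)
        _ ≤ _ := mul_le_mul_of_nonneg_left (Real.exp_le_exp.2 hDD) (by positivity)
  · refine Real.exp_le_exp.2 (add_le_add ?_ le_rfl)
    rw [hPL, ← Finset.mul_sum, mul_assoc]
    exact mul_le_mul_of_nonneg_left (hps y κ hy hκ (by linarith)) hC1.le

lemma cy_ub_zero (lam : ℕ → ℂ) (S P : Finset ℕ) (z z' : ℕ → ℝ) (r : ℕ)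
    (hS : ∀ k ∈ S, k ∈ Nat.factoredNumbers P) (hr : r ∉ Nat.factoredNumbers P) :
    ub lam S P z z' r = 0 := by
  classical
  unfold ub
  refine Finset.sum_eq_zero fun k hk => Finset.sum_eq_zero fun k' hk' => if_neg fun h => hr ?_
  have := Nat.mul_mem_factoredNumbers h.2 (Nat.mul_mem_factoredNumbers (hS k hk) (hS k' hk'))
  rwa [Nat.div_mul_cancel h.1] at this

lemma cy_fn_smooth {y : ℝ} {r : ℕ} (h : r ∈ Nat.factoredNumbers (pl y)) : Smooth y r :=
  fun p hp hd => (cy_mem_pl ((Nat.mem_factoredNumbers'.1 h) p hp hd)).2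

lemma cy_smooth_fn {y : ℝ} {r : ℕ} (h : Smooth y r) :
    r ∈ Nat.factoredNumbers (pl y) := by
  classical
  rw [Nat.mem_factoredNumbers']
  intro p hp hd
  unfold pl
  rw [Finset.mem_filter, Finset.mem_range]
  exact ⟨Nat.lt_succ_of_le (Nat.le_floor (h p hp hd)), hp⟩

theorem mollifier (n : ℕ) (hn : 1 ≤ n) (M : Model n) (η : ℝ) (hη : 0 < η) :
    ∃ C c₀ θ₀ : ℝ, 0 < C ∧ 0 < c₀ ∧ 0 < θ₀ ∧ ∀ θ : ℝ, 0 < θ → θ < θ₀ → ∃ q₀ : ℕ, ∀ q : ℕ,
      q₀ ≤ q → ∃ S : Finset ℕ, 1 ∈ S ∧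
        (∀ k ∈ S, 1 ≤ k ∧ (k : ℝ) ≤ (q : ℝ) ^ η ∧ Smooth ((q : ℝ) ^ θ) k) ∧
        (∀ R : Finset ℕ, (∀ r ∈ R, 2 ≤ r) →
          ∑ r ∈ R, M.EE (fun w => ‖vr (fun m => M.X m w) S ((q : ℝ) ^ θ) r‖ ^ 2) ≤
            C * Real.exp (-(c₀ / θ))) ∧
        (∀ R : Finset ℚ, (∀ r ∈ R, 0 < r) →
          ∑ r ∈ R, M.EE (fun w => ‖wr (fun m => M.X m w) S ((q : ℝ) ^ θ) r‖ ^ 2) ≤ C) ∧
        ∀ R : Finset ℚ, (∀ r ∈ R, 0 < r) →
          ∑ r ∈ R, (r : ℝ) ^ (2 * (c₀ / (θ * Real.log q))) *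
            M.EE (fun w => ‖wr (fun m => M.X m w) S ((q : ℝ) ^ θ) r‖ ^ 2) ≤ C := by
  classical
  obtain ⟨C1, C3, hC1, hC3, hkey⟩ := cy_key n hn
  obtain ⟨C2, c₁, θ₁, hC2, hc₁, hc₁1, hθ₁, hbl⟩ := blocks η (max 1 (5 / 4 * C1)) hη (le_max_left _ _)
  set c₀ : ℝ := min c₁ (1 / 10) with hc₀
  have hc₀0 : 0 < c₀ := lt_min hc₁ (by norm_num)
  have hc₀1 : c₀ ≤ c₁ := min_le_left _ _
  have hc₀10 : c₀ ≤ 1 / 10 := min_le_right _ _
  refine ⟨C2 * Real.exp C2 + Real.exp (C1 * C3 + C2), c₀, θ₁, by positivity, hc₀0, hθ₁, ?_⟩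
  intro θ hθ hθθ
  obtain ⟨q₁, hq₁⟩ := hbl θ hθ hθθ
  refine ⟨max q₁ ⌈Real.exp (1 / θ)⌉₊, fun q hq => ?_⟩
  have hqq₁ : q₁ ≤ q := (le_max_left _ _).trans hq
  have hqe : Real.exp (1 / θ) ≤ q := by
    have := (le_max_right _ _).trans hq
    exact (Nat.le_ceil _).trans (by exact_mod_cast this)
  have hq0 : (0 : ℝ) < q := (Real.exp_pos _).trans_le hqe
  have hlog : 1 ≤ θ * Real.log q := by
    have : 1 / θ ≤ Real.log q := by
      rw [Real.le_log_iff_exp_le hq0]; exact hqe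
    calc (1 : ℝ) = θ * (1 / θ) := by field_simp
      _ ≤ _ := mul_le_mul_of_nonneg_left this hθ.le
  set y : ℝ := (q : ℝ) ^ θ with hy
  have hlogy : Real.log y = θ * Real.log q := Real.log_rpow hq0 θ
  have hy2 : 2 ≤ y := by
    have h1 : y = Real.exp (Real.log y) := (Real.exp_log (Real.rpow_pos_of_pos hq0 _)).symm
    rw [h1, hlogy]
    have := Real.add_one_le_exp (θ * Real.log q)
    linarith
  obtain ⟨Bs, ym, hB, hd, hPL, hF, hprod, hsum⟩ := hq₁ q hqq₁
  obtain ⟨h1S, hSfn, hSle⟩ := SL_props Bs hB ym hF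
  rw [hPL] at hSfn
  have hsum2 : (Bs.map fun B : Finset ℕ × ℕ =>
      (3 / 2 : ℝ) ^ (-(B.2 : ℝ)) * Real.exp (5 / 4 * C1 * ∑ p ∈ B.1, (1 : ℝ) / p)).sum ≤
      C2 * Real.exp (-(c₀ / θ)) := by
    refine (List.sum_le_sum fun B _ => ?_).trans (hsum.trans ?_)
    · refine mul_le_mul_of_nonneg_left (Real.exp_le_exp.2 ?_) (by positivity)
      exact mul_le_mul_of_nonneg_right (le_max_right _ _)
        (Finset.sum_nonneg fun _ _ => by positivity)
    · refine mul_le_mul_of_nonneg_left (Real.exp_le_exp.2 ?_) hC2.le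
      have := div_le_div_of_nonneg_right hc₀1 hθ.le
      linarith
  have hexp1 : Real.exp (-(c₀ / θ)) ≤ 1 := by
    rw [Real.exp_le_one_iff]
    have : 0 < c₀ / θ := by positivity
    linarith
  have hSone : ∀ k ∈ SL Bs, 1 ≤ k := fun k hk =>
    Nat.one_le_iff_ne_zero.2 (Nat.ne_zero_of_mem_factoredNumbers (hSfn k hk))
  have hSs : ∀ k ∈ SL Bs, 1 ≤ k ∧ Smooth y k := fun k hk => ⟨hSone k hk, cy_fn_smooth (hSfn k hk)⟩
  -- the bound in expectation
  have hEE : ∀ κ : ℝ, 0 ≤ κ → κ * Real.log y ≤ 1 / 10 → ∀ R : Finset ℕ,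
      (∀ r ∈ R, 1 ≤ r ∧ Smooth y r) →
      ∑ r ∈ R, M.EE (fun w => ‖ub (fun m => M.X m w) (SL Bs) (pl y)
        (fun p => (p : ℝ) ^ (-(1 / 2) + κ : ℝ)) (fun p => (p : ℝ) ^ (-(1 / 2) - κ : ℝ)) r‖ ^ 2) ≤
      C2 * Real.exp C2 + Real.exp (C1 * C3 + C2) := by
    intro κ hκ hκy R hR
    refine cy_EE M R (fun r w => ‖ub (fun m => M.X m w) (SL Bs) (pl y)
        (fun p => (p : ℝ) ^ (-(1 / 2) + κ : ℝ)) (fun p => (p : ℝ) ^ (-(1 / 2) - κ : ℝ)) r‖ ^ 2)
      (fun r => ?_) (fun r w => by positivity) _ fun w => ?_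
    · let := M.ms
      exact (cy_meas_ub (fun m w => M.X m w) M.meas _ _ _ _ r).norm.pow_const 2
    · refine (hkey y κ hy2 hκ hκy Bs hB hd hPL _ (M.temp w) R
        fun r hr => cy_smooth_fn (hR r hr).2).trans ?_
      have i1 : C1 * C3 * (κ * Real.log y) ^ 2 ≤ C1 * C3 := by
        have h0 : 0 ≤ κ * Real.log y := mul_nonneg hκ (Real.log_nonneg (by linarith))
        have : (κ * Real.log y) ^ 2 ≤ 1 := by nlinarith
        exact mul_le_of_le_one_right (by positivity) this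
      have i2 : C2 * Real.exp (-(c₀ / θ)) ≤ C2 := mul_le_of_le_one_right hC2.le hexp1
      have i3 : 0 ≤ C2 * Real.exp C2 := by positivity
      have i4 := Real.exp_le_exp.2 (add_le_add i1 (hsum2.trans i2))
      linarith
  refine ⟨SL Bs, h1S, fun k hk => ⟨hSone k hk, (hSle k hk).trans hprod, (hSs k hk).2⟩, ?_, ?_, ?_⟩
  · intro R hR
    refine cy_EE M R (fun r w => ‖vr (fun m => M.X m w) (SL Bs) y r‖ ^ 2)
      (fun r => ?_) (fun r w => by positivity) _ fun w => ?_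
    · let := M.ms
      rcases Nat.eq_zero_or_pos r with h0 | h0
      · subst h0
        have : ∀ w, vr (fun m => M.X m w) (SL Bs) y 0 = 0 := by
          intro w
          unfold vr
          rw [Nat.cast_zero, Real.zero_rpow (by norm_num)]
          simp
        simp only [this]
        exact measurable_const
      · simp only [vr_eq_ub _ (SL Bs) y hSone r h0]
        exact (cy_meas_ub (fun m w => M.X m w) M.meas _ _ _ _ r).norm.pow_const 2
    · have hk := hkey y 0 hy2 le_rfl (by simp) Bs hB hd hPL _ (M.temp w)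
        (insert 1 (R.filter fun r => r ∈ Nat.factoredNumbers (pl y))) (by
          intro r hr
          rcases Finset.mem_insert.1 hr with h | h
          · subst h
            exact hSfn 1 h1S
          · exact (Finset.mem_filter.1 h).2)
      have hn1 : (1 : ℕ) ∉ R.filter fun r => r ∈ Nat.factoredNumbers (pl y) := by
        intro h
        have := hR 1 (Finset.mem_filter.1 h).1
        omega
      rw [Finset.sum_insert hn1, ub_one _ (M.one w) _ _ _ _ h1S] at hk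
      simp only [zero_mul, add_zero, sub_zero, norm_one, one_pow, mul_zero, zero_add, ne_eq,
        OfNat.ofNat_ne_zero, not_false_eq_true, zero_pow] at hk
      have e1 : ∑ r ∈ R, ‖vr (fun m => M.X m w) (SL Bs) y r‖ ^ 2 =
          ∑ r ∈ R.filter (fun r => r ∈ Nat.factoredNumbers (pl y)),
            ‖ub (fun m => M.X m w) (SL Bs) (pl y) (fun p => (p : ℝ) ^ (-(1 / 2) : ℝ))
              (fun p => (p : ℝ) ^ (-(1 / 2) : ℝ)) r‖ ^ 2 := by
        rw [Finset.sum_filter]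
        refine Finset.sum_congr rfl fun r hr => ?_
        have h2 := hR r hr
        rw [vr_eq_ub _ (SL Bs) y hSone r (by omega)]
        split_ifs with h
        · rfl
        · rw [cy_ub_zero _ _ _ _ _ r hSfn h]; simp
      rw [e1]
      set t : ℝ := C2 * Real.exp (-(c₀ / θ)) with ht
      have ht0 : 0 ≤ t := by positivity
      have htC : t ≤ C2 := mul_le_of_le_one_right hC2.le hexp1
      have i1 : Real.exp t - 1 ≤ t * Real.exp t := by
        have := Real.add_one_le_exp (-t)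
        have h2 : Real.exp (-t) * Real.exp t = 1 := by rw [← Real.exp_add]; simp
        nlinarith [Real.exp_pos t]
      have i2 : t * Real.exp t ≤ t * Real.exp C2 :=
        mul_le_mul_of_nonneg_left (Real.exp_le_exp.2 htC) ht0
      have i3 := Real.exp_le_exp.2 hsum2
      have i4 : 0 ≤ Real.exp (C1 * C3 + C2) * Real.exp (-(c₀ / θ)) := by positivity
      have i5 : (C2 * Real.exp C2 + Real.exp (C1 * C3 + C2)) * Real.exp (-(c₀ / θ)) =
          t * Real.exp C2 + Real.exp (C1 * C3 + C2) * Real.exp (-(c₀ / θ)) := by rw [ht]; ring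
      rw [i5]
      linarith
  · intro R hR
    have := parseval n hn M (SL Bs) y 0 (by linarith) le_rfl (by norm_num) hSs _
      (fun R hR => hEE 0 le_rfl (by simp) R hR) R hR
    simpa using this
  · intro R hR
    have hκ0 : 0 ≤ c₀ / (θ * Real.log q) := by positivity
    have hκ1 : c₀ / (θ * Real.log q) < 1 / 4 := by
      rw [div_lt_iff₀ (by linarith)]
      linarith
    have hκ2 : c₀ / (θ * Real.log q) * Real.log y ≤ 1 / 10 := by
      rw [hlogy, div_mul_cancel₀ _ (by linarith)]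
      exact hc₀10
    exact parseval n hn M (SL Bs) y (c₀ / (θ * Real.log q)) (by linarith) hκ0 hκ1 hSs _
      (fun R hR => hEE _ hκ0 hκ2 R hR) R hR


end

end Pool.Agent.SGN
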