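import Pool.Agent.Lib_helper84.SGCF.CZ
import Pool.Agent.Lib_helper56.SGB.Final

/-!
# SGN, part C: the large sieve for the mollified sums
-/

set_option autoImplicit false

namespace Pool.Agent.SGN

open MeasureTheory Matrix Complex ProbabilityTheory Finset

noncomputable section

/-- the mollified large sieve -/
theorem IF_MLS (n : ℕ) (hn : 2 ≤ n) (M : Model n) (K : Set (Fin n → ℂ)) (hK : IsCompact K)
    (hK' : ∀ μ ∈ K, ∀ j, |(μ j).re| < 1 / 2) :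
    ∃ C κ η δ : ℝ, ∃ q₀ : ℕ, 0 < C ∧ 0 < κ ∧ κ < 1 / 4 ∧ 0 < η ∧ η < κ / 8 ∧ 0 < δ ∧
      ∀ (q : ℕ) [NeZero q], q.Prime → q₀ ≤ q →
      ∀ (β : Type) [Fintype β] (lam : β → ℕ → ℂ) (μ : β → Fin n → ℂ),
      Function.Injective lam → (∀ b, μ b ∈ K) → (∀ b, Att n q (μ b) (lam b)) →
      (Fintype.card β : ℝ) ≤ C * (q : ℝ) ^ (n : ℝ) ∧
      ∃ om : β → ℝ, (∀ b, 0 ≤ om b ∧ om b ≤ 1) ∧
        (((univ.filter fun b => om b < 1 / 2).card : ℕ) : ℝ) ≤ C * (q : ℝ) ^ ((n : ℝ) - δ) ∧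
        ∀ S : Finset ℕ, (∀ k ∈ S, 1 ≤ k ∧ (k : ℝ) ≤ (q : ℝ) ^ η) → ∀ B : ℝ, 0 ≤ B →
          (∀ (R : Finset ℚ) (Φ : ℚ → ℂ),
            (∀ r ∈ R, 0 < r ∧ (r : ℝ) ≤ (q : ℝ) ^ (1 / 2 + κ / 2) ∧ ‖Φ r‖ ≤ B) →
            ∑ b, om b * ‖∑ r ∈ R, Φ r * wtt (lam b) S r‖ ^ 2 ≤ C * (q : ℝ) ^ (n : ℝ) *
              (∑ r ∈ R, ‖Φ r‖ ^ 2 * M.EE (fun w => ‖wtt (fun m => M.X m w) S r‖ ^ 2) +
                B ^ 2 * (q : ℝ) ^ (-δ))) ∧
          ∀ (R : Finset ℕ) (Φ : ℕ → ℂ),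
            (∀ r ∈ R, 1 ≤ r ∧ (r : ℝ) ≤ (q : ℝ) ^ (1 / 2 + κ / 2) ∧ ‖Φ r‖ ≤ B) →
            ∑ b, om b * ‖∑ r ∈ R, Φ r * vt (lam b) S r‖ ^ 2 ≤ C * (q : ℝ) ^ (n : ℝ) *
              (∑ r ∈ R, ‖Φ r‖ ^ 2 * M.EE (fun w => ‖vt (fun m => M.X m w) S r‖ ^ 2) +
                B ^ 2 * (q : ℝ) ^ (-δ)) := by
  obtain ⟨C, κ, η, δ, q₀, hC, hκ, hκ1, hη, hηκ, hδ, main⟩ := IF_B n hn K hK hK'
  obtain ⟨cw, hcw, Hw⟩ := mls_wtt n (by omega) M
  obtain ⟨cv, hcv, Hv⟩ := mls_vt n (by omega) M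
  set c : ℝ := max (max cw cv) 1 with hc
  have hc1 : 1 ≤ c := le_max_right _ _
  have hcwc : cw ≤ c := (le_max_left _ _).trans (le_max_left _ _)
  have hcvc : cv ≤ c := (le_max_right _ _).trans (le_max_left _ _)
  have hc0 : 0 < c := by linarith
  set e : ℝ := min (η / (2 * c)) (min (δ / (4 * c)) (κ / 16)) with he
  have he0 : 0 < e := by
    rw [he]
    exact lt_min (by positivity) (lt_min (by positivity) (by positivity))
  have he1 : e * (2 * c) ≤ η := by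
    have : e ≤ η / (2 * c) := min_le_left _ _
    rwa [le_div_iff₀ (by positivity)] at this
  have he2 : e * (4 * c) ≤ δ := by
    have : e ≤ δ / (4 * c) := (min_le_right _ _).trans (min_le_left _ _)
    rwa [le_div_iff₀ (by positivity)] at this
  have he3 : e ≤ κ / 16 := (min_le_right _ _).trans (min_le_right _ _)
  obtain ⟨q₁, hq₁⟩ := exists_nat_ge ((2 : ℝ) ^ (8 / (3 * κ)))
  refine ⟨C, κ, e, δ / 2, max q₀ (max q₁ 2), hC, hκ, hκ1, he0, by linarith, by linarith, ?_⟩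
  intro q _ hq hqq β _ lam μ hinj hμK hatt
  have hq0 : q₀ ≤ q := (le_max_left _ _).trans hqq
  have hq1 : q₁ ≤ q := (le_max_left _ _).trans ((le_max_right _ _).trans hqq)
  have hq2 : 2 ≤ q := (le_max_right _ _).trans ((le_max_right _ _).trans hqq)
  have hqr : (2 : ℝ) ≤ q := by exact_mod_cast hq2
  have hqr1 : (1 : ℝ) ≤ q := by linarith
  have hqpos : (0 : ℝ) < q := by linarith
  obtain ⟨hcard, om, hom, hbad, hls⟩ := main q hq hq0 β lam μ hinj hμK hatt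
  refine ⟨hcard, om, hom, ?_, ?_⟩
  · refine hbad.trans (mul_le_mul_of_nonneg_left ?_ hC.le)
    exact Real.rpow_le_rpow_of_exponent_le hqr1 (by linarith)
  intro S hS B hB
  set X : ℝ := (q : ℝ) ^ e with hX
  have hX1 : 1 ≤ X := Real.one_le_rpow hqr1 he0.le
  have hXpos : 0 < X := by linarith
  set N : ℕ := ⌊(q : ℝ) ^ (1 / 2 + κ)⌋₊ with hN
  have hbig : (q : ℝ) ^ (1 / 2 + κ / 2) * X ≤ N := by
    have h1 : (2 : ℝ) ≤ (q : ℝ) ^ (3 * κ / 8) := by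
      have h2 : (2 : ℝ) ^ (8 / (3 * κ)) ≤ q := hq₁.trans (by exact_mod_cast hq1)
      have h3 : ((2 : ℝ) ^ (8 / (3 * κ))) ^ (3 * κ / 8) ≤ (q : ℝ) ^ (3 * κ / 8) :=
        Real.rpow_le_rpow (by positivity) h2 (by positivity)
      rw [← Real.rpow_mul (by norm_num)] at h3
      have h4 : 8 / (3 * κ) * (3 * κ / 8) = 1 := by field_simp
      rwa [h4, Real.rpow_one] at h3
    have h5 : (q : ℝ) ^ (1 / 2 + κ / 2) * X ≤ (q : ℝ) ^ (1 / 2 + 5 * κ / 8) := by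
      rw [hX, ← Real.rpow_add hqpos]
      exact Real.rpow_le_rpow_of_exponent_le hqr1 (by linarith)
    have h6 : (1 : ℝ) ≤ (q : ℝ) ^ (1 / 2 + 5 * κ / 8) := Real.one_le_rpow hqr1 (by linarith)
    have h7 : (q : ℝ) ^ (1 / 2 + κ) = (q : ℝ) ^ (1 / 2 + 5 * κ / 8) * (q : ℝ) ^ (3 * κ / 8) := by
      rw [← Real.rpow_add hqpos]
      congr 1
      ring
    have h8 : (q : ℝ) ^ (1 / 2 + 5 * κ / 8) + 1 ≤ (q : ℝ) ^ (1 / 2 + κ) := by
      rw [h7]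
      nlinarith
    have h9 : (q : ℝ) ^ (1 / 2 + κ) - 1 < N := by
      have := Nat.lt_floor_add_one ((q : ℝ) ^ (1 / 2 + κ))
      linarith
    linarith
  have hXη : ∀ a : ℝ, a ≤ 2 * c → X ^ a ≤ (q : ℝ) ^ η := by
    intro a ha
    rw [hX, ← Real.rpow_mul hqpos.le]
    apply Real.rpow_le_rpow_of_exponent_le hqr1
    nlinarith
  -- the words of the glue lemmas are admissible
  have hok : ∀ (V : Finset Wd), (∀ W ∈ V, (wt W : ℝ) ≤ X ^ (2 : ℕ) ∧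
      (∀ a ∈ W.1, 1 ≤ a ∧ (a : ℝ) ≤ X) ∧ ∀ b ∈ W.2, 1 ≤ b ∧ (b : ℝ) ≤ X) →
      ∀ W ∈ V, WOk q W ∧ (wt W : ℝ) ≤ (q : ℝ) ^ η := by
    intro V hV W hW
    obtain ⟨h1, h2, h3⟩ := hV W hW
    have hXq : X < q := by
      have : X ≤ (q : ℝ) ^ (1 / 2 : ℝ) := by
        rw [hX]
        exact Real.rpow_le_rpow_of_exponent_le hqr1 (by linarith)
      have h4 : (q : ℝ) ^ (1 / 2 : ℝ) < (q : ℝ) ^ (1 : ℝ) :=
        Real.rpow_lt_rpow_of_exponent_lt (by linarith) (by norm_num)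
      rw [Real.rpow_one] at h4
      linarith
    have hcop : ∀ a : ℕ, 1 ≤ a → (a : ℝ) ≤ X → Nat.Coprime a q := by
      intro a ha haX
      have : a < q := by exact_mod_cast haX.trans_lt hXq
      exact ((Nat.Prime.coprime_iff_not_dvd hq).2 fun hd => absurd (Nat.le_of_dvd (by omega) hd) (by omega)).symm
    refine ⟨⟨fun a ha => ⟨(h2 a ha).1, hcop a (h2 a ha).1 (h2 a ha).2⟩,
      fun b hb => ⟨(h3 b hb).1, hcop b (h3 b hb).1 (h3 b hb).2⟩⟩, h1.trans ?_⟩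
    rw [← Real.rpow_natCast]
    exact hXη _ (by push_cast; linarith)
  -- the final step, common to both
  have fin : ∀ (c₁ : ℝ), 0 < c₁ → c₁ ≤ c → ∀ (V : Finset Wd) (c' : ℕ → Wd → ℂ),
      (V.card : ℝ) ≤ X ^ c₁ →
      (∀ W ∈ V, (wt W : ℝ) ≤ X ^ (2 : ℕ) ∧
        (∀ a ∈ W.1, 1 ≤ a ∧ (a : ℝ) ≤ X) ∧ ∀ b ∈ W.2, 1 ≤ b ∧ (b : ℝ) ≤ X) →
      (∀ m ∈ Finset.Icc 1 N, ∀ W ∈ V, ‖c' m W‖ ≤ B * X ^ c₁ * (m : ℝ) ^ (-(1 / 2) : ℝ)) →
      ∑ b, om b * ‖xval N V c' (lam b)‖ ^ 2 ≤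
        C * (q : ℝ) ^ (n : ℝ) * (unrm n N V c' + B ^ 2 * (q : ℝ) ^ (-(δ / 2))) := by
    intro c₁ h1 h2 V c' h3 h4 h5
    refine (hls V (B * X ^ c₁) c' (by positivity) (h3.trans (hXη _ (by linarith)))
      (hok V h4) h5).trans ?_
    refine mul_le_mul_of_nonneg_left ?_ (by positivity)
    have h6 : (B * X ^ c₁) ^ 2 * (q : ℝ) ^ (-δ) ≤ B ^ 2 * (q : ℝ) ^ (-(δ / 2)) := by
      rw [mul_pow, mul_assoc]
      refine mul_le_mul_of_nonneg_left ?_ (by positivity)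
      rw [hX, ← Real.rpow_natCast, ← Real.rpow_mul hqpos.le, ← Real.rpow_mul hqpos.le,
        ← Real.rpow_add hqpos]
      apply Real.rpow_le_rpow_of_exponent_le hqr1
      push_cast
      nlinarith
    linarith
  constructor
  · intro R Φ hR
    obtain ⟨V, c', h1, h2, h3, h4, h5⟩ := Hw X hX1 S hS N B hB R Φ (fun r hr =>
      ⟨(hR r hr).1, (mul_le_mul_of_nonneg_right (hR r hr).2.1 hXpos.le).trans hbig, (hR r hr).2.2⟩)
    have := fin cw hcw hcwc V c' h1 h2 h3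
    rw [h5] at this
    simpa only [h4] using this
  · intro R Φ hR
    obtain ⟨V, c', h1, h2, h3, h4, h5⟩ := Hv X hX1 S hS N B hB R Φ (fun r hr =>
      ⟨(hR r hr).1, by
        have h6 : (r : ℝ) ≤ N := by
          have h7 : (r : ℝ) * 1 ≤ (q : ℝ) ^ (1 / 2 + κ / 2) * X :=
            mul_le_mul (hR r hr).2.1 hX1 zero_le_one (by positivity)
          linarith
        exact_mod_cast h6, (hR r hr).2.2⟩)
    have := fin cv hcv hcvc V c' h1 h2 h3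
    rw [h5] at this
    simpa only [h4] using this

end

end Pool.Agent.SGN
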