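import Pool.Agent.Lib_helper84.SGCF.HNFP
import Pool.Agent.Lib_helper84.SGCF.MLS
import Pool.Agent.Lib_helper84.SGCF.CK
import Pool.Agent.Lib_helper84.SGCF.CL
import Pool.Agent.Lib_helper84.SGCF.CM
import Pool.Agent.Lib_helper84.SGCF.CP
import Pool.Agent.Lib_helper84.SGCF.CQ
import Pool.Agent.Lib_helper84.SGCF.CV
import Pool.Agent.Lib_helper84.SGCF.CY

/-!
# SGN, part C: the interface theorems
-/

set_option autoImplicit false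

namespace Pool.Agent.SGN

open MeasureTheory Matrix Complex ProbabilityTheory Finset

noncomputable section

/-- C: the random model exists -/
theorem IF_C1 (n : ℕ) (hn : 1 ≤ n) : Nonempty (Model n) := model_exists hnf_holds n hn

/-- C: the second moment of the model is the norm on the lattices -/
theorem IF_C2 (n : ℕ) (hn : 1 ≤ n) (M : Model n) (N : ℕ) (V : Finset Wd) (c : ℕ → Wd → ℂ)
    (hV : ∀ W ∈ V, (∀ a ∈ W.1, 1 ≤ a) ∧ ∀ b ∈ W.2, 1 ≤ b) :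
    unrm n N V c = M.EE fun w => ‖xval N V c fun m => M.X m w‖ ^ 2 := unrm_eq n hn M N V c hV

/-- C: orthogonality of the charges -/
theorem IF_C3 (n : ℕ) (W W' : Wd) (hW : ∀ a ∈ W.1, 1 ≤ a) (hW2 : ∀ a ∈ W.2, 1 ≤ a)
    (hW' : ∀ a ∈ W'.1, 1 ≤ a) (hW'2 : ∀ a ∈ W'.2, 1 ≤ a)
    (h : W.1.prod * W'.2.prod ≠ W'.1.prod * W.2.prod) : cnt n W W' = 0 :=
  charge n W W' hW hW2 hW' hW'2 h

/-- C: `al` in terms of words -/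
theorem IF_C4 : ∃ c : ℝ, 0 < c ∧ ∀ k : ℕ, 1 ≤ k → ∃ (V : Finset Wd) (a : Wd → ℂ),
    (V.card : ℝ) ≤ (k : ℝ) ^ c ∧
    (∀ W ∈ V, W.2 = [] ∧ (∀ i ∈ W.1, 1 ≤ i) ∧ W.1.prod = k ∧ ‖a W‖ ≤ (k : ℝ) ^ c) ∧
    ∀ lam : ℕ → ℂ, al lam k = ∑ W ∈ V, a W * lw lam W := al_words

/-- trivial bounds for `al` at the systems with `‖lam m‖ ≤ m ^ n` -/
theorem IF_C5 (n : ℕ) (hn : 1 ≤ n) : ∃ c : ℝ, 0 < c ∧ ∀ (lam : ℕ → ℂ),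
    (∀ m : ℕ, ‖lam m‖ ≤ (m : ℝ) ^ n) → ∀ k : ℕ, 1 ≤ k → ‖al lam k‖ ≤ (k : ℝ) ^ c := al_triv n hn

/-- the rough part of the index, and the bound of the model at rough numbers -/
theorem IF_C6 (n : ℕ) (hn : 1 ≤ n) (M : Model n) (S : Finset ℕ) (y : ℝ)
    (hS : ∀ k ∈ S, 1 ≤ k ∧ Smooth y k) (w : M.Om) :
    (∀ l r : ℕ, 1 ≤ l → Rough y l → 1 ≤ r → Smooth y r →
      vt (fun m => M.X m w) S (l * r) =
        M.X l w * ((l : ℝ) ^ (-(1 / 2) : ℝ) : ℝ) * vr (fun m => M.X m w) S y r) ∧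
    (∀ (l : ℕ) (r : ℚ), 1 ≤ l → Rough y l → 0 < r → Smooth y r.num.natAbs → Smooth y r.den →
      wtt (fun m => M.X m w) S (l * r) =
        M.X l w * ((l : ℝ) ^ (-(1 / 2) : ℝ) : ℝ) * wr (fun m => M.X m w) S y r) ∧
    (∀ r : ℚ, 0 < r → ¬ Smooth y r.den → wtt (fun m => M.X m w) S r = 0) ∧
    (∀ l : ℕ, 1 ≤ l → Rough y l → 1 < y → ‖M.X l w‖ ≤ (n : ℝ) ^ (Real.log l / Real.log y)) := by
  obtain ⟨h1, h2, h3⟩ := rough_fact n hn (fun m => M.X m w) (M.temp w) S y hS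
  exact ⟨h1, h2, h3, fun l hl hr hy =>
    (temp_bound n hn (fun m => M.X m w) (M.temp w) l hl).1.trans (dn_rough n l y hn hy hl hr)⟩

/-- C: the mollifier -/
theorem IF_C7 (n : ℕ) (hn : 1 ≤ n) (M : Model n) (η : ℝ) (hη : 0 < η) :
    ∃ C c₀ θ₀ : ℝ, 0 < C ∧ 0 < c₀ ∧ 0 < θ₀ ∧ ∀ θ : ℝ, 0 < θ → θ < θ₀ → ∃ q₀ : ℕ, ∀ q : ℕ,
      q₀ ≤ q → ∃ S : Finset ℕ, 1 ∈ S ∧
        (∀ k ∈ S, 1 ≤ k ∧ (k : ℝ) ≤ (q : ℝ) ^ η ∧ Smooth ((q : ℝ) ^ θ) k) ∧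
        (∀ R : Finset ℕ, (∀ r ∈ R, 2 ≤ r) →
          ∑ r ∈ R, M.EE (fun w => ‖vr (fun m => M.X m w) S ((q : ℝ) ^ θ) r‖ ^ 2) ≤
            C * Real.exp (-(c₀ / θ))) ∧
        (∀ R : Finset ℚ, (∀ r ∈ R, 0 < r) →
          ∑ r ∈ R, M.EE (fun w => ‖wr (fun m => M.X m w) S ((q : ℝ) ^ θ) r‖ ^ 2) ≤ C) ∧
        ∀ R : Finset ℚ, (∀ r ∈ R, 0 < r) →
          ∑ r ∈ R, (r : ℝ) ^ (2 * (c₀ / (θ * Real.log q))) *
            M.EE (fun w => ‖wr (fun m => M.X m w) S ((q : ℝ) ^ θ) r‖ ^ 2) ≤ C :=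
  mollifier n hn M η hη

end

end Pool.Agent.SGN
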