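import Pool.Agent.Lib_helper84.SGN.DefsM

/-!
# Block CN: the roots of `1 / L_p`
-/

set_option autoImplicit false

namespace Pool.Agent.SGN

open MeasureTheory Matrix Complex ProbabilityTheory
open scoped ArithmeticFunction.Omega ENNReal

noncomputable section

private lemma cn_conv (x : ℕ → ℂ) (h0 : x 0 = 1) (m : ℕ) :
    ∑ i ∈ Finset.HasAntidiagonal.antidiagonal m, x i.1 * invc x i.2 = if m = 0 then 1 else 0 := by
  cases m with
  | zero => simp [h0, invc]
  | succ m =>
    rw [Finset.Nat.antidiagonal_succ, Finset.sum_cons, Finset.sum_map]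
    simp only [Nat.succ_ne_zero, if_false]
    rw [h0, one_mul]
    have h1 : invc x (m + 1) = -∑ i : Fin (m + 1), x (i + 1) * invc x (m - i) := by
      rw [invc]
    rw [h1, Finset.Nat.sum_antidiagonal_eq_sum_range_succ_mk]
    rw [Fin.sum_univ_eq_sum_range (fun i => x (i + 1) * invc x (m - i)) (m + 1)]
    simp

private lemma cn_poly (n : ℕ) (a : ℕ → ℂ) (ha0 : a 0 = 1) (ha : ∀ k : ℕ, n < k → a k = 0) :
    ∃ α : Fin n → ℂ, PowerSeries.mk a = ∏ i, (1 - PowerSeries.C (α i) * PowerSeries.X) := by
  classical
  set Q : Polynomial ℂ := ∑ k ∈ Finset.range (n + 1), Polynomial.C (a k) * Polynomial.X ^ (n - k)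
    with hQ
  have hcoeff : ∀ j : ℕ, j ≤ n → Q.coeff j = a (n - j) := by
    intro j hj
    rw [hQ, Polynomial.finsetSum_coeff]
    rw [Finset.sum_eq_single (n - j)]
    · rw [Polynomial.coeff_C_mul, Polynomial.coeff_X_pow, if_pos (by omega), mul_one]
    · intro b hb hbj
      rw [Finset.mem_range] at hb
      rw [Polynomial.coeff_C_mul, Polynomial.coeff_X_pow, if_neg (by omega), mul_zero]
    · intro h
      exact absurd (Finset.mem_range.mpr (by omega)) h
  have hdeg : Q.natDegree ≤ n := by
    rw [hQ]
    apply Polynomial.natDegree_sum_le_of_forall_le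
    intro k _
    exact le_trans (Polynomial.natDegree_C_mul_X_pow_le _ _) (by omega)
  have hmonic : Q.Monic := by
    apply Polynomial.monic_of_natDegree_le_of_coeff_eq_one n hdeg
    rw [hcoeff n le_rfl, Nat.sub_self, ha0]
  have hnd : Q.natDegree = n := by
    apply le_antisymm hdeg
    apply Polynomial.le_natDegree_of_ne_zero
    rw [hcoeff n le_rfl, Nat.sub_self, ha0]; exact one_ne_zero
  have hsplit : Q.Splits := IsAlgClosed.splits Q
  have hprod : Q = (Q.roots.map fun r => Polynomial.X - Polynomial.C r).prod :=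
    hsplit.eq_prod_roots_of_monic hmonic
  have hcard : Multiset.card Q.roots = n := by
    rw [← hnd]; exact (hsplit.natDegree_eq_card_roots).symm
  obtain ⟨l, hl⟩ : ∃ l : List ℂ, (l : Multiset ℂ) = Q.roots := ⟨Q.roots.toList, by simp⟩
  have hlen : l.length = n := by rw [← hcard, ← hl]; simp
  subst hlen
  refine ⟨fun i => l.get i, ?_⟩
  have hrev : Q.reverse = ∏ i : Fin l.length, (1 - Polynomial.C (l.get i) * Polynomial.X) := by
    have h1 : Q = ∏ i : Fin l.length, (Polynomial.X - Polynomial.C (l.get i)) := by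
      rw [hprod, ← hl]
      rw [Multiset.map_coe, Multiset.prod_coe]
      rw [← List.prod_ofFn]
      congr 1
      apply List.ext_get
      · simp
      · intro m h1 h2; simp
    rw [h1]
    have h2 : ∀ s : Finset (Fin l.length),
        (∏ i ∈ s, (Polynomial.X - Polynomial.C (l.get i))).reverse =
        ∏ i ∈ s, (1 - Polynomial.C (l.get i) * Polynomial.X) := by
      intro s
      induction s using Finset.induction_on with
      | empty =>
        simp only [Finset.prod_empty]
        rw [← Polynomial.C_1, Polynomial.reverse_C]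
      | insert i s his ih =>
        rw [Finset.prod_insert his, Finset.prod_insert his, Polynomial.reverse_mul_of_domain, ih]
        congr 1
        have : (Polynomial.X - Polynomial.C (l.get i)) =
            Polynomial.C 1 * Polynomial.X + Polynomial.C (-(l.get i)) := by
          simp [sub_eq_add_neg]
        ext k
        rw [Polynomial.coeff_reverse, Polynomial.natDegree_X_sub_C]
        rcases k with _ | _ | k
        · rw [Polynomial.revAt_le (by omega)]
          simp
        · rw [Polynomial.revAt_le (by omega)]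
          simp [Polynomial.coeff_one, Polynomial.coeff_X]
        · rw [Polynomial.revAt_eq_self_of_lt (by omega)]
          simp [Polynomial.coeff_one, Polynomial.coeff_X]
    exact h2 Finset.univ
  have hmk : PowerSeries.mk a = ((Q.reverse : Polynomial ℂ) : PowerSeries ℂ) := by
    ext k
    rw [PowerSeries.coeff_mk, Polynomial.coeff_coe, Polynomial.coeff_reverse, hnd]
    rcases le_or_gt k l.length with hk | hk
    · rw [Polynomial.revAt_le hk, hcoeff _ (by omega)]
      congr 1; omega
    · rw [Polynomial.revAt_eq_self_of_lt hk, ha k hk]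
      symm
      apply Polynomial.coeff_eq_zero_of_natDegree_lt
      omega
  rw [hmk, hrev]
  rw [← Polynomial.coeToPowerSeries.ringHom_apply, map_prod]
  apply Finset.prod_congr rfl
  intro i _
  rw [Polynomial.coeToPowerSeries.ringHom_apply]
  push_cast
  simp

private lemma cn_eval (n : ℕ) (a : ℕ → ℂ) (ha : ∀ k : ℕ, n < k → a k = 0)
    (α : Fin n → ℂ) (h : PowerSeries.mk a = ∏ i, (1 - PowerSeries.C (α i) * PowerSeries.X))
    (z : ℂ) : ∑ k ∈ Finset.range (n + 1), a k * z ^ k = ∏ i, (1 - α i * z) := by
  classical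
  set P : Polynomial ℂ := ∑ k ∈ Finset.range (n + 1), Polynomial.C (a k) * Polynomial.X ^ k
    with hP
  have h1 : ((P : Polynomial ℂ) : PowerSeries ℂ) =
      (((∏ i, (1 - Polynomial.C (α i) * Polynomial.X)) : Polynomial ℂ) : PowerSeries ℂ) := by
    have h2 : ((P : Polynomial ℂ) : PowerSeries ℂ) = PowerSeries.mk a := by
      ext k
      rw [PowerSeries.coeff_mk, Polynomial.coeff_coe, hP, Polynomial.finsetSum_coeff]
      simp only [Polynomial.coeff_C_mul, Polynomial.coeff_X_pow]
      rcases le_or_gt k n with hk | hk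
      · rw [Finset.sum_eq_single k]
        · simp
        · intro b _ hb; rw [if_neg (by omega), mul_zero]
        · intro h; exact absurd (Finset.mem_range.mpr (by omega)) h
      · rw [ha k hk]
        apply Finset.sum_eq_zero
        intro b hb
        rw [Finset.mem_range] at hb
        rw [if_neg (by omega), mul_zero]
    rw [h2, h]
    rw [← Polynomial.coeToPowerSeries.ringHom_apply, map_prod]
    apply Finset.prod_congr rfl
    intro i _
    rw [Polynomial.coeToPowerSeries.ringHom_apply]
    push_cast
    simp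
  have h3 := Polynomial.coe_injective ℂ h1
  have h4 := congrArg (Polynomial.eval z) h3
  rw [hP, Polynomial.eval_finsetSum, Polynomial.eval_prod] at h4
  simpa using h4

theorem root_alpha (n : ℕ) (hn : 1 ≤ n) (x : ℕ → ℂ) (h0 : x 0 = 1)
    (hb : ∀ j : ℕ, ‖x j‖ ≤ Nat.choose (j + n - 1) j) (hv : ∀ k : ℕ, n < k → invc x k = 0) :
    ∃ α : Fin n → ℂ, (∀ i, ‖α i‖ ≤ 1) ∧
      PowerSeries.mk (invc x) = ∏ i, (1 - PowerSeries.C (α i) * PowerSeries.X) := by
  have hi0 : invc x 0 = 1 := by rw [invc]
  obtain ⟨α, hα⟩ := cn_poly n (invc x) hi0 hv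
  refine ⟨α, ?_, hα⟩
  intro i
  by_contra hcon
  push Not at hcon
  have hαi : α i ≠ 0 := by
    intro h; rw [h, norm_zero] at hcon; linarith
  set z : ℂ := (α i)⁻¹ with hz
  have hz1 : ‖z‖ < 1 := by
    rw [hz, norm_inv]; exact inv_lt_one_of_one_lt₀ hcon
  have hev := cn_eval n (invc x) hv α hα z
  have hzero : ∏ i, (1 - α i * z) = 0 := by
    apply Finset.prod_eq_zero (Finset.mem_univ i)
    rw [hz, mul_inv_cancel₀ hαi, sub_self]
  rw [hzero] at hev
  -- the two series
  have hsum1 : Summable fun j => ‖x j * z ^ j‖ := by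
    have h1 := summable_choose_mul_geometric_of_norm_lt_one (R := ℝ) (n - 1) (r := ‖z‖)
      (by rwa [norm_norm])
    apply Summable.of_nonneg_of_le (fun j => norm_nonneg _) _ h1
    intro j
    rw [norm_mul, norm_pow]
    apply mul_le_mul_of_nonneg_right _ (by positivity)
    refine le_trans (hb j) ?_
    have h2 : j + n - 1 = j + (n - 1) := by omega
    rw [h2, Nat.choose_symm_add]
  have hsum2 : Summable fun k => ‖invc x k * z ^ k‖ := by
    apply summable_of_ne_finset_zero (s := Finset.range (n + 1))
    intro k hk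
    rw [Finset.mem_range] at hk
    rw [hv k (by omega), zero_mul, norm_zero]
  have hprod := tsum_mul_tsum_eq_tsum_sum_antidiagonal_of_summable_norm hsum1 hsum2
  have hzero2 : ∑' k, invc x k * z ^ k = 0 := by
    rw [tsum_eq_sum (s := Finset.range (n + 1)), hev]
    intro k hk
    rw [Finset.mem_range] at hk
    rw [hv k (by omega), zero_mul]
  have hone : ∑' m, ∑ kl ∈ Finset.HasAntidiagonal.antidiagonal m,
      x kl.1 * z ^ kl.1 * (invc x kl.2 * z ^ kl.2) = 1 := by
    have h3 : ∀ m, ∑ kl ∈ Finset.HasAntidiagonal.antidiagonal m,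
        x kl.1 * z ^ kl.1 * (invc x kl.2 * z ^ kl.2) = if m = 0 then 1 else 0 := by
      intro m
      have h4 : ∀ kl ∈ Finset.HasAntidiagonal.antidiagonal m,
          x kl.1 * z ^ kl.1 * (invc x kl.2 * z ^ kl.2) = (x kl.1 * invc x kl.2) * z ^ m := by
        intro kl hkl
        rw [Finset.HasAntidiagonal.mem_antidiagonal] at hkl
        rw [← hkl, pow_add]; ring
      rw [Finset.sum_congr rfl h4, ← Finset.sum_mul, cn_conv x h0 m]
      split_ifs with h5
      · subst h5; simp
      · simp
    simp only [h3]
    rw [tsum_ite_eq]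
  rw [hzero2, mul_zero, hone] at hprod
  exact zero_ne_one hprod


end

end Pool.Agent.SGN
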