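import Pool.Agent.Lib_helper84.SGN.DefsM
import Pool.Agent.Lib_helper84.SGCF.CL
import Pool.Agent.Lib_helper84.SGCF.CM

/-!
# SGN, part C: block CZ (glue for the large sieve)
-/

set_option autoImplicit false

namespace Pool.Agent.SGN

open MeasureTheory Matrix Complex ProbabilityTheory
open Pool.Agent.GLQ (re unip cube Lat Lz latt sp qq)
open scoped ArithmeticFunction.Omega ENNReal

noncomputable section

/-! ### the values of words in the model -/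

theorem cz_X_bdd {n : ℕ} (M : Model n) (m : ℕ) : ∃ C : ℝ, ∀ w, ‖M.X m w‖ ≤ C := by
  induction m using Nat.recOnPosPrimePosCoprime with
  | prime_pow p j hp hj => exact ⟨_, fun w => M.bdd p hp j w⟩
  | zero => exact ⟨0, fun w => by rw [M.zero w, norm_zero]⟩
  | one => exact ⟨1, fun w => by rw [M.one w, norm_one]⟩
  | coprime a b ha hb hab h1 h2 =>
    obtain ⟨C1, h1⟩ := h1
    obtain ⟨C2, h2⟩ := h2
    refine ⟨C1 * C2, fun w => ?_⟩
    rw [M.mul a b hab w, norm_mul]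
    exact mul_le_mul (h1 w) (h2 w) (norm_nonneg _) ((norm_nonneg _).trans (h1 w))

theorem cz_list_bdd {U : Type} (f : ℕ → U → ℂ) (hf : ∀ m, ∃ C : ℝ, ∀ w, ‖f m w‖ ≤ C)
    (l : List ℕ) : ∃ C : ℝ, ∀ w, ‖(l.map fun m => f m w).prod‖ ≤ C := by
  induction l with
  | nil => exact ⟨1, fun w => by simp⟩
  | cons a l ih =>
    obtain ⟨C1, h1⟩ := hf a
    obtain ⟨C2, h2⟩ := ih
    refine ⟨C1 * C2, fun w => ?_⟩
    rw [List.map_cons, List.prod_cons, norm_mul]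
    exact mul_le_mul (h1 w) (h2 w) (norm_nonneg _) ((norm_nonneg _).trans (h1 w))

theorem cz_list_meas {U : Type} [MeasurableSpace U] (f : ℕ → U → ℂ) (hf : ∀ m, Measurable (f m))
    (l : List ℕ) : Measurable fun w => (l.map fun m => f m w).prod := by
  induction l with
  | nil => simp
  | cons a l ih =>
    simp only [List.map_cons, List.prod_cons]
    exact (hf a).mul ih

theorem cz_lw_bdd {n : ℕ} (M : Model n) (W : Wd) :
    ∃ C : ℝ, ∀ w, ‖lw (fun m => M.X m w) W‖ ≤ C := by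
  obtain ⟨C1, h1⟩ := cz_list_bdd (fun m w => M.X m w) (cz_X_bdd M) W.1
  obtain ⟨C2, h2⟩ := cz_list_bdd (fun m w => (starRingEnd ℂ) (M.X m w)) (fun m => by
    obtain ⟨C, h⟩ := cz_X_bdd M m
    exact ⟨C, fun w => by rw [RCLike.norm_conj]; exact h w⟩) W.2
  refine ⟨C1 * C2, fun w => ?_⟩
  unfold lw
  rw [norm_mul]
  exact mul_le_mul (h1 w) (h2 w) (norm_nonneg _) ((norm_nonneg _).trans (h1 w))

theorem cz_lw_meas {n : ℕ} (M : Model n) (W : Wd) :
    @Measurable M.Om ℂ M.ms _ (fun w => lw (fun m => M.X m w) W) := by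
  let _ := M.ms
  unfold lw
  exact (cz_list_meas (fun m w => M.X m w) (fun m => M.meas m) W.1).mul
    (cz_list_meas (fun m w => (starRingEnd ℂ) (M.X m w))
      (fun m => Complex.continuous_conj.measurable.comp (M.meas m)) W.2)

/-! ### orthogonality -/

/-- sums of orthogonal bounded functions -/
theorem cz_orth {U : Type} [MeasurableSpace U] (P : Measure U) [IsProbabilityMeasure P]
    {ρ : Type} (R : Finset ρ) (f : ρ → U → ℂ) (hm : ∀ r ∈ R, Measurable (f r))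
    (hb : ∀ r ∈ R, ∃ C : ℝ, ∀ w, ‖f r w‖ ≤ C)
    (ho : ∀ r ∈ R, ∀ r' ∈ R, r ≠ r' → ∫ w, f r w * (starRingEnd ℂ) (f r' w) ∂P = 0)
    (Φ : ρ → ℂ) :
    ∫ w, ‖∑ r ∈ R, Φ r * f r w‖ ^ 2 ∂P = ∑ r ∈ R, ‖Φ r‖ ^ 2 * ∫ w, ‖f r w‖ ^ 2 ∂P := by
  classical
  have hint : ∀ r ∈ R, ∀ r' ∈ R,
      Integrable (fun w => f r w * (starRingEnd ℂ) (f r' w)) P := by
    intro r hr r' hr'
    obtain ⟨C1, h1⟩ := hb r hr
    obtain ⟨C2, h2⟩ := hb r' hr'
    refine Integrable.of_bound (C := C1 * C2)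
      ((hm r hr).mul (Complex.continuous_conj.measurable.comp (hm r' hr'))).aestronglyMeasurable
      (Filter.Eventually.of_forall fun w => ?_)
    rw [norm_mul, RCLike.norm_conj]
    exact mul_le_mul (h1 w) (h2 w) (norm_nonneg _) ((norm_nonneg _).trans (h1 w))
  have hsq : ∀ z : ℂ, ((‖z‖ ^ 2 : ℝ) : ℂ) = z * (starRingEnd ℂ) z := fun z => by
    rw [Complex.mul_conj, Complex.normSq_eq_norm_sq]
  have h1 : ((∫ w, ‖∑ r ∈ R, Φ r * f r w‖ ^ 2 ∂P : ℝ) : ℂ) =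
      ∑ r ∈ R, ∑ r' ∈ R, Φ r * (starRingEnd ℂ) (Φ r') *
        ∫ w, f r w * (starRingEnd ℂ) (f r' w) ∂P := by
    rw [← integral_complex_ofReal]
    have h2 : ∀ w, ((‖∑ r ∈ R, Φ r * f r w‖ ^ 2 : ℝ) : ℂ) =
        ∑ r ∈ R, ∑ r' ∈ R, Φ r * (starRingEnd ℂ) (Φ r') *
          (f r w * (starRingEnd ℂ) (f r' w)) := by
      intro w
      rw [hsq, map_sum, Finset.sum_mul_sum]
      refine Finset.sum_congr rfl fun r _ => Finset.sum_congr rfl fun r' _ => ?_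
      rw [map_mul]
      ring
    simp_rw [h2]
    rw [integral_finsetSum _ fun r hr => integrable_finsetSum _ fun r' hr' =>
      (hint r hr r' hr').const_mul _]
    refine Finset.sum_congr rfl fun r hr => ?_
    rw [integral_finsetSum _ fun r' hr' => (hint r hr r' hr').const_mul _]
    refine Finset.sum_congr rfl fun r' _ => ?_
    rw [integral_const_mul]
  have h3 : ∑ r ∈ R, ∑ r' ∈ R, Φ r * (starRingEnd ℂ) (Φ r') *
        ∫ w, f r w * (starRingEnd ℂ) (f r' w) ∂P =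
      ((∑ r ∈ R, ‖Φ r‖ ^ 2 * ∫ w, ‖f r w‖ ^ 2 ∂P : ℝ) : ℂ) := by
    rw [Complex.ofReal_sum]
    refine Finset.sum_congr rfl fun r hr => ?_
    rw [Finset.sum_eq_single r]
    · rw [Complex.ofReal_mul, hsq, ← integral_complex_ofReal]
      congr 1
      refine integral_congr_ae (Filter.Eventually.of_forall fun w => ?_)
      exact (hsq _).symm
    · intro r' hr' hne
      rw [ho r hr r' hr' (Ne.symm hne), mul_zero]
    · intro h; exact absurd hr h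
  rw [h3] at h1
  exact Complex.ofReal_injective h1

/-! ### the general glue -/

theorem cz_glue {n : ℕ} (hn : 1 ≤ n) (M : Model n) {τ ρ : Type} (T : Finset τ) (wd : τ → Wd)
    (R : Finset ρ) (chg : ρ → ℚ) (hchg : Function.Injective chg) (Φ : ρ → ℂ) (N : ℕ)
    (β : ρ → τ → ℂ) (μ : ρ → τ → ℕ) (F : (ℕ → ℂ) → ρ → ℂ)
    (hF : ∀ lam, ∀ r ∈ R, F lam r = ∑ t ∈ T, β r t * (lam (μ r t) * lw lam (wd t)))
    (hwd : ∀ t ∈ T, (∀ a ∈ (wd t).1, 1 ≤ a) ∧ ∀ a ∈ (wd t).2, 1 ≤ a)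
    (hβ : ∀ r ∈ R, ∀ t ∈ T, β r t ≠ 0 → 1 ≤ μ r t ∧ μ r t ≤ N ∧
      (μ r t : ℚ) * ((wd t).1.prod : ℕ) = chg r * ((wd t).2.prod : ℕ))
    (B A : ℝ) (hB : 0 ≤ B) (hA0 : 0 ≤ A) (hΦ : ∀ r ∈ R, ‖Φ r‖ ≤ B)
    (hA : ∀ r ∈ R, ∀ t ∈ T, ‖β r t‖ ≤ A * (μ r t : ℝ) ^ (-(1 / 2) : ℝ)) :
    ∃ c' : ℕ → Wd → ℂ,
      (∀ m ∈ Finset.Icc 1 N, ∀ W ∈ T.image wd,
        ‖c' m W‖ ≤ B * (T.card * A) * (m : ℝ) ^ (-(1 / 2) : ℝ)) ∧
      (∀ lam : ℕ → ℂ, xval N (T.image wd) c' lam = ∑ r ∈ R, Φ r * F lam r) ∧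
      unrm n N (T.image wd) c' =
        ∑ r ∈ R, ‖Φ r‖ ^ 2 * M.EE (fun w => ‖F (fun m => M.X m w) r‖ ^ 2) := by
  classical
  set c' : ℕ → Wd → ℂ := fun m W => ∑ t ∈ T.filter (fun t => wd t = W),
    ∑ r ∈ R.filter (fun r => μ r t = m), Φ r * β r t with hc'
  have hx : ∀ lam : ℕ → ℂ, xval N (T.image wd) c' lam = ∑ r ∈ R, Φ r * F lam r := by
    intro lam
    unfold xval
    have h1 : ∀ m ∈ Finset.Icc 1 N, ∑ W ∈ T.image wd, c' m W * lam m * lw lam W =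
        ∑ t ∈ T, ∑ r ∈ R.filter (fun r => μ r t = m),
          Φ r * (β r t * (lam (μ r t) * lw lam (wd t))) := by
      intro m _
      rw [← Finset.sum_fiberwise_of_maps_to (s := T) (t := T.image wd) (g := wd)
        (fun t ht => Finset.mem_image_of_mem wd ht)]
      refine Finset.sum_congr rfl fun W _ => ?_
      rw [hc']
      simp only
      rw [Finset.sum_mul, Finset.sum_mul]
      refine Finset.sum_congr rfl fun t ht => ?_
      rw [Finset.sum_mul, Finset.sum_mul]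
      refine Finset.sum_congr rfl fun r hr => ?_
      rw [(Finset.mem_filter.mp hr).2, (Finset.mem_filter.mp ht).2]
      ring
    rw [Finset.sum_congr rfl h1, Finset.sum_comm]
    have h2 : ∀ r ∈ R, Φ r * F lam r =
        ∑ t ∈ T, Φ r * (β r t * (lam (μ r t) * lw lam (wd t))) := by
      intro r hr
      rw [hF lam r hr, Finset.mul_sum]
    rw [Finset.sum_congr rfl h2, Finset.sum_comm (s := R) (t := T)]
    refine Finset.sum_congr rfl fun t ht => ?_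
    have h3 : ∀ m ∈ Finset.Icc 1 N, (∑ r ∈ R.filter (fun r => μ r t = m),
          Φ r * (β r t * (lam (μ r t) * lw lam (wd t)))) =
        ∑ r ∈ R, if μ r t = m then Φ r * (β r t * (lam (μ r t) * lw lam (wd t))) else 0 := by
      intro m _
      rw [Finset.sum_filter]
    rw [Finset.sum_congr rfl h3, Finset.sum_comm]
    refine Finset.sum_congr rfl fun r hr => ?_
    rw [Finset.sum_ite_eq]
    by_cases h0 : β r t = 0
    · rw [h0]; simp
    · have h4 := hβ r hr t ht h0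
      rw [if_pos (Finset.mem_Icc.mpr ⟨h4.1, h4.2.1⟩)]
  refine ⟨c', ?_, hx, ?_⟩
  · intro m hm W _
    have hm1 := (Finset.mem_Icc.mp hm).1
    have hmr : (0 : ℝ) ≤ (m : ℝ) ^ (-(1 / 2) : ℝ) := by positivity
    have h1 : ∀ t ∈ T, ‖∑ r ∈ R.filter (fun r => μ r t = m), Φ r * β r t‖ ≤
        B * A * (m : ℝ) ^ (-(1 / 2) : ℝ) := by
      intro t ht
      by_cases h : ∃ r₀ ∈ R.filter (fun r => μ r t = m), β r₀ t ≠ 0
      · obtain ⟨r₀, hr₀, h0⟩ := h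
        have hr₀' := Finset.mem_filter.mp hr₀
        rw [Finset.sum_eq_single r₀]
        · rw [norm_mul]
          have h2 := hA r₀ hr₀'.1 t ht
          rw [hr₀'.2] at h2
          calc ‖Φ r₀‖ * ‖β r₀ t‖ ≤ B * (A * (m : ℝ) ^ (-(1 / 2) : ℝ)) :=
                mul_le_mul (hΦ r₀ hr₀'.1) h2 (norm_nonneg _) hB
            _ = _ := by ring
        · intro r hr hne
          have hr' := Finset.mem_filter.mp hr
          by_contra h3
          have h4 : β r t ≠ 0 := fun h => h3 (by rw [h, mul_zero])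
          have h5 := (hβ r hr'.1 t ht h4).2.2
          have h6 := (hβ r₀ hr₀'.1 t ht h0).2.2
          rw [hr'.2] at h5
          rw [hr₀'.2, h5] at h6
          have h7 : (((wd t).2.prod : ℕ) : ℚ) ≠ 0 := by
            have : 0 < (wd t).2.prod := List.prod_pos (fun a ha => (hwd t ht).2 a ha)
            exact_mod_cast this.ne'
          exact hne (hchg (mul_right_cancel₀ h7 h6))
        · intro h; exact absurd hr₀ h
      · push Not at h
        rw [Finset.sum_eq_zero fun r hr => by rw [h r hr, mul_zero], norm_zero]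
        positivity
    rw [hc']
    simp only
    calc ‖∑ t ∈ T.filter (fun t => wd t = W),
          ∑ r ∈ R.filter (fun r => μ r t = m), Φ r * β r t‖ ≤
        ∑ t ∈ T.filter (fun t => wd t = W), B * A * (m : ℝ) ^ (-(1 / 2) : ℝ) :=
          (norm_sum_le _ _).trans
            (Finset.sum_le_sum fun t ht => h1 t (Finset.mem_filter.mp ht).1)
      _ = ((T.filter (fun t => wd t = W)).card : ℝ) * (B * A * (m : ℝ) ^ (-(1 / 2) : ℝ)) := by
          rw [Finset.sum_const, nsmul_eq_mul]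
      _ ≤ (T.card : ℝ) * (B * A * (m : ℝ) ^ (-(1 / 2) : ℝ)) := by
          refine mul_le_mul_of_nonneg_right ?_ (by positivity)
          exact_mod_cast Finset.card_filter_le _ _
      _ = _ := by ring
  · rw [unrm_eq n hn M N _ c' (by
      intro W hW
      obtain ⟨t, ht, rfl⟩ := Finset.mem_image.mp hW
      exact hwd t ht)]
    simp_rw [hx]
    let _ := M.ms
    have _ := M.pr
    have hFX : ∀ r ∈ R, ∀ w, F (fun m => M.X m w) r =
        ∑ t ∈ T, β r t * lw (fun m => M.X m w) (μ r t :: (wd t).1, (wd t).2) := by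
      intro r hr w
      rw [hF _ r hr]
      refine Finset.sum_congr rfl fun t _ => ?_
      unfold lw
      simp only [List.map_cons, List.prod_cons]
      ring
    have hbd : ∀ r ∈ R, ∃ C : ℝ, ∀ w, ‖F (fun m => M.X m w) r‖ ≤ C := by
      intro r hr
      choose C hC using fun t => cz_lw_bdd M (μ r t :: (wd t).1, (wd t).2)
      refine ⟨∑ t ∈ T, ‖β r t‖ * C t, fun w => ?_⟩
      rw [hFX r hr]
      refine (norm_sum_le _ _).trans (Finset.sum_le_sum fun t _ => ?_)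
      rw [norm_mul]
      exact mul_le_mul_of_nonneg_left (hC t w) (norm_nonneg _)
    have hms : ∀ r ∈ R, Measurable (fun w => F (fun m => M.X m w) r) := by
      intro r hr
      simp_rw [hFX r hr]
      exact Finset.measurable_sum _ fun t _ => (cz_lw_meas M _).const_mul _
    refine cz_orth M.P R (fun r w => F (fun m => M.X m w) r) hms hbd ?_ Φ
    intro r hr r' hr' hne
    have h1 : ∀ w, F (fun m => M.X m w) r * (starRingEnd ℂ) (F (fun m => M.X m w) r') =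
        ∑ t ∈ T, ∑ t' ∈ T, (β r t * (starRingEnd ℂ) (β r' t')) *
          (lw (fun m => M.X m w) (μ r t :: (wd t).1, (wd t).2) *
            (starRingEnd ℂ) (lw (fun m => M.X m w) (μ r' t' :: (wd t').1, (wd t').2))) := by
      intro w
      rw [hFX r hr, hFX r' hr', map_sum, Finset.sum_mul_sum]
      refine Finset.sum_congr rfl fun t _ => Finset.sum_congr rfl fun t' _ => ?_
      rw [map_mul]
      ring
    simp_rw [h1]
    have hint : ∀ W W' : Wd, Integrable (fun w => lw (fun m => M.X m w) W *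
        (starRingEnd ℂ) (lw (fun m => M.X m w) W')) M.P := by
      intro W W'
      obtain ⟨C1, h1⟩ := cz_lw_bdd M W
      obtain ⟨C2, h2⟩ := cz_lw_bdd M W'
      refine Integrable.of_bound (C := C1 * C2)
        ((cz_lw_meas M W).mul
          (Complex.continuous_conj.measurable.comp (cz_lw_meas M W'))).aestronglyMeasurable
        (Filter.Eventually.of_forall fun w => ?_)
      rw [norm_mul, RCLike.norm_conj]
      exact mul_le_mul (h1 w) (h2 w) (norm_nonneg _) ((norm_nonneg _).trans (h1 w))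
    rw [integral_finsetSum _ fun t _ => integrable_finsetSum _ fun t' _ =>
      (hint _ _).const_mul _]
    refine Finset.sum_eq_zero fun t ht => ?_
    rw [integral_finsetSum _ fun t' _ => (hint _ _).const_mul _]
    refine Finset.sum_eq_zero fun t' ht' => ?_
    rw [integral_const_mul]
    by_cases h0 : β r t = 0
    · rw [h0]; simp
    by_cases h0' : β r' t' = 0
    · rw [h0']; simp
    have e := hβ r hr t ht h0
    have e' := hβ r' hr' t' ht' h0'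
    have hW : ∀ a ∈ μ r t :: (wd t).1, 1 ≤ a := by
      intro a ha
      rcases List.mem_cons.mp ha with rfl | ha
      · exact e.1
      · exact (hwd t ht).1 a ha
    have hW' : ∀ a ∈ μ r' t' :: (wd t').1, 1 ≤ a := by
      intro a ha
      rcases List.mem_cons.mp ha with rfl | ha
      · exact e'.1
      · exact (hwd t' ht').1 a ha
    have hch : cnt n (μ r t :: (wd t).1, (wd t).2) (μ r' t' :: (wd t').1, (wd t').2) = 0 := by
      refine charge n _ _ hW (hwd t ht).2 hW' (hwd t' ht').2 ?_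
      intro h
      simp only [List.prod_cons] at h
      have h2 : (μ r t : ℚ) * ((wd t).1.prod : ℕ) * ((wd t').2.prod : ℕ) =
          (μ r' t' : ℚ) * ((wd t').1.prod : ℕ) * ((wd t).2.prod : ℕ) := by
        exact_mod_cast h
      rw [e.2.2, e'.2.2] at h2
      have p1 : (((wd t).2.prod : ℕ) : ℚ) ≠ 0 := by
        have : 0 < (wd t).2.prod := List.prod_pos (fun a ha => (hwd t ht).2 a ha)
        exact_mod_cast this.ne'
      have p2 : (((wd t').2.prod : ℕ) : ℚ) ≠ 0 := by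
        have : 0 < (wd t').2.prod := List.prod_pos (fun a ha => (hwd t' ht').2 a ha)
        exact_mod_cast this.ne'
      have h3 : chg r * ((((wd t).2.prod : ℕ) : ℚ) * ((wd t').2.prod : ℕ)) =
          chg r' * ((((wd t).2.prod : ℕ) : ℚ) * ((wd t').2.prod : ℕ)) := by
        linear_combination h2
      exact hne (hchg (mul_right_cancel₀ (mul_ne_zero p1 p2) h3))
    have h5 := M.mom (μ r t :: (wd t).1, (wd t).2) (μ r' t' :: (wd t').1, (wd t').2) hW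
      (hwd t ht).2 hW' (hwd t' ht').2
    rw [hch] at h5
    rw [h5]
    simp

/-! ### the words of two coefficients of the mollifier -/

/-- the index set of the words of `al` -/
def czT (S : Finset ℕ) (V : ℕ → Finset Wd) : Finset (Σ _ : ℕ, Wd) := S.sigma V

theorem cz_card (S : Finset ℕ) (X c : ℝ) (hX : 1 ≤ X) (hc : 0 < c)
    (hS : ∀ k ∈ S, 1 ≤ k ∧ (k : ℝ) ≤ X) (V : ℕ → Finset Wd)
    (hV : ∀ k ∈ S, ((V k).card : ℝ) ≤ (k : ℝ) ^ c) :
    (((czT S V) ×ˢ (czT S V)).card : ℝ) ≤ X ^ (2 + 2 * c) := by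
  have hX0 : 0 < X := by linarith
  have h1 : ((czT S V).card : ℝ) ≤ X ^ (1 + c) := by
    unfold czT
    rw [Finset.card_sigma]
    push_cast
    have h2 : ∀ k ∈ S, ((V k).card : ℝ) ≤ X ^ c := fun k hk =>
      (hV k hk).trans (Real.rpow_le_rpow (by positivity) (hS k hk).2 hc.le)
    have h3 : (S.card : ℝ) ≤ X := by
      have h4 : S ⊆ Finset.Icc 1 ⌊X⌋₊ := fun k hk =>
        Finset.mem_Icc.mpr ⟨(hS k hk).1, Nat.le_floor (hS k hk).2⟩
      have h5 := Finset.card_le_card h4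
      rw [Nat.card_Icc] at h5
      have h6 : (S.card : ℝ) ≤ (⌊X⌋₊ : ℝ) := by
        have : S.card ≤ ⌊X⌋₊ := by omega
        exact_mod_cast this
      exact h6.trans (Nat.floor_le hX0.le)
    calc ∑ k ∈ S, ((V k).card : ℝ) ≤ ∑ _k ∈ S, X ^ c := Finset.sum_le_sum h2
      _ = S.card * X ^ c := by rw [Finset.sum_const, nsmul_eq_mul]
      _ ≤ X * X ^ c := mul_le_mul_of_nonneg_right h3 (by positivity)
      _ = X ^ (1 + c) := by rw [Real.rpow_add hX0, Real.rpow_one]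
  rw [Finset.card_product]
  push_cast
  calc ((czT S V).card : ℝ) * (czT S V).card ≤ X ^ (1 + c) * X ^ (1 + c) :=
        mul_le_mul h1 h1 (by positivity) (by positivity)
    _ = X ^ (2 + 2 * c) := by
        rw [← Real.rpow_add hX0]
        congr 1
        ring

theorem cz_sum4 (S : Finset ℕ) (V : ℕ → Finset Wd) (g : ℕ → Wd → ℕ → Wd → ℂ) :
    ∑ t ∈ (czT S V) ×ˢ (czT S V), g t.1.1 t.1.2 t.2.1 t.2.2 =
      ∑ k ∈ S, ∑ k' ∈ S, ∑ W ∈ V k, ∑ W' ∈ V k', g k W k' W' := by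
  unfold czT
  rw [Finset.sum_product, Finset.sum_sigma]
  refine Finset.sum_congr rfl fun k _ => ?_
  simp_rw [Finset.sum_sigma]
  rw [Finset.sum_comm]

theorem cz_mem {S : Finset ℕ} {V : ℕ → Finset Wd} {t : (Σ _ : ℕ, Wd) × (Σ _ : ℕ, Wd)}
    (ht : t ∈ (czT S V) ×ˢ (czT S V)) :
    t.1.1 ∈ S ∧ t.1.2 ∈ V t.1.1 ∧ t.2.1 ∈ S ∧ t.2.2 ∈ V t.2.1 := by
  unfold czT at ht
  rw [Finset.mem_product, Finset.mem_sigma, Finset.mem_sigma] at ht
  exact ⟨ht.1.1, ht.1.2, ht.2.1, ht.2.2⟩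

theorem cz_le_prod {l : List ℕ} (h : ∀ a ∈ l, 1 ≤ a) {a : ℕ} (ha : a ∈ l) : a ≤ l.prod :=
  Nat.le_of_dvd (List.prod_pos fun b hb => h b hb) (List.dvd_prod ha)

theorem cz_final (B X c : ℝ) (hX : 1 ≤ X) (hB : 0 ≤ B) (T A m : ℝ) (hT : T ≤ X ^ (2 + 2 * c))
    (hA : A ≤ X ^ (2 * c)) (hA0 : 0 ≤ A) (hm : 0 ≤ m) :
    B * (T * A) * m ≤ B * X ^ (2 + 4 * c) * m := by
  have hX0 : 0 < X := by linarith
  refine mul_le_mul_of_nonneg_right (mul_le_mul_of_nonneg_left ?_ hB) hm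
  calc T * A ≤ X ^ (2 + 2 * c) * X ^ (2 * c) := mul_le_mul hT hA hA0 (by positivity)
    _ = X ^ (2 + 4 * c) := by
      rw [← Real.rpow_add hX0]
      congr 1
      ring

/-- a product of two coefficients -/
theorem cz_coef {X c : ℝ} (hX : 1 ≤ X) (hc : 0 < c) {k k' : ℕ} (hk : (k : ℝ) ≤ X)
    (hk' : (k' : ℝ) ≤ X) {a b : ℂ} (ha : ‖a‖ ≤ (k : ℝ) ^ c) (hb : ‖b‖ ≤ (k' : ℝ) ^ c) :
    ‖a‖ * ‖b‖ ≤ X ^ (2 * c) := by
  have hX0 : 0 < X := by linarith
  have h1 : ‖a‖ ≤ X ^ c := ha.trans (Real.rpow_le_rpow (by positivity) hk hc.le)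
  have h2 : ‖b‖ ≤ X ^ c := hb.trans (Real.rpow_le_rpow (by positivity) hk' hc.le)
  calc ‖a‖ * ‖b‖ ≤ X ^ c * X ^ c := mul_le_mul h1 h2 (norm_nonneg _) (by positivity)
    _ = X ^ (2 * c) := by
      rw [← Real.rpow_add hX0]
      congr 1
      ring

theorem cz_exp (x y : ℂ) (s t : Finset Wd) (f g : Wd → ℂ) :
    x * (∑ i ∈ s, f i) * (∑ j ∈ t, g j) * y = ∑ i ∈ s, ∑ j ∈ t, x * f i * g j * y := by
  rw [mul_assoc x, Finset.sum_mul_sum, Finset.mul_sum, Finset.sum_mul]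
  refine Finset.sum_congr rfl fun i _ => ?_
  rw [Finset.mul_sum, Finset.sum_mul]
  refine Finset.sum_congr rfl fun j _ => ?_
  ring

theorem cz_num {r : ℚ} (h0 : 0 < r) (h : r.den = 1) : ((r.num.natAbs : ℕ) : ℚ) = r := by
  have h1 : 0 < r.num := Rat.num_pos.mpr h0
  have h2 : ((r.num.natAbs : ℕ) : ℤ) = r.num := Int.natAbs_of_nonneg h1.le
  rw [← Int.cast_natCast, h2]
  exact Rat.coe_int_num_of_den_eq_one h

/-! ### the sums `wtt` -/

open Classical in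
theorem mls_wtt (n : ℕ) (hn : 1 ≤ n) (M : Model n) : ∃ c : ℝ, 0 < c ∧ ∀ (X : ℝ), 1 ≤ X →
    ∀ (S : Finset ℕ), (∀ k ∈ S, 1 ≤ k ∧ (k : ℝ) ≤ X) → ∀ (N : ℕ) (B : ℝ), 0 ≤ B →
    ∀ (R : Finset ℚ) (Φ : ℚ → ℂ), (∀ r ∈ R, 0 < r ∧ (r : ℝ) * X ≤ N ∧ ‖Φ r‖ ≤ B) →
    ∃ (V : Finset Wd) (c' : ℕ → Wd → ℂ), (V.card : ℝ) ≤ X ^ c ∧
      (∀ W ∈ V, (wt W : ℝ) ≤ X ^ (2 : ℕ) ∧ (∀ a ∈ W.1, 1 ≤ a ∧ (a : ℝ) ≤ X) ∧
        ∀ b ∈ W.2, 1 ≤ b ∧ (b : ℝ) ≤ X) ∧
      (∀ m ∈ Finset.Icc 1 N, ∀ W ∈ V, ‖c' m W‖ ≤ B * X ^ c * (m : ℝ) ^ (-(1 / 2) : ℝ)) ∧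
      (∀ lam : ℕ → ℂ, xval N V c' lam = ∑ r ∈ R, Φ r * wtt lam S r) ∧
      unrm n N V c' =
        ∑ r ∈ R, ‖Φ r‖ ^ 2 * M.EE (fun w => ‖wtt (fun m => M.X m w) S r‖ ^ 2) := by
  obtain ⟨c, hc, hal⟩ := al_words
  refine ⟨2 + 4 * c, by linarith, fun X hX S hS N B hB R Φ hR => ?_⟩
  have hX0 : 0 < X := by linarith
  have hal' : ∀ k : ℕ, ∃ (V : Finset Wd) (a : Wd → ℂ), 1 ≤ k → ((V.card : ℝ) ≤ (k : ℝ) ^ c ∧
      (∀ W ∈ V, W.2 = [] ∧ (∀ i ∈ W.1, 1 ≤ i) ∧ W.1.prod = k ∧ ‖a W‖ ≤ (k : ℝ) ^ c) ∧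
      ∀ lam : ℕ → ℂ, al lam k = ∑ W ∈ V, a W * lw lam W) := by
    intro k
    by_cases hk : 1 ≤ k
    · obtain ⟨V, a, h⟩ := hal k hk
      exact ⟨V, a, fun _ => h⟩
    · exact ⟨∅, fun _ => 0, fun h => absurd h hk⟩
  choose Vk ak hVa using hal'
  set T := (czT S Vk) ×ˢ (czT S Vk) with hT
  set wd : (Σ _ : ℕ, Wd) × (Σ _ : ℕ, Wd) → Wd := fun t => (t.1.2.1, t.2.2.1) with hwd
  set μ : ℚ → (Σ _ : ℕ, Wd) × (Σ _ : ℕ, Wd) → ℕ :=
    fun r t => (r * t.2.1 / t.1.1).num.natAbs with hμ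
  set β : ℚ → (Σ _ : ℕ, Wd) × (Σ _ : ℕ, Wd) → ℂ := fun r t =>
    if (r * t.2.1 / t.1.1).den = 1 then
      ak t.1.1 t.1.2 * (starRingEnd ℂ) (ak t.2.1 t.2.2) *
        (((((r * t.2.1 / t.1.1).num.natAbs : ℝ) * t.1.1 * t.2.1) ^ (-(1 / 2) : ℝ) : ℝ) : ℂ)
    else 0 with hβ
  have hmem : ∀ t ∈ T, (1 ≤ t.1.1 ∧ (t.1.1 : ℝ) ≤ X) ∧ (1 ≤ t.2.1 ∧ (t.2.1 : ℝ) ≤ X) ∧
      (t.1.2.2 = [] ∧ (∀ i ∈ t.1.2.1, 1 ≤ i) ∧ t.1.2.1.prod = t.1.1 ∧
        ‖ak t.1.1 t.1.2‖ ≤ (t.1.1 : ℝ) ^ c) ∧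
      (t.2.2.2 = [] ∧ (∀ i ∈ t.2.2.1, 1 ≤ i) ∧ t.2.2.1.prod = t.2.1 ∧
        ‖ak t.2.1 t.2.2‖ ≤ (t.2.1 : ℝ) ^ c) := by
    intro t ht
    obtain ⟨h1, h2, h3, h4⟩ := cz_mem ht
    have h5 := hS _ h1
    have h6 := hS _ h3
    exact ⟨h5, h6, (hVa _ h5.1).2.1 _ h2, (hVa _ h6.1).2.1 _ h4⟩
  have hF : ∀ lam : ℕ → ℂ, ∀ r ∈ R,
      wtt lam S r = ∑ t ∈ T, β r t * (lam (μ r t) * lw lam (wd t)) := by
    intro lam r _
    have h1 := cz_sum4 S Vk fun k W k' W' =>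
      (if (r * k' / k).den = 1 then
        ak k W * (starRingEnd ℂ) (ak k' W') *
          (((((r * k' / k).num.natAbs : ℝ) * k * k') ^ (-(1 / 2) : ℝ) : ℝ) : ℂ)
      else 0) * (lam (r * k' / k).num.natAbs * lw lam (W.1, W'.1))
    rw [hT]
    refine Eq.trans ?_ h1.symm
    unfold wtt
    refine Finset.sum_congr rfl fun k hk => Finset.sum_congr rfl fun k' hk' => ?_
    split_ifs with hd
    · have e1 := (hVa k (hS k hk).1)
      have e2 := (hVa k' (hS k' hk').1)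
      rw [e1.2.2 lam, e2.2.2 lam, map_sum, cz_exp]
      refine Finset.sum_congr rfl fun W hW => Finset.sum_congr rfl fun W' hW' => ?_
      have f1 := (e1.2.1 W hW).1
      have f2 := (e2.2.1 W' hW').1
      have g1 : lw lam W = (W.1.map lam).prod := by
        unfold lw
        rw [f1]
        simp
      have g2 : (starRingEnd ℂ) (lw lam W') =
          (W'.1.map fun b => (starRingEnd ℂ) (lam b)).prod := by
        unfold lw
        rw [f2]
        simp only [List.map_nil, List.prod_nil, mul_one]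
        rw [map_list_prod, List.map_map]
        rfl
      rw [map_mul, g1, g2]
      unfold lw
      ring
    · symm
      refine Finset.sum_eq_zero fun W _ => Finset.sum_eq_zero fun W' _ => ?_
      rw [zero_mul]
  have hwd' : ∀ t ∈ T, (∀ a ∈ (wd t).1, 1 ≤ a) ∧ ∀ a ∈ (wd t).2, 1 ≤ a := by
    intro t ht
    obtain ⟨_, _, h3, h4⟩ := hmem t ht
    exact ⟨h3.2.1, h4.2.1⟩
  have hβ' : ∀ r ∈ R, ∀ t ∈ T, β r t ≠ 0 → 1 ≤ μ r t ∧ μ r t ≤ N ∧
      (μ r t : ℚ) * ((wd t).1.prod : ℕ) = r * ((wd t).2.prod : ℕ) := by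
    intro r hr t ht h0
    obtain ⟨⟨k1, k2⟩, ⟨k3, k4⟩, h3, h4⟩ := hmem t ht
    obtain ⟨hr0, hrN, _⟩ := hR r hr
    have hd : (r * t.2.1 / t.1.1).den = 1 := by
      by_contra hd
      exact h0 (by rw [hβ]; simp only; rw [if_neg hd])
    have p1 : (0 : ℚ) < t.1.1 := by exact_mod_cast k1
    have p2 : (0 : ℚ) < t.2.1 := by exact_mod_cast k3
    have hq0 : 0 < r * t.2.1 / t.1.1 := by positivity
    have hq := cz_num hq0 hd
    have hq' : ((μ r t : ℕ) : ℚ) = r * t.2.1 / t.1.1 := hq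
    refine ⟨?_, ?_, ?_⟩
    · have : (0 : ℚ) < ((μ r t : ℕ) : ℚ) := by rw [hq']; exact hq0
      exact_mod_cast this
    · have h5 : (((μ r t : ℕ) : ℚ) : ℝ) ≤ N := by
        rw [hq']
        push_cast
        have p3 : (1 : ℝ) ≤ t.1.1 := by exact_mod_cast k1
        have p4 : (0 : ℝ) < r := by exact_mod_cast hr0
        rw [div_le_iff₀ (by linarith)]
        have p5 : (r : ℝ) * t.2.1 ≤ r * X := mul_le_mul_of_nonneg_left k4 p4.le
        have p6 : (0 : ℝ) ≤ N := by positivity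
        nlinarith
      have h6 : ((μ r t : ℕ) : ℝ) ≤ N := by
        have : (((μ r t : ℕ) : ℚ) : ℝ) = ((μ r t : ℕ) : ℝ) := by push_cast; rfl
        rw [← this]; exact h5
      exact_mod_cast h6
    · have e1 : (wd t).1.prod = t.1.1 := h3.2.2.1
      have e2 : (wd t).2.prod = t.2.1 := h4.2.2.1
      rw [e1, e2, hq', div_mul_cancel₀ _ p1.ne']
  have hA : ∀ r ∈ R, ∀ t ∈ T, ‖β r t‖ ≤ X ^ (2 * c) * (μ r t : ℝ) ^ (-(1 / 2) : ℝ) := by
    intro r hr t ht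
    obtain ⟨⟨k1, k2⟩, ⟨k3, k4⟩, h3, h4⟩ := hmem t ht
    by_cases hd : (r * t.2.1 / t.1.1).den = 1
    · have e : β r t = ak t.1.1 t.1.2 * (starRingEnd ℂ) (ak t.2.1 t.2.2) *
        (((((r * t.2.1 / t.1.1).num.natAbs : ℝ) * t.1.1 * t.2.1) ^ (-(1 / 2) : ℝ) : ℝ) : ℂ) := by
        rw [hβ]; simp only; rw [if_pos hd]
      have e' : (r * t.2.1 / t.1.1).num.natAbs = μ r t := rfl
      rw [e, norm_mul, norm_mul, RCLike.norm_conj, e', Complex.norm_real,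
        Real.norm_of_nonneg (by positivity)]
      refine mul_le_mul (cz_coef hX hc k2 k4 h3.2.2.2 h4.2.2.2) ?_ (by positivity) (by positivity)
      have q1 : (1 : ℝ) ≤ t.1.1 := by exact_mod_cast k1
      have q2 : (1 : ℝ) ≤ t.2.1 := by exact_mod_cast k3
      have q3 : (0 : ℝ) ≤ μ r t := by positivity
      rw [mul_assoc, Real.mul_rpow q3 (by positivity)]
      have q4 : ((t.1.1 : ℝ) * t.2.1) ^ (-(1 / 2) : ℝ) ≤ 1 :=
        Real.rpow_le_one_of_one_le_of_nonpos (by nlinarith) (by norm_num)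
      calc (μ r t : ℝ) ^ (-(1 / 2) : ℝ) * ((t.1.1 : ℝ) * t.2.1) ^ (-(1 / 2) : ℝ) ≤
          (μ r t : ℝ) ^ (-(1 / 2) : ℝ) * 1 := mul_le_mul_of_nonneg_left q4 (by positivity)
        _ = _ := mul_one _
    · have e : β r t = 0 := by
        rw [hβ]; simp only; rw [if_neg hd]
      rw [e, norm_zero]
      positivity
  obtain ⟨c', h1, h2, h3⟩ := cz_glue hn M T wd R (fun r => r) (fun _ _ h => h) Φ N β μ
    (fun lam r => wtt lam S r) hF hwd' hβ' B (X ^ (2 * c)) hB (by positivity)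
    (fun r hr => (hR r hr).2.2) hA
  have hTc : (T.card : ℝ) ≤ X ^ (2 + 2 * c) :=
    cz_card S X c hX hc hS Vk fun k hk => (hVa k (hS k hk).1).1
  refine ⟨T.image wd, c', ?_, ?_, ?_, h2, h3⟩
  · calc ((T.image wd).card : ℝ) ≤ T.card := by exact_mod_cast Finset.card_image_le
      _ ≤ X ^ (2 + 2 * c) := hTc
      _ ≤ X ^ (2 + 4 * c) := Real.rpow_le_rpow_of_exponent_le hX (by linarith)
  · intro W hW
    obtain ⟨t, ht, rfl⟩ := Finset.mem_image.mp hW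
    obtain ⟨⟨k1, k2⟩, ⟨k3, k4⟩, h3, h4⟩ := hmem t ht
    have e1 : (wd t).1.prod = t.1.1 := h3.2.2.1
    have e2 : (wd t).2.prod = t.2.1 := h4.2.2.1
    refine ⟨?_, ?_, ?_⟩
    · unfold wt
      rw [e1, e2]
      push_cast
      rw [sq]
      exact mul_le_mul k2 k4 (by positivity) hX0.le
    · intro a ha
      refine ⟨h3.2.1 a ha, le_trans ?_ k2⟩
      have := cz_le_prod h3.2.1 ha
      rw [h3.2.2.1] at this
      exact_mod_cast this
    · intro a ha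
      refine ⟨h4.2.1 a ha, le_trans ?_ k4⟩
      have := cz_le_prod h4.2.1 ha
      rw [h4.2.2.1] at this
      exact_mod_cast this
  · intro m hm W hW
    exact (h1 m hm W hW).trans
      (cz_final B X c hX hB _ _ _ hTc le_rfl (by positivity) (by positivity))

/-! ### the sums `vt` -/

open Classical in
theorem mls_vt (n : ℕ) (hn : 1 ≤ n) (M : Model n) : ∃ c : ℝ, 0 < c ∧ ∀ (X : ℝ), 1 ≤ X →
    ∀ (S : Finset ℕ), (∀ k ∈ S, 1 ≤ k ∧ (k : ℝ) ≤ X) → ∀ (N : ℕ) (B : ℝ), 0 ≤ B →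
    ∀ (R : Finset ℕ) (Φ : ℕ → ℂ), (∀ r ∈ R, 1 ≤ r ∧ r ≤ N ∧ ‖Φ r‖ ≤ B) →
    ∃ (V : Finset Wd) (c' : ℕ → Wd → ℂ), (V.card : ℝ) ≤ X ^ c ∧
      (∀ W ∈ V, (wt W : ℝ) ≤ X ^ (2 : ℕ) ∧ (∀ a ∈ W.1, 1 ≤ a ∧ (a : ℝ) ≤ X) ∧
        ∀ b ∈ W.2, 1 ≤ b ∧ (b : ℝ) ≤ X) ∧
      (∀ m ∈ Finset.Icc 1 N, ∀ W ∈ V, ‖c' m W‖ ≤ B * X ^ c * (m : ℝ) ^ (-(1 / 2) : ℝ)) ∧
      (∀ lam : ℕ → ℂ, xval N V c' lam = ∑ r ∈ R, Φ r * vt lam S r) ∧
      unrm n N V c' =
        ∑ r ∈ R, ‖Φ r‖ ^ 2 * M.EE (fun w => ‖vt (fun m => M.X m w) S r‖ ^ 2) := by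
  obtain ⟨c, hc, hal⟩ := al_words
  refine ⟨2 + 4 * c, by linarith, fun X hX S hS N B hB R Φ hR => ?_⟩
  have hX0 : 0 < X := by linarith
  have hal' : ∀ k : ℕ, ∃ (V : Finset Wd) (a : Wd → ℂ), 1 ≤ k → ((V.card : ℝ) ≤ (k : ℝ) ^ c ∧
      (∀ W ∈ V, W.2 = [] ∧ (∀ i ∈ W.1, 1 ≤ i) ∧ W.1.prod = k ∧ ‖a W‖ ≤ (k : ℝ) ^ c) ∧
      ∀ lam : ℕ → ℂ, al lam k = ∑ W ∈ V, a W * lw lam W) := by
    intro k
    by_cases hk : 1 ≤ k
    · obtain ⟨V, a, h⟩ := hal k hk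
      exact ⟨V, a, fun _ => h⟩
    · exact ⟨∅, fun _ => 0, fun h => absurd h hk⟩
  choose Vk ak hVa using hal'
  set T := (czT S Vk) ×ˢ (czT S Vk) with hT
  set wd : (Σ _ : ℕ, Wd) × (Σ _ : ℕ, Wd) → Wd := fun t => (t.1.2.1 ++ t.2.2.1, []) with hwd
  set μ : ℕ → (Σ _ : ℕ, Wd) × (Σ _ : ℕ, Wd) → ℕ := fun r t => r / (t.1.1 * t.2.1) with hμ
  set β : ℕ → (Σ _ : ℕ, Wd) × (Σ _ : ℕ, Wd) → ℂ := fun r t =>
    if t.1.1 * t.2.1 ∣ r then
      ak t.1.1 t.1.2 * ak t.2.1 t.2.2 * (((r : ℝ) ^ (-(1 / 2) : ℝ) : ℝ) : ℂ)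
    else 0 with hβ
  have hmem : ∀ t ∈ T, (1 ≤ t.1.1 ∧ (t.1.1 : ℝ) ≤ X) ∧ (1 ≤ t.2.1 ∧ (t.2.1 : ℝ) ≤ X) ∧
      (t.1.2.2 = [] ∧ (∀ i ∈ t.1.2.1, 1 ≤ i) ∧ t.1.2.1.prod = t.1.1 ∧
        ‖ak t.1.1 t.1.2‖ ≤ (t.1.1 : ℝ) ^ c) ∧
      (t.2.2.2 = [] ∧ (∀ i ∈ t.2.2.1, 1 ≤ i) ∧ t.2.2.1.prod = t.2.1 ∧
        ‖ak t.2.1 t.2.2‖ ≤ (t.2.1 : ℝ) ^ c) := by
    intro t ht
    obtain ⟨h1, h2, h3, h4⟩ := cz_mem ht
    have h5 := hS _ h1
    have h6 := hS _ h3
    exact ⟨h5, h6, (hVa _ h5.1).2.1 _ h2, (hVa _ h6.1).2.1 _ h4⟩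
  have hF : ∀ lam : ℕ → ℂ, ∀ r ∈ R,
      vt lam S r = ∑ t ∈ T, β r t * (lam (μ r t) * lw lam (wd t)) := by
    intro lam r _
    have h1 := cz_sum4 S Vk fun k W k' W' =>
      (if k * k' ∣ r then ak k W * ak k' W' * (((r : ℝ) ^ (-(1 / 2) : ℝ) : ℝ) : ℂ) else 0) *
        (lam (r / (k * k')) * lw lam (W.1 ++ W'.1, []))
    rw [hT]
    refine Eq.trans ?_ h1.symm
    unfold vt
    rw [Finset.mul_sum]
    refine Finset.sum_congr rfl fun k hk => ?_
    rw [Finset.mul_sum]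
    refine Finset.sum_congr rfl fun k' hk' => ?_
    split_ifs with hd
    · have e1 := (hVa k (hS k hk).1)
      have e2 := (hVa k' (hS k' hk').1)
      rw [e1.2.2 lam, e2.2.2 lam, mul_comm, cz_exp]
      refine Finset.sum_congr rfl fun W hW => Finset.sum_congr rfl fun W' hW' => ?_
      have f1 := (e1.2.1 W hW).1
      have f2 := (e2.2.1 W' hW').1
      have g1 : lw lam W = (W.1.map lam).prod := by
        unfold lw
        rw [f1]
        simp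
      have g2 : lw lam W' = (W'.1.map lam).prod := by
        unfold lw
        rw [f2]
        simp
      rw [g1, g2]
      unfold lw
      simp only [List.map_append, List.prod_append, List.map_nil, List.prod_nil, mul_one]
      ring
    · symm
      rw [mul_zero]
      refine Finset.sum_eq_zero fun W _ => Finset.sum_eq_zero fun W' _ => ?_
      rw [zero_mul]
  have hwd' : ∀ t ∈ T, (∀ a ∈ (wd t).1, 1 ≤ a) ∧ ∀ a ∈ (wd t).2, 1 ≤ a := by
    intro t ht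
    obtain ⟨_, _, h3, h4⟩ := hmem t ht
    refine ⟨fun a ha => ?_, fun a ha => absurd ha (by simp [hwd])⟩
    rcases List.mem_append.mp ha with ha | ha
    · exact h3.2.1 a ha
    · exact h4.2.1 a ha
  have hβ' : ∀ r ∈ R, ∀ t ∈ T, β r t ≠ 0 → 1 ≤ μ r t ∧ μ r t ≤ N ∧
      (μ r t : ℚ) * ((wd t).1.prod : ℕ) = (r : ℚ) * ((wd t).2.prod : ℕ) := by
    intro r hr t ht h0
    obtain ⟨⟨k1, k2⟩, ⟨k3, k4⟩, h3, h4⟩ := hmem t ht
    obtain ⟨hr0, hrN, _⟩ := hR r hr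
    have hd : t.1.1 * t.2.1 ∣ r := by
      by_contra hd
      exact h0 (by rw [hβ]; simp only; rw [if_neg hd])
    have hp : 0 < t.1.1 * t.2.1 := by positivity
    refine ⟨Nat.div_pos (Nat.le_of_dvd (by omega) hd) hp, (Nat.div_le_self _ _).trans hrN, ?_⟩
    have e1 : (wd t).1.prod = t.1.1 * t.2.1 := by
      rw [hwd]; simp only; rw [List.prod_append, h3.2.2.1, h4.2.2.1]
    have e2 : (wd t).2.prod = 1 := by rw [hwd]; rfl
    rw [e1, e2]
    have e3 : μ r t * (t.1.1 * t.2.1) = r := Nat.div_mul_cancel hd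
    have e4 : ((μ r t * (t.1.1 * t.2.1) : ℕ) : ℚ) = r := by rw [e3]
    push_cast at e4 ⊢
    linarith
  have hA : ∀ r ∈ R, ∀ t ∈ T, ‖β r t‖ ≤ X ^ (2 * c) * (μ r t : ℝ) ^ (-(1 / 2) : ℝ) := by
    intro r hr t ht
    obtain ⟨⟨k1, k2⟩, ⟨k3, k4⟩, h3, h4⟩ := hmem t ht
    by_cases hd : t.1.1 * t.2.1 ∣ r
    · have e : β r t = ak t.1.1 t.1.2 * ak t.2.1 t.2.2 *
          (((r : ℝ) ^ (-(1 / 2) : ℝ) : ℝ) : ℂ) := by
        rw [hβ]; simp only; rw [if_pos hd]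
      rw [e, norm_mul, norm_mul, Complex.norm_real, Real.norm_of_nonneg (by positivity)]
      refine mul_le_mul (cz_coef hX hc k2 k4 h3.2.2.2 h4.2.2.2) ?_ (by positivity) (by positivity)
      have hp : 0 < t.1.1 * t.2.1 := by positivity
      have q1 : 1 ≤ μ r t := Nat.div_pos (Nat.le_of_dvd (by have := (hR r hr).1; omega) hd) hp
      have q2 : μ r t ≤ r := Nat.div_le_self _ _
      exact Real.rpow_le_rpow_of_nonpos (by exact_mod_cast q1) (by exact_mod_cast q2)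
        (by norm_num)
    · have e : β r t = 0 := by
        rw [hβ]; simp only; rw [if_neg hd]
      rw [e, norm_zero]
      positivity
  obtain ⟨c', h1, h2, h3⟩ := cz_glue hn M T wd R (fun r : ℕ => (r : ℚ))
    (fun _ _ h => Nat.cast_injective h) Φ N β μ
    (fun lam r => vt lam S r) hF hwd' hβ' B (X ^ (2 * c)) hB (by positivity)
    (fun r hr => (hR r hr).2.2) hA
  have hTc : (T.card : ℝ) ≤ X ^ (2 + 2 * c) :=
    cz_card S X c hX hc hS Vk fun k hk => (hVa k (hS k hk).1).1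
  refine ⟨T.image wd, c', ?_, ?_, ?_, h2, h3⟩
  · calc ((T.image wd).card : ℝ) ≤ T.card := by exact_mod_cast Finset.card_image_le
      _ ≤ X ^ (2 + 2 * c) := hTc
      _ ≤ X ^ (2 + 4 * c) := Real.rpow_le_rpow_of_exponent_le hX (by linarith)
  · intro W hW
    obtain ⟨t, ht, rfl⟩ := Finset.mem_image.mp hW
    obtain ⟨⟨k1, k2⟩, ⟨k3, k4⟩, h3, h4⟩ := hmem t ht
    refine ⟨?_, ?_, ?_⟩
    · unfold wt
      have e1 : (wd t).1.prod = t.1.1 * t.2.1 := by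
        rw [hwd]; simp only; rw [List.prod_append, h3.2.2.1, h4.2.2.1]
      have e2 : (wd t).2.prod = 1 := by rw [hwd]; rfl
      rw [e1, e2, mul_one]
      push_cast
      rw [sq]
      exact mul_le_mul k2 k4 (by positivity) hX0.le
    · intro a ha
      rcases List.mem_append.mp ha with ha | ha
      · refine ⟨h3.2.1 a ha, le_trans ?_ k2⟩
        have := cz_le_prod h3.2.1 ha
        rw [h3.2.2.1] at this
        exact_mod_cast this
      · refine ⟨h4.2.1 a ha, le_trans ?_ k4⟩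
        have := cz_le_prod h4.2.1 ha
        rw [h4.2.2.1] at this
        exact_mod_cast this
    · intro a ha
      exact absurd ha (by simp [hwd])
  · intro m hm W hW
    exact (h1 m hm W hW).trans
      (cz_final B X c hX hB _ _ _ hTc le_rfl (by positivity) (by positivity))

end

end Pool.Agent.SGN
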