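import Pool.Agent.Lib_helper84.SGCF.HNFD
import Pool.Agent.Lib_helper56.SGB.F.HA1
import Pool.Agent.Lib_helper56.SGB.F.HA2
import Pool.Agent.Lib_helper56.SGB.F.HB

/-!
# SGN, part C: existence and uniqueness of Hermite normal forms (from part B)
-/

set_option autoImplicit false

namespace Pool.Agent.SGN

open Matrix

noncomputable section

/-- a diagonal matrix of determinant `-1` -/
def sgc_flip (n : ℕ) : Matrix (Fin (n + 1)) (Fin (n + 1)) ℤ :=
  Matrix.diagonal fun i => if i = 0 then -1 else 1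

theorem sgc_flip_det (n : ℕ) : (sgc_flip n).det = -1 := by
  unfold sgc_flip
  rw [Matrix.det_diagonal, Fin.prod_univ_succ]
  simp

theorem sgc_flip_sq (n : ℕ) : sgc_flip n * sgc_flip n = 1 := by
  unfold sgc_flip
  rw [Matrix.diagonal_mul_diagonal, ← Matrix.diagonal_one]
  congr 1
  funext i
  split_ifs <;> simp

theorem sgc_exR {n : ℕ} (a : Matrix (Fin n) (Fin n) ℤ) (ha : a.det ≠ 0) :
    ∃ p : (Fin n → Fin n → ℤ) × Matrix (Fin n) (Fin n) ℤ, p.1 ∈ repR n a.det.natAbs ∧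
      IsUnit p.2.det ∧ a = Matrix.of p.1 * p.2 := by
  have hk : 1 ≤ a.det.natAbs := Int.natAbs_pos.2 ha
  rcases lt_or_gt_of_ne ha with h | h
  · cases n with
    | zero => simp at h
    | succ n =>
      have h1 : (a * sgc_flip n).det = (a.det.natAbs : ℤ) := by
        rw [Matrix.det_mul, sgc_flip_det]
        omega
      obtain ⟨a', ha', γ, hγ⟩ := SGB.hnfR hk _ h1
      refine ⟨(a', γ.1 * sgc_flip n), ha', ?_, ?_⟩
      · rw [Matrix.det_mul, sgc_flip_det, γ.2]
        decide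
      · have h2 : a * sgc_flip n * sgc_flip n = Matrix.of a' * γ.1 * sgc_flip n := by rw [hγ]
        rw [Matrix.mul_assoc, sgc_flip_sq, Matrix.mul_one] at h2
        rw [h2, Matrix.mul_assoc]
  · have h1 : a.det = (a.det.natAbs : ℤ) := by omega
    obtain ⟨a', ha', γ, hγ⟩ := SGB.hnfR hk _ h1
    exact ⟨(a', γ.1), ha', by rw [γ.2]; exact isUnit_one, hγ⟩

theorem sgc_exL {n : ℕ} (a : Matrix (Fin n) (Fin n) ℤ) (ha : a.det ≠ 0) :
    ∃ p : (Fin n → Fin n → ℤ) × Matrix (Fin n) (Fin n) ℤ, p.1 ∈ repL n a.det.natAbs ∧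
      IsUnit p.2.det ∧ a = p.2 * Matrix.of p.1 := by
  have hk : 1 ≤ a.det.natAbs := Int.natAbs_pos.2 ha
  rcases lt_or_gt_of_ne ha with h | h
  · cases n with
    | zero => simp at h
    | succ n =>
      have h1 : (sgc_flip n * a).det = (a.det.natAbs : ℤ) := by
        rw [Matrix.det_mul, sgc_flip_det]
        omega
      obtain ⟨a', ha', γ, hγ⟩ := SGB.hnfL hk _ h1
      refine ⟨(a', sgc_flip n * γ.1), ha', ?_, ?_⟩
      · rw [Matrix.det_mul, sgc_flip_det, γ.2]
        decide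
      · have h2 : sgc_flip n * (sgc_flip n * a) = sgc_flip n * (γ.1 * Matrix.of a') := by rw [hγ]
        rw [← Matrix.mul_assoc, sgc_flip_sq, Matrix.one_mul] at h2
        rw [h2, Matrix.mul_assoc]
  · have h1 : a.det = (a.det.natAbs : ℤ) := by omega
    obtain ⟨a', ha', γ, hγ⟩ := SGB.hnfL hk _ h1
    exact ⟨(a', γ.1), ha', by rw [γ.2]; exact isUnit_one, hγ⟩

theorem sgc_inj {n : ℕ} {a b c : Matrix (Fin n) (Fin n) ℤ} (ha : a.det ≠ 0) (h : a * b = a * c) :
    b = c := by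
  have h1 : a.adjugate * (a * b) = a.adjugate * (a * c) := by rw [h]
  rw [← Matrix.mul_assoc, ← Matrix.mul_assoc, Matrix.adjugate_mul, Matrix.smul_mul,
    Matrix.smul_mul, Matrix.one_mul, Matrix.one_mul] at h1
  ext i j
  have h2 := congrFun (congrFun h1 i) j
  simp only [Matrix.smul_apply, smul_eq_mul] at h2
  exact mul_left_cancel₀ ha h2

theorem sgc_inj' {n : ℕ} {a b c : Matrix (Fin n) (Fin n) ℤ} (ha : a.det ≠ 0) (h : b * a = c * a) :
    b = c := by
  have h1 : b * a * a.adjugate = c * a * a.adjugate := by rw [h]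
  rw [Matrix.mul_assoc, Matrix.mul_assoc, Matrix.mul_adjugate, Matrix.mul_smul,
    Matrix.mul_smul, Matrix.mul_one, Matrix.mul_one] at h1
  ext i j
  have h2 := congrFun (congrFun h1 i) j
  simp only [Matrix.smul_apply, smul_eq_mul] at h2
  exact mul_left_cancel₀ ha h2

theorem hnf_holds : HNF := by
  intro n a ha
  have hk : 1 ≤ a.det.natAbs := Int.natAbs_pos.2 ha
  constructor
  · refine existsUnique_of_exists_of_unique (sgc_exR a ha) ?_
    rintro ⟨a₁, c₁⟩ ⟨a₂, c₂⟩ ⟨h1, h2, h3⟩ ⟨h4, h5, h6⟩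
    simp only at h1 h2 h3 h4 h5 h6
    have d1 := SGB.det_repR h1
    have d2 := SGB.det_repR h4
    have d0 : (Matrix.of a₁).det ≠ 0 := by rw [d1]; omega
    have hdet : c₁.det = c₂.det := by
      have h7 : a.det = (Matrix.of a₁).det * c₁.det := by rw [h3, Matrix.det_mul]
      have h8 : a.det = (Matrix.of a₂).det * c₂.det := by
        conv_lhs => rw [h6]
        rw [Matrix.det_mul]
      rw [d2, ← d1, h7] at h8
      exact mul_left_cancel₀ d0 h8
    have hu : c₁ * c₂⁻¹ = c₁ * c₂⁻¹ := rfl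
    have hc2 : c₂ * c₂⁻¹ = 1 := Matrix.mul_nonsing_inv _ h5
    have hdd : (c₁ * c₂⁻¹).det = 1 := by
      rw [Matrix.det_mul, hdet, ← Matrix.det_mul, hc2, Matrix.det_one]
    have key : a₂ = a₁ := by
      have := SGB.hnfR_uniq hk h1 h4 ⟨c₁ * c₂⁻¹, hdd⟩ (by
        show Matrix.of a₂ = Matrix.of a₁ * (c₁ * c₂⁻¹)
        rw [← Matrix.mul_assoc, ← h3]
        conv_rhs => rw [h6]
        rw [Matrix.mul_assoc, hc2, Matrix.mul_one])
      exact this.symm
    subst key
    have : c₁ = c₂ := sgc_inj d0 (h3.symm.trans h6)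
    rw [this]
  · refine existsUnique_of_exists_of_unique (sgc_exL a ha) ?_
    rintro ⟨a₁, c₁⟩ ⟨a₂, c₂⟩ ⟨h1, h2, h3⟩ ⟨h4, h5, h6⟩
    simp only at h1 h2 h3 h4 h5 h6
    have d1 := SGB.det_repL h1
    have d2 := SGB.det_repL h4
    have d0 : (Matrix.of a₁).det ≠ 0 := by rw [d1]; omega
    have hdet : c₁.det = c₂.det := by
      have h7 : a.det = c₁.det * (Matrix.of a₁).det := by rw [h3, Matrix.det_mul]
      have h8 : a.det = c₂.det * (Matrix.of a₂).det := by
        conv_lhs => rw [h6]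
        rw [Matrix.det_mul]
      rw [d2, ← d1, h7] at h8
      exact mul_right_cancel₀ d0 h8
    have hc2 : c₂⁻¹ * c₂ = 1 := Matrix.nonsing_inv_mul _ h5
    have hdd : (c₂⁻¹ * c₁).det = 1 := by
      rw [Matrix.det_mul, hdet, ← Matrix.det_mul, hc2, Matrix.det_one]
    have key : a₂ = a₁ := by
      have := SGB.hnfL_uniq hk h1 h4 ⟨c₂⁻¹ * c₁, hdd⟩ (by
        show Matrix.of a₂ = c₂⁻¹ * c₁ * Matrix.of a₁
        rw [Matrix.mul_assoc, ← h3]
        conv_rhs => rw [h6]
        rw [← Matrix.mul_assoc, hc2, Matrix.one_mul])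
      exact this.symm
    subst key
    have : c₁ = c₂ := sgc_inj' d0 (h3.symm.trans h6)
    rw [this]

end

end Pool.Agent.SGN
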